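import Mathlib

/-!
# MP_c6e2b4_co: every set of n disjoint rectangles has a BSP with at most (20 n - 13) / 7 fragments
Definitions of project RB (owner helper33).  Paper proof: /team-store/MP_c6e2b4-helper33.md and
/team-store/MP_c6e2b4-helper97-verdict.md.

Everything is integral.  A *configuration* `D : Cfg` is a box `[X0,X1] x [Y0,Y1]` with vertical pieces
(one for each `x ∈ V`, extent `[vlo x, vhi x]`), horizontal pieces (one for each `y ∈ H`, extent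
`[hlo y, hhi y]`) and a set `Z` of holes (windmills).  `Ok D` says that this is a generic dissection of
the box whose holes are windmills with empty interior, no two of them adjacent.
-/

namespace Pool.RB

/-- integer box `[x1,x2] x [y1,y2]` -/
structure Box where
  x1 : ℤ
  x2 : ℤ
  y1 : ℤ
  y2 : ℤ
  deriving DecidableEq

/-- nondegenerate box -/
def Box.Nd (R : Box) : Prop := R.x1 < R.x2 ∧ R.y1 < R.y2

/-- the interiors of two boxes meet -/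
def Meets (R K : Box) : Prop := R.x1 < K.x2 ∧ K.x1 < R.x2 ∧ R.y1 < K.y2 ∧ K.y1 < R.y2

instance (R K : Box) : Decidable (Meets R K) := by unfold Meets; infer_instance

/-- number of members of `A` meeting the cell `K` -/
def cnt (A : Finset Box) (K : Box) : ℕ := (A.filter (fun R => Meets R K)).card

/-- `Bsp A K s`: the cell `K` has a binary space partition for `A` with `s` fragments. -/
inductive Bsp (A : Finset Box) : Box → ℕ → Prop
  | leaf (K : Box) (h : cnt A K ≤ 1) : Bsp A K (cnt A K)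
  | vert (K : Box) (c : ℤ) (s t : ℕ) (h1 : K.x1 < c) (h2 : c < K.x2)
      (hs : Bsp A ⟨K.x1, c, K.y1, K.y2⟩ s) (ht : Bsp A ⟨c, K.x2, K.y1, K.y2⟩ t) : Bsp A K (s + t)
  | horiz (K : Box) (c : ℤ) (s t : ℕ) (h1 : K.y1 < c) (h2 : c < K.y2)
      (hs : Bsp A ⟨K.x1, K.x2, K.y1, c⟩ s) (ht : Bsp A ⟨K.x1, K.x2, c, K.y2⟩ t) : Bsp A K (s + t)

/-- A hole is given by its four arms: the horizontal pieces `yL` (coming from the left), `yR` (from the
right) and the vertical pieces `xU` (from above), `xD` (from below).  Type A: `yL < yR`, `xU < xD`;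
type B: `yR < yL`, `xD < xU`. -/
structure Hole where
  yL : ℤ
  yR : ℤ
  xU : ℤ
  xD : ℤ
  deriving DecidableEq

def Hole.x1 (z : Hole) : ℤ := min z.xU z.xD
def Hole.x2 (z : Hole) : ℤ := max z.xU z.xD
def Hole.y1 (z : Hole) : ℤ := min z.yL z.yR
def Hole.y2 (z : Hole) : ℤ := max z.yL z.yR
def Hole.box (z : Hole) : Box := ⟨z.x1, z.x2, z.y1, z.y2⟩

structure Cfg where
  X0 : ℤ
  X1 : ℤ
  Y0 : ℤ
  Y1 : ℤ
  V : Finset ℤ
  H : Finset ℤ
  vlo : ℤ → ℤ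
  vhi : ℤ → ℤ
  hlo : ℤ → ℤ
  hhi : ℤ → ℤ
  Z : Finset Hole

def Cfg.box (D : Cfg) : Box := ⟨D.X0, D.X1, D.Y0, D.Y1⟩

/-- `z` is a windmill of `D` with empty interior. -/
structure HoleOk (D : Cfg) (z : Hole) : Prop where
  hU : z.xU ∈ D.V
  hD : z.xD ∈ D.V
  hL : z.yL ∈ D.H
  hR : z.yR ∈ D.H
  chir : (z.yL < z.yR ∧ z.xU < z.xD) ∨ (z.yR < z.yL ∧ z.xD < z.xU)
  eL : D.hhi z.yL = z.x2
  eR : D.hlo z.yR = z.x1
  eU : D.vlo z.xU = z.y1
  eD : D.vhi z.xD = z.y2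
  noV : ∀ x ∈ D.V, z.x1 < x → x < z.x2 → D.vlo x < z.y2 → z.y1 < D.vhi x → False
  noH : ∀ y ∈ D.H, z.y1 < y → y < z.y2 → D.hlo y < z.x2 → z.x1 < D.hhi y → False

/-- generic dissection with windmill holes, no two adjacent -/
structure Ok (D : Cfg) : Prop where
  hX : D.X0 < D.X1
  hY : D.Y0 < D.Y1
  v : ∀ x ∈ D.V, D.X0 < x ∧ x < D.X1 ∧ D.Y0 ≤ D.vlo x ∧ D.vlo x < D.vhi x ∧ D.vhi x ≤ D.Y1
  h : ∀ y ∈ D.H, D.Y0 < y ∧ y < D.Y1 ∧ D.X0 ≤ D.hlo y ∧ D.hlo y < D.hhi y ∧ D.hhi y ≤ D.X1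
  vlo_end : ∀ x ∈ D.V, D.vlo x = D.Y0 ∨ (D.vlo x ∈ D.H ∧ D.hlo (D.vlo x) < x ∧ x < D.hhi (D.vlo x))
  vhi_end : ∀ x ∈ D.V, D.vhi x = D.Y1 ∨ (D.vhi x ∈ D.H ∧ D.hlo (D.vhi x) < x ∧ x < D.hhi (D.vhi x))
  hlo_end : ∀ y ∈ D.H, D.hlo y = D.X0 ∨ (D.hlo y ∈ D.V ∧ D.vlo (D.hlo y) < y ∧ y < D.vhi (D.hlo y))
  hhi_end : ∀ y ∈ D.H, D.hhi y = D.X1 ∨ (D.hhi y ∈ D.V ∧ D.vlo (D.hhi y) < y ∧ y < D.vhi (D.hhi y))
  nc : ∀ x ∈ D.V, ∀ y ∈ D.H, D.vlo x < y → y < D.vhi x → D.hlo y < x → x < D.hhi y → False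
  z : ∀ z ∈ D.Z, HoleOk D z
  adjH : ∀ z ∈ D.Z, ∀ w ∈ D.Z, z.yR = w.yL → z.x2 < w.x1
  adjV : ∀ z ∈ D.Z, ∀ w ∈ D.Z, z.xU = w.xD → z.y2 < w.y1

/-- number of pieces -/
def Cfg.sz (D : Cfg) : ℕ := D.V.card + D.H.card

/-! ### symmetries -/

/-- transposition `(x,y) ↦ (y,x)` (left side ↦ bottom side) -/
def Box.tr (R : Box) : Box := ⟨R.y1, R.y2, R.x1, R.x2⟩
def Hole.tr (z : Hole) : Hole := ⟨z.xD, z.xU, z.yR, z.yL⟩
def Cfg.tr (D : Cfg) : Cfg :=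
  ⟨D.Y0, D.Y1, D.X0, D.X1, D.H, D.V, D.hlo, D.hhi, D.vlo, D.vhi, D.Z.image Hole.tr⟩

/-- reflection `(x,y) ↦ (-x,y)` -/
def Box.fx (R : Box) : Box := ⟨-R.x2, -R.x1, R.y1, R.y2⟩
def Hole.fx (z : Hole) : Hole := ⟨z.yR, z.yL, -z.xU, -z.xD⟩
def Cfg.fx (D : Cfg) : Cfg :=
  ⟨-D.X1, -D.X0, D.Y0, D.Y1, D.V.image (fun x => -x), D.H, fun x => D.vlo (-x), fun x => D.vhi (-x),
    fun y => -D.hhi y, fun y => -D.hlo y, D.Z.image Hole.fx⟩

/-- reflection `(x,y) ↦ (x,-y)` -/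
def Box.fy (R : Box) : Box := ⟨R.x1, R.x2, -R.y2, -R.y1⟩
def Hole.fy (z : Hole) : Hole := ⟨-z.yL, -z.yR, z.xD, z.xU⟩
def Cfg.fy (D : Cfg) : Cfg :=
  ⟨D.X0, D.X1, -D.Y1, -D.Y0, D.V, D.H.image (fun y => -y), fun x => -D.vhi x, fun x => -D.vlo x,
    fun y => D.hlo (-y), fun y => D.hhi (-y), D.Z.image Hole.fy⟩

/-! ### restriction to the part above / below a horizontal line, left / right of a vertical line -/

def up (D : Cfg) (c : ℤ) : Cfg :=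
  ⟨D.X0, D.X1, c, D.Y1, D.V.filter (fun x => c < D.vhi x), D.H.filter (fun y => c < y),
    fun x => max (D.vlo x) c, D.vhi, D.hlo, D.hhi, D.Z.filter (fun z => c < z.y1)⟩

def dn (D : Cfg) (c : ℤ) : Cfg :=
  ⟨D.X0, D.X1, D.Y0, c, D.V.filter (fun x => D.vlo x < c), D.H.filter (fun y => y < c),
    D.vlo, fun x => min (D.vhi x) c, D.hlo, D.hhi, D.Z.filter (fun z => z.y2 < c)⟩

def rt (D : Cfg) (c : ℤ) : Cfg :=
  ⟨c, D.X1, D.Y0, D.Y1, D.V.filter (fun x => c < x), D.H.filter (fun y => c < D.hhi y),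
    D.vlo, D.vhi, fun y => max (D.hlo y) c, D.hhi, D.Z.filter (fun z => c < z.x1)⟩

def lf (D : Cfg) (c : ℤ) : Cfg :=
  ⟨D.X0, c, D.Y0, D.Y1, D.V.filter (fun x => x < c), D.H.filter (fun y => D.hlo y < c),
    D.vlo, D.vhi, D.hlo, fun y => min (D.hhi y) c, D.Z.filter (fun z => z.x2 < c)⟩

/-- remove the horizontal piece `s` (used when nothing ends on it) -/
def rmH (D : Cfg) (s : ℤ) : Cfg := { D with H := D.H.erase s }

/-- remove the vertical piece `s` which stands on the bottom wall and extend the horizontal pieces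
ending on it from the right to the left wall -/
def abC (D : Cfg) (s : ℤ) : Cfg :=
  { D with V := D.V.erase s, hlo := fun y => if D.hlo y = s then D.X0 else D.hlo y }

/-! ### faces and fitting families -/

structure IsFace (D : Cfg) (f : Box) : Prop where
  nd : f.Nd
  ix1 : D.X0 ≤ f.x1
  ix2 : f.x2 ≤ D.X1
  iy1 : D.Y0 ≤ f.y1
  iy2 : f.y2 ≤ D.Y1
  left : f.x1 = D.X0 ∨ (f.x1 ∈ D.V ∧ D.vlo f.x1 ≤ f.y1 ∧ f.y2 ≤ D.vhi f.x1)
  right : f.x2 = D.X1 ∨ (f.x2 ∈ D.V ∧ D.vlo f.x2 ≤ f.y1 ∧ f.y2 ≤ D.vhi f.x2)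
  bot : f.y1 = D.Y0 ∨ (f.y1 ∈ D.H ∧ D.hlo f.y1 ≤ f.x1 ∧ f.x2 ≤ D.hhi f.y1)
  top : f.y2 = D.Y1 ∨ (f.y2 ∈ D.H ∧ D.hlo f.y2 ≤ f.x1 ∧ f.x2 ≤ D.hhi f.y2)
  noV : ∀ x ∈ D.V, f.x1 < x → x < f.x2 → D.vlo x < f.y2 → f.y1 < D.vhi x → False
  noH : ∀ y ∈ D.H, f.y1 < y → y < f.y2 → D.hlo y < f.x2 → f.x1 < D.hhi y → False

/-- the part of `R` inside the box of `D` lies in `f` -/
def InF (D : Cfg) (R f : Box) : Prop :=
  f.x1 ≤ max R.x1 D.X0 ∧ min R.x2 D.X1 ≤ f.x2 ∧ f.y1 ≤ max R.y1 D.Y0 ∧ min R.y2 D.Y1 ≤ f.y2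

/-- `Fit D S A`: the members of `A` meeting the box of `D` lie (inside this box) in distinct faces of
`D`, none of them a hole or a member of the set `S` of forbidden faces. -/
def Fit (D : Cfg) (S : Set Box) (A : Finset Box) : Prop :=
  ∃ φ : Box → Box,
    (∀ R ∈ A, Meets R D.box →
      IsFace D (φ R) ∧ InF D R (φ R) ∧ (∀ z ∈ D.Z, φ R ≠ z.box) ∧ φ R ∉ S) ∧
    (∀ R ∈ A, ∀ R' ∈ A, Meets R D.box → Meets R' D.box → φ R = φ R' → R = R')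

/-- the set of hole faces -/
def hb (D : Cfg) : Set Box := {f | ∃ z ∈ D.Z, f = z.box}

/-- parts of faces above / below / right of / left of a line -/
def dnS (c : ℤ) (S : Set Box) : Set Box := {f | ∃ g ∈ S, g.y1 < c ∧ f = ⟨g.x1, g.x2, g.y1, min g.y2 c⟩}
def upS (c : ℤ) (S : Set Box) : Set Box := {f | ∃ g ∈ S, c < g.y2 ∧ f = ⟨g.x1, g.x2, max g.y1 c, g.y2⟩}
def rtS (c : ℤ) (S : Set Box) : Set Box := {f | ∃ g ∈ S, c < g.x2 ∧ f = ⟨max g.x1 c, g.x2, g.y1, g.y2⟩}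
def lfS (c : ℤ) (S : Set Box) : Set Box := {f | ∃ g ∈ S, g.x1 < c ∧ f = ⟨g.x1, min g.x2 c, g.y1, g.y2⟩}

/-- every family fitting `D` (away from `S`) has a BSP of the box of `D` with at most
`cnt + N` fragments -/
def Slv (D : Cfg) (S : Set Box) (N : ℚ) : Prop :=
  ∀ A : Finset Box, Fit D S A → ∃ s : ℕ, Bsp A D.box s ∧ (s : ℚ) ≤ (cnt A D.box : ℚ) + N

/-! ### counts; the open side is the bottom side -/

/-- pieces touching none of the three closed sides (top, left, right) -/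
def F (D : Cfg) : ℕ :=
  (D.V.filter (fun x => D.vhi x ≠ D.Y1)).card +
    (D.H.filter (fun y => D.hlo y ≠ D.X0 ∧ D.hhi y ≠ D.X1)).card

/-- clean hole: far ends of the arms at a wall or at a hole, no T-end hosted by an arm -/
structure Clean (D : Cfg) (z : Hole) : Prop where
  farL : D.hlo z.yL = D.X0 ∨ ∃ w ∈ D.Z, w.yR = z.yL
  farR : D.hhi z.yR = D.X1 ∨ ∃ w ∈ D.Z, w.yL = z.yR
  farU : D.vhi z.xU = D.Y1 ∨ ∃ w ∈ D.Z, w.xD = z.xU
  farD : D.vlo z.xD = D.Y0 ∨ ∃ w ∈ D.Z, w.xU = z.xD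
  hostHi : ∀ x ∈ D.V, (D.vhi x = z.yL ∨ D.vhi x = z.yR) → ∃ w ∈ D.Z, w.xD = x
  hostLo : ∀ x ∈ D.V, (D.vlo x = z.yL ∨ D.vlo x = z.yR) → ∃ w ∈ D.Z, w.xU = x
  hostRi : ∀ y ∈ D.H, (D.hhi y = z.xU ∨ D.hhi y = z.xD) → ∃ w ∈ D.Z, w.yL = y
  hostLe : ∀ y ∈ D.H, (D.hlo y = z.xU ∨ D.hlo y = z.xD) → ∃ w ∈ D.Z, w.yR = y

/-- the two lateral arms are attached to the two lateral walls -/
def Lat (D : Cfg) (z : Hole) : Prop := D.hlo z.yL = D.X0 ∧ D.hhi z.yR = D.X1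

def Good (D : Cfg) (z : Hole) : Prop := Clean D z ∧ ¬ Lat D z

open Classical in
/-- number of good holes -/
noncomputable def G (D : Cfg) : ℕ := (D.Z.filter (fun z => Good D z)).card

/-- the vertical arms are attached to bottom and top -/
def LatV (D : Cfg) (z : Hole) : Prop := D.vlo z.xD = D.Y0 ∧ D.vhi z.xU = D.Y1

open Classical in
/-- number of good holes when the open side is the left or the right side -/
noncomputable def GV (D : Cfg) : ℕ := (D.Z.filter (fun z => Clean D z ∧ ¬ LatV D z)).card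

/-- free pieces when the open side is the right side / the left side -/
def FR (D : Cfg) : ℕ :=
  (D.H.filter (fun y => D.hlo y ≠ D.X0)).card +
    (D.V.filter (fun x => D.vlo x ≠ D.Y0 ∧ D.vhi x ≠ D.Y1)).card
def FL (D : Cfg) : ℕ :=
  (D.H.filter (fun y => D.hhi y ≠ D.X1)).card +
    (D.V.filter (fun x => D.vlo x ≠ D.Y0 ∧ D.vhi x ≠ D.Y1)).card

/-- two holes share an arm -/
def Nb (z w : Hole) : Prop := z.yR = w.yL ∨ z.yL = w.yR ∨ z.xU = w.xD ∨ z.xD = w.xU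

/-- counts for the horizontal line at height `c` -/
def crs (D : Cfg) (c : ℤ) : ℕ := (D.V.filter (fun x => D.vlo x < c ∧ c < D.vhi x)).card
def hit (D : Cfg) (c : ℤ) : ℕ := (D.Z.filter (fun z => z.y1 < c ∧ c < z.y2)).card
def tch (D : Cfg) (c : ℤ) : ℕ := (D.Z.filter (fun z => z.y1 = c ∨ z.y2 = c)).card
def fr (D : Cfg) (c : ℤ) : ℕ := if D.hlo c ≠ D.X0 ∧ D.hhi c ≠ D.X1 then 1 else 0
def ee (D : Cfg) (c : ℤ) : ℕ :=
  (D.V.filter (fun x => D.vhi x = c ∨ (D.vlo x = c ∧ D.vhi x ≠ D.Y1))).card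
/-- slack of the horizontal line along the piece `c` -/
def slk (D : Cfg) (c : ℤ) : ℕ := fr D c + ee D c + hit D c

open Classical in
/-- good holes attached to the top whose down arm goes below `c` -/
noncomputable def AA (D : Cfg) (c : ℤ) : Finset Hole :=
  D.Z.filter (fun z => Good D z ∧ D.vhi z.xU = D.Y1 ∧ D.vlo z.xD < c)

/-- all top attached pieces end at height at least `c` / above `c` -/
def TopGe (D : Cfg) (c : ℤ) : Prop := ∀ x ∈ D.V, D.vhi x = D.Y1 → c ≤ D.vlo x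
def TopGt (D : Cfg) (c : ℤ) : Prop := ∀ x ∈ D.V, D.vhi x = D.Y1 → c < D.vlo x

/-- vertical pieces standing on the bottom wall -/
def nb (D : Cfg) : ℕ := (D.V.filter (fun x => D.vlo x = D.Y0)).card

/-- horizontal pieces crossing the vertical line at `x` -/
def crsV (D : Cfg) (x : ℤ) : ℕ := (D.H.filter (fun y => D.hlo y < x ∧ x < D.hhi y)).card

/-- the statement proved by induction (open side: bottom); `κ` will be `1/7` -/
def P (κ : ℚ) (D : Cfg) : Prop := Slv D ∅ ((F D : ℚ) - κ * (G D : ℚ))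

/-- induction hypothesis -/
def IH (κ : ℚ) (D : Cfg) : Prop := ∀ E : Cfg, Ok E → E.sz < D.sz → P κ E

/-- conditions for the move R2: cut along `c`, then the upper part along the down arm of `y` -/
structure R2c (D : Cfg) (c : ℤ) (y : Hole) : Prop where
  hy : y ∈ D.Z
  cl : Clean D y
  hU : D.vhi y.xU = D.Y1
  hc : c ∈ D.H
  hD : D.vlo y.xD ≤ c
  hlt : c < y.y1
  hT : TopGt D c
  he : 1 ≤ ee D c
  hs : 2 ≤ fr D c + ee D c
  ha : (AA D c).card ≤ 2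

/-- conditions for the move I: cut along the down arm of `y`, which stands on the bottom wall -/
structure Ic (D : Cfg) (y : Hole) : Prop where
  hy : y ∈ D.Z
  cl : Clean D y
  hU : D.vhi y.xU = D.Y1
  hD : D.vlo y.xD = D.Y0
  hn : 2 ≤ nb D
  hfull : ∀ x ∈ D.V, ¬ (D.vlo x = D.Y0 ∧ D.vhi x = D.Y1)

/-- the moves S1 are allowed at `g` -/
def Sc (D : Cfg) (g : ℤ) : Prop := (1 ≤ slk D g ∧ (AA D g).card ≤ 2) ∨ AA D g = ∅

/-- conditions for the plain move S1: cut along `g`, then the upper part along `t` -/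
structure S1c (D : Cfg) (g t : ℤ) : Prop where
  hg : g ∈ D.H
  ht : t ∈ D.V
  htT : D.vhi t = D.Y1
  htg : D.vlo t = g
  hT : TopGe D g
  hn : ∀ w ∈ D.Z, w.y1 = g → D.vhi w.xU ≠ D.Y1
  hs : Sc D g

/-- conditions for the corner version of S1: `g` is the left arm of the hole `y` of type A, and the
up arm of `y` is attached to the top -/
structure Cc (D : Cfg) (y : Hole) : Prop where
  hy : y ∈ D.Z
  hA : y.yL < y.yR
  hU : D.vhi y.xU = D.Y1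
  hT : TopGe D y.yL
  hs : Sc D y.yL

/-- basic inequalities for a hole -/
structure HB (D : Cfg) (z : Hole) : Prop where
  x12 : z.x1 < z.x2
  y12 : z.y1 < z.y2
  X0lt : D.X0 < z.x1
  ltX1 : z.x2 < D.X1
  Y0lt : D.Y0 < z.y1
  ltY1 : z.y2 < D.Y1
  loL : D.hlo z.yL < z.x1
  hiR : z.x2 < D.hhi z.yR
  hiU : z.y2 < D.vhi z.xU
  loD : D.vlo z.xD < z.y1
  face : IsFace D z.box

/-- children with open right side resp. open left side, turned so that the open side is the bottom -/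
def rr (D : Cfg) : Cfg := D.fx.tr
def rl (D : Cfg) : Cfg := D.tr

/-- conditions for the corner move, mirror image (type B) -/
structure CcB (D : Cfg) (y : Hole) : Prop where
  hy : y ∈ D.Z
  hB : y.yR < y.yL
  hU : D.vhi y.xU = D.Y1
  hT : TopGe D y.yR
  hs : Sc D y.yR

/-- hypotheses of the corner absorption: `E` is a forbidden face in the lower left corner whose right
side is exactly the vertical piece `s`, which is not an arm of a hole -/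
structure AbC (D : Cfg) (S : Set Box) (s : ℤ) (E : Box) : Prop where
  hs : s ∈ D.V
  hlo : D.vlo s = D.Y0
  hz : ∀ z ∈ D.Z, z.xU ≠ s ∧ z.xD ≠ s
  face : IsFace D E
  e1 : E.x1 = D.X0
  e2 : E.x2 = s
  e3 : E.y1 = D.Y0
  e4 : E.y2 = D.vhi s
  mem : E ∈ S

/-- hypotheses of the removal of `s`: its right end is on the right wall, nothing ends on it, it is not
an arm of a hole, the face `E` below it is forbidden -/
structure RmC (D : Cfg) (S : Set Box) (s : ℤ) (E : Box) : Prop where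
  hs : s ∈ D.H
  hhi : D.hhi s = D.X1
  hlo : D.hlo s ≠ D.X0
  hv : ∀ x ∈ D.V, D.vlo x ≠ s ∧ D.vhi x ≠ s
  hz : ∀ z ∈ D.Z, z.yL ≠ s ∧ z.yR ≠ s
  face : IsFace D E
  e1 : E.x1 = D.hlo s
  e2 : E.x2 = D.X1
  e4 : E.y2 = s
  mem : E ∈ S

/-- nothing bad happens to `z` when the part above `c` is separated -/
def UpC (D : Cfg) (c : ℤ) (z : Hole) : Prop := c < z.y1 ∧
  (∀ w ∈ D.Z, w.y1 < c → c < w.y2 → ¬ Nb z w) ∧
  (∀ w ∈ D.Z, w.y1 = c → z.xD ≠ w.xU ∧ z.yL ≠ w.y2 ∧ z.yR ≠ w.y2)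

/-- nothing bad happens to `z` when the part below `c` is separated -/
def DnC (D : Cfg) (c : ℤ) (z : Hole) : Prop := z.y2 < c ∧
  (∀ w ∈ D.Z, w.y1 < c → c < w.y2 → ¬ Nb z w) ∧
  (∀ w ∈ D.Z, w.y2 = c → z.xU ≠ w.xD ∧ z.yL ≠ w.y1 ∧ z.yR ≠ w.y1)

/-- nothing bad happens to `z` when the part right of `c` is separated -/
def RtC (D : Cfg) (c : ℤ) (z : Hole) : Prop := c < z.x1 ∧
  (∀ w ∈ D.Z, w.x1 < c → c < w.x2 → ¬ Nb z w) ∧
  (∀ w ∈ D.Z, w.x1 = c → z.yL ≠ w.yR ∧ z.xD ≠ w.x2 ∧ z.xU ≠ w.x2)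

/-- nothing bad happens to `z` when the part left of `c` is separated -/
def LfC (D : Cfg) (c : ℤ) (z : Hole) : Prop := z.x2 < c ∧
  (∀ w ∈ D.Z, w.x1 < c → c < w.x2 → ¬ Nb z w) ∧
  (∀ w ∈ D.Z, w.x2 = c → z.yR ≠ w.yL ∧ z.xD ≠ w.x1 ∧ z.xU ≠ w.x1)

/-- the holes lost by a cut along the horizontal line `c`; only the touched holes in `T` count -/
def LossC (D : Cfg) (T : Finset Hole) (c : ℤ) (z : Hole) : Prop :=
  (∃ w ∈ D.Z, w.y1 < c ∧ c < w.y2 ∧ (z = w ∨ Nb z w)) ∨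
  (∃ w ∈ T, w.y1 = c ∧ (z.xD = w.xU ∨ z.yL = w.y2 ∨ z.yR = w.y2)) ∨
  (∃ w ∈ T, w.y2 = c ∧ (z.xU = w.xD ∨ z.yL = w.y1 ∨ z.yR = w.y1))

/-- a finite family of boxes in general position inside the box `B` -/
structure Gen (A : Finset Box) (B : Box) : Prop where
  nd : B.Nd
  inn : ∀ R ∈ A, R.Nd ∧ B.x1 < R.x1 ∧ R.x2 < B.x2 ∧ B.y1 < R.y1 ∧ R.y2 < B.y2
  dist : ∀ R ∈ A, ∀ R' ∈ A, R ≠ R' → R.x1 ≠ R'.x1 ∧ R.x2 ≠ R'.x2 ∧ R.x1 ≠ R'.x2 ∧
    R.y1 ≠ R'.y1 ∧ R.y2 ≠ R'.y2 ∧ R.y1 ≠ R'.y2 ∧ ¬ Meets R R'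

/-- a dissection without holes fitting `A` away from `S` which has fewer pieces than `D` -/
def Red (D : Cfg) (A : Finset Box) : Prop :=
  ∃ E : Cfg, Ok E ∧ E.box = D.box ∧ E.Z = ∅ ∧ Fit E ∅ A ∧ E.sz < D.sz

end Pool.RB
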