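import Pool.Agent.Helper30.BSP.Defs

/-! Binary space partitions which cut only cells meeting more than one rectangle. -/

namespace Pool.RB

open Pool.Agent.Helper30.BSP (Rect Tree)

/-- every cell that is cut meets more than one element of `S` in its interior -/
def Strict (S : Finset Rect) : Tree → Set (ℝ × ℝ) → Prop
  | .leaf, _ => True
  | .vert c l r, C =>
      (∃ R ∈ S, ∃ R' ∈ S, R ≠ R' ∧ Pool.Agent.Helper30.BSP.Meets R C ∧ Pool.Agent.Helper30.BSP.Meets R' C) ∧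
      Strict S l (C ∩ {p | p.1 ≤ c}) ∧ Strict S r (C ∩ {p | c ≤ p.1})
  | .horiz c l r, C =>
      (∃ R ∈ S, ∃ R' ∈ S, R ≠ R' ∧ Pool.Agent.Helper30.BSP.Meets R C ∧ Pool.Agent.Helper30.BSP.Meets R' C) ∧
      Strict S l (C ∩ {p | p.2 ≤ c}) ∧ Strict S r (C ∩ {p | c ≤ p.2})

end Pool.RB
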