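import Pool.Agent.RB.St

/-! Project RB, module AFHV (helper68). -/

namespace Pool.RB

private theorem AFHV_card {α : Type*} [DecidableEq α] (A B C : Finset α) (hA : A ⊆ C) (hB : B ⊆ C)
    (h : ∀ x ∈ A, x ∈ B → False) : A.card + B.card ≤ C.card := by
  rw [← Finset.card_union_of_disjoint (Finset.disjoint_left.2 fun x hx hy => h x hx hy)]
  exact Finset.card_le_card (Finset.union_subset hA hB)

theorem pAFH (_hHB : StHB) : StAFH := by
  intro D c hD hc _ _
  have hcb := hD.h c hc
  have h1 : ((up D c).V.filter (fun x => (up D c).vhi x ≠ (up D c).Y1)).card +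
      ((dn D c).V.filter (fun x => (dn D c).vhi x ≠ (dn D c).Y1)).card ≤
      (D.V.filter (fun x => D.vhi x ≠ D.Y1)).card := by
    refine AFHV_card _ _ _ ?_ ?_ ?_
    · intro x hx
      simp only [up, Finset.mem_filter] at hx ⊢
      exact ⟨hx.1.1, hx.2⟩
    · intro x hx
      simp only [dn, Finset.mem_filter] at hx ⊢
      refine ⟨hx.1.1, ?_⟩
      have := hx.2
      omega
    · intro x hx hy
      simp only [up, dn, Finset.mem_filter] at hx hy
      have := hx.1.2
      have := hy.2
      omega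
  have h2 : ((up D c).H.filter (fun y => (up D c).hlo y ≠ (up D c).X0 ∧ (up D c).hhi y ≠ (up D c).X1)).card +
      ((dn D c).H.filter (fun y => (dn D c).hlo y ≠ (dn D c).X0 ∧ (dn D c).hhi y ≠ (dn D c).X1)).card ≤
      (D.H.filter (fun y => D.hlo y ≠ D.X0 ∧ D.hhi y ≠ D.X1)).card := by
    refine AFHV_card _ _ _ ?_ ?_ ?_
    · intro x hx
      simp only [up, Finset.mem_filter] at hx ⊢
      exact ⟨hx.1.1, hx.2⟩
    · intro x hx
      simp only [dn, Finset.mem_filter] at hx ⊢
      exact ⟨hx.1.1, hx.2⟩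
    · intro x hx hy
      simp only [up, dn, Finset.mem_filter] at hx hy
      have := hx.1.2
      have := hy.1.2
      omega
  unfold F
  omega

theorem pAFV (_hHB : StHB) : StAFV := by
  intro D c hD hc _ _
  have hcb := hD.v c hc
  have h1 : ((lf D c).V.filter (fun x => (lf D c).vhi x ≠ (lf D c).Y1)).card +
      ((rt D c).V.filter (fun x => (rt D c).vhi x ≠ (rt D c).Y1)).card ≤
      (D.V.filter (fun x => D.vhi x ≠ D.Y1)).card := by
    refine AFHV_card _ _ _ ?_ ?_ ?_
    · intro x hx
      simp only [lf, Finset.mem_filter] at hx ⊢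
      exact ⟨hx.1.1, hx.2⟩
    · intro x hx
      simp only [rt, Finset.mem_filter] at hx ⊢
      exact ⟨hx.1.1, hx.2⟩
    · intro x hx hy
      simp only [lf, rt, Finset.mem_filter] at hx hy
      have := hx.1.2
      have := hy.1.2
      omega
  have h2 : ((lf D c).H.filter (fun y => (lf D c).hlo y ≠ (lf D c).X0 ∧ (lf D c).hhi y ≠ (lf D c).X1)).card +
      ((rt D c).H.filter (fun y => (rt D c).hlo y ≠ (rt D c).X0 ∧ (rt D c).hhi y ≠ (rt D c).X1)).card ≤
      (D.H.filter (fun y => D.hlo y ≠ D.X0 ∧ D.hhi y ≠ D.X1)).card := by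
    refine AFHV_card _ _ _ ?_ ?_ ?_
    · intro y hy
      simp only [lf, Finset.mem_filter] at hy ⊢
      refine ⟨hy.1.1, hy.2.1, ?_⟩
      have := hy.2.2
      omega
    · intro y hy
      simp only [rt, Finset.mem_filter] at hy ⊢
      refine ⟨hy.1.1, ?_, hy.2.2⟩
      have := hy.2.1
      omega
    · intro y hx hy
      simp only [lf, rt, Finset.mem_filter] at hx hy
      have hb := hD.h y hx.1.1
      have := hx.2.2
      have := hy.2.1
      omega
  unfold F
  omega

end Pool.RB
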