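import Pool.Agent.RB.St

/-! Project RB, module AFI (helper94). -/

namespace Pool.RB

private theorem AFI_card2 {α : Type*} [DecidableEq α] (A B C : Finset α) (hA : A ⊆ C) (hB : B ⊆ C)
    (h : ∀ x ∈ A, x ∈ B → False) : A.card + B.card ≤ C.card := by
  rw [← Finset.card_union_of_disjoint (Finset.disjoint_left.2 fun x hx hy => h x hx hy)]
  exact Finset.card_le_card (Finset.union_subset hA hB)

private theorem AFI_card3 {α : Type*} [DecidableEq α] (A B C E : Finset α) (hA : A ⊆ E) (hB : B ⊆ E)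
    (hC : C ⊆ E) (h1 : ∀ x ∈ A, x ∈ B → False) (h2 : ∀ x ∈ A, x ∈ C → False)
    (h3 : ∀ x ∈ B, x ∈ C → False) : A.card + B.card + C.card ≤ E.card := by
  rw [← Finset.card_union_of_disjoint (Finset.disjoint_left.2 fun x hx hy => h1 x hx hy)]
  refine AFI_card2 _ _ _ (Finset.union_subset hA hB) hC ?_
  intro x hx hy
  rcases Finset.mem_union.1 hx with h | h
  · exact h2 x h hy
  · exact h3 x h hy

theorem pAFI (hHB : StHB) : StAFI := by
  intro D y hD hy hA _ hfull hcr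
  have hb := hHB D hD y hy
  have hok := hD.z y hy
  have hx1 : D.X0 < D.hlo y.yR := by rw [hok.eR]; exact hb.X0lt
  have htv := hD.v y.xD hok.hD
  obtain ⟨t, ht⟩ : ∃ t, t = y.xD := ⟨_, rfl⟩
  obtain ⟨s, hs⟩ : ∃ s, s = y.yR := ⟨_, rfl⟩
  rw [← hs] at hx1 hcr
  rw [← ht] at htv hcr
  rw [← ht, ← hs]
  have h1 : ((lf D t).V.filter (fun x => (lf D t).vlo x ≠ (lf D t).Y0 ∧
        (lf D t).vhi x ≠ (lf D t).Y1)).card +
      ((rt D t).V.filter (fun x => (rt D t).vlo x ≠ (rt D t).Y0 ∧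
        (rt D t).vhi x ≠ (rt D t).Y1)).card +
      (D.V.filter (fun x => D.vlo x = D.Y0)).card ≤ (D.V.filter (fun x => D.vhi x ≠ D.Y1)).card := by
    refine AFI_card3 _ _ _ _ ?_ ?_ ?_ ?_ ?_ ?_
    · intro x hx
      simp only [lf, Finset.mem_filter] at hx ⊢
      exact ⟨hx.1.1, hx.2.2⟩
    · intro x hx
      simp only [rt, Finset.mem_filter] at hx ⊢
      exact ⟨hx.1.1, hx.2.2⟩
    · intro x hx
      simp only [Finset.mem_filter] at hx ⊢
      exact ⟨hx.1, fun h => hfull x hx.1 ⟨hx.2, h⟩⟩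
    · intro x hx hx'
      simp only [lf, rt, Finset.mem_filter] at hx hx'
      have := hx.1.2
      have := hx'.1.2
      omega
    · intro x hx hx'
      simp only [lf, Finset.mem_filter] at hx hx'
      exact hx.2.1 hx'.2
    · intro x hx hx'
      simp only [rt, Finset.mem_filter] at hx hx'
      exact hx.2.1 hx'.2
  have h2 : ((rmH (lf D t) s).H.filter (fun x => (lf D t).hlo x ≠ (lf D t).X0)).card +
      ((rt D t).H.filter (fun x => (rt D t).hhi x ≠ (rt D t).X1)).card ≤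
      (D.H.filter (fun x => D.hlo x ≠ D.X0 ∧ D.hhi x ≠ D.X1)).card := by
    refine AFI_card2 _ _ _ ?_ ?_ ?_
    · intro x hx
      simp only [rmH, lf, Finset.mem_filter, Finset.mem_erase] at hx ⊢
      obtain ⟨⟨hxs, hxH, hlt⟩, hx0⟩ := hx
      refine ⟨hxH, hx0, fun h => ?_⟩
      exact hxs (hcr x hxH hlt (by omega))
    · intro x hx
      simp only [rt, Finset.mem_filter] at hx ⊢
      obtain ⟨⟨hxH, hlt⟩, hx1'⟩ := hx
      refine ⟨hxH, fun h => ?_, hx1'⟩
      have hxs := hcr x hxH (by omega) hlt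
      rw [hxs] at h
      omega
    · intro x hx hx'
      simp only [rmH, lf, rt, Finset.mem_filter, Finset.mem_erase] at hx hx'
      exact hx.1.1 (hcr x hx.1.2.1 hx.1.2.2 hx'.1.2)
  have e1 : FR (rmH (lf D t) s) =
      ((rmH (lf D t) s).H.filter (fun x => (lf D t).hlo x ≠ (lf D t).X0)).card +
      ((lf D t).V.filter (fun x => (lf D t).vlo x ≠ (lf D t).Y0 ∧
        (lf D t).vhi x ≠ (lf D t).Y1)).card := rfl
  have e2 : FL (rt D t) =
      ((rt D t).H.filter (fun x => (rt D t).hhi x ≠ (rt D t).X1)).card +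
      ((rt D t).V.filter (fun x => (rt D t).vlo x ≠ (rt D t).Y0 ∧
        (rt D t).vhi x ≠ (rt D t).Y1)).card := rfl
  have e3 : nb D = (D.V.filter (fun x => D.vlo x = D.Y0)).card := rfl
  have e4 : F D = (D.V.filter (fun x => D.vhi x ≠ D.Y1)).card +
      (D.H.filter (fun x => D.hlo x ≠ D.X0 ∧ D.hhi x ≠ D.X1)).card := rfl
  rw [e1, e2, e3, e4]
  omega

end Pool.RB
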