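import Pool.Agent.RB.St

/-! Project RB, module AFR (helper80). -/

namespace Pool.RB

private theorem AFR_fr (D : Cfg) (c : ℤ) (hc : c ∈ D.H) :
    fr D c ≤ (D.H.filter (fun y => y = c ∧ D.hlo y ≠ D.X0 ∧ D.hhi y ≠ D.X1)).card := by
  unfold fr
  split_ifs with h
  · apply Finset.card_pos.2
    exact ⟨c, Finset.mem_filter.2 ⟨hc, rfl, h.1, h.2⟩⟩
  · exact Nat.zero_le _

private theorem AFR_sub {A B : Finset ℤ} {p : ℤ → Prop} [DecidablePred p]
    (h : ∀ u ∈ A, u ∈ B ∧ p u) : A.card ≤ (B.filter p).card :=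
  Finset.card_le_card fun u hu => Finset.mem_filter.2 (h u hu)

private theorem AFR_V (D : Cfg) (c x : ℤ) (hD : Ok D) (hc : c ∈ D.H) (hT : TopGt D c) :
    ((dn D c).V.filter (fun u => (dn D c).vhi u ≠ (dn D c).Y1)).card +
    ((lf (up D c) x).V.filter (fun u => (lf (up D c) x).vlo u ≠ (lf (up D c) x).Y0 ∧
      (lf (up D c) x).vhi u ≠ (lf (up D c) x).Y1)).card +
    ((rt (up D c) x).V.filter (fun u => (rt (up D c) x).vlo u ≠ (rt (up D c) x).Y0 ∧
      (rt (up D c) x).vhi u ≠ (rt (up D c) x).Y1)).card + crs D c + ee D c ≤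
    (D.V.filter (fun u => D.vhi u ≠ D.Y1)).card := by
  have hcb := hD.h c hc
  have k1 : ((dn D c).V.filter (fun u => (dn D c).vhi u ≠ (dn D c).Y1)).card ≤
      (D.V.filter (fun u => D.vhi u < c)).card := by
    apply AFR_sub
    intro u hu
    have h := Finset.mem_filter.1 hu
    have h1 : u ∈ D.V ∧ D.vlo u < c := Finset.mem_filter.1 h.1
    have h2 : min (D.vhi u) c ≠ c := h.2
    refine ⟨h1.1, ?_⟩
    omega
  have k2 : ((lf (up D c) x).V.filter (fun u => (lf (up D c) x).vlo u ≠ (lf (up D c) x).Y0 ∧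
      (lf (up D c) x).vhi u ≠ (lf (up D c) x).Y1)).card ≤
      (D.V.filter (fun u => u < x ∧ c < D.vlo u ∧ D.vhi u ≠ D.Y1)).card := by
    apply AFR_sub
    intro u hu
    have h := Finset.mem_filter.1 hu
    have h1 : u ∈ (up D c).V ∧ u < x := Finset.mem_filter.1 h.1
    have h3 : u ∈ D.V ∧ c < D.vhi u := Finset.mem_filter.1 h1.1
    have h2 : max (D.vlo u) c ≠ c ∧ D.vhi u ≠ D.Y1 := h.2
    refine ⟨h3.1, h1.2, ?_, h2.2⟩
    omega
  have k3 : ((rt (up D c) x).V.filter (fun u => (rt (up D c) x).vlo u ≠ (rt (up D c) x).Y0 ∧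
      (rt (up D c) x).vhi u ≠ (rt (up D c) x).Y1)).card ≤
      (D.V.filter (fun u => x < u ∧ c < D.vlo u ∧ D.vhi u ≠ D.Y1)).card := by
    apply AFR_sub
    intro u hu
    have h := Finset.mem_filter.1 hu
    have h1 : u ∈ (up D c).V ∧ x < u := Finset.mem_filter.1 h.1
    have h3 : u ∈ D.V ∧ c < D.vhi u := Finset.mem_filter.1 h1.1
    have h2 : max (D.vlo u) c ≠ c ∧ D.vhi u ≠ D.Y1 := h.2
    refine ⟨h3.1, h1.2, ?_, h2.2⟩
    omega
  have key : (D.V.filter (fun u => D.vhi u < c)).card +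
      (D.V.filter (fun u => u < x ∧ c < D.vlo u ∧ D.vhi u ≠ D.Y1)).card +
      (D.V.filter (fun u => x < u ∧ c < D.vlo u ∧ D.vhi u ≠ D.Y1)).card +
      (D.V.filter (fun u => D.vlo u < c ∧ c < D.vhi u)).card +
      (D.V.filter (fun u => D.vhi u = c ∨ (D.vlo u = c ∧ D.vhi u ≠ D.Y1))).card ≤
      (D.V.filter (fun u => D.vhi u ≠ D.Y1)).card := by
    simp only [Finset.card_filter]
    rw [← Finset.sum_add_distrib, ← Finset.sum_add_distrib, ← Finset.sum_add_distrib,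
      ← Finset.sum_add_distrib]
    apply Finset.sum_le_sum
    intro u hu
    have h1 := hD.v u hu
    have h2 := hT u hu
    by_cases hY : D.vhi u = D.Y1
    · have h3 := h2 hY
      split_ifs <;> omega
    · split_ifs <;> omega
  unfold crs ee
  omega

private theorem AFR_H (D : Cfg) (c x s : ℤ) (hD : Ok D) (hc : c ∈ D.H) (hx : x ∈ D.V)
    (hs : D.hlo s ≠ D.X0)
    (hcr : ∀ y' ∈ D.H, c < y' → D.hlo y' < x → x < D.hhi y' → y' = s) :
    ((dn D c).H.filter (fun u => (dn D c).hlo u ≠ (dn D c).X0 ∧ (dn D c).hhi u ≠ (dn D c).X1)).card +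
    ((rmH (lf (up D c) x) s).H.filter
      (fun u => (rmH (lf (up D c) x) s).hlo u ≠ (rmH (lf (up D c) x) s).X0)).card +
    ((rt (up D c) x).H.filter (fun u => (rt (up D c) x).hhi u ≠ (rt (up D c) x).X1)).card + fr D c ≤
    (D.H.filter (fun u => D.hlo u ≠ D.X0 ∧ D.hhi u ≠ D.X1)).card := by
  have hxb := hD.v x hx
  have k0 := AFR_fr D c hc
  have k1 : ((dn D c).H.filter (fun u => (dn D c).hlo u ≠ (dn D c).X0 ∧
      (dn D c).hhi u ≠ (dn D c).X1)).card ≤
      (D.H.filter (fun u => u < c ∧ D.hlo u ≠ D.X0 ∧ D.hhi u ≠ D.X1)).card := by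
    apply AFR_sub
    intro u hu
    have h := Finset.mem_filter.1 hu
    have h1 : u ∈ D.H ∧ u < c := Finset.mem_filter.1 h.1
    have h2 : D.hlo u ≠ D.X0 ∧ D.hhi u ≠ D.X1 := h.2
    exact ⟨h1.1, h1.2, h2⟩
  have k2 : ((rmH (lf (up D c) x) s).H.filter
      (fun u => (rmH (lf (up D c) x) s).hlo u ≠ (rmH (lf (up D c) x) s).X0)).card ≤
      (D.H.filter (fun u => u ≠ s ∧ c < u ∧ D.hlo u < x ∧ D.hlo u ≠ D.X0)).card := by
    apply AFR_sub
    intro u hu
    have h := Finset.mem_filter.1 hu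
    have h1 : u ≠ s ∧ u ∈ (lf (up D c) x).H := Finset.mem_erase.1 h.1
    have h3 : u ∈ (up D c).H ∧ D.hlo u < x := Finset.mem_filter.1 h1.2
    have h4 : u ∈ D.H ∧ c < u := Finset.mem_filter.1 h3.1
    have h2 : D.hlo u ≠ D.X0 := h.2
    exact ⟨h4.1, h1.1, h4.2, h3.2, h2⟩
  have k3 : ((rt (up D c) x).H.filter (fun u => (rt (up D c) x).hhi u ≠ (rt (up D c) x).X1)).card ≤
      (D.H.filter (fun u => c < u ∧ x < D.hhi u ∧ D.hhi u ≠ D.X1)).card := by
    apply AFR_sub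
    intro u hu
    have h := Finset.mem_filter.1 hu
    have h1 : u ∈ (up D c).H ∧ x < D.hhi u := Finset.mem_filter.1 h.1
    have h3 : u ∈ D.H ∧ c < u := Finset.mem_filter.1 h1.1
    have h2 : D.hhi u ≠ D.X1 := h.2
    exact ⟨h3.1, h3.2, h1.2, h2⟩
  have key : (D.H.filter (fun u => u < c ∧ D.hlo u ≠ D.X0 ∧ D.hhi u ≠ D.X1)).card +
      (D.H.filter (fun u => u ≠ s ∧ c < u ∧ D.hlo u < x ∧ D.hlo u ≠ D.X0)).card +
      (D.H.filter (fun u => c < u ∧ x < D.hhi u ∧ D.hhi u ≠ D.X1)).card +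
      (D.H.filter (fun y => y = c ∧ D.hlo y ≠ D.X0 ∧ D.hhi y ≠ D.X1)).card ≤
      (D.H.filter (fun u => D.hlo u ≠ D.X0 ∧ D.hhi u ≠ D.X1)).card := by
    simp only [Finset.card_filter]
    rw [← Finset.sum_add_distrib, ← Finset.sum_add_distrib, ← Finset.sum_add_distrib]
    apply Finset.sum_le_sum
    intro u hu
    have h1 := hD.h u hu
    have h2 := hcr u hu
    by_cases hus : u = s
    · subst hus
      split_ifs <;> omega
    · split_ifs <;> omega
  omega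

theorem pAFR (hHB : StHB) : StAFR := by
  intro D c y hD hc hT hy hA hcy hlo hU hcr
  have hz := hD.z y hy
  have hb := hHB D hD y hy
  have hV := AFR_V D c y.xD hD hc hT
  have hs : D.hlo y.yR ≠ D.X0 := by
    have h1 := hz.eR
    have h2 := hb.X0lt
    omega
  have hH := AFR_H D c y.xD y.yR hD hc hz.hD hs hcr
  have e2 : ((rmH (lf (up D c) y.xD) y.yR).V.filter (fun u => (rmH (lf (up D c) y.xD) y.yR).vlo u ≠
      (rmH (lf (up D c) y.xD) y.yR).Y0 ∧ (rmH (lf (up D c) y.xD) y.yR).vhi u ≠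
      (rmH (lf (up D c) y.xD) y.yR).Y1)).card =
      ((lf (up D c) y.xD).V.filter (fun u => (lf (up D c) y.xD).vlo u ≠ (lf (up D c) y.xD).Y0 ∧
      (lf (up D c) y.xD).vhi u ≠ (lf (up D c) y.xD).Y1)).card := rfl
  unfold F FR FL
  omega

end Pool.RB
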