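import Pool.Agent.RB.St

/-! Project RB, modules AFS and AFA (helper13). -/

namespace Pool.RB

private theorem AFS_fr (D : Cfg) (c : ℤ) (hc : c ∈ D.H) :
    fr D c ≤ (D.H.filter (fun y => y = c ∧ D.hlo y ≠ D.X0 ∧ D.hhi y ≠ D.X1)).card := by
  unfold fr
  split_ifs with h
  · exact Finset.card_pos.2 ⟨c, Finset.mem_filter.2 ⟨hc, rfl, h⟩⟩
  · exact Nat.zero_le _

theorem pAFS : StAFS := by
  intro D c t hD hc hT ht htT htc
  have hcb := hD.h c hc
  have htb := hD.v t ht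
  have hV : (D.V.filter (fun x => D.vhi x < c)).card +
      (D.V.filter (fun x => x < t ∧ c < D.vlo x ∧ D.vhi x ≠ D.Y1)).card +
      (D.V.filter (fun x => t < x ∧ c < D.vlo x ∧ D.vhi x ≠ D.Y1)).card +
      (D.V.filter (fun x => D.vlo x < c ∧ c < D.vhi x)).card +
      (D.V.filter (fun x => D.vhi x = c ∨ (D.vlo x = c ∧ D.vhi x ≠ D.Y1))).card ≤
      (D.V.filter (fun x => D.vhi x ≠ D.Y1)).card := by
    simp only [Finset.card_filter, ← Finset.sum_add_distrib]
    refine Finset.sum_le_sum fun x hx => ?_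
    have h1 := hD.v x hx
    have h2 := hT x hx
    split_ifs <;> omega
  have hH : (D.H.filter (fun y => y < c ∧ D.hlo y ≠ D.X0 ∧ D.hhi y ≠ D.X1)).card +
      (D.H.filter (fun y => c < y ∧ D.hlo y < t ∧ D.hlo y ≠ D.X0)).card +
      (D.H.filter (fun y => c < y ∧ t < D.hhi y ∧ D.hhi y ≠ D.X1)).card +
      (D.H.filter (fun y => y = c ∧ D.hlo y ≠ D.X0 ∧ D.hhi y ≠ D.X1)).card ≤
      (D.H.filter (fun y => D.hlo y ≠ D.X0 ∧ D.hhi y ≠ D.X1)).card := by
    simp only [Finset.card_filter, ← Finset.sum_add_distrib]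
    refine Finset.sum_le_sum fun y hy => ?_
    have h1 := hD.h y hy
    have h2 := hD.nc t ht y hy
    rw [htc, htT] at h2
    have h3 : ¬ (c < y ∧ D.hlo y < t ∧ t < D.hhi y) := fun e => h2 e.1 h1.2.1 e.2.1 e.2.2
    split_ifs <;> omega
  have hfr := AFS_fr D c hc
  -- comparison of the sets
  have a1 : ((dn D c).V.filter (fun x => (dn D c).vhi x ≠ (dn D c).Y1)).card ≤
      (D.V.filter (fun x => D.vhi x < c)).card := by
    refine Finset.card_le_card ?_
    intro x hx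
    obtain ⟨h1, h2⟩ := Finset.mem_filter.1 hx
    have h3 : x ∈ D.V := (Finset.mem_filter.1 h1).1
    have h4 : min (D.vhi x) c ≠ c := h2
    exact Finset.mem_filter.2 ⟨h3, by omega⟩
  have a2 : ((lf (up D c) t).V.filter (fun x => (lf (up D c) t).vlo x ≠ (lf (up D c) t).Y0 ∧
      (lf (up D c) t).vhi x ≠ (lf (up D c) t).Y1)).card ≤
      (D.V.filter (fun x => x < t ∧ c < D.vlo x ∧ D.vhi x ≠ D.Y1)).card := by
    refine Finset.card_le_card ?_
    intro x hx
    obtain ⟨h1, h2, h3⟩ := Finset.mem_filter.1 hx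
    obtain ⟨h4, h5⟩ := Finset.mem_filter.1 h1
    have h6 : x ∈ D.V := (Finset.mem_filter.1 h4).1
    have h7 : max (D.vlo x) c ≠ c := h2
    exact Finset.mem_filter.2 ⟨h6, h5, by omega, h3⟩
  have a3 : ((rt (up D c) t).V.filter (fun x => (rt (up D c) t).vlo x ≠ (rt (up D c) t).Y0 ∧
      (rt (up D c) t).vhi x ≠ (rt (up D c) t).Y1)).card ≤
      (D.V.filter (fun x => t < x ∧ c < D.vlo x ∧ D.vhi x ≠ D.Y1)).card := by
    refine Finset.card_le_card ?_
    intro x hx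
    obtain ⟨h1, h2, h3⟩ := Finset.mem_filter.1 hx
    obtain ⟨h4, h5⟩ := Finset.mem_filter.1 h1
    have h6 : x ∈ D.V := (Finset.mem_filter.1 h4).1
    have h7 : max (D.vlo x) c ≠ c := h2
    exact Finset.mem_filter.2 ⟨h6, h5, by omega, h3⟩
  have b1 : ((dn D c).H.filter
      (fun y => (dn D c).hlo y ≠ (dn D c).X0 ∧ (dn D c).hhi y ≠ (dn D c).X1)).card ≤
      (D.H.filter (fun y => y < c ∧ D.hlo y ≠ D.X0 ∧ D.hhi y ≠ D.X1)).card := by
    refine Finset.card_le_card ?_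
    intro x hx
    obtain ⟨h1, h2, h3⟩ := Finset.mem_filter.1 hx
    obtain ⟨h4, h5⟩ := Finset.mem_filter.1 h1
    exact Finset.mem_filter.2 ⟨h4, h5, h2, h3⟩
  have b2 : ((lf (up D c) t).H.filter (fun y => (lf (up D c) t).hlo y ≠
      (lf (up D c) t).X0)).card ≤
      (D.H.filter (fun y => c < y ∧ D.hlo y < t ∧ D.hlo y ≠ D.X0)).card := by
    refine Finset.card_le_card ?_
    intro x hx
    obtain ⟨h1, h2⟩ := Finset.mem_filter.1 hx
    obtain ⟨h4, h5⟩ := Finset.mem_filter.1 h1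
    obtain ⟨h6, h7⟩ := Finset.mem_filter.1 h4
    exact Finset.mem_filter.2 ⟨h6, h7, h5, h2⟩
  have b3 : ((rt (up D c) t).H.filter (fun y => (rt (up D c) t).hhi y ≠
      (rt (up D c) t).X1)).card ≤
      (D.H.filter (fun y => c < y ∧ t < D.hhi y ∧ D.hhi y ≠ D.X1)).card := by
    refine Finset.card_le_card ?_
    intro x hx
    obtain ⟨h1, h2⟩ := Finset.mem_filter.1 hx
    obtain ⟨h4, h5⟩ := Finset.mem_filter.1 h1
    obtain ⟨h6, h7⟩ := Finset.mem_filter.1 h4
    exact Finset.mem_filter.2 ⟨h6, h7, h5, h2⟩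
  unfold F FR FL crs ee
  omega

theorem pAFA : StAFA := by
  intro E s
  have h1 : ((abC E s).H.filter (fun y => (abC E s).hhi y ≠ (abC E s).X1)).card ≤
      (E.H.filter (fun y => E.hhi y ≠ E.X1)).card := le_of_eq rfl
  have h2 : ((abC E s).V.filter (fun x => (abC E s).vlo x ≠ (abC E s).Y0 ∧
      (abC E s).vhi x ≠ (abC E s).Y1)).card ≤
      (E.V.filter (fun x => E.vlo x ≠ E.Y0 ∧ E.vhi x ≠ E.Y1)).card :=
    Finset.card_le_card (Finset.filter_subset_filter _ (Finset.erase_subset _ _))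
  unfold FL
  omega

end Pool.RB
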