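import Pool.Agent.RB.St

/-!
Project RB, module AGC: accounting of good holes for the corner version of the move S1.
-/

namespace Pool.RB

/-- basic facts: a hole above `c` is strictly left or strictly right of the arm `y.xU` -/
private theorem AGC_side (hHB : StHB) (hHU : StHU) (D : Cfg) (y w : Hole) (hD : Ok D)
    (hy : y ∈ D.Z) (hA : y.yL < y.yR) (hU : D.vhi y.xU = D.Y1) (hw : w ∈ D.Z)
    (hg : y.yL < w.y1) : w.x2 < y.xU ∨ y.xU < w.x1 := by
  have bw := hHB D hD w hw
  have by' := hHB D hD y hy
  have okw := hD.z w hw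
  have oky := hD.z y hy
  have y1e : y.y1 = y.yL := by unfold Hole.y1; omega
  have hne : w ≠ y := by
    rintro rfl
    omega
  have hxU : w.xU ≠ y.xU := fun h => hne ((hHU D hD w hw y hy).2.2.1 h)
  have hxD : w.xD ≠ y.xU := by
    intro h
    have h1 := okw.eD
    have h2 := bw.ltY1
    rw [h] at h1
    omega
  have h12 := bw.x12
  have hno := okw.noV y.xU oky.hU
  have e1 := oky.eU
  have l1 := bw.y12
  have l2 := bw.ltY1
  have x1c : w.x1 ≠ y.xU := by
    unfold Hole.x1
    omega
  have x2c : w.x2 ≠ y.xU := by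
    unfold Hole.x2
    omega
  by_contra hcon
  rw [not_or] at hcon
  exact hno (by omega) (by omega) (by omega) (by omega)

theorem pAGC (hHB : StHB) (hHU : StHU) (hOkUp : StOkUp) (hCup : StCup) (hCdn : StCdn)
    (hCLR : StCLR) (hLoss : StLoss) (hCcl : StCcl) : StAGC := by
  classical
  intro D y hD hy hA hU
  have by' := hHB D hD y hy
  have oky := hD.z y hy
  have y1e : y.y1 = y.yL := by unfold Hole.y1; omega
  have y2e : y.y2 = y.yR := by unfold Hole.y2; omega
  have hvU : D.vlo y.xU = y.yL := by rw [oky.eU, y1e]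
  have hgH := hD.h y.yL oky.hL
  have hE : Ok (up D y.yL) := hOkUp D y.yL hD hgH.1 hgH.2.1
  -- touched holes
  have htch : ((D.Z.erase y).filter (fun w => w.y1 = y.yL ∨ w.y2 = y.yL)).card + 1 = tch D y.yL := by
    unfold tch
    have h1 : (D.Z.filter (fun w => w.y1 = y.yL ∨ w.y2 = y.yL)).erase y
        = (D.Z.erase y).filter (fun w => w.y1 = y.yL ∨ w.y2 = y.yL) := by
      ext z
      simp only [Finset.mem_erase, Finset.mem_filter]
      tauto
    rw [← h1]
    exact Finset.card_erase_add_one (Finset.mem_filter.2 ⟨hy, Or.inl y1e⟩)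
  have hloss := hLoss D (D.Z.erase y) y.yL hD (Finset.erase_subset _ _)
  -- the covering
  have hcov : D.Z.filter (fun z => Good D z) ⊆
      (((D.Z.filter (LossC D (D.Z.erase y) y.yL) ∪ AA D y.yL) ∪
        (dn D y.yL).Z.filter (fun z => Good (dn D y.yL) z)) ∪
        (lf (up D y.yL) y.xU).Z.filter (fun z => Clean (lf (up D y.yL) y.xU) z ∧
          ¬ LatV (lf (up D y.yL) y.xU) z)) ∪
        (abC (rt (up D y.yL) y.xU) y.xD).Z.filter (fun z =>
          Clean (abC (rt (up D y.yL) y.xU) y.xD) z ∧
          ¬ LatV (abC (rt (up D y.yL) y.xU) y.xD) z) := by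
    intro z hz
    rw [Finset.mem_filter] at hz
    obtain ⟨hz, hgood⟩ := hz
    have bz := hHB D hD z hz
    have okz := hD.z z hz
    simp only [Finset.mem_union, Finset.mem_filter]
    by_cases hzy : z = y
    · left; left; left; right
      unfold AA
      rw [Finset.mem_filter]
      refine ⟨hz, hgood, ?_, ?_⟩
      · rw [hzy]; exact hU
      · rw [hzy]
        have := by'.loD
        omega
    by_cases hL : LossC D (D.Z.erase y) y.yL z
    · left; left; left; left
      exact ⟨hz, hL⟩
    by_cases hAA : z ∈ AA D y.yL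
    · left; left; left; right
      exact hAA
    have hL' := hL
    unfold LossC at hL'
    rw [not_or, not_or] at hL'
    obtain ⟨hL1, hL2, hL3⟩ := hL'
    have hzT : z ∈ D.Z.erase y := Finset.mem_erase.2 ⟨hzy, hz⟩
    have nh : ¬ (z.y1 < y.yL ∧ y.yL < z.y2) := fun h => hL1 ⟨z, hz, h.1, h.2, Or.inl rfl⟩
    have n1 : z.y1 ≠ y.yL := by
      intro h
      refine hL2 ⟨z, hzT, h, Or.inr ?_⟩
      have : z.y2 = max z.yL z.yR := rfl
      omega
    have n2 : z.y2 ≠ y.yL := by
      intro h
      refine hL3 ⟨z, hzT, h, Or.inr ?_⟩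
      have : z.y1 = min z.yL z.yR := rfl
      omega
    have hnb : ∀ w ∈ D.Z, w.y1 < y.yL → y.yL < w.y2 → ¬ Nb z w :=
      fun w hw h1 h2 h3 => hL1 ⟨w, hw, h1, h2, Or.inr h3⟩
    have y12 := bz.y12
    -- `z` is not `LatV` in a child above
    have hxDU : z.xD ≠ y.xU := by
      intro h
      have h1 := okz.eD
      have h2 := bz.ltY1
      rw [h] at h1
      omega
    have hlat : y.yL < z.y1 → ¬ (max (D.vlo z.xD) y.yL = y.yL ∧ D.vhi z.xU = D.Y1) := by
      rintro _ ⟨h1, h2⟩
      rcases lt_or_ge (D.vlo z.xD) y.yL with h3 | h3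
      · apply hAA
        unfold AA
        rw [Finset.mem_filter]
        exact ⟨hz, hgood, h2, h3⟩
      · have h4 : D.vlo z.xD = y.yL := by omega
        rcases hgood.1.farD with h5 | ⟨w, hw, h5⟩
        · omega
        · have hwy : w ≠ y := by
            rintro rfl
            exact hxDU h5.symm
          have h6 := (hD.z w hw).eU
          rw [h5, h4] at h6
          exact hL2 ⟨w, Finset.mem_erase.2 ⟨hwy, hw⟩, h6.symm, Or.inl h5.symm⟩
    rcases lt_or_gt_of_ne n2 with hlt | hgt
    · -- below
      left; left; right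
      have hdn : DnC D y.yL z := by
        refine ⟨hlt, hnb, ?_⟩
        intro w hw hw2
        have hwy : w ≠ y := by
          rintro rfl
          omega
        have hwT : w ∈ D.Z.erase y := Finset.mem_erase.2 ⟨hwy, hw⟩
        exact ⟨fun h => hL3 ⟨w, hwT, hw2, Or.inl h⟩, fun h => hL3 ⟨w, hwT, hw2, Or.inr (Or.inl h)⟩,
          fun h => hL3 ⟨w, hwT, hw2, Or.inr (Or.inr h)⟩⟩
      refine ⟨?_, hCdn D y.yL z hD hgH.2.1.le hz hgood.1 hdn, hgood.2⟩
      show z ∈ D.Z.filter (fun z => z.y2 < y.yL)
      exact Finset.mem_filter.2 ⟨hz, hlt⟩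
    · -- above
      have hup : y.yL < z.y1 := by omega
      rcases AGC_side hHB hHU D y z hD hy hA hU hz hup with hs | hs
      · left; right
        have hupc : UpC D y.yL z := by
          refine ⟨hup, hnb, ?_⟩
          intro w hw hw1
          by_cases hwy : w = y
          · subst hwy
            refine ⟨hxDU, ?_, ?_⟩
            · intro h
              have h1 := bz.loL
              have h2 := oky.eR
              rw [h, y2e, h2] at h1
              have h3 : w.x1 = min w.xU w.xD := rfl
              have h4 := bz.x12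
              have h5 := oky.chir
              omega
            · intro h
              rw [y2e] at h
              exact hzy ((hHU D hD z hz w hw).2.1 h)
          · have hwT : w ∈ D.Z.erase y := Finset.mem_erase.2 ⟨hwy, hw⟩
            exact ⟨fun h => hL2 ⟨w, hwT, hw1, Or.inl h⟩,
              fun h => hL2 ⟨w, hwT, hw1, Or.inr (Or.inl h)⟩,
              fun h => hL2 ⟨w, hwT, hw1, Or.inr (Or.inr h)⟩⟩
        have hcl := hCup D y.yL z hD hgH.1.le hz hgood.1 hupc
        have hzE : z ∈ (up D y.yL).Z := Finset.mem_filter.2 ⟨hz, hup⟩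
        have hside : ∀ w ∈ (up D y.yL).Z, w.x2 < y.xU ∨ y.xU < w.x1 := by
          intro w hw
          have hw' := Finset.mem_filter.1 hw
          exact AGC_side hHB hHU D y w hD hy hA hU hw'.1 hw'.2
        have hx12 : ∀ w ∈ (up D y.yL).Z, w.x1 < w.x2 := by
          intro w hw
          have hw' := Finset.mem_filter.1 hw
          exact (hHB D hD w hw'.1).x12
        have hlfc : LfC (up D y.yL) y.xU z := by
          refine ⟨hs, ?_, ?_⟩
          · intro w hw h1 h2
            exfalso
            have := hside w hw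
            omega
          · intro w hw h1
            exfalso
            have := hside w hw
            have := hx12 w hw
            omega
        refine ⟨?_, (hCLR (up D y.yL) y.xU z hE (hD.v _ oky.hU).1.le (hD.v _ oky.hU).2.1.le hzE hcl).2 hlfc, ?_⟩
        · exact Finset.mem_filter.2 ⟨hzE, hs⟩
        · intro hl
          exact hlat hup ⟨hl.1, hl.2⟩
      · right
        have hcl := hCcl D y z hD hy hA hU hz hgood.1 hup hs hnb (by
          intro w hw hwy hw1
          have hwT : w ∈ D.Z.erase y := Finset.mem_erase.2 ⟨hwy, hw⟩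
          exact ⟨fun h => hL2 ⟨w, hwT, hw1, Or.inl h⟩,
              fun h => hL2 ⟨w, hwT, hw1, Or.inr (Or.inl h)⟩,
              fun h => hL2 ⟨w, hwT, hw1, Or.inr (Or.inr h)⟩⟩)
        have hzE : z ∈ (up D y.yL).Z := Finset.mem_filter.2 ⟨hz, hup⟩
        refine ⟨?_, hcl, ?_⟩
        · exact Finset.mem_filter.2 ⟨hzE, hs⟩
        · intro hl
          exact hlat hup ⟨hl.1, hl.2⟩
  have hcard := (Finset.card_le_card hcov).trans
    ((Finset.card_union_le _ _).trans (Nat.add_le_add_right ((Finset.card_union_le _ _).trans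
      (Nat.add_le_add_right ((Finset.card_union_le _ _).trans
        (Nat.add_le_add_right (Finset.card_union_le _ _) _)) _)) _))
  have g0 : G D = (D.Z.filter (fun z => Good D z)).card := by
    unfold G; congr
  have g1 : G (dn D y.yL) = ((dn D y.yL).Z.filter (fun z => Good (dn D y.yL) z)).card := by
    unfold G; congr
  have g2 : GV (lf (up D y.yL) y.xU) = ((lf (up D y.yL) y.xU).Z.filter (fun z =>
      Clean (lf (up D y.yL) y.xU) z ∧ ¬ LatV (lf (up D y.yL) y.xU) z)).card := by
    unfold GV; congr
  have g3 : GV (abC (rt (up D y.yL) y.xU) y.xD) = ((abC (rt (up D y.yL) y.xU) y.xD).Z.filter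
      (fun z => Clean (abC (rt (up D y.yL) y.xU) y.xD) z ∧
        ¬ LatV (abC (rt (up D y.yL) y.xU) y.xD) z)).card := by
    unfold GV; congr
  rw [← g0, ← g1, ← g2, ← g3] at hcard
  have hl2 : (D.Z.filter (LossC D (D.Z.erase y) y.yL)).card ≤ 5 * hit D y.yL +
      3 * ((D.Z.erase y).filter (fun w => w.y1 = y.yL ∨ w.y2 = y.yL)).card := by
    convert hloss
  omega

end Pool.RB
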