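import Pool.Agent.RB.St

namespace Pool.RB

private theorem AGH_ne {D : Cfg} {c : ℤ} (hHB : StHB) (hD : Ok D) (h0 : D.hlo c = D.X0)
    (h1 : D.hhi c = D.X1) {z : Hole} (hz : z ∈ D.Z) : z.y1 ≠ c ∧ z.y2 ≠ c := by
  have hb := hHB D hD z hz
  have ho := hD.z z hz
  have a1 := hb.X0lt
  have a2 := hb.ltX1
  have hL : z.yL ≠ c := by
    intro h
    have := ho.eL
    rw [h, h1] at this
    omega
  have hR : z.yR ≠ c := by
    intro h
    have := ho.eR
    rw [h, h0] at this
    omega
  constructor
  · intro h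
    rcases min_choice z.yL z.yR with h' | h'
    · exact hL (h'.symm.trans h)
    · exact hR (h'.symm.trans h)
  · intro h
    rcases max_choice z.yL z.yR with h' | h'
    · exact hL (h'.symm.trans h)
    · exact hR (h'.symm.trans h)

private theorem AGH_nc {D : Cfg} {c : ℤ} (hHB : StHB) (hD : Ok D) (hc : c ∈ D.H)
    (h0 : D.hlo c = D.X0) (h1 : D.hhi c = D.X1) {z : Hole} (hz : z ∈ D.Z) (a : z.y1 < c)
    (b : c < z.y2) : False := by
  have hb := hHB D hD z hz
  have ho := hD.z z hz
  have a1 := hb.X0lt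
  have a2 := hb.ltX1
  have a3 := hb.x12
  exact ho.noH c hc a b (by omega) (by omega)

open Classical in
theorem pAGH (hCup : StCup) (hCdn : StCdn) (hHB : StHB) : StAGH := by
  intro D c hD hc h0 h1
  have hsub : D.Z.filter (fun z => Good D z) ⊆
      ((up D c).Z.filter (fun z => Good (up D c) z)) ∪
        ((dn D c).Z.filter (fun z => Good (dn D c) z)) := by
    intro z hz
    rw [Finset.mem_filter] at hz
    obtain ⟨hz, hcl, hlat⟩ := hz
    obtain ⟨n1, n2⟩ := AGH_ne hHB hD h0 h1 hz
    have n3 := (hHB D hD z hz).y12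
    rw [Finset.mem_union, Finset.mem_filter, Finset.mem_filter]
    rcases lt_or_ge c z.y1 with h | h
    · left
      have hu : UpC D c z := by
        refine ⟨h, fun w hw a b => ?_, fun w hw a => ?_⟩
        · exact absurd (AGH_nc hHB hD hc h0 h1 hw a b) id
        · exact absurd a (AGH_ne hHB hD h0 h1 hw).1
      exact ⟨Finset.mem_filter.2 ⟨hz, h⟩, hCup D c z hD (hD.h c hc).1.le hz hcl hu, hlat⟩
    · right
      have h2 : z.y2 < c := by
        by_contra h2
        exact AGH_nc hHB hD hc h0 h1 hz (by omega) (by omega)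
      have hu : DnC D c z := by
        refine ⟨h2, fun w hw a b => ?_, fun w hw a => ?_⟩
        · exact absurd (AGH_nc hHB hD hc h0 h1 hw a b) id
        · exact absurd a (AGH_ne hHB hD h0 h1 hw).2
      exact ⟨Finset.mem_filter.2 ⟨hz, h2⟩, hCdn D c z hD (hD.h c hc).2.1.le hz hcl hu, hlat⟩
  exact (Finset.card_le_card hsub).trans (Finset.card_union_le _ _)

end Pool.RB
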