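import Pool.Agent.RB.St

/-! Project RB, module AGI (helper43). -/

namespace Pool.RB

theorem pAGI (hHB : StHB) (hHU : StHU) (hCLR : StCLR) (hCrm : StCrm) (hOnly : StOnly) : StAGI := by
  classical
  intro D y hD hy hA hcl hlo hhi
  have hby := hHB D hD y hy
  have hyx1 : y.x1 = y.xU := by
    have := hby.x12
    have hc := (hD.z y hy).chir
    unfold Hole.x1 Hole.x2 at *
    omega
  have hyx2 : y.x2 = y.xD := by
    have := hby.x12
    have hc := (hD.z y hy).chir
    unfold Hole.x1 Hole.x2 at *
    omega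
  obtain ⟨hO, -⟩ := hOnly D D.Y0 y hD hy hA hcl hhi (le_of_eq hlo) hby.Y0lt
  set x := y.xD with hx
  have hlt : y.x1 < x := by have := hby.x12; omega
  have hX0 : D.X0 ≤ x := by have := hby.X0lt; omega
  have hX1 : x ≤ D.X1 := by have := hby.ltX1; omega
  -- the pieces of the cover
  have hcov : D.Z.filter (fun z => Good D z) ⊆
      ((D.Z.filter (fun z => z.yR = y.yL) ∪ D.Z.filter (fun z => D.vlo z.xD = D.Y0)) ∪
        (rmH (lf D x) y.yR).Z.filter (fun z => Clean (rmH (lf D x) y.yR) z ∧
          ¬ LatV (rmH (lf D x) y.yR) z)) ∪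
        (rt D x).Z.filter (fun z => Clean (rt D x) z ∧ ¬ LatV (rt D x) z) := by
    intro z hz
    rw [Finset.mem_filter] at hz
    obtain ⟨hz, hg⟩ := hz
    have hbz := hHB D hD z hz
    by_cases h1 : z.yR = y.yL
    · simp only [Finset.mem_union, Finset.mem_filter]
      exact Or.inl (Or.inl (Or.inl ⟨hz, h1⟩))
    by_cases h2 : D.vlo z.xD = D.Y0
    · simp only [Finset.mem_union, Finset.mem_filter]
      exact Or.inl (Or.inl (Or.inr ⟨hz, h2⟩))
    have hzy : z ≠ y := by
      rintro rfl
      exact h2 hlo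
    have hside : x < z.x1 ∨ z.x2 < x := by
      by_contra hcon
      push Not at hcon
      exact hzy (hO z hz hbz.Y0lt hcon.1 hcon.2)
    have hno : ∀ w ∈ D.Z, w.x1 < x → x < w.x2 → ¬ Nb z w := by
      intro w hw hw1 hw2
      have := hO w hw (hHB D hD w hw).Y0lt hw1.le hw2.le
      subst this
      omega
    rcases hside with hs | hs
    · have hR : RtC D x z := by
        refine ⟨hs, hno, ?_⟩
        intro w hw hw1
        have hbw := hHB D hD w hw
        have := hO w hw hbw.Y0lt hw1.le (by have := hbw.x12; omega)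
        subst this
        omega
      have hC := (hCLR D x z hD hX0 hX1 hz hg.1).1 hR
      refine Finset.mem_union_right _ (Finset.mem_filter.2 ⟨?_, hC, ?_⟩)
      · exact Finset.mem_filter.2 ⟨hz, hs⟩
      · intro hL
        exact h2 hL.1
    · have hL : LfC D x z := by
        refine ⟨hs, hno, ?_⟩
        intro w hw hw1
        have hbw := hHB D hD w hw
        have hwy := hO w hw hbw.Y0lt (by have := hbw.x12; omega) hw1.ge
        subst hwy
        refine ⟨h1, ?_, ?_⟩
        · intro h
          have e := (hD.z z hz).eD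
          have := hbz.ltY1
          rw [h, hyx1, hhi] at e
          omega
        · intro h
          rw [hyx1] at h
          exact hzy ((hHU D hD z hz w hw).2.2.1 h)
      have hC := hCrm _ y.yR z ((hCLR D x z hD hX0 hX1 hz hg.1).2 hL)
      refine Finset.mem_union_left _ (Finset.mem_union_right _ (Finset.mem_filter.2 ⟨?_, hC, ?_⟩))
      · exact Finset.mem_filter.2 ⟨hz, hs⟩
      · intro hLV
        exact h2 hLV.1
  have c1 : (D.Z.filter (fun z => z.yR = y.yL)).card ≤ 1 := by
    rw [Finset.card_le_one]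
    intro a ha b hb
    rw [Finset.mem_filter] at ha hb
    exact (hHU D hD a ha.1 b hb.1).2.1 (ha.2.trans hb.2.symm)
  have c2 : (D.Z.filter (fun z => D.vlo z.xD = D.Y0)).card ≤ nb D := by
    unfold nb
    refine Finset.card_le_card_of_injOn (fun z => z.xD) ?_ ?_
    · intro z hz
      have hz' := Finset.mem_filter.1 (Finset.mem_coe.1 hz)
      exact Finset.mem_coe.2 (Finset.mem_filter.2 ⟨(hD.z z hz'.1).hD, hz'.2⟩)
    · intro a ha b hb hab
      have ha' := Finset.mem_filter.1 (Finset.mem_coe.1 ha)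
      have hb' := Finset.mem_filter.1 (Finset.mem_coe.1 hb)
      exact (hHU D hD a ha'.1 b hb'.1).2.2.2 hab
  have hc := Finset.card_le_card hcov
  have u1 := Finset.card_union_le ((D.Z.filter (fun z => z.yR = y.yL) ∪
      D.Z.filter (fun z => D.vlo z.xD = D.Y0)) ∪
        (rmH (lf D x) y.yR).Z.filter (fun z => Clean (rmH (lf D x) y.yR) z ∧
          ¬ LatV (rmH (lf D x) y.yR) z))
        ((rt D x).Z.filter (fun z => Clean (rt D x) z ∧ ¬ LatV (rt D x) z))
  have u2 := Finset.card_union_le (D.Z.filter (fun z => z.yR = y.yL) ∪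
      D.Z.filter (fun z => D.vlo z.xD = D.Y0))
        ((rmH (lf D x) y.yR).Z.filter (fun z => Clean (rmH (lf D x) y.yR) z ∧
          ¬ LatV (rmH (lf D x) y.yR) z))
  have u3 := Finset.card_union_le (D.Z.filter (fun z => z.yR = y.yL))
      (D.Z.filter (fun z => D.vlo z.xD = D.Y0))
  unfold G GV
  convert_to (D.Z.filter (fun z => Good D z)).card ≤
    ((rmH (lf D x) y.yR).Z.filter (fun z => Clean (rmH (lf D x) y.yR) z ∧
          ¬ LatV (rmH (lf D x) y.yR) z)).card +
    ((rt D x).Z.filter (fun z => Clean (rt D x) z ∧ ¬ LatV (rt D x) z)).card + 1 + nb D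
  omega

end Pool.RB
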