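import Pool.Agent.RB.St

namespace Pool.RB

open Classical in
theorem pAGR (hHB : StHB) (hHU : StHU) (hOkUp : StOkUp) (hCup : StCup) (hCdn : StCdn)
    (hCLR : StCLR) (hCrm : StCrm) (hLoss : StLoss) (hOnly : StOnly) : StAGR := by
  intro D c y ok hc hy hA hcl hcy hDc hU
  obtain ⟨hY0c, hcY1, -⟩ := ok.h c hc
  have hyB := hHB D ok y hy
  have hyO := ok.z y hy
  have hxUD : y.xU < y.xD := by
    rcases hyO.chir with h | h
    · exact h.2
    · omega
  have hx1 : y.x1 = y.xU := by unfold Hole.x1; omega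
  have hx2 : y.x2 = y.xD := by unfold Hole.x2; omega
  have okE : Ok (up D c) := hOkUp D c ok hY0c hcY1
  have hXl : (up D c).X0 ≤ y.xD := by
    have h := hyB.X0lt
    rw [hx1] at h
    show D.X0 ≤ y.xD
    omega
  have hXr : y.xD ≤ (up D c).X1 := by
    have h := hyB.ltX1
    rw [hx2] at h
    show y.xD ≤ D.X1
    omega
  obtain ⟨hO1, -⟩ := hOnly D c y ok hy hA hcl hU hDc hcy
  -- the membership
  have key : ∀ z ∈ D.Z, Good D z → ¬ LossC D D.Z c z → ¬ (z = y ∨ z.yR = y.yL) → z ∉ AA D c →
      (z ∈ (dn D c).Z ∧ Good (dn D c) z) ∨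
      (z ∈ (rmH (lf (up D c) y.xD) y.yR).Z ∧ Clean (rmH (lf (up D c) y.xD) y.yR) z ∧
        ¬ LatV (rmH (lf (up D c) y.xD) y.yR) z) ∨
      (z ∈ (rt (up D c) y.xD).Z ∧ Clean (rt (up D c) y.xD) z ∧ ¬ LatV (rt (up D c) y.xD) z) := by
    intro z hz hg hnl hny hna
    have hzB := hHB D ok z hz
    have hzO := ok.z z hz
    have h12 := hzB.y12
    -- consequences of not being lost
    have l1 : ∀ w ∈ D.Z, w.y1 < c → c < w.y2 → z ≠ w ∧ ¬ Nb z w := by
      intro w hw h1 h2
      constructor
      · intro h; exact hnl (Or.inl ⟨w, hw, h1, h2, Or.inl h⟩)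
      · intro h; exact hnl (Or.inl ⟨w, hw, h1, h2, Or.inr h⟩)
    have l2 : ∀ w ∈ D.Z, w.y1 = c → z.xD ≠ w.xU ∧ z.yL ≠ w.y2 ∧ z.yR ≠ w.y2 := by
      intro w hw h1
      refine ⟨?_, ?_, ?_⟩ <;> intro h
      · exact hnl (Or.inr (Or.inl ⟨w, hw, h1, Or.inl h⟩))
      · exact hnl (Or.inr (Or.inl ⟨w, hw, h1, Or.inr (Or.inl h)⟩))
      · exact hnl (Or.inr (Or.inl ⟨w, hw, h1, Or.inr (Or.inr h)⟩))
    have l3 : ∀ w ∈ D.Z, w.y2 = c → z.xU ≠ w.xD ∧ z.yL ≠ w.y1 ∧ z.yR ≠ w.y1 := by
      intro w hw h1
      refine ⟨?_, ?_, ?_⟩ <;> intro h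
      · exact hnl (Or.inr (Or.inr ⟨w, hw, h1, Or.inl h⟩))
      · exact hnl (Or.inr (Or.inr ⟨w, hw, h1, Or.inr (Or.inl h)⟩))
      · exact hnl (Or.inr (Or.inr ⟨w, hw, h1, Or.inr (Or.inr h)⟩))
    have ny1 : z.y1 ≠ c := by
      intro h
      have := l2 z hz h
      have e : z.y2 = max z.yL z.yR := rfl
      rcases max_choice z.yL z.yR with h' | h' <;> rw [h'] at e
      · exact this.2.1 e.symm
      · exact this.2.2 e.symm
    have ny2 : z.y2 ≠ c := by
      intro h
      have := l3 z hz h
      have e : z.y1 = min z.yL z.yR := rfl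
      rcases min_choice z.yL z.yR with h' | h' <;> rw [h'] at e
      · exact this.2.1 e.symm
      · exact this.2.2 e.symm
    have nh : ¬ (z.y1 < c ∧ c < z.y2) := by
      rintro ⟨h1, h2⟩
      exact (l1 z hz h1 h2).1 rfl
    by_cases hlt : z.y2 < c
    · left
      refine ⟨?_, ?_, ?_⟩
      · simp only [dn, Finset.mem_filter]; exact ⟨hz, hlt⟩
      · exact hCdn D c z ok hcY1.le hz hg.1 ⟨hlt, fun w hw h1 h2 => (l1 w hw h1 h2).2, l3⟩
      · exact hg.2
    · right
      have hcz : c < z.y1 := by omega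
      have hzE : z ∈ (up D c).Z := by
        simp only [up, Finset.mem_filter]; exact ⟨hz, hcz⟩
      have hclE : Clean (up D c) z :=
        hCup D c z ok hY0c.le hz hg.1 ⟨hcz, fun w hw h1 h2 => (l1 w hw h1 h2).2, l2⟩
      have hnLV : ¬ (max (D.vlo z.xD) c = c ∧ D.vhi z.xU = D.Y1) := by
        rintro ⟨h1, h2⟩
        have h1' : D.vlo z.xD ≤ c := by omega
        rcases lt_or_eq_of_le h1' with h3 | h3
        · exact hna (by simp only [AA, Finset.mem_filter]; exact ⟨hz, hg, h2, h3⟩)
        · rcases hg.1.farD with h4 | ⟨w, hw, h4⟩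
          · omega
          · have hwO := ok.z w hw
            have h5 : w.y1 = c := by rw [← hwO.eU, h4, h3]
            exact (l2 w hw h5).1 h4.symm
      have hE : ∀ w ∈ (up D c).Z, w ∈ D.Z ∧ c < w.y1 := by
        intro w hw
        simpa only [up, Finset.mem_filter] using hw
      rcases lt_or_ge y.xD z.x1 with hr | hr
      · right
        refine ⟨?_, ?_, ?_⟩
        · simp only [rt, Finset.mem_filter]; exact ⟨hzE, hr⟩
        · refine (hCLR (up D c) y.xD z okE hXl hXr hzE hclE).1 ⟨hr, ?_, ?_⟩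
          · intro w hw h1 h2
            have hwE := hE w hw
            have := hO1 w hwE.1 hwE.2 h1.le h2.le
            subst this
            omega
          · intro w hw h1
            have hwE := hE w hw
            have hwB := hHB D ok w hwE.1
            have := hO1 w hwE.1 hwE.2 h1.le (by have := hwB.x12; omega)
            subst this
            omega
        · exact hnLV
      · left
        have hl : z.x2 < y.xD := by
          by_contra h
          exact hny (Or.inl (hO1 z hz hcz hr (by omega)))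
        refine ⟨?_, ?_, ?_⟩
        · simp only [rmH, lf, Finset.mem_filter]; exact ⟨hzE, hl⟩
        · refine hCrm _ _ _ ((hCLR (up D c) y.xD z okE hXl hXr hzE hclE).2 ⟨hl, ?_, ?_⟩)
          · intro w hw h1 h2
            have hwE := hE w hw
            have := hO1 w hwE.1 hwE.2 h1.le h2.le
            subst this
            omega
          · intro w hw h1
            have hwE := hE w hw
            have hwB := hHB D ok w hwE.1
            have hwy := hO1 w hwE.1 hwE.2 (by have := hwB.x12; omega) (by omega)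
            subst hwy
            refine ⟨fun h => hny (Or.inr h), ?_, ?_⟩
            · intro h
              rw [hx1] at h
              have e1 := hzO.eD
              rw [h, hU] at e1
              have := hzB.ltY1
              omega
            · intro h
              rw [hx1] at h
              exact hny (Or.inl ((hHU D ok z hz w hwE.1).2.2.1 h))
        · exact hnLV
  -- counting
  have hsub : D.Z.filter (fun z => Good D z) ⊆
      (((((dn D c).Z.filter (fun z => Good (dn D c) z)) ∪
        ((rmH (lf (up D c) y.xD) y.yR).Z.filter (fun z => Clean (rmH (lf (up D c) y.xD) y.yR) z ∧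
          ¬ LatV (rmH (lf (up D c) y.xD) y.yR) z))) ∪
        ((rt (up D c) y.xD).Z.filter (fun z => Clean (rt (up D c) y.xD) z ∧
          ¬ LatV (rt (up D c) y.xD) z))) ∪
        (D.Z.filter (LossC D D.Z c))) ∪
        (D.Z.filter (fun z => z = y ∨ z.yR = y.yL)) ∪ (AA D c) := by
    intro z hz
    rw [Finset.mem_filter] at hz
    obtain ⟨hz, hg⟩ := hz
    simp only [Finset.mem_union]
    by_cases h1 : z ∈ AA D c
    · right; exact h1
    left
    by_cases h2 : z = y ∨ z.yR = y.yL
    · right; rw [Finset.mem_filter]; exact ⟨hz, h2⟩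
    left
    by_cases h3 : LossC D D.Z c z
    · right; rw [Finset.mem_filter]; exact ⟨hz, h3⟩
    left
    rcases key z hz hg h3 h2 h1 with h | h | h
    · left; left; rw [Finset.mem_filter]; exact h
    · left; right; rw [Finset.mem_filter]; exact h
    · right; rw [Finset.mem_filter]; exact h
  have hloss : (D.Z.filter (LossC D D.Z c)).card ≤ 5 * hit D c + 3 * tch D c := by
    have := hLoss D D.Z c ok (Finset.Subset.refl _)
    unfold tch
    convert this
  have htwo : (D.Z.filter (fun z => z = y ∨ z.yR = y.yL)).card ≤ 2 := by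
    by_contra hgt
    have hgt' : 2 < (D.Z.filter (fun z => z = y ∨ z.yR = y.yL)).card := by omega
    obtain ⟨a, b, d, ha, hb, hd, hab, had, hbd⟩ := Finset.two_lt_card_iff.1 hgt'
    rw [Finset.mem_filter] at ha hb hd
    have u : ∀ p ∈ D.Z, ∀ q ∈ D.Z, p.yR = y.yL → q.yR = y.yL → p = q := by
      intro p hp q hq h1 h2
      exact (hHU D ok p hp q hq).2.1 (by rw [h1, h2])
    rcases ha.2 with h1 | h1 <;> rcases hb.2 with h2 | h2 <;> rcases hd.2 with h3 | h3
    · exact hab (by rw [h1, h2])
    · exact hab (by rw [h1, h2])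
    · exact had (by rw [h1, h3])
    · exact hbd (u b hb.1 d hd.1 h2 h3)
    · exact hbd (by rw [h2, h3])
    · exact had (u a ha.1 d hd.1 h1 h3)
    · exact hab (u a ha.1 b hb.1 h1 h2)
    · exact hab (u a ha.1 b hb.1 h1 h2)
  have h0 := Finset.card_le_card hsub
  have e1 := Finset.card_union_le ((((((dn D c).Z.filter (fun z => Good (dn D c) z)) ∪
        ((rmH (lf (up D c) y.xD) y.yR).Z.filter (fun z => Clean (rmH (lf (up D c) y.xD) y.yR) z ∧
          ¬ LatV (rmH (lf (up D c) y.xD) y.yR) z))) ∪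
        ((rt (up D c) y.xD).Z.filter (fun z => Clean (rt (up D c) y.xD) z ∧
          ¬ LatV (rt (up D c) y.xD) z))) ∪
        (D.Z.filter (LossC D D.Z c))) ∪
        (D.Z.filter (fun z => z = y ∨ z.yR = y.yL))) (AA D c)
  have e2 := Finset.card_union_le (((((dn D c).Z.filter (fun z => Good (dn D c) z)) ∪
        ((rmH (lf (up D c) y.xD) y.yR).Z.filter (fun z => Clean (rmH (lf (up D c) y.xD) y.yR) z ∧
          ¬ LatV (rmH (lf (up D c) y.xD) y.yR) z))) ∪
        ((rt (up D c) y.xD).Z.filter (fun z => Clean (rt (up D c) y.xD) z ∧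
          ¬ LatV (rt (up D c) y.xD) z))) ∪
        (D.Z.filter (LossC D D.Z c)))
        (D.Z.filter (fun z => z = y ∨ z.yR = y.yL))
  have e3 := Finset.card_union_le ((((dn D c).Z.filter (fun z => Good (dn D c) z)) ∪
        ((rmH (lf (up D c) y.xD) y.yR).Z.filter (fun z => Clean (rmH (lf (up D c) y.xD) y.yR) z ∧
          ¬ LatV (rmH (lf (up D c) y.xD) y.yR) z))) ∪
        ((rt (up D c) y.xD).Z.filter (fun z => Clean (rt (up D c) y.xD) z ∧
          ¬ LatV (rt (up D c) y.xD) z)))
        (D.Z.filter (LossC D D.Z c))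
  have e4 := Finset.card_union_le (((dn D c).Z.filter (fun z => Good (dn D c) z)) ∪
        ((rmH (lf (up D c) y.xD) y.yR).Z.filter (fun z => Clean (rmH (lf (up D c) y.xD) y.yR) z ∧
          ¬ LatV (rmH (lf (up D c) y.xD) y.yR) z)))
        ((rt (up D c) y.xD).Z.filter (fun z => Clean (rt (up D c) y.xD) z ∧
          ¬ LatV (rt (up D c) y.xD) z))
  have e5 := Finset.card_union_le ((dn D c).Z.filter (fun z => Good (dn D c) z))
        ((rmH (lf (up D c) y.xD) y.yR).Z.filter (fun z => Clean (rmH (lf (up D c) y.xD) y.yR) z ∧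
          ¬ LatV (rmH (lf (up D c) y.xD) y.yR) z))
  unfold G GV
  omega

end Pool.RB
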