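import Pool.Agent.RB.St

set_option autoImplicit false

/-!
# Module AGS of project RB (MP_c6e2b4_co, owner helper33), written by helper46
-/

namespace Pool.RB

theorem pAGS (hHB : StHB) (hHU : StHU) (hOkUp : StOkUp) (hCup : StCup) (hCdn : StCdn) (hCLR : StCLR)
    (hLoss : StLoss) : StAGS := by
  classical
  intro D c t hD hc ht htop hlow
  obtain ⟨hc0, hc1, -, -, -⟩ := hD.h c hc
  have hU : Ok (up D c) := hOkUp D c hD hc0 hc1
  have htU : t ∈ (up D c).V := by
    simp only [up, Finset.mem_filter]
    exact ⟨ht, by omega⟩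
  have htlo : (up D c).vlo t = c := by
    simp only [up]; omega
  have hthi : (up D c).vhi t = D.Y1 := by
    simp only [up]; omega
  -- no hole of the upper part meets the line of `t`
  have hside : ∀ w ∈ (up D c).Z, t < w.x1 ∨ w.x2 < t := by
    intro w hw
    have hB := hHB _ hU w hw
    have hO := hU.z w hw
    have hx := hB.x12
    have hy := hB.y12
    have hy0 : c < w.y1 := hB.Y0lt
    have hy1 : w.y2 < D.Y1 := hB.ltY1
    have hnt1 : t ≠ w.xU := by
      intro h
      have := hO.eU
      rw [← h, htlo] at this
      omega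
    have hnt2 : t ≠ w.xD := by
      intro h
      have := hO.eD
      rw [← h, hthi] at this
      omega
    have hno := hO.noV t htU
    rw [htlo, hthi] at hno
    by_contra hcon
    push Not at hcon
    obtain ⟨h1, h2⟩ := hcon
    have h3 : w.x1 < t := by
      rcases lt_or_eq_of_le h1 with h | h
      · exact h
      · exfalso
        simp only [Hole.x1] at h
        omega
    have h4 : t < w.x2 := by
      rcases lt_or_eq_of_le h2 with h | h
      · exact h
      · exfalso
        simp only [Hole.x2] at h
        omega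
    exact hno h3 h4 (by omega) (by omega)
  have hsub : D.Z.filter (fun z => Good D z) ⊆
      (((D.Z.filter (LossC D D.Z c) ∪ AA D c) ∪ (dn D c).Z.filter (fun z => Good (dn D c) z)) ∪
        (lf (up D c) t).Z.filter (fun z => Clean (lf (up D c) t) z ∧ ¬ LatV (lf (up D c) t) z)) ∪
        (rt (up D c) t).Z.filter (fun z => Clean (rt (up D c) t) z ∧ ¬ LatV (rt (up D c) t) z) := by
    intro z hz
    rw [Finset.mem_filter] at hz
    obtain ⟨hzD, hgood⟩ := hz
    obtain ⟨hclean, hnlat⟩ := hgood
    simp only [Finset.mem_union]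
    by_cases hL : LossC D D.Z c z
    · left; left; left; left
      exact Finset.mem_filter.2 ⟨hzD, hL⟩
    have ha : ∀ w ∈ D.Z, w.y1 < c → c < w.y2 → ¬ (z = w ∨ Nb z w) := by
      intro w hw h1 h2 h3
      exact hL (Or.inl ⟨w, hw, h1, h2, h3⟩)
    have hb : ∀ w ∈ D.Z, w.y1 = c → ¬ (z.xD = w.xU ∨ z.yL = w.y2 ∨ z.yR = w.y2) := by
      intro w hw h1 h2
      exact hL (Or.inr (Or.inl ⟨w, hw, h1, h2⟩))
    have hcc : ∀ w ∈ D.Z, w.y2 = c → ¬ (z.xU = w.xD ∨ z.yL = w.y1 ∨ z.yR = w.y1) := by
      intro w hw h1 h2
      exact hL (Or.inr (Or.inr ⟨w, hw, h1, h2⟩))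
    have hBz := hHB D hD z hzD
    have hyz := hBz.y12
    have hs : z.y2 < c ∨ c < z.y1 := by
      by_contra hcon
      push Not at hcon
      obtain ⟨h1, h2⟩ := hcon
      rcases lt_or_eq_of_le h2 with h3 | h3
      · rcases lt_or_eq_of_le h1 with h4 | h4
        · exact ha z hzD h3 h4 (Or.inl rfl)
        · refine hcc z hzD h4.symm (Or.inr ?_)
          simp only [Hole.y1]
          omega
      · refine hb z hzD h3 (Or.inr ?_)
        simp only [Hole.y2]
        omega
    rcases hs with hs | hs
    · -- below
      have hDn : DnC D c z := by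
        refine ⟨hs, fun w hw h1 h2 h3 => ha w hw h1 h2 (Or.inr h3), fun w hw h1 => ?_⟩
        have := hcc w hw h1
        push Not at this
        exact this
      have hcl := hCdn D c z hD hc1.le hzD hclean hDn
      left; left; right
      refine Finset.mem_filter.2 ⟨?_, hcl, ?_⟩
      · simp only [dn, Finset.mem_filter]
        exact ⟨hzD, hs⟩
      · exact hnlat
    · have hUp : UpC D c z := by
        refine ⟨hs, fun w hw h1 h2 h3 => ha w hw h1 h2 (Or.inr h3), fun w hw h1 => ?_⟩
        have := hb w hw h1
        push Not at this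
        exact this
      have hcl := hCup D c z hD hc0.le hzD hclean hUp
      have hzU : z ∈ (up D c).Z := by
        simp only [up, Finset.mem_filter]
        exact ⟨hzD, hs⟩
      by_cases hAA : z ∈ AA D c
      · left; left; left; right; exact hAA
      -- not LatV
      have hnLV : ¬ (max (D.vlo z.xD) c = c ∧ D.vhi z.xU = D.Y1) := by
        rintro ⟨h1, h2⟩
        have h3 : D.vlo z.xD ≤ c := by omega
        rcases lt_or_eq_of_le h3 with h4 | h4
        · exact hAA (Finset.mem_filter.2 ⟨hzD, ⟨hclean, hnlat⟩, h2, h4⟩)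
        · rcases hclean.farD with h5 | ⟨w, hw, h5⟩
          · omega
          · have h6 : D.vlo w.xU = w.y1 := (hD.z w hw).eU
            rw [h5, h4] at h6
            exact hb w hw h6.symm (Or.inl h5.symm)
      have hcr := hCLR (up D c) t z hU (hD.v t ht).1.le (hD.v t ht).2.1.le hzU hcl
      rcases hside z hzU with h | h
      · right
        have hR : RtC (up D c) t z := by
          refine ⟨h, fun w hw h1 h2 => ?_, fun w hw h1 => ?_⟩
          · rcases hside w hw with h' | h' <;> omega
          · rcases hside w hw with h' | h'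
            · omega
            · have := (hHB _ hU w hw).x12
              omega
        refine Finset.mem_filter.2 ⟨?_, hcr.1 hR, ?_⟩
        · simp only [rt, Finset.mem_filter]
          exact ⟨hzU, h⟩
        · exact hnLV
      · left; right
        have hR : LfC (up D c) t z := by
          refine ⟨h, fun w hw h1 h2 => ?_, fun w hw h1 => ?_⟩
          · rcases hside w hw with h' | h' <;> omega
          · rcases hside w hw with h' | h'
            · have := (hHB _ hU w hw).x12
              omega
            · omega
        refine Finset.mem_filter.2 ⟨?_, hcr.2 hR, ?_⟩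
        · simp only [lf, Finset.mem_filter]
          exact ⟨hzU, h⟩
        · exact hnLV
  have hcard := Finset.card_le_card hsub
  have hloss := hLoss D D.Z c hD (Finset.Subset.refl _)
  have e1 := Finset.card_union_le
    (((D.Z.filter (LossC D D.Z c) ∪ AA D c) ∪ (dn D c).Z.filter (fun z => Good (dn D c) z)) ∪
        (lf (up D c) t).Z.filter (fun z => Clean (lf (up D c) t) z ∧ ¬ LatV (lf (up D c) t) z))
    ((rt (up D c) t).Z.filter (fun z => Clean (rt (up D c) t) z ∧ ¬ LatV (rt (up D c) t) z))
  have e2 := Finset.card_union_le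
    ((D.Z.filter (LossC D D.Z c) ∪ AA D c) ∪ (dn D c).Z.filter (fun z => Good (dn D c) z))
    ((lf (up D c) t).Z.filter (fun z => Clean (lf (up D c) t) z ∧ ¬ LatV (lf (up D c) t) z))
  have e3 := Finset.card_union_le
    (D.Z.filter (LossC D D.Z c) ∪ AA D c) ((dn D c).Z.filter (fun z => Good (dn D c) z))
  have e4 := Finset.card_union_le (D.Z.filter (LossC D D.Z c)) (AA D c)
  have g1 : G D = (D.Z.filter (fun z => Good D z)).card := by
    unfold G; convert rfl
  have g2 : G (dn D c) = ((dn D c).Z.filter (fun z => Good (dn D c) z)).card := by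
    unfold G; convert rfl
  have g3 : GV (lf (up D c) t) = ((lf (up D c) t).Z.filter
      (fun z => Clean (lf (up D c) t) z ∧ ¬ LatV (lf (up D c) t) z)).card := by
    unfold GV; convert rfl
  have g4 : GV (rt (up D c) t) = ((rt (up D c) t).Z.filter
      (fun z => Clean (rt (up D c) t) z ∧ ¬ LatV (rt (up D c) t) z)).card := by
    unfold GV; convert rfl
  have g5 : tch D c = (D.Z.filter (fun w => w.y1 = c ∨ w.y2 = c)).card := rfl
  have g6 : (D.Z.filter (LossC D D.Z c)).card ≤ 5 * hit D c + 3 * tch D c := by
    rw [g5]
    convert hloss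
  omega

end Pool.RB
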