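import Pool.Agent.RB.St

/-! Project RB, module AGV (helper89). -/

namespace Pool.RB

/-- no hole touches or meets a full vertical piece -/
private theorem AGV_side (hHB : StHB) (D : Cfg) (x0 : ℤ) (w : Hole) (hD : Ok D)
    (hx : x0 ∈ D.V) (h0 : D.vlo x0 = D.Y0) (h1 : D.vhi x0 = D.Y1) (hw : w ∈ D.Z) :
    w.x2 < x0 ∨ x0 < w.x1 := by
  have bw := hHB D hD w hw
  have okw := hD.z w hw
  have e1 := okw.eU
  have e2 := okw.eD
  have a1 := bw.x12
  have a2 := bw.y12
  have a3 := bw.Y0lt
  have a4 := bw.ltY1
  have n1 : w.xU ≠ x0 := by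
    intro h
    rw [h, h0] at e1
    omega
  have n2 : w.xD ≠ x0 := by
    intro h
    rw [h, h1] at e2
    omega
  have hno := okw.noV x0 hx
  rw [h0, h1] at hno
  have x1c : w.x1 ≠ x0 := by
    unfold Hole.x1
    omega
  have x2c : w.x2 ≠ x0 := by
    unfold Hole.x2
    omega
  by_contra hcon
  rw [not_or] at hcon
  exact hno (by omega) (by omega) (by omega) (by omega)

theorem pAGV (hCLR : StCLR) (hHB : StHB) : StAGV := by
  classical
  intro D x0 hD hx h0 h1
  have hside : ∀ w ∈ D.Z, w.x2 < x0 ∨ x0 < w.x1 :=
    fun w hw => AGV_side hHB D x0 w hD hx h0 h1 hw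
  have hx12 : ∀ w ∈ D.Z, w.x1 < w.x2 := fun w hw => (hHB D hD w hw).x12
  have hxb := hD.v x0 hx
  have hsub : D.Z.filter (fun z => Good D z) ⊆
      ((lf D x0).Z.filter (fun z => Good (lf D x0) z)) ∪
        ((rt D x0).Z.filter (fun z => Good (rt D x0) z)) := by
    intro z hz
    rw [Finset.mem_filter] at hz
    obtain ⟨hzD, hclean, hlat⟩ := hz
    have bz := hHB D hD z hzD
    have okz := hD.z z hzD
    have hcr := hCLR D x0 z hD (by omega) (by omega) hzD hclean
    rw [Finset.mem_union, Finset.mem_filter, Finset.mem_filter]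
    rcases hside z hzD with hs | hs
    · left
      have hR : LfC D x0 z := by
        refine ⟨hs, fun w hw h2 h3 => ?_, fun w hw h2 => ?_⟩
        · rcases hside w hw with h' | h' <;> omega
        · have := hx12 w hw
          rcases hside w hw with h' | h' <;> omega
      refine ⟨Finset.mem_filter.2 ⟨hzD, hs⟩, hcr.2 hR, ?_⟩
      rintro ⟨l1, l2⟩
      apply hlat
      refine ⟨l1, ?_⟩
      exfalso
      have l3 : min (D.hhi z.yR) x0 = x0 := l2
      -- the right arm of `z` would cross the full piece `x0`, or have its end on it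
      have hyR := hD.h z.yR okz.hR
      have hn := hD.nc x0 hx z.yR okz.hR
      rw [h0, h1] at hn
      have a1 := bz.x12
      have eR := okz.eR
      rcases lt_or_ge x0 (D.hhi z.yR) with h4 | h4
      · exact hn (by omega) (by omega) (by omega) h4
      · have h5 : D.hhi z.yR = x0 := by omega
        rcases hclean.farR with h6 | ⟨w, hw, h6⟩
        · omega
        · have e3 := (hD.z w hw).eL
          rw [h6] at e3
          have := hside w hw
          have := hx12 w hw
          omega
    · right
      have hR : RtC D x0 z := by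
        refine ⟨hs, fun w hw h2 h3 => ?_, fun w hw h2 => ?_⟩
        · rcases hside w hw with h' | h' <;> omega
        · have := hx12 w hw
          rcases hside w hw with h' | h' <;> omega
      refine ⟨Finset.mem_filter.2 ⟨hzD, hs⟩, hcr.1 hR, ?_⟩
      rintro ⟨l1, l2⟩
      have l3 : max (D.hlo z.yL) x0 = x0 := l1
      have hyL := hD.h z.yL okz.hL
      have hn := hD.nc x0 hx z.yL okz.hL
      rw [h0, h1] at hn
      have a1 := bz.x12
      have eL := okz.eL
      rcases lt_or_ge (D.hlo z.yL) x0 with h4 | h4
      · exact hn (by omega) (by omega) h4 (by omega)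
      · have h5 : D.hlo z.yL = x0 := by omega
        rcases hclean.farL with h6 | ⟨w, hw, h6⟩
        · omega
        · have e3 := (hD.z w hw).eR
          rw [h6] at e3
          have := hside w hw
          have := hx12 w hw
          omega
  have hcard := (Finset.card_le_card hsub).trans (Finset.card_union_le _ _)
  have g1 : G D = (D.Z.filter (fun z => Good D z)).card := by
    unfold G; congr
  have g2 : G (lf D x0) = ((lf D x0).Z.filter (fun z => Good (lf D x0) z)).card := by
    unfold G; congr
  have g3 : G (rt D x0) = ((rt D x0).Z.filter (fun z => Good (rt D x0) z)).card := by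
    unfold G; congr
  rw [g1, g2, g3]
  exact hcard

end Pool.RB
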