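import Pool.Agent.RB.St

/-!
Project RB, module B3: the corner hole of case 3.
-/

namespace Pool.RB

private theorem B3_ee1 (D : Cfg) (c x : ℤ) (hx : x ∈ D.V)
    (h : D.vhi x = c ∨ (D.vlo x = c ∧ D.vhi x ≠ D.Y1)) : 1 ≤ ee D c := by
  unfold ee
  exact Finset.card_pos.2 ⟨x, Finset.mem_filter.2 ⟨hx, h⟩⟩

private theorem B3_ee2 (D : Cfg) (c x q : ℤ) (hx : x ∈ D.V) (hq : q ∈ D.V) (hne : x ≠ q)
    (h : D.vhi x = c ∨ (D.vlo x = c ∧ D.vhi x ≠ D.Y1))
    (h' : D.vhi q = c ∨ (D.vlo q = c ∧ D.vhi q ≠ D.Y1)) : 2 ≤ ee D c := by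
  unfold ee
  have h1 : ({x, q} : Finset ℤ) ⊆ D.V.filter (fun x => D.vhi x = c ∨ (D.vlo x = c ∧ D.vhi x ≠ D.Y1)) := by
    intro r hr
    rw [Finset.mem_insert, Finset.mem_singleton] at hr
    rcases hr with rfl | rfl
    · exact Finset.mem_filter.2 ⟨hx, h⟩
    · exact Finset.mem_filter.2 ⟨hq, h'⟩
  have h2 := Finset.card_le_card h1
  rwa [Finset.card_pair hne] at h2

theorem pB3 (hHostR : StHostR) (hHB : StHB) (hHU : StHU) : StB3 := by
  classical
  intro D y g hD hyA hgU hY0 hX0 hT hs
  unfold AA at hyA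
  rw [Finset.mem_filter] at hyA
  obtain ⟨hy, hgood, hU, hlt⟩ := hyA
  have byy := hHB D hD y hy
  have oky := hD.z y hy
  have e1 := oky.eU
  have hvD := hD.vlo_end y.xD oky.hD
  have hbH : D.vlo y.xD ∈ D.H ∧ D.hlo (D.vlo y.xD) < y.xD ∧ y.xD < D.hhi (D.vlo y.xD) := by
    rcases hvD with h | h
    · exact absurd h hY0
    · exact h
  have hvhiD : D.vhi y.xD ≠ D.Y1 := by
    have h1 := oky.eD
    have h2 := byy.ltY1
    omega
  have hRX : D.hhi y.yR ≠ D.X1 := fun h => hgood.2 ⟨hX0, h⟩
  have hee1 : 1 ≤ ee D (D.vlo y.xD) := B3_ee1 D _ y.xD oky.hD (Or.inr ⟨rfl, hvhiD⟩)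
  by_cases h2 : 2 ≤ fr D (D.vlo y.xD) + ee D (D.vlo y.xD)
  · exact ⟨D.vlo y.xD, hbH.1, hlt, le_refl _, hee1, h2⟩
  have hfr : ¬ (D.hlo (D.vlo y.xD) ≠ D.X0 ∧ D.hhi (D.vlo y.xD) ≠ D.X1) := by
    intro h
    apply h2
    have : fr D (D.vlo y.xD) = 1 := by
      unfold fr
      rw [if_pos h]
    omega
  by_cases hR : D.hhi (D.vlo y.xD) = D.X1
  · exfalso
    obtain ⟨q, hq, hq1, hq2⟩ := hHostR D y (D.vlo y.xD) hD hy
      (Or.inr ⟨hbH.1, hR, le_of_lt hbH.2.1⟩) (le_refl _) (by omega) (by
        intro y'' hy'' h1 h2' h3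
        obtain ⟨w, hw, h4⟩ := hgood.1.hostLe y'' hy'' (Or.inr h3)
        have okw := hD.z w hw
        have bw := hHB D hD w hw
        have h5 := okw.eR
        rw [h4, h3] at h5
        have h6 : w.x1 = min w.xU w.xD := rfl
        rcases okw.chir with hc | hc
        · exfalso
          have h7 : w.xU = y.xD := by omega
          have h8 := okw.eU
          rw [h7] at h8
          have h9 : w.y1 = min w.yL w.yR := rfl
          have h10 : w.yL = D.vlo y.xD := by omega
          have h11 := okw.eL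
          rw [h10, hR] at h11
          have := bw.ltX1
          omega
        · have h7 : w.xD = y.xD := by omega
          have h8 := (hHU D hD w hw y hy).2.2.2 h7
          rw [← h4, h8]) hRX
    have hq3 : D.vhi q ≠ D.Y1 := by
      intro h
      have := hT q hq h
      omega
    have := B3_ee2 D (D.vlo y.xD) y.xD q oky.hD hq (by omega) (Or.inr ⟨rfl, hvhiD⟩)
      (Or.inr ⟨hq2, hq3⟩)
    omega
  · have hL0 : D.hlo (D.vlo y.xD) = D.X0 := by
      by_contra h
      exact hfr ⟨h, hR⟩
    rcases hgood.1.farD with h | ⟨w, hw, hwU⟩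
    · exact absurd h hY0
    have okw := hD.z w hw
    have bw := hHB D hD w hw
    have h1 := okw.eU
    rw [hwU] at h1
    have hy1 : w.y1 = min w.yL w.yR := rfl
    have hy2 : w.y2 = max w.yL w.yR := rfl
    have hx1 : w.x1 = min w.xU w.xD := rfl
    have hx2 : w.x2 = max w.xU w.xD := rfl
    rcases okw.chir with hc | hc
    · -- type A
      have hbL : w.yL = D.vlo y.xD := by omega
      have hw2 : w.y2 = w.yR := by omega
      have hwx1 : w.x1 = y.xD := by omega
      unfold slk at hs
      have hhit : ¬ (w.y1 < g ∧ g < w.y2) := by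
        intro h
        have : 0 < hit D g := by
          unfold hit
          exact Finset.card_pos.2 ⟨w, Finset.mem_filter.2 ⟨hw, h⟩⟩
        omega
      have hne : w.y2 ≠ g := by
        intro h
        have := B3_ee1 D g w.xD okw.hD (Or.inl (by rw [okw.eD, h]))
        omega
      have htg : w.yR < g := by omega
      have hlow : D.vlo y.xD ≤ w.yR := by omega
      have heD := okw.eD
      have het : 1 ≤ ee D w.yR := B3_ee1 D _ w.xD okw.hD (Or.inl (by rw [heD, hw2]))
      refine ⟨w.yR, okw.hR, htg, hlow, het, ?_⟩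
      have heR := okw.eR
      by_cases hR' : D.hhi w.yR = D.X1
      · obtain ⟨q, hq, hq1, hq2⟩ := hHostR D y w.yR hD hy
          (Or.inr ⟨okw.hR, hR', by omega⟩) hlow (by omega) (by
            intro y'' hy'' h1' h2' h3
            obtain ⟨w', hw', h4⟩ := hgood.1.hostLe y'' hy'' (Or.inr h3)
            have okw' := hD.z w' hw'
            have h5 := okw'.eR
            rw [h4, h3] at h5
            have h6 : w'.x1 = min w'.xU w'.xD := rfl
            rcases okw'.chir with hc' | hc'
            · exfalso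
              have h7 : w'.xU = w.xU := by omega
              have h8 := (hHU D hD w' hw' w hw).2.2.1 h7
              rw [h8] at h4
              omega
            · have h7 : w'.xD = y.xD := by omega
              have h8 := (hHU D hD w' hw' y hy).2.2.2 h7
              rw [← h4, h8]) hRX
        have hq3 : D.vhi q ≠ D.Y1 := by
          intro h
          have := hT q hq h
          omega
        have hqv := (hD.v q hq).2.2.2.1
        have hqne : w.xD ≠ q := by
          rintro rfl
          omega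
        have := B3_ee2 D w.yR w.xD q okw.hD hq hqne (Or.inl (by rw [heD, hw2]))
          (Or.inr ⟨hq2, hq3⟩)
        omega
      · have hfr1 : fr D w.yR = 1 := by
          unfold fr
          rw [if_pos]
          refine ⟨?_, hR'⟩
          rw [heR]
          have := bw.X0lt
          omega
        omega
    · -- type B
      exfalso
      have h2' : w.yR = D.vlo y.xD := by omega
      have h3 := okw.eR
      rw [h2', hL0] at h3
      have := bw.X0lt
      omega

end Pool.RB
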