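import Pool.Agent.RB.St

/-!
# Project RB, module CC: the counting inequality for a cut along a horizontal piece
-/

namespace Pool.RB

/-- the vertical piece crossed by the line `y = c` which is assigned to a face cut by this line -/
private def CC_g (D : Cfg) (c : ℤ) (f : Box) : ℤ := if f.x2 ≤ D.hlo c then f.x2 else f.x1

private theorem CC_map {D : Cfg} {c : ℤ} (hD : Ok D) (hc : c ∈ D.H) {f : Box} (hf : IsFace D f)
    (h1 : f.y1 < c) (h2 : c < f.y2) :
    CC_g D c f ∈ D.V.filter (fun x => D.vlo x < c ∧ c < D.vhi x) := by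
  obtain ⟨hn1, hn2⟩ := hf.nd
  obtain ⟨e1, e2, e3, e4, e5⟩ := hD.h c hc
  have hno := hf.noH c hc h1 h2
  rw [Finset.mem_filter]
  unfold CC_g
  split
  · next hle =>
    rcases hf.right with h | ⟨ha, hb, hd⟩
    · exfalso
      omega
    · exact ⟨ha, by omega, by omega⟩
  · next hle =>
    have hge : D.hhi c ≤ f.x1 := by
      by_contra hcon
      exact hno (by omega) (by omega)
    rcases hf.left with h | ⟨ha, hb, hd⟩
    · exfalso
      omega
    · exact ⟨ha, by omega, by omega⟩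

private theorem CC_inj (hFU : StFU) {D : Cfg} {c : ℤ} (hD : Ok D) (hc : c ∈ D.H) {f g : Box}
    (hf : IsFace D f) (h1 : f.y1 < c) (h2 : c < f.y2) (hg : IsFace D g) (h3 : g.y1 < c)
    (h4 : c < g.y2) (he : CC_g D c f = CC_g D c g) : f = g := by
  obtain ⟨hn1, hn2⟩ := hf.nd
  obtain ⟨hm1, hm2⟩ := hg.nd
  obtain ⟨e1, e2, e3, e4, e5⟩ := hD.h c hc
  have hno := hf.noH c hc h1 h2
  have hno' := hg.noH c hc h3 h4
  have hf' : f.x2 ≤ D.hlo c ∨ D.hhi c ≤ f.x1 := by
    by_contra hcon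
    exact hno (by omega) (by omega)
  have hg' : g.x2 ≤ D.hlo c ∨ D.hhi c ≤ g.x1 := by
    by_contra hcon
    exact hno' (by omega) (by omega)
  apply hFU D f g hf hg
  unfold CC_g at he
  unfold Meets
  split at he
  · split at he
    · refine ⟨by omega, by omega, by omega, by omega⟩
    · exfalso
      omega
  · split at he
    · exfalso
      omega
    · refine ⟨by omega, by omega, by omega, by omega⟩

private theorem CC_A {z : Hole} (a : z.yL < z.yR) (b : z.xU < z.xD) :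
    z.x1 = z.xU ∧ z.x2 = z.xD ∧ z.y1 = z.yL ∧ z.y2 = z.yR :=
  ⟨min_eq_left b.le, max_eq_right b.le, min_eq_left a.le, max_eq_right a.le⟩

private theorem CC_B {z : Hole} (a : z.yR < z.yL) (b : z.xD < z.xU) :
    z.x1 = z.xD ∧ z.x2 = z.xU ∧ z.y1 = z.yR ∧ z.y2 = z.yL :=
  ⟨min_eq_right b.le, max_eq_left b.le, min_eq_right a.le, max_eq_left a.le⟩

private theorem CC_box (hHU : StHU) {D : Cfg} (hD : Ok D) {z w : Hole} (hz : z ∈ D.Z) (hw : w ∈ D.Z)
    (hx1 : z.x1 = w.x1) (hx2 : z.x2 = w.x2) (hy1 : z.y1 = w.y1) (hy2 : z.y2 = w.y2) : z = w := by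
  have u1 := (hHU D hD z hz w hw).1
  rcases (hD.z z hz).chir with ⟨a, b⟩ | ⟨a, b⟩
  · obtain ⟨p1, p2, p3, p4⟩ := CC_A a b
    rcases (hD.z w hw).chir with ⟨a', b'⟩ | ⟨a', b'⟩
    · obtain ⟨q1, q2, q3, q4⟩ := CC_A a' b'
      exact u1 (p3.symm.trans (hy1.trans q3))
    · obtain ⟨q1, q2, q3, q4⟩ := CC_B a' b'
      exfalso
      have h1 : z.yR = w.yL := p4.symm.trans (hy2.trans q4)
      have h2 := hD.adjH z hz w hw h1
      rw [← hx1, p1, p2] at h2
      exact absurd (h2.trans b) (lt_irrefl _)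
  · obtain ⟨p1, p2, p3, p4⟩ := CC_B a b
    rcases (hD.z w hw).chir with ⟨a', b'⟩ | ⟨a', b'⟩
    · obtain ⟨q1, q2, q3, q4⟩ := CC_A a' b'
      exfalso
      have h1 : w.yR = z.yL := q4.symm.trans (hy2.symm.trans p4)
      have h2 := hD.adjH w hw z hz h1
      rw [← hx2, p1, p2] at h2
      exact absurd (h2.trans b) (lt_irrefl _)
    · obtain ⟨q1, q2, q3, q4⟩ := CC_B a' b'
      exact u1 (p4.symm.trans (hy2.trans q4))

theorem pCC (hHB : StHB) (hHU : StHU) (hFU : StFU) : StCC := by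
  classical
  intro D S A c hD hc hFit
  obtain ⟨φ, hφ, hinj⟩ := hFit
  obtain ⟨e1, e2, e3, e4, e5⟩ := hD.h c hc
  set P := A.filter (fun R => Meets R D.box ∧ R.y1 < c ∧ c < R.y2) with hP
  set Q := D.Z.filter (fun z => z.y1 < c ∧ c < z.y2) with hQ
  have hPf : ∀ R ∈ P, IsFace D (φ R) ∧ (φ R).y1 < c ∧ c < (φ R).y2 := by
    intro R hR
    rw [hP, Finset.mem_filter] at hR
    obtain ⟨hRA, hM, hR1, hR2⟩ := hR
    obtain ⟨hF, ⟨_, _, hi3, hi4⟩, _, _⟩ := hφ R hRA hM
    refine ⟨hF, ?_, ?_⟩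
    · exact lt_of_le_of_lt hi3 (max_lt hR1 e1)
    · exact lt_of_lt_of_le (lt_min hR2 e2) hi4
  have hQf : ∀ z ∈ Q, IsFace D z.box ∧ z.box.y1 < c ∧ c < z.box.y2 := by
    intro z hz
    rw [hQ, Finset.mem_filter] at hz
    exact ⟨(hHB D hD z hz.1).face, hz.2.1, hz.2.2⟩
  have hPi : Set.InjOn φ (P : Set Box) := by
    intro R hR R' hR' he
    have hR : R ∈ P := hR
    have hR' : R' ∈ P := hR'
    rw [hP, Finset.mem_filter] at hR hR'
    exact hinj R hR.1 R' hR'.1 hR.2.1 hR'.2.1 he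
  have hQi : Set.InjOn Hole.box (Q : Set Hole) := by
    intro z hz w hw he
    have hz : z ∈ Q := hz
    have hw : w ∈ Q := hw
    rw [hQ, Finset.mem_filter] at hz hw
    have hx1 : z.x1 = w.x1 := congrArg Box.x1 he
    have hx2 : z.x2 = w.x2 := congrArg Box.x2 he
    have hy1 : z.y1 = w.y1 := congrArg Box.y1 he
    have hy2 : z.y2 = w.y2 := congrArg Box.y2 he
    exact CC_box hHU hD hz.1 hw.1 hx1 hx2 hy1 hy2
  have hdis : Disjoint (P.image φ) (Q.image Hole.box) := by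
    rw [Finset.disjoint_left]
    intro f hf hf'
    rw [Finset.mem_image] at hf hf'
    obtain ⟨R, hR, rfl⟩ := hf
    obtain ⟨z, hz, he⟩ := hf'
    rw [hP, Finset.mem_filter] at hR
    rw [hQ, Finset.mem_filter] at hz
    exact (hφ R hR.1 hR.2.1).2.2.1 z hz.1 he.symm
  have hall : ∀ f ∈ P.image φ ∪ Q.image Hole.box, IsFace D f ∧ f.y1 < c ∧ c < f.y2 := by
    intro f hf
    rw [Finset.mem_union, Finset.mem_image, Finset.mem_image] at hf
    rcases hf with ⟨R, hR, rfl⟩ | ⟨z, hz, rfl⟩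
    · exact hPf R hR
    · exact hQf z hz
  have hcard : (P.image φ ∪ Q.image Hole.box).card = P.card + Q.card := by
    rw [Finset.card_union_of_disjoint hdis, Finset.card_image_of_injOn hPi,
      Finset.card_image_of_injOn hQi]
  have hle : (P.image φ ∪ Q.image Hole.box).card ≤
      (D.V.filter (fun x => D.vlo x < c ∧ c < D.vhi x)).card := by
    apply Finset.card_le_card_of_injOn (CC_g D c)
    · intro f hf
      have hf : f ∈ P.image φ ∪ Q.image Hole.box := hf
      obtain ⟨a, b, d⟩ := hall f hf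
      exact CC_map hD hc a b d
    · intro f hf g hg he
      have hf : f ∈ P.image φ ∪ Q.image Hole.box := hf
      have hg : g ∈ P.image φ ∪ Q.image Hole.box := hg
      obtain ⟨a, b, d⟩ := hall f hf
      obtain ⟨a', b', d'⟩ := hall g hg
      exact CC_inj hFU hD hc a b d a' b' d' he
  have h0 : hit D c = Q.card := rfl
  have h1 : crs D c = (D.V.filter (fun x => D.vlo x < c ∧ c < D.vhi x)).card := rfl
  rw [h0, h1, ← hcard]
  exact hle

end Pool.RB
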