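import Pool.Agent.RB.St

/-!
# Project RB, module CCV: counting the members cut by a vertical line along a piece
-/

namespace Pool.RB

/-- MODULE CCV. -/
theorem pCCV (hHB : StHB) (hFU : StFU) : StCCV := by
  have _h0 := hHB
  intro D S A x hok hx hfit
  obtain ⟨φ, h1, h2⟩ := hfit
  have hv := hok.v x hx
  have key : ∀ R ∈ A, Meets R D.box → R.x1 < x → x < R.x2 →
      IsFace D (φ R) ∧ (φ R).x1 < x ∧ x < (φ R).x2 ∧
        ((φ R).y2 ≤ D.vlo x ∨ D.vhi x ≤ (φ R).y1) := by
    intro R hR hm hl hr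
    obtain ⟨hf, ⟨i1, i2, -, -⟩, -, -⟩ := h1 R hR hm
    have e1 : (φ R).x1 < x := by
      have : max R.x1 D.X0 < x := max_lt hl hv.1
      omega
    have e2 : x < (φ R).x2 := by
      have : x < min R.x2 D.X1 := lt_min hr hv.2.1
      omega
    refine ⟨hf, e1, e2, ?_⟩
    by_contra hc
    push Not at hc
    exact hf.noV x hx e1 e2 hc.1 hc.2
  unfold crsV
  apply Finset.card_le_card_of_injOn (fun R => if (φ R).y2 ≤ D.vlo x then (φ R).y2 else (φ R).y1)
  · intro R hR
    simp only [Finset.coe_filter, Set.mem_ofPred_eq] at hR ⊢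
    obtain ⟨hRA, hm, hl, hr⟩ := hR
    obtain ⟨hf, e1, e2, e3⟩ := key R hRA hm hl hr
    by_cases hc : (φ R).y2 ≤ D.vlo x
    · simp only [if_pos hc]
      rcases hf.top with ht | ⟨t1, t2, t3⟩
      · omega
      · exact ⟨t1, by omega, by omega⟩
    · simp only [if_neg hc]
      have hc' : D.vhi x ≤ (φ R).y1 := by
        rcases e3 with h | h
        · exact absurd h hc
        · exact h
      rcases hf.bot with ht | ⟨t1, t2, t3⟩
      · omega
      · exact ⟨t1, by omega, by omega⟩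
  · intro R hR R' hR' he
    simp only [Finset.coe_filter, Set.mem_ofPred_eq] at hR hR'
    obtain ⟨hRA, hm, hl, hr⟩ := hR
    obtain ⟨hRA', hm', hl', hr'⟩ := hR'
    obtain ⟨hf, e1, e2, e3⟩ := key R hRA hm hl hr
    obtain ⟨hf', e1', e2', e3'⟩ := key R' hRA' hm' hl' hr'
    apply h2 R hRA R' hRA' hm hm'
    apply hFU D _ _ hf hf'
    have n1 := hf.nd
    have n2 := hf'.nd
    obtain ⟨n1a, n1b⟩ := n1
    obtain ⟨n2a, n2b⟩ := n2
    dsimp only at he
    refine ⟨by omega, by omega, ?_, ?_⟩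
    · split_ifs at he <;> omega
    · split_ifs at he <;> omega

end Pool.RB
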