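import Pool.Agent.RB.St

/-! Project RB, module CLR: clean holes stay clean in the right / left part. -/

namespace Pool.RB

private theorem CLR_memR {D : Cfg} {c : ℤ} {w : Hole} (h : w ∈ D.Z) (h2 : c < w.x1) :
    w ∈ (rt D c).Z := by
  show w ∈ D.Z.filter (fun z => c < z.x1)
  rw [Finset.mem_filter]
  exact ⟨h, h2⟩

private theorem CLR_memL {D : Cfg} {c : ℤ} {w : Hole} (h : w ∈ D.Z) (h2 : w.x2 < c) :
    w ∈ (lf D c).Z := by
  show w ∈ D.Z.filter (fun z => z.x2 < c)
  rw [Finset.mem_filter]
  exact ⟨h, h2⟩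

private theorem CLR_nbR {D : Cfg} {c : ℤ} {z w : Hole} (hz : RtC D c z) (hw : w ∈ D.Z)
    (hn : Nb z w) (h2 : c < w.x2) (h1 : w.x1 ≠ c) : w ∈ (rt D c).Z := by
  refine CLR_memR hw ?_
  by_contra hcon
  exact hz.2.1 w hw (lt_of_le_of_ne (not_lt.mp hcon) h1) h2 hn

private theorem CLR_nbL {D : Cfg} {c : ℤ} {z w : Hole} (hz : LfC D c z) (hw : w ∈ D.Z)
    (hn : Nb z w) (h1 : w.x1 < c) (h2 : w.x2 ≠ c) : w ∈ (lf D c).Z := by
  refine CLR_memL hw ?_
  by_contra hcon
  exact hz.2.1 w hw h1 (lt_of_le_of_ne (not_lt.mp hcon) (Ne.symm h2)) hn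

private theorem CLR_rt (hHB : StHB) (hHU : StHU) {D : Cfg} {c : ℤ} {z : Hole} (hD : Ok D)
    (hX : D.X0 ≤ c) (hz : z ∈ D.Z) (hc : Clean D z) (hu : RtC D c z) : Clean (rt D c) z := by
  have hcz := hu.1
  have zU : c < z.xU := lt_of_lt_of_le hcz (min_le_left _ _)
  have zD : c < z.xD := lt_of_lt_of_le hcz (min_le_right _ _)
  have z12 := (hHB D hD z hz).x12
  refine ⟨?_, ?_, ?_, ?_, ?_, ?_, ?_, ?_⟩
  · -- farL
    by_cases h : D.hlo z.yL ≤ c
    · left
      show max (D.hlo z.yL) c = c
      exact max_eq_right h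
    · rcases hc.farL with h1 | ⟨w, hw, he⟩
      · omega
      · have h2 := (hD.z w hw).eR
        rw [he] at h2
        exact Or.inr ⟨w, CLR_memR hw (by omega), he⟩
  · -- farR
    rcases hc.farR with h | ⟨w, hw, he⟩
    · exact Or.inl h
    · have h1 := hD.adjH z hz w hw he.symm
      exact Or.inr ⟨w, CLR_memR hw (by omega), he⟩
  · -- farU
    rcases hc.farU with h | ⟨w, hw, he⟩
    · exact Or.inl h
    · refine Or.inr ⟨w, CLR_nbR hu hw (Or.inr (Or.inr (Or.inl he.symm))) ?_ ?_, he⟩
      · exact lt_of_lt_of_le (by rw [he]; exact zU) (le_max_right _ _)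
      · intro h1
        have h3 := (hu.2.2 w hw h1).2.2
        have h4 : w.x2 = w.xD := by
          unfold Hole.x1 at h1
          unfold Hole.x2
          omega
        omega
  · -- farD
    rcases hc.farD with h | ⟨w, hw, he⟩
    · exact Or.inl h
    · refine Or.inr ⟨w, CLR_nbR hu hw (Or.inr (Or.inr (Or.inr he.symm))) ?_ ?_, he⟩
      · exact lt_of_lt_of_le (by rw [he]; exact zD) (le_max_left _ _)
      · intro h1
        have h3 := (hu.2.2 w hw h1).2.1
        have h4 : w.x2 = w.xU := by
          unfold Hole.x1 at h1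
          unfold Hole.x2
          omega
        omega
  · -- hostHi
    intro x hx h
    have hx' : x ∈ D.V := (Finset.mem_filter.mp hx).1
    have hxc : c < x := (Finset.mem_filter.mp hx).2
    have h' : D.vhi x = z.yL ∨ D.vhi x = z.yR := h
    obtain ⟨w, hw, he⟩ := hc.hostHi x hx' h'
    have h2 := (hD.z w hw).eD
    rw [he] at h2
    refine ⟨w, ?_, he⟩
    have h6 : w.y2 = w.yL ∨ w.y2 = w.yR := by unfold Hole.y2; omega
    have hU := hHU D hD z hz w hw
    have h7 : c < w.x2 := lt_of_lt_of_le (by rw [he]; exact hxc) (le_max_right _ _)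
    rcases h' with h5 | h5
    · rcases h6 with h6 | h6
      · have := hU.1 (by omega)
        rw [← this]
        exact CLR_memR hz hcz
      · refine CLR_nbR hu hw (Or.inr (Or.inl (by omega))) h7 fun h1 => ?_
        exact (hu.2.2 w hw h1).1 (by omega)
    · rcases h6 with h6 | h6
      · have h1 := hD.adjH z hz w hw (by omega)
        exact CLR_memR hw (by omega)
      · have := hU.2.1 (by omega)
        rw [← this]
        exact CLR_memR hz hcz
  · -- hostLo
    intro x hx h
    have hx' : x ∈ D.V := (Finset.mem_filter.mp hx).1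
    have hxc : c < x := (Finset.mem_filter.mp hx).2
    have h' : D.vlo x = z.yL ∨ D.vlo x = z.yR := h
    obtain ⟨w, hw, he⟩ := hc.hostLo x hx' h'
    have h2 := (hD.z w hw).eU
    rw [he] at h2
    refine ⟨w, ?_, he⟩
    have h6 : w.y1 = w.yL ∨ w.y1 = w.yR := by unfold Hole.y1; omega
    have hU := hHU D hD z hz w hw
    have h7 : c < w.x2 := lt_of_lt_of_le (by rw [he]; exact hxc) (le_max_left _ _)
    rcases h' with h5 | h5
    · rcases h6 with h6 | h6
      · have := hU.1 (by omega)
        rw [← this]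
        exact CLR_memR hz hcz
      · refine CLR_nbR hu hw (Or.inr (Or.inl (by omega))) h7 fun h1 => ?_
        exact (hu.2.2 w hw h1).1 (by omega)
    · rcases h6 with h6 | h6
      · have h1 := hD.adjH z hz w hw (by omega)
        exact CLR_memR hw (by omega)
      · have := hU.2.1 (by omega)
        rw [← this]
        exact CLR_memR hz hcz
  · -- hostRi
    intro y hy h
    have hy' : y ∈ D.H := (Finset.mem_filter.mp hy).1
    have h' : D.hhi y = z.xU ∨ D.hhi y = z.xD := h
    obtain ⟨w, hw, he⟩ := hc.hostRi y hy' h'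
    have h2 := (hD.z w hw).eL
    rw [he] at h2
    refine ⟨w, CLR_memR hw ?_, he⟩
    by_contra hcon
    rcases eq_or_lt_of_le (not_lt.mp hcon) with h3 | h3
    · have h4 := hu.2.2 w hw h3
      rcases h' with h5 | h5
      · exact h4.2.2 (by omega)
      · exact h4.2.1 (by omega)
    · have h4 := hu.2.1 w hw h3 (by rcases h' with h5 | h5 <;> omega)
      have h6 : w.x2 = w.xU ∨ w.x2 = w.xD := by unfold Hole.x2; omega
      have hU := hHU D hD z hz w hw
      have hne : z ≠ w := by
        rintro rfl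
        omega
      rcases h' with h5 | h5
      · rcases h6 with h6 | h6
        · exact hne (hU.2.2.1 (by omega))
        · exact h4 (Or.inr (Or.inr (Or.inl (by omega))))
      · rcases h6 with h6 | h6
        · exact h4 (Or.inr (Or.inr (Or.inr (by omega))))
        · exact hne (hU.2.2.2 (by omega))
  · -- hostLe
    intro y hy h
    have hy' : y ∈ D.H := (Finset.mem_filter.mp hy).1
    have h' : max (D.hlo y) c = z.xU ∨ max (D.hlo y) c = z.xD := h
    have h3 : (D.hlo y = z.xU ∨ D.hlo y = z.xD) ∧ c < D.hlo y := by omega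
    obtain ⟨w, hw, he⟩ := hc.hostLe y hy' h3.1
    have h2 := (hD.z w hw).eR
    rw [he] at h2
    exact ⟨w, CLR_memR hw (by omega), he⟩

private theorem CLR_lf (hHB : StHB) (hHU : StHU) {D : Cfg} {c : ℤ} {z : Hole} (hD : Ok D)
    (hX : c ≤ D.X1) (hz : z ∈ D.Z) (hc : Clean D z) (hu : LfC D c z) : Clean (lf D c) z := by
  have hcz := hu.1
  have zU : z.xU < c := lt_of_le_of_lt (le_max_left _ _) hcz
  have zD : z.xD < c := lt_of_le_of_lt (le_max_right _ _) hcz
  have z12 := (hHB D hD z hz).x12
  refine ⟨?_, ?_, ?_, ?_, ?_, ?_, ?_, ?_⟩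
  · -- farL
    rcases hc.farL with h | ⟨w, hw, he⟩
    · exact Or.inl h
    · have h1 := hD.adjH w hw z hz he
      exact Or.inr ⟨w, CLR_memL hw (by omega), he⟩
  · -- farR
    by_cases h : c ≤ D.hhi z.yR
    · left
      show min (D.hhi z.yR) c = c
      exact min_eq_right h
    · rcases hc.farR with h1 | ⟨w, hw, he⟩
      · omega
      · have h2 := (hD.z w hw).eL
        rw [he] at h2
        exact Or.inr ⟨w, CLR_memL hw (by omega), he⟩
  · -- farU
    rcases hc.farU with h | ⟨w, hw, he⟩
    · exact Or.inl h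
    · refine Or.inr ⟨w, CLR_nbL hu hw (Or.inr (Or.inr (Or.inl he.symm))) ?_ ?_, he⟩
      · exact lt_of_le_of_lt (min_le_right _ _) (by rw [he]; exact zU)
      · intro h1
        have h3 := (hu.2.2 w hw h1).2.2
        have h4 : w.x1 = w.xD := by
          unfold Hole.x2 at h1
          unfold Hole.x1
          omega
        omega
  · -- farD
    rcases hc.farD with h | ⟨w, hw, he⟩
    · exact Or.inl h
    · refine Or.inr ⟨w, CLR_nbL hu hw (Or.inr (Or.inr (Or.inr he.symm))) ?_ ?_, he⟩
      · exact lt_of_le_of_lt (min_le_left _ _) (by rw [he]; exact zD)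
      · intro h1
        have h3 := (hu.2.2 w hw h1).2.1
        have h4 : w.x1 = w.xU := by
          unfold Hole.x2 at h1
          unfold Hole.x1
          omega
        omega
  · -- hostHi
    intro x hx h
    have hx' : x ∈ D.V := (Finset.mem_filter.mp hx).1
    have hxc : x < c := (Finset.mem_filter.mp hx).2
    have h' : D.vhi x = z.yL ∨ D.vhi x = z.yR := h
    obtain ⟨w, hw, he⟩ := hc.hostHi x hx' h'
    have h2 := (hD.z w hw).eD
    rw [he] at h2
    refine ⟨w, ?_, he⟩
    have h6 : w.y2 = w.yL ∨ w.y2 = w.yR := by unfold Hole.y2; omega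
    have hU := hHU D hD z hz w hw
    have h7 : w.x1 < c := lt_of_le_of_lt (min_le_right _ _) (by rw [he]; exact hxc)
    rcases h' with h5 | h5
    · rcases h6 with h6 | h6
      · have := hU.1 (by omega)
        rw [← this]
        exact CLR_memL hz hcz
      · have h1 := hD.adjH w hw z hz (by omega)
        exact CLR_memL hw (by omega)
    · rcases h6 with h6 | h6
      · refine CLR_nbL hu hw (Or.inl (by omega)) h7 fun h1 => ?_
        exact (hu.2.2 w hw h1).1 (by omega)
      · have := hU.2.1 (by omega)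
        rw [← this]
        exact CLR_memL hz hcz
  · -- hostLo
    intro x hx h
    have hx' : x ∈ D.V := (Finset.mem_filter.mp hx).1
    have hxc : x < c := (Finset.mem_filter.mp hx).2
    have h' : D.vlo x = z.yL ∨ D.vlo x = z.yR := h
    obtain ⟨w, hw, he⟩ := hc.hostLo x hx' h'
    have h2 := (hD.z w hw).eU
    rw [he] at h2
    refine ⟨w, ?_, he⟩
    have h6 : w.y1 = w.yL ∨ w.y1 = w.yR := by unfold Hole.y1; omega
    have hU := hHU D hD z hz w hw
    have h7 : w.x1 < c := lt_of_le_of_lt (min_le_left _ _) (by rw [he]; exact hxc)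
    rcases h' with h5 | h5
    · rcases h6 with h6 | h6
      · have := hU.1 (by omega)
        rw [← this]
        exact CLR_memL hz hcz
      · have h1 := hD.adjH w hw z hz (by omega)
        exact CLR_memL hw (by omega)
    · rcases h6 with h6 | h6
      · refine CLR_nbL hu hw (Or.inl (by omega)) h7 fun h1 => ?_
        exact (hu.2.2 w hw h1).1 (by omega)
      · have := hU.2.1 (by omega)
        rw [← this]
        exact CLR_memL hz hcz
  · -- hostRi
    intro y hy h
    have hy' : y ∈ D.H := (Finset.mem_filter.mp hy).1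
    have h' : min (D.hhi y) c = z.xU ∨ min (D.hhi y) c = z.xD := h
    have h3 : (D.hhi y = z.xU ∨ D.hhi y = z.xD) ∧ D.hhi y < c := by omega
    obtain ⟨w, hw, he⟩ := hc.hostRi y hy' h3.1
    have h2 := (hD.z w hw).eL
    rw [he] at h2
    exact ⟨w, CLR_memL hw (by omega), he⟩
  · -- hostLe
    intro y hy h
    have hy' : y ∈ D.H := (Finset.mem_filter.mp hy).1
    have h' : D.hlo y = z.xU ∨ D.hlo y = z.xD := h
    obtain ⟨w, hw, he⟩ := hc.hostLe y hy' h'
    have h2 := (hD.z w hw).eR
    rw [he] at h2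
    refine ⟨w, CLR_memL hw ?_, he⟩
    by_contra hcon
    rcases eq_or_lt_of_le (not_lt.mp hcon) with h3 | h3
    · have h4 := hu.2.2 w hw h3.symm
      rcases h' with h5 | h5
      · exact h4.2.2 (by omega)
      · exact h4.2.1 (by omega)
    · have h4 := hu.2.1 w hw (by rcases h' with h5 | h5 <;> omega) h3
      have h6 : w.x1 = w.xU ∨ w.x1 = w.xD := by unfold Hole.x1; omega
      have hU := hHU D hD z hz w hw
      have hne : z ≠ w := by
        rintro rfl
        omega
      rcases h' with h5 | h5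
      · rcases h6 with h6 | h6
        · exact hne (hU.2.2.1 (by omega))
        · exact h4 (Or.inr (Or.inr (Or.inl (by omega))))
      · rcases h6 with h6 | h6
        · exact h4 (Or.inr (Or.inr (Or.inr (by omega))))
        · exact hne (hU.2.2.2 (by omega))

theorem pCLR (hHB : StHB) (hHU : StHU) : StCLR := by
  intro D c z hD hX0 hX1 hz hc
  exact ⟨fun hu => CLR_rt hHB hHU hD hX0 hz hc hu, fun hu => CLR_lf hHB hHU hD hX1 hz hc hu⟩

end Pool.RB
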