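import Pool.Agent.RB.St

/-! # Module Ccl of project RB (helper95): cleanness in the right child of the corner move -/

namespace Pool.RB

theorem pCcl (hHB : StHB) (hHU : StHU) : StCcl := by
  intro D y z hD hy hA hU hz hcl hg ht hhit htch
  have hyo := hD.z y hy
  have hzo := hD.z z hz
  have hyB := hHB D hD y hy
  have hzB := hHB D hD z hz
  -- basic data of `y`
  have hychir := hyo.chir
  have hyU : D.vlo y.xU = y.yL := by
    have := hyo.eU; simp only [Hole.y1] at this; omega
  have hyRx : D.hlo y.yR = y.xU := by
    have := hyo.eR; simp only [Hole.x1] at this; omega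
  have hyx1 : y.x1 = y.xU := by simp only [Hole.x1]; omega
  have hyy1 : y.y1 = y.yL := by simp only [Hole.y1]; omega
  have htv := hD.v y.xU hyo.hU
  have hgv := hD.h y.yL hyo.hL
  -- (0)
  have h0 : ∀ w ∈ D.Z, y.yL < w.y1 → w.x2 < y.xU ∨ y.xU < w.x1 := by
    intro w hw h1
    have hwo := hD.z w hw
    have hwB := hHB D hD w hw
    by_contra hcon
    push Not at hcon
    obtain ⟨hc1, hc2⟩ := hcon
    have hne : w ≠ y := by
      rintro rfl; omega
    have e1 : w.xU ≠ y.xU := fun h => hne ((hHU D hD w hw y hy).2.2.1 h)
    have e2 : w.xD ≠ y.xU := by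
      intro h
      have h3 := hwo.eD
      rw [h, hU] at h3
      have h4 := hwB.ltY1
      omega
    have hlt1 : w.x1 < y.xU := by
      simp only [Hole.x1, Hole.x2] at hc1 hc2 ⊢
      omega
    have hlt2 : y.xU < w.x2 := by
      simp only [Hole.x1, Hole.x2] at hc1 hc2 ⊢
      omega
    refine hwo.noV y.xU hyo.hU hlt1 hlt2 ?_ ?_
    · have := hwB.y12
      omega
    · have := hwB.ltY1
      have := hwB.y12
      omega
  -- membership in the child
  have hmem : ∀ w ∈ D.Z, y.yL < w.y1 → y.xU < w.x1 →
      w ∈ (abC (rt (up D y.yL) y.xU) y.xD).Z := by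
    intro w hw h1 h2
    simp only [abC, rt, up, Finset.mem_filter]
    exact ⟨⟨hw, h1⟩, h2⟩
  -- (1)
  have hK : ∀ w ∈ D.Z, w ≠ y → Nb z w → y.yL < w.y2 →
      (w.y1 = y.yL → z.xD = w.xU ∨ z.yL = w.y2 ∨ z.yR = w.y2) → y.yL < w.y1 := by
    intro w hw hne hnb hy2 himp
    rcases lt_trichotomy w.y1 y.yL with h | h | h
    · exact absurd hnb (hhit w hw h hy2)
    · exfalso
      have h5 := htch w hw hne h
      rcases himp h with h6 | h6 | h6
      · exact h5.1 h6
      · exact h5.2.1 h6
      · exact h5.2.2 h6
    · exact h
  have hzy : z ≠ y := by rintro rfl; omega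
  have hzc := hzo.chir
  have zy1 := hg
  have zx1 := ht
  simp only [Hole.y1] at zy1
  simp only [Hole.x1] at zx1
  refine ⟨?_, ?_, ?_, ?_, ?_, ?_, ?_, ?_⟩
  · -- farL
    rcases hcl.farL with h | ⟨w, hw, hwe⟩
    · left
      simp only [abC, rt, up]
      rw [h]
      have : max D.X0 y.xU = y.xU := by omega
      rw [this]
      split_ifs <;> rfl
    · by_cases hwy : w = y
      · left
        subst hwy
        simp only [abC, rt, up]
        rw [← hwe, hyRx, max_self]
        split_ifs <;> rfl
      · right
        refine ⟨w, ?_, hwe⟩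
        have hwo := hD.z w hw
        have hwB := hHB D hD w hw
        have hwc := hwo.chir
        have h1 : y.yL < w.y1 := by
          apply hK w hw hwy (Or.inr (Or.inl hwe.symm))
          · simp only [Hole.y2]; omega
          · intro h
            right; left
            simp only [Hole.y1, Hole.y2] at h ⊢
            omega
        refine hmem w hw h1 ?_
        rcases h0 w hw h1 with h2 | h2
        · exfalso
          refine hD.nc y.xU hyo.hU z.yL hzo.hL ?_ ?_ ?_ ?_
          · omega
          · have := hzB.ltY1
            simp only [Hole.y2] at this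
            omega
          · rw [← hwe, hwo.eR]
            have := hwB.x12
            omega
          · rw [hzo.eL]
            have := hzB.x12
            omega
        · exact h2
  · -- farR
    rcases hcl.farR with h | ⟨w, hw, hwe⟩
    · left; exact h
    · right
      refine ⟨w, ?_, hwe⟩
      have hwo := hD.z w hw
      have hwc := hwo.chir
      have hwy : w ≠ y := by rintro rfl; omega
      have h1 : y.yL < w.y1 := by
        apply hK w hw hwy (Or.inl hwe.symm)
        · simp only [Hole.y2]; omega
        · intro h
          right; right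
          simp only [Hole.y1, Hole.y2] at h ⊢
          omega
      refine hmem w hw h1 ?_
      have := hD.adjH z hz w hw hwe.symm
      have := hzB.x12
      omega
  · -- farU
    rcases hcl.farU with h | ⟨w, hw, hwe⟩
    · left; exact h
    · right
      refine ⟨w, ?_, hwe⟩
      have h2 := hD.adjV z hz w hw hwe.symm
      have h3 := hzB.y12
      have h1 : y.yL < w.y1 := by omega
      refine hmem w hw h1 ?_
      rcases h0 w hw h1 with h4 | h4
      · exfalso
        simp only [Hole.x2] at h4
        omega
      · exact h4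
  · -- farD
    rcases hcl.farD with h | ⟨w, hw, hwe⟩
    · left
      simp only [abC, rt, up]
      rw [h]
      omega
    · have hwo := hD.z w hw
      have h5 := hwo.eU
      rw [hwe] at h5
      by_cases h6 : D.vlo z.xD ≤ y.yL
      · left
        simp only [abC, rt, up]
        omega
      · right
        refine ⟨w, ?_, hwe⟩
        have h1 : y.yL < w.y1 := by omega
        refine hmem w hw h1 ?_
        rcases h0 w hw h1 with h4 | h4
        · exfalso
          simp only [Hole.x2] at h4
          omega
        · exact h4
  · -- hostHi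
    intro x hx hxe
    simp only [abC, rt, up, Finset.mem_erase, Finset.mem_filter] at hx hxe
    obtain ⟨hxs, ⟨hxV, hxg⟩, hxt⟩ := hx
    obtain ⟨w, hw, hwe⟩ := hcl.hostHi x hxV hxe
    refine ⟨w, ?_, hwe⟩
    have hwo := hD.z w hw
    have hwc := hwo.chir
    have hwy : w ≠ y := by rintro rfl; exact hxs hwe.symm
    have h5 := hwo.eD
    rw [hwe] at h5
    have h1 : y.yL < w.y1 := by
      by_cases hwz : w = z
      · rw [hwz]; exact hg
      · have n1 : w.yL ≠ z.yL := fun h => hwz ((hHU D hD w hw z hz).1 h)
        have n2 : w.yR ≠ z.yR := fun h => hwz ((hHU D hD w hw z hz).2.1 h)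
        have h6 : w.y2 = z.yL ∨ w.y2 = z.yR := by rw [← h5]; exact hxe
        apply hK w hw hwy
        · simp only [Hole.y2] at h6
          unfold Nb
          omega
        · omega
        · intro _
          rcases h6 with h6 | h6
          · exact Or.inr (Or.inl h6.symm)
          · exact Or.inr (Or.inr h6.symm)
    refine hmem w hw h1 ?_
    rcases h0 w hw h1 with h4 | h4
    · exfalso
      simp only [Hole.x2] at h4
      omega
    · exact h4
  · -- hostLo
    intro x hx hxe
    simp only [abC, rt, up, Finset.mem_erase, Finset.mem_filter] at hx hxe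
    obtain ⟨hxs, ⟨hxV, hxg⟩, hxt⟩ := hx
    have hx1 : y.yL < D.vlo x := by omega
    have hx2 : D.vlo x = z.yL ∨ D.vlo x = z.yR := by omega
    obtain ⟨w, hw, hwe⟩ := hcl.hostLo x hxV hx2
    refine ⟨w, ?_, hwe⟩
    have hwo := hD.z w hw
    have h5 := hwo.eU
    rw [hwe] at h5
    have h1 : y.yL < w.y1 := by omega
    refine hmem w hw h1 ?_
    rcases h0 w hw h1 with h4 | h4
    · exfalso
      simp only [Hole.x2] at h4
      omega
    · exact h4
  · -- hostRi
    intro y' hy' hye
    simp only [abC, rt, up, Finset.mem_filter] at hy' hye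
    obtain ⟨⟨hyH, hyg⟩, hyt⟩ := hy'
    obtain ⟨w, hw, hwe⟩ := hcl.hostRi y' hyH hye
    refine ⟨w, ?_, hwe⟩
    have hwo := hD.z w hw
    have hwc := hwo.chir
    have hwy : w ≠ y := by rintro rfl; omega
    have h5 := hwo.eL
    rw [hwe] at h5
    have h6 : w.x2 = z.xU ∨ w.x2 = z.xD := by rw [← h5]; exact hye
    have h1 : y.yL < w.y1 := by
      by_cases hwz : w = z
      · rw [hwz]; exact hg
      · have n1 : w.xU ≠ z.xU := fun h => hwz ((hHU D hD w hw z hz).2.2.1 h)
        have n2 : w.xD ≠ z.xD := fun h => hwz ((hHU D hD w hw z hz).2.2.2 h)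
        simp only [Hole.x2] at h6
        apply hK w hw hwy
        · unfold Nb
          omega
        · simp only [Hole.y2]; omega
        · intro h
          left
          simp only [Hole.y1] at h
          omega
    refine hmem w hw h1 ?_
    rcases h0 w hw h1 with h4 | h4
    · exfalso
      omega
    · exact h4
  · -- hostLe
    intro y' hy' hye
    simp only [abC, rt, up, Finset.mem_filter] at hy' hye
    obtain ⟨⟨hyH, hyg⟩, hyt⟩ := hy'
    have hx2 : y.xU < D.hlo y' ∧ (D.hlo y' = z.xU ∨ D.hlo y' = z.xD) := by
      split_ifs at hye <;> omega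
    obtain ⟨w, hw, hwe⟩ := hcl.hostLe y' hyH hx2.2
    refine ⟨w, ?_, hwe⟩
    have hwo := hD.z w hw
    have hwc := hwo.chir
    have h5 := hwo.eR
    rw [hwe] at h5
    have h7 : y.xU < w.x1 := by omega
    have hwy : w ≠ y := by rintro rfl; omega
    have h6 : w.x1 = z.xU ∨ w.x1 = z.xD := by rw [← h5]; exact hx2.2
    have h1 : y.yL < w.y1 := by
      by_cases hwz : w = z
      · rw [hwz]; exact hg
      · have n1 : w.xU ≠ z.xU := fun h => hwz ((hHU D hD w hw z hz).2.2.1 h)
        have n2 : w.xD ≠ z.xD := fun h => hwz ((hHU D hD w hw z hz).2.2.2 h)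
        simp only [Hole.x1] at h6
        apply hK w hw hwy
        · unfold Nb
          omega
        · simp only [Hole.y2]; omega
        · intro h
          left
          simp only [Hole.y1] at h
          omega
    exact hmem w hw h1 h7

end Pool.RB
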