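import Pool.Agent.RB.St

/-! Project RB, module Cdn: clean holes stay clean in the lower part. -/

namespace Pool.RB

private theorem Cdn_mem {D : Cfg} {c : ℤ} {w : Hole} (h : w ∈ D.Z) (h2 : w.y2 < c) :
    w ∈ (dn D c).Z := by
  show w ∈ D.Z.filter (fun z => z.y2 < c)
  rw [Finset.mem_filter]
  exact ⟨h, h2⟩

private theorem Cdn_nb {D : Cfg} {c : ℤ} {z w : Hole} (hz : DnC D c z) (hw : w ∈ D.Z)
    (hn : Nb z w) (h2 : w.y1 < c) (h1 : w.y2 ≠ c) : w ∈ (dn D c).Z := by
  refine Cdn_mem hw ?_
  by_contra hcon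
  exact hz.2.1 w hw h2 (lt_of_le_of_ne (not_lt.mp hcon) (Ne.symm h1)) hn

theorem pCdn (hHB : StHB) (hHU : StHU) : StCdn := by
  intro D c z hD hY hz hc hu
  have hcz := hu.1
  have hzo := hD.z z hz
  have zL : z.yL < c := lt_of_le_of_lt (le_max_left _ _) hcz
  have zR : z.yR < c := lt_of_le_of_lt (le_max_right _ _) hcz
  have z12 := (hHB D hD z hz).y12
  refine ⟨?_, ?_, ?_, ?_, ?_, ?_, ?_, ?_⟩
  · -- farL
    rcases hc.farL with h | ⟨w, hw, he⟩
    · exact Or.inl h
    · refine Or.inr ⟨w, Cdn_nb hu hw (Or.inr (Or.inl he.symm)) ?_ ?_, he⟩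
      · exact lt_of_le_of_lt (min_le_right _ _) (by rw [he]; exact zL)
      · intro h1
        have h3 := (hu.2.2 w hw h1).2.1
        have h4 : w.y1 = w.yR := by
          unfold Hole.y2 at h1
          unfold Hole.y1
          omega
        omega
  · -- farR
    rcases hc.farR with h | ⟨w, hw, he⟩
    · exact Or.inl h
    · refine Or.inr ⟨w, Cdn_nb hu hw (Or.inl he.symm) ?_ ?_, he⟩
      · exact lt_of_le_of_lt (min_le_left _ _) (by rw [he]; exact zR)
      · intro h1
        have h3 := (hu.2.2 w hw h1).2.2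
        have h4 : w.y1 = w.yL := by
          unfold Hole.y2 at h1
          unfold Hole.y1
          omega
        omega
  · -- farU
    by_cases h : c ≤ D.vhi z.xU
    · left
      show min (D.vhi z.xU) c = c
      exact min_eq_right h
    · rcases hc.farU with h1 | ⟨w, hw, he⟩
      · omega
      · have h2 := (hD.z w hw).eD
        rw [he] at h2
        exact Or.inr ⟨w, Cdn_mem hw (by omega), he⟩
  · -- farD
    rcases hc.farD with h | ⟨w, hw, he⟩
    · exact Or.inl h
    · have h1 := hD.adjV w hw z hz he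
      exact Or.inr ⟨w, Cdn_mem hw (by omega), he⟩
  · -- hostHi
    intro x hx h
    have hx' : x ∈ D.V := (Finset.mem_filter.mp hx).1
    have h' : min (D.vhi x) c = z.yL ∨ min (D.vhi x) c = z.yR := h
    have h3 : (D.vhi x = z.yL ∨ D.vhi x = z.yR) ∧ D.vhi x < c := by omega
    obtain ⟨w, hw, he⟩ := hc.hostHi x hx' h3.1
    have h2 := (hD.z w hw).eD
    rw [he] at h2
    exact ⟨w, Cdn_mem hw (by omega), he⟩
  · -- hostLo
    intro x hx h
    have hx' : x ∈ D.V := (Finset.mem_filter.mp hx).1
    have h' : D.vlo x = z.yL ∨ D.vlo x = z.yR := h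
    obtain ⟨w, hw, he⟩ := hc.hostLo x hx' h'
    have h2 := (hD.z w hw).eU
    rw [he] at h2
    refine ⟨w, Cdn_mem hw ?_, he⟩
    by_contra hcon
    rcases eq_or_lt_of_le (not_lt.mp hcon) with h3 | h3
    · have h4 := hu.2.2 w hw h3.symm
      rcases h' with h5 | h5
      · exact h4.2.1 (by omega)
      · exact h4.2.2 (by omega)
    · have h4 := hu.2.1 w hw (by rcases h' with h5 | h5 <;> omega) h3
      have h6 : w.y1 = w.yL ∨ w.y1 = w.yR := by unfold Hole.y1; omega
      have hU := hHU D hD z hz w hw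
      have hne : z ≠ w := by
        rintro rfl
        omega
      rcases h' with h5 | h5
      · rcases h6 with h6 | h6
        · exact hne (hU.1 (by omega))
        · exact h4 (Or.inr (Or.inl (by omega)))
      · rcases h6 with h6 | h6
        · exact h4 (Or.inl (by omega))
        · exact hne (hU.2.1 (by omega))
  · -- hostRi
    intro y hy h
    have hy' : y ∈ D.H := (Finset.mem_filter.mp hy).1
    have hyc : y < c := (Finset.mem_filter.mp hy).2
    have h' : D.hhi y = z.xU ∨ D.hhi y = z.xD := h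
    obtain ⟨w, hw, he⟩ := hc.hostRi y hy' h'
    have h2 := (hD.z w hw).eL
    rw [he] at h2
    refine ⟨w, ?_, he⟩
    have h6 : w.x2 = w.xU ∨ w.x2 = w.xD := by unfold Hole.x2; omega
    have hU := hHU D hD z hz w hw
    have h7 : w.y1 < c := lt_of_le_of_lt (min_le_left _ _) (by rw [he]; exact hyc)
    rcases h' with h5 | h5
    · rcases h6 with h6 | h6
      · have := hU.2.2.1 (by omega)
        rw [← this]
        exact Cdn_mem hz hcz
      · refine Cdn_nb hu hw (Or.inr (Or.inr (Or.inl (by omega)))) h7 fun h1 => ?_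
        exact (hu.2.2 w hw h1).1 (by omega)
    · rcases h6 with h6 | h6
      · have h1 := hD.adjV w hw z hz (by omega)
        exact Cdn_mem hw (by omega)
      · have := hU.2.2.2 (by omega)
        rw [← this]
        exact Cdn_mem hz hcz
  · -- hostLe
    intro y hy h
    have hy' : y ∈ D.H := (Finset.mem_filter.mp hy).1
    have hyc : y < c := (Finset.mem_filter.mp hy).2
    have h' : D.hlo y = z.xU ∨ D.hlo y = z.xD := h
    obtain ⟨w, hw, he⟩ := hc.hostLe y hy' h'
    have h2 := (hD.z w hw).eR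
    rw [he] at h2
    refine ⟨w, ?_, he⟩
    have h6 : w.x1 = w.xU ∨ w.x1 = w.xD := by unfold Hole.x1; omega
    have hU := hHU D hD z hz w hw
    have h7 : w.y1 < c := lt_of_le_of_lt (min_le_right _ _) (by rw [he]; exact hyc)
    rcases h' with h5 | h5
    · rcases h6 with h6 | h6
      · have := hU.2.2.1 (by omega)
        rw [← this]
        exact Cdn_mem hz hcz
      · refine Cdn_nb hu hw (Or.inr (Or.inr (Or.inl (by omega)))) h7 fun h1 => ?_
        exact (hu.2.2 w hw h1).1 (by omega)
    · rcases h6 with h6 | h6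
      · have h1 := hD.adjV w hw z hz (by omega)
        exact Cdn_mem hw (by omega)
      · have := hU.2.2.2 (by omega)
        rw [← this]
        exact Cdn_mem hz hcz

end Pool.RB
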