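import Pool.Agent.RB.St

/-!
# Project RB, module Cor: holes attached to the left or right wall
-/

namespace Pool.RB

private theorem Cor_L {D : Cfg} {g : ℤ} {y w : Hole} (hHB : StHB) (hD : Ok D) (hT : TopGe D g)
    (hy : y ∈ D.Z) (hw : w ∈ D.Z) (hyU : D.vhi y.xU = D.Y1) (hwD : D.vlo w.xD < g)
    (hyL : D.hlo y.yL = D.X0) (hwL : D.hlo w.yL = D.X0) (hlt : y.yL < w.yL) : False := by
  have oy := hD.z y hy
  have ow := hD.z w hw
  have bw := hHB D hD w hw
  have t1 := hT y.xU oy.hU hyU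
  have e1 := oy.eU
  have e2 := oy.eL
  have e3 := ow.eL
  have e4 := ow.eD
  have y1le : y.y1 ≤ y.yL := min_le_left _ _
  have y2ge : w.yL ≤ w.y2 := le_max_left _ _
  have x2ge : w.xD ≤ w.x2 := le_max_right _ _
  have x2ge' : y.xU ≤ y.x2 := le_max_left _ _
  have hh := hD.h w.yL ow.hL
  have hv := hD.v y.xU oy.hU
  have hvw := hD.v w.xD ow.hD
  have bY := bw.ltY1
  have hle : w.x2 ≤ y.xU := by
    by_contra hc
    exact hD.nc y.xU oy.hU w.yL ow.hL (by omega) (by omega) (by omega) (by omega)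
  have hne : w.xD ≠ y.xU := by
    intro h
    rw [h] at e4
    omega
  exact hD.nc w.xD ow.hD y.yL oy.hL (by omega) (by omega) (by omega) (by omega)

private theorem Cor_R {D : Cfg} {g : ℤ} {y w : Hole} (hHB : StHB) (hD : Ok D) (hT : TopGe D g)
    (hy : y ∈ D.Z) (hw : w ∈ D.Z) (hyU : D.vhi y.xU = D.Y1) (hwD : D.vlo w.xD < g)
    (hyR : D.hhi y.yR = D.X1) (hwR : D.hhi w.yR = D.X1) (hlt : y.yR < w.yR) : False := by
  have oy := hD.z y hy
  have ow := hD.z w hw
  have bw := hHB D hD w hw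
  have t1 := hT y.xU oy.hU hyU
  have e1 := oy.eU
  have e2 := oy.eR
  have e3 := ow.eR
  have e4 := ow.eD
  have y1le : y.y1 ≤ y.yR := min_le_right _ _
  have y2ge : w.yR ≤ w.y2 := le_max_right _ _
  have x1le : w.x1 ≤ w.xD := min_le_right _ _
  have x1le' : y.x1 ≤ y.xU := min_le_left _ _
  have hh := hD.h w.yR ow.hR
  have hv := hD.v y.xU oy.hU
  have hvw := hD.v w.xD ow.hD
  have bY := bw.ltY1
  have hle : y.xU ≤ w.x1 := by
    by_contra hc
    exact hD.nc y.xU oy.hU w.yR ow.hR (by omega) (by omega) (by omega) (by omega)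
  have hne : w.xD ≠ y.xU := by
    intro h
    rw [h] at e4
    omega
  exact hD.nc w.xD ow.hD y.yR oy.hR (by omega) (by omega) (by omega) (by omega)

/-- MODULE Cor, first part. -/
theorem pCor (hHB : StHB) (hHU : StHU) : StCor := by
  intro D g y w hD hT hy hw hyU hwU hyD hwD hyL hwL
  rcases lt_trichotomy y.yL w.yL with h | h | h
  · exact (Cor_L hHB hD hT hy hw hyU hwD hyL hwL h).elim
  · exact (hHU D hD y hy w hw).1 h
  · exact (Cor_L hHB hD hT hw hy hwU hyD hwL hyL h).elim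

private theorem Cor_R' (hHB : StHB) (hHU : StHU) (D : Cfg) (g : ℤ) (y w : Hole) (hD : Ok D)
    (hT : TopGe D g) (hy : y ∈ D.Z) (hw : w ∈ D.Z) (hyU : D.vhi y.xU = D.Y1)
    (hwU : D.vhi w.xU = D.Y1) (hyD : D.vlo y.xD < g) (hwD : D.vlo w.xD < g)
    (hyR : D.hhi y.yR = D.X1) (hwR : D.hhi w.yR = D.X1) : y = w := by
  rcases lt_trichotomy y.yR w.yR with h | h | h
  · exact (Cor_R hHB hD hT hy hw hyU hwD hyR hwR h).elim
  · exact (hHU D hD y hy w hw).2.1 h
  · exact (Cor_R hHB hD hT hw hy hwU hyD hwR hyR h).elim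

/-- MODULE Cor, second part. -/
theorem pCor2 (hHB : StHB) (hHU : StHU) : StCor2 := by
  classical
  intro D g hD hT
  constructor
  · have hsub : (AA D g).filter (fun z => D.hlo z.yL = D.X0 ∨ D.hhi z.yR = D.X1) ⊆
        (AA D g).filter (fun z => D.hlo z.yL = D.X0) ∪
          (AA D g).filter (fun z => D.hhi z.yR = D.X1) := by
      intro z hz
      rw [Finset.mem_filter] at hz
      rw [Finset.mem_union, Finset.mem_filter, Finset.mem_filter]
      rcases hz.2 with h | h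
      · exact Or.inl ⟨hz.1, h⟩
      · exact Or.inr ⟨hz.1, h⟩
    have hA : ∀ z ∈ AA D g, z ∈ D.Z ∧ D.vhi z.xU = D.Y1 ∧ D.vlo z.xD < g := by
      intro z hz
      unfold AA at hz
      rw [Finset.mem_filter] at hz
      exact ⟨hz.1, hz.2.2⟩
    have h1 : ((AA D g).filter (fun z => D.hlo z.yL = D.X0)).card ≤ 1 := by
      rw [Finset.card_le_one]
      intro a ha b hb
      rw [Finset.mem_filter] at ha hb
      obtain ⟨a1, a2, a3⟩ := hA a ha.1
      obtain ⟨b1, b2, b3⟩ := hA b hb.1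
      exact pCor hHB hHU D g a b hD hT a1 b1 a2 b2 a3 b3 ha.2 hb.2
    have h2 : ((AA D g).filter (fun z => D.hhi z.yR = D.X1)).card ≤ 1 := by
      rw [Finset.card_le_one]
      intro a ha b hb
      rw [Finset.mem_filter] at ha hb
      obtain ⟨a1, a2, a3⟩ := hA a ha.1
      obtain ⟨b1, b2, b3⟩ := hA b hb.1
      exact Cor_R' hHB hHU D g a b hD hT a1 b1 a2 b2 a3 b3 ha.2 hb.2
    calc _ ≤ _ := Finset.card_le_card hsub
      _ ≤ _ := Finset.card_union_le _ _
      _ ≤ 1 + 1 := Nat.add_le_add h1 h2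
  · intro c hc z hz
    unfold AA at hz ⊢
    rw [Finset.mem_filter] at hz ⊢
    exact ⟨hz.1, hz.2.1, hz.2.2.1, lt_of_lt_of_le hz.2.2.2 hc⟩

end Pool.RB
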