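import Pool.Agent.RB.St

/-!
# Project RB, module ExT: existence of a top attached vertical piece
-/

namespace Pool.RB

theorem pExT (hFE : StFE) : StExT := by
  intro D hO hne hfull
  have hX := hO.hX
  have hY := hO.hY
  obtain ⟨f, hf, h1, h2, h3, h4⟩ := hFE D D.X0 (D.Y1 - 1) hO (le_refl _) (by omega) (by omega) (by omega)
  have i1 := hf.ix1
  have i2 := hf.ix2
  have i3 := hf.iy1
  have i4 := hf.iy2
  rcases hf.right with h5 | ⟨h5, h6, h7⟩
  · exfalso
    rcases hf.bot with h8 | ⟨h8, h9, h10⟩
    · rcases hne with ⟨x, hx⟩ | ⟨y, hy⟩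
      · have hv := hO.v x hx
        exact hf.noV x hx (by omega) (by omega) (by omega) (by omega)
      · have hh := hO.h y hy
        exact hf.noH y hy (by omega) (by omega) (by omega) (by omega)
    · have hh := hO.h f.y1 h8
      exact hfull f.y1 h8 ⟨by omega, by omega⟩
  · have hv := hO.v f.x2 h5
    exact ⟨f.x2, h5, by omega⟩

end Pool.RB
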