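import Pool.Agent.RB.St

/-!
# Project RB, module FClip (helper17): parts of faces are faces of the parts
-/

namespace Pool.RB

theorem pFClip : StFClip := by
  intro D f c hf
  obtain ⟨⟨nx, ny⟩, ix1, ix2, iy1, iy2, hl, hr, hb, ht, nV, nH⟩ := hf
  refine ⟨?_, ?_, ?_, ?_⟩
  · intro h1 h2 h3
    constructor
    · exact ⟨nx, by simp only [max_lt_iff]; omega⟩
    · exact ix1
    · exact ix2
    · exact le_max_right _ _
    · exact iy2
    · rcases hl with h | ⟨a, b, e⟩
      · exact Or.inl h
      · refine Or.inr ⟨?_, ?_, ?_⟩
        · simp only [up, Finset.mem_filter]; exact ⟨a, by omega⟩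
        · simp only [up]; omega
        · simp only [up]; omega
    · rcases hr with h | ⟨a, b, e⟩
      · exact Or.inl h
      · refine Or.inr ⟨?_, ?_, ?_⟩
        · simp only [up, Finset.mem_filter]; exact ⟨a, by omega⟩
        · simp only [up]; omega
        · simp only [up]; omega
    · by_cases h : f.y1 ≤ c
      · left; simp only [up]; omega
      · right
        have e : max f.y1 c = f.y1 := by omega
        rcases hb with h' | ⟨a, b, e'⟩
        · omega
        · refine ⟨?_, ?_, ?_⟩
          · simp only [up, Finset.mem_filter, e]; exact ⟨a, by omega⟩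
          · simp only [up, e]; exact b
          · simp only [up, e]; exact e'
    · rcases ht with h | ⟨a, b, e⟩
      · exact Or.inl h
      · refine Or.inr ⟨?_, b, e⟩
        simp only [up, Finset.mem_filter]; exact ⟨a, by omega⟩
    · intro x hx a b d e
      simp only [up, Finset.mem_filter] at hx a b d e
      exact nV x hx.1 a b (by omega) (by omega)
    · intro y hy a b d e
      simp only [up, Finset.mem_filter] at hy a b d e
      exact nH y hy.1 (by omega) b d e
  · intro h1 h2 h3
    constructor
    · exact ⟨nx, by simp only [lt_min_iff]; omega⟩
    · exact ix1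
    · exact ix2
    · exact iy1
    · exact min_le_right _ _
    · rcases hl with h | ⟨a, b, e⟩
      · exact Or.inl h
      · refine Or.inr ⟨?_, ?_, ?_⟩
        · simp only [dn, Finset.mem_filter]; exact ⟨a, by omega⟩
        · simp only [dn]; omega
        · simp only [dn]; omega
    · rcases hr with h | ⟨a, b, e⟩
      · exact Or.inl h
      · refine Or.inr ⟨?_, ?_, ?_⟩
        · simp only [dn, Finset.mem_filter]; exact ⟨a, by omega⟩
        · simp only [dn]; omega
        · simp only [dn]; omega
    · rcases hb with h | ⟨a, b, e⟩
      · exact Or.inl h
      · refine Or.inr ⟨?_, b, e⟩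
        simp only [dn, Finset.mem_filter]; exact ⟨a, by omega⟩
    · by_cases h : c ≤ f.y2
      · left; simp only [dn]; omega
      · right
        have e : min f.y2 c = f.y2 := by omega
        rcases ht with h' | ⟨a, b, e'⟩
        · omega
        · refine ⟨?_, ?_, ?_⟩
          · simp only [dn, Finset.mem_filter, e]; exact ⟨a, by omega⟩
          · simp only [dn, e]; exact b
          · simp only [dn, e]; exact e'
    · intro x hx a b d e
      simp only [dn, Finset.mem_filter] at hx a b d e
      exact nV x hx.1 a b (by omega) (by omega)
    · intro y hy a b d e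
      simp only [dn, Finset.mem_filter] at hy a b d e
      exact nH y hy.1 a (by omega) d e
  · intro h1 h2 h3
    constructor
    · exact ⟨by simp only [max_lt_iff]; omega, ny⟩
    · exact le_max_right _ _
    · exact ix2
    · exact iy1
    · exact iy2
    · by_cases h : f.x1 ≤ c
      · left; simp only [rt]; omega
      · right
        have e : max f.x1 c = f.x1 := by omega
        rcases hl with h' | ⟨a, b, e'⟩
        · omega
        · refine ⟨?_, ?_, ?_⟩
          · simp only [rt, Finset.mem_filter, e]; exact ⟨a, by omega⟩
          · simp only [rt, e]; exact b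
          · simp only [rt, e]; exact e'
    · rcases hr with h | ⟨a, b, e⟩
      · exact Or.inl h
      · refine Or.inr ⟨?_, b, e⟩
        simp only [rt, Finset.mem_filter]; exact ⟨a, by omega⟩
    · rcases hb with h | ⟨a, b, e⟩
      · exact Or.inl h
      · refine Or.inr ⟨?_, ?_, ?_⟩
        · simp only [rt, Finset.mem_filter]; exact ⟨a, by omega⟩
        · simp only [rt]; omega
        · simp only [rt]; omega
    · rcases ht with h | ⟨a, b, e⟩
      · exact Or.inl h
      · refine Or.inr ⟨?_, ?_, ?_⟩
        · simp only [rt, Finset.mem_filter]; exact ⟨a, by omega⟩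
        · simp only [rt]; omega
        · simp only [rt]; omega
    · intro x hx a b d e
      simp only [rt, Finset.mem_filter] at hx a b d e
      exact nV x hx.1 (by omega) b d e
    · intro y hy a b d e
      simp only [rt, Finset.mem_filter] at hy a b d e
      exact nH y hy.1 a b (by omega) (by omega)
  · intro h1 h2 h3
    constructor
    · exact ⟨by simp only [lt_min_iff]; omega, ny⟩
    · exact ix1
    · exact min_le_right _ _
    · exact iy1
    · exact iy2
    · rcases hl with h | ⟨a, b, e⟩
      · exact Or.inl h
      · refine Or.inr ⟨?_, b, e⟩
        simp only [lf, Finset.mem_filter]; exact ⟨a, by omega⟩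
    · by_cases h : c ≤ f.x2
      · left; simp only [lf]; omega
      · right
        have e : min f.x2 c = f.x2 := by omega
        rcases hr with h' | ⟨a, b, e'⟩
        · omega
        · refine ⟨?_, ?_, ?_⟩
          · simp only [lf, Finset.mem_filter, e]; exact ⟨a, by omega⟩
          · simp only [lf, e]; exact b
          · simp only [lf, e]; exact e'
    · rcases hb with h | ⟨a, b, e⟩
      · exact Or.inl h
      · refine Or.inr ⟨?_, ?_, ?_⟩
        · simp only [lf, Finset.mem_filter]; exact ⟨a, by omega⟩
        · simp only [lf]; omega
        · simp only [lf]; omega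
    · rcases ht with h | ⟨a, b, e⟩
      · exact Or.inl h
      · refine Or.inr ⟨?_, ?_, ?_⟩
        · simp only [lf, Finset.mem_filter]; exact ⟨a, by omega⟩
        · simp only [lf]; omega
        · simp only [lf]; omega
    · intro x hx a b d e
      simp only [lf, Finset.mem_filter] at hx a b d e
      exact nV x hx.1 a (by omega) d e
    · intro y hy a b d e
      simp only [lf, Finset.mem_filter] at hy a b d e
      exact nH y hy.1 a b (by omega) (by omega)

end Pool.RB
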