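import Pool.Agent.RB.St
import Pool.Agent.Helper23.BG.Face

/-!
# RB: module FE (existence of faces)
-/

namespace Pool.RB

/-- `D` as a dissection in the sense of project BG. -/
private def FE_dis (D : Cfg) : Pool.Agent.Helper23.BG.Dis :=
  ⟨D.X0, D.X1, D.Y0, D.Y1, D.V, D.H, D.vlo, D.vhi, D.hlo, D.hhi⟩

private theorem FE_ok (D : Cfg) (hD : Ok D) : (FE_dis D).Ok where
  hx := hD.hX
  hy := hD.hY
  vx := fun x hx => ⟨(hD.v x hx).1, (hD.v x hx).2.1⟩
  hyy := fun y hy => ⟨(hD.h y hy).1, (hD.h y hy).2.1⟩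
  vlt := fun x hx => (hD.v x hx).2.2.2.1
  hlt := fun y hy => (hD.h y hy).2.2.2.1
  vl := hD.vlo_end
  vh := hD.vhi_end
  hl := hD.hlo_end
  hh := hD.hhi_end
  nc := fun x hx y hy hc => hD.nc x hx y hy hc.1 hc.2.1 hc.2.2.1 hc.2.2.2

theorem pFE : StFE := by
  intro D i j hD h1 h2 h3 h4
  obtain ⟨a, b, c, t, hf, g1, g2, g3, g4⟩ :=
    Pool.Agent.Helper23.BG.exists_face (FE_ok D hD) (p := i) (q := j) h1
      (show i < D.X1 by omega) h3 (show j < D.Y1 by omega)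
  refine ⟨⟨a, b, c, t⟩, ?_, g1, by show i + 1 ≤ b; omega, g3, by show j + 1 ≤ t; omega⟩
  refine ⟨⟨hf.ab, hf.ct⟩, hf.a0, hf.b1, hf.c0, hf.t1, hf.al, hf.bl, hf.cl, hf.tl, ?_, ?_⟩
  · intro x hx k1 k2 k3 k4
    have k3' : D.vlo x < t := k3
    have k4' : c < D.vhi x := k4
    rcases hf.fv x hx k1 k2 with h | h
    · have h' : D.vhi x ≤ c := h
      omega
    · have h' : t ≤ D.vlo x := h
      omega
  · intro y hy k1 k2 k3 k4
    have k3' : D.hlo y < b := k3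
    have k4' : a < D.hhi y := k4
    rcases hf.fh y hy k1 k2 with h | h
    · have h' : D.hhi y ≤ a := h
      omega
    · have h' : b ≤ D.hlo y := h
      omega

end Pool.RB
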