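import Pool.Agent.RB.St

/-! Module FG of project RB: counts under the symmetries. -/

set_option autoImplicit false

namespace Pool.RB

private theorem FG_hfx (z : Hole) : z.fx.fx = z := by
  cases z; simp [Hole.fx]

private theorem FG_htr (z : Hole) : z.tr.tr = z := by
  cases z; simp [Hole.tr]

private theorem FG_fxinj : Function.Injective Hole.fx :=
  Function.LeftInverse.injective (g := Hole.fx) FG_hfx

private theorem FG_trinj : Function.Injective Hole.tr :=
  Function.LeftInverse.injective (g := Hole.tr) FG_htr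

private theorem FG_neginj : Function.Injective (fun x : ℤ => -x) := neg_injective

private theorem FG_fxfx (D : Cfg) : D.fx.fx = D := by
  cases D with
  | mk X0 X1 Y0 Y1 V H vlo vhi hlo hhi Z =>
    simp only [Cfg.fx, Finset.image_image, neg_neg, Cfg.mk.injEq, true_and]
    refine ⟨?_, ?_⟩
    · have : ((fun x : ℤ => -x) ∘ fun x => -x) = id := by funext x; simp
      rw [this, Finset.image_id]
    · have : (Hole.fx ∘ Hole.fx) = id := by funext z; exact FG_hfx z
      rw [this, Finset.image_id]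

private theorem FG_trtr (D : Cfg) : D.tr.tr = D := by
  cases D with
  | mk X0 X1 Y0 Y1 V H vlo vhi hlo hhi Z =>
    simp only [Cfg.tr, Finset.image_image, Cfg.mk.injEq, true_and]
    have : (Hole.tr ∘ Hole.tr) = id := by funext z; exact FG_htr z
    rw [this, Finset.image_id]

private theorem FG_mfx {D : Cfg} {w : Hole} (h : w ∈ D.Z) : w.fx ∈ D.fx.Z :=
  Finset.mem_image_of_mem _ h

private theorem FG_mtr {D : Cfg} {w : Hole} (h : w ∈ D.Z) : w.tr ∈ D.tr.Z :=
  Finset.mem_image_of_mem _ h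

private theorem FG_cleanfx (D : Cfg) (z : Hole) (h : Clean D z) : Clean D.fx z.fx := by
  refine ⟨?_, ?_, ?_, ?_, ?_, ?_, ?_, ?_⟩
  · rcases h.farR with h1 | ⟨w, hw, h1⟩
    · left; simp only [Cfg.fx, Hole.fx]; rw [h1]
    · right; exact ⟨w.fx, FG_mfx hw, by simp only [Hole.fx]; exact h1⟩
  · rcases h.farL with h1 | ⟨w, hw, h1⟩
    · left; simp only [Cfg.fx, Hole.fx]; rw [h1]
    · right; exact ⟨w.fx, FG_mfx hw, by simp only [Hole.fx]; exact h1⟩
  · rcases h.farU with h1 | ⟨w, hw, h1⟩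
    · left; simp only [Cfg.fx, Hole.fx, neg_neg]; exact h1
    · right; exact ⟨w.fx, FG_mfx hw, by simp only [Hole.fx]; rw [h1]⟩
  · rcases h.farD with h1 | ⟨w, hw, h1⟩
    · left; simp only [Cfg.fx, Hole.fx, neg_neg]; exact h1
    · right; exact ⟨w.fx, FG_mfx hw, by simp only [Hole.fx]; rw [h1]⟩
  · intro x hx hh
    obtain ⟨x0, hx0, rfl⟩ := Finset.mem_image.1 hx
    simp only [Cfg.fx, Hole.fx, neg_neg] at hh
    obtain ⟨w, hw, h1⟩ := h.hostHi x0 hx0 hh.symm
    exact ⟨w.fx, FG_mfx hw, by simp only [Hole.fx]; rw [h1]⟩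
  · intro x hx hh
    obtain ⟨x0, hx0, rfl⟩ := Finset.mem_image.1 hx
    simp only [Cfg.fx, Hole.fx, neg_neg] at hh
    obtain ⟨w, hw, h1⟩ := h.hostLo x0 hx0 hh.symm
    exact ⟨w.fx, FG_mfx hw, by simp only [Hole.fx]; rw [h1]⟩
  · intro y hy hh
    simp only [Cfg.fx, Hole.fx, neg_inj] at hh
    obtain ⟨w, hw, h1⟩ := h.hostLe y hy hh
    exact ⟨w.fx, FG_mfx hw, by simp only [Hole.fx]; exact h1⟩
  · intro y hy hh
    simp only [Cfg.fx, Hole.fx, neg_inj] at hh
    obtain ⟨w, hw, h1⟩ := h.hostRi y hy hh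
    exact ⟨w.fx, FG_mfx hw, by simp only [Hole.fx]; exact h1⟩

private theorem FG_cleantr (D : Cfg) (z : Hole) (h : Clean D z) : Clean D.tr z.tr := by
  refine ⟨?_, ?_, ?_, ?_, ?_, ?_, ?_, ?_⟩
  · rcases h.farD with h1 | ⟨w, hw, h1⟩
    · left; exact h1
    · right; exact ⟨w.tr, FG_mtr hw, h1⟩
  · rcases h.farU with h1 | ⟨w, hw, h1⟩
    · left; exact h1
    · right; exact ⟨w.tr, FG_mtr hw, h1⟩
  · rcases h.farR with h1 | ⟨w, hw, h1⟩
    · left; exact h1
    · right; exact ⟨w.tr, FG_mtr hw, h1⟩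
  · rcases h.farL with h1 | ⟨w, hw, h1⟩
    · left; exact h1
    · right; exact ⟨w.tr, FG_mtr hw, h1⟩
  · intro x hx hh
    obtain ⟨w, hw, h1⟩ := h.hostRi x hx hh.symm
    exact ⟨w.tr, FG_mtr hw, h1⟩
  · intro x hx hh
    obtain ⟨w, hw, h1⟩ := h.hostLe x hx hh.symm
    exact ⟨w.tr, FG_mtr hw, h1⟩
  · intro y hy hh
    obtain ⟨w, hw, h1⟩ := h.hostHi y hy hh.symm
    exact ⟨w.tr, FG_mtr hw, h1⟩
  · intro y hy hh
    obtain ⟨w, hw, h1⟩ := h.hostLo y hy hh.symm
    exact ⟨w.tr, FG_mtr hw, h1⟩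

private theorem FG_cfx (D : Cfg) (z : Hole) : Clean D.fx z.fx ↔ Clean D z := by
  refine ⟨fun h => ?_, FG_cleanfx D z⟩
  have := FG_cleanfx D.fx z.fx h
  rwa [FG_fxfx, FG_hfx] at this

private theorem FG_ctr (D : Cfg) (z : Hole) : Clean D.tr z.tr ↔ Clean D z := by
  refine ⟨fun h => ?_, FG_cleantr D z⟩
  have := FG_cleantr D.tr z.tr h
  rwa [FG_trtr, FG_htr] at this

private theorem FG_latfx (D : Cfg) (z : Hole) : Lat D.fx z.fx ↔ Lat D z := by
  simp only [Lat, Cfg.fx, Hole.fx, neg_inj]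
  exact and_comm

private theorem FG_lattr (D : Cfg) (z : Hole) : Lat D.tr z.tr ↔ LatV D z := Iff.rfl

private theorem FG_latrr (D : Cfg) (z : Hole) : Lat D.fx.tr z.fx.tr ↔ LatV D z := by
  simp only [Lat, LatV, Cfg.fx, Hole.fx, Cfg.tr, Hole.tr, neg_neg]

private theorem FG_card (Z : Finset Hole) (f : Hole → Hole) (hf : Function.Injective f)
    (p q : Hole → Prop) {dp : DecidablePred p} {dq : DecidablePred q} (h : ∀ z, p (f z) ↔ q z) :
    ((Z.image f).filter (fun z => p z)).card = (Z.filter (fun z => q z)).card := by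
  rw [Finset.filter_image, Finset.card_image_of_injective _ hf]
  congr 1
  apply Finset.filter_congr
  intro z _
  exact h z

private theorem FG_cardneg (V : Finset ℤ) (p q : ℤ → Prop) [DecidablePred p] [DecidablePred q]
    (h : ∀ x, p (-x) ↔ q x) :
    ((V.image (fun x => -x)).filter (fun x => p x)).card = (V.filter (fun x => q x)).card := by
  rw [Finset.filter_image, Finset.card_image_of_injective _ FG_neginj]
  congr 1
  apply Finset.filter_congr
  intro z _
  exact h z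

private theorem FG_Ffx (D : Cfg) : F D.fx = F D := by
  unfold F
  congr 1
  · exact FG_cardneg D.V (fun x => D.vhi (-x) ≠ D.Y1) (fun x => D.vhi x ≠ D.Y1)
      (fun x => by simp only [neg_neg])
  · congr 1
    apply Finset.filter_congr
    intro y _
    simp only [Cfg.fx, ne_eq, neg_inj]
    exact and_comm

private theorem FG_Frr (D : Cfg) : F (rr D) = FR D := by
  unfold F FR
  congr 1
  · congr 1
    apply Finset.filter_congr
    intro y _
    simp only [rr, Cfg.fx, Cfg.tr, ne_eq, neg_inj]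
  · exact FG_cardneg D.V (fun x => D.vlo (-x) ≠ D.Y0 ∧ D.vhi (-x) ≠ D.Y1)
      (fun x => D.vlo x ≠ D.Y0 ∧ D.vhi x ≠ D.Y1) (fun x => by simp only [neg_neg])

private theorem FG_Frl (D : Cfg) : F (rl D) = FL D := rfl

private theorem FG_Gfx (D : Cfg) : G D.fx = G D := by
  unfold G
  exact FG_card D.Z Hole.fx FG_fxinj (fun z => Good D.fx z) (fun z => Good D z)
    (fun z => and_congr (FG_cfx D z) (not_congr (FG_latfx D z)))

private theorem FG_Grl (D : Cfg) : G (rl D) = GV D := by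
  unfold G GV
  exact FG_card D.Z Hole.tr FG_trinj (fun z => Good D.tr z) (fun z => Clean D z ∧ ¬ LatV D z)
    (fun z => and_congr (FG_ctr D z) (not_congr (FG_lattr D z)))

private theorem FG_Grr (D : Cfg) : G (rr D) = GV D := by
  unfold G GV
  classical
  refine (FG_card (D.Z.image Hole.fx) Hole.tr FG_trinj (fun z => Good D.fx.tr z)
    (fun z => Good D.fx.tr z.tr) (dq := fun _ => Classical.propDecidable _)
    (fun z => Iff.rfl)).trans ?_
  exact FG_card D.Z Hole.fx FG_fxinj (fun z => Good D.fx.tr z.tr)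
    (fun z => Clean D z ∧ ¬ LatV D z)
    (fun z => and_congr ((FG_ctr D.fx z.fx).trans (FG_cfx D z)) (not_congr (FG_latrr D z)))

theorem pFG : StFG :=
  ⟨fun D => ⟨FG_Ffx D, FG_Gfx D, FG_Frr D, FG_Frl D, FG_Grr D, FG_Grl D⟩,
    fun D z => ⟨FG_cfx D z, FG_ctr D z⟩⟩

end Pool.RB
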