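import Pool.Agent.RB.St

/-!
# Project RB, module FU: two faces with a common interior point are equal
-/

namespace Pool.RB

private theorem FU_le {D : Cfg} {f g : Box} (hf : IsFace D f) (hg : IsFace D g) (h : Meets f g) :
    g.x1 ≤ f.x1 ∧ f.x2 ≤ g.x2 ∧ g.y1 ≤ f.y1 ∧ f.y2 ≤ g.y2 := by
  obtain ⟨m1, m2, m3, m4⟩ := h
  refine ⟨?_, ?_, ?_, ?_⟩
  · by_contra hc
    rcases hg.left with h1 | ⟨h1, h2, h3⟩
    · have := hf.ix1
      omega
    · exact hf.noV _ h1 (by omega) (by omega) (by omega) (by omega)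
  · by_contra hc
    rcases hg.right with h1 | ⟨h1, h2, h3⟩
    · have := hf.ix2
      omega
    · exact hf.noV _ h1 (by omega) (by omega) (by omega) (by omega)
  · by_contra hc
    rcases hg.bot with h1 | ⟨h1, h2, h3⟩
    · have := hf.iy1
      omega
    · exact hf.noH _ h1 (by omega) (by omega) (by omega) (by omega)
  · by_contra hc
    rcases hg.top with h1 | ⟨h1, h2, h3⟩
    · have := hf.iy2
      omega
    · exact hf.noH _ h1 (by omega) (by omega) (by omega) (by omega)

/-- MODULE FU. -/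
theorem pFU : StFU := by
  intro D f g hf hg h
  have h' : Meets g f := ⟨h.2.1, h.1, h.2.2.2, h.2.2.1⟩
  obtain ⟨a1, a2, a3, a4⟩ := FU_le hf hg h
  obtain ⟨b1, b2, b3, b4⟩ := FU_le hg hf h'
  cases f
  cases g
  simp only at a1 a2 a3 a4 b1 b2 b3 b4
  simp only [Box.mk.injEq]
  omega

end Pool.RB
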