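import Pool.Agent.RB.St

set_option autoImplicit false

/-!
# Module FitUD of project RB (MP_c6e2b4_co, owner helper33), written by helper46
-/

namespace Pool.RB

private theorem FitUD_gen (hHB : StHB) (hFU : StFU) (D E : Cfg) (S S' : Set Box) (A : Finset Box)
    (cl : Box → Box) (Q : Box → Prop) (hD : Ok D) (hS : ∀ g ∈ S, IsFace D g) (hfit : Fit D S A)
    (ha : ∀ R : Box, Meets R E.box → Meets R D.box)
    (hb1 : ∀ R f : Box, Meets R E.box → IsFace D f → InF D R f → Q f)
    (hb2 : ∀ f : Box, Q f → IsFace D f → IsFace E (cl f))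
    (hb3 : ∀ R f : Box, Meets R E.box → IsFace D f → InF D R f → InF E R (cl f))
    (hc : ∀ f g : Box, f.Nd → g.Nd → Q f → Q g → cl f = cl g → Meets f g)
    (hd : ∀ z ∈ E.Z, z ∈ D.Z ∧ Q z.box ∧ cl z.box = z.box)
    (he : ∀ f' ∈ S', ∃ g ∈ S ∪ hb D, Q g ∧ f' = cl g) : Fit E S' A := by
  obtain ⟨φ, h1, h2⟩ := hfit
  refine ⟨fun R => cl (φ R), ?_, ?_⟩
  · intro R hR hM
    have hMD := ha R hM
    obtain ⟨hF, hI, hZ, hnS⟩ := h1 R hR hMD
    have hQ := hb1 R (φ R) hM hF hI
    refine ⟨hb2 _ hQ hF, hb3 R _ hM hF hI, ?_, ?_⟩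
    · intro z hz heq
      obtain ⟨hzD, hQz, hclz⟩ := hd z hz
      have hfz : IsFace D z.box := (hHB D hD z hzD).face
      have hm : Meets (φ R) z.box := hc _ _ hF.nd hfz.nd hQ hQz (heq.trans hclz.symm)
      exact hZ z hzD (hFU D _ _ hF hfz hm)
    · intro hmem
      obtain ⟨g, hg, hQg, hgeq⟩ := he _ hmem
      rcases hg with hg | hg
      · have hfg : IsFace D g := hS g hg
        have hm : Meets (φ R) g := hc _ _ hF.nd hfg.nd hQ hQg hgeq
        have := hFU D _ _ hF hfg hm
        exact hnS (this ▸ hg)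
      · obtain ⟨z, hz, rfl⟩ := hg
        have hfz : IsFace D z.box := (hHB D hD z hz).face
        have hm : Meets (φ R) z.box := hc _ _ hF.nd hfz.nd hQ hQg hgeq
        exact hZ z hz (hFU D _ _ hF hfz hm)
  · intro R hR R' hR' hM hM' heq
    have hMD := ha R hM
    have hMD' := ha R' hM'
    obtain ⟨hF, hI, hZ, hnS⟩ := h1 R hR hMD
    obtain ⟨hF', hI', hZ', hnS'⟩ := h1 R' hR' hMD'
    have hQ := hb1 R (φ R) hM hF hI
    have hQ' := hb1 R' (φ R') hM' hF' hI'
    have hm : Meets (φ R) (φ R') := hc _ _ hF.nd hF'.nd hQ hQ' heq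
    exact h2 R hR R' hR' hMD hMD' (hFU D _ _ hF hF' hm)

theorem pFitUD (hHB : StHB) (hFU : StFU) (hFClip : StFClip) : StFitUD := by
  intro D S A c hD hS hfit
  have hX := hD.hX
  have hY := hD.hY
  refine ⟨fun h1 h2 => ⟨?_, ?_⟩, fun h1 h2 => ⟨?_, ?_⟩⟩
  · refine FitUD_gen hHB hFU D (up D c) S _ A (fun f => ⟨f.x1, f.x2, max f.y1 c, f.y2⟩)
      (fun f => c < f.y2) hD hS hfit ?_ ?_ ?_ ?_ ?_ ?_ ?_
    · intro R hM
      simp only [Meets, up, Cfg.box] at hM ⊢
      omega
    · intro R f hM hF hI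
      simp only [Meets, up, Cfg.box, InF] at hM hI ⊢
      omega
    · intro f hQ hF
      exact (hFClip D f c hF).1 h1 h2 hQ
    · intro R f hM hF hI
      simp only [Meets, up, Cfg.box, InF] at hM hI ⊢
      omega
    · intro f g hf hg hQf hQg heq
      simp only [Box.mk.injEq] at heq
      simp only [Meets, Box.Nd] at *
      omega
    · intro z hz
      simp only [up, Finset.mem_filter] at hz
      obtain ⟨hzD, hzc⟩ := hz
      have hB := hHB D hD z hzD
      have h12 := hB.y12
      refine ⟨hzD, ?_, ?_⟩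
      · simp only [Hole.box]
        omega
      · simp only [Hole.box, Box.mk.injEq, true_and, and_true]
        omega
    · intro f' hf'
      obtain ⟨g, hg, hgc, rfl⟩ := hf'
      exact ⟨g, hg, hgc, rfl⟩
  · refine FitUD_gen hHB hFU D (dn D c) S _ A (fun f => ⟨f.x1, f.x2, f.y1, min f.y2 c⟩)
      (fun f => f.y1 < c) hD hS hfit ?_ ?_ ?_ ?_ ?_ ?_ ?_
    · intro R hM
      simp only [Meets, dn, Cfg.box] at hM ⊢
      omega
    · intro R f hM hF hI
      simp only [Meets, dn, Cfg.box, InF] at hM hI ⊢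
      omega
    · intro f hQ hF
      exact (hFClip D f c hF).2.1 h1 h2 hQ
    · intro R f hM hF hI
      simp only [Meets, dn, Cfg.box, InF] at hM hI ⊢
      omega
    · intro f g hf hg hQf hQg heq
      simp only [Box.mk.injEq] at heq
      simp only [Meets, Box.Nd] at *
      omega
    · intro z hz
      simp only [dn, Finset.mem_filter] at hz
      obtain ⟨hzD, hzc⟩ := hz
      have hB := hHB D hD z hzD
      have h12 := hB.y12
      refine ⟨hzD, ?_, ?_⟩
      · simp only [Hole.box]
        omega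
      · simp only [Hole.box, Box.mk.injEq, true_and]
        omega
    · intro f' hf'
      obtain ⟨g, hg, hgc, rfl⟩ := hf'
      exact ⟨g, hg, hgc, rfl⟩
  · refine FitUD_gen hHB hFU D (rt D c) S _ A (fun f => ⟨max f.x1 c, f.x2, f.y1, f.y2⟩)
      (fun f => c < f.x2) hD hS hfit ?_ ?_ ?_ ?_ ?_ ?_ ?_
    · intro R hM
      simp only [Meets, rt, Cfg.box] at hM ⊢
      omega
    · intro R f hM hF hI
      simp only [Meets, rt, Cfg.box, InF] at hM hI ⊢
      omega
    · intro f hQ hF
      exact (hFClip D f c hF).2.2.1 h1 h2 hQ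
    · intro R f hM hF hI
      simp only [Meets, rt, Cfg.box, InF] at hM hI ⊢
      omega
    · intro f g hf hg hQf hQg heq
      simp only [Box.mk.injEq] at heq
      simp only [Meets, Box.Nd] at *
      omega
    · intro z hz
      simp only [rt, Finset.mem_filter] at hz
      obtain ⟨hzD, hzc⟩ := hz
      have hB := hHB D hD z hzD
      have h12 := hB.x12
      refine ⟨hzD, ?_, ?_⟩
      · simp only [Hole.box]
        omega
      · simp only [Hole.box, Box.mk.injEq, and_true]
        omega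
    · intro f' hf'
      obtain ⟨g, hg, hgc, rfl⟩ := hf'
      exact ⟨g, hg, hgc, rfl⟩
  · refine FitUD_gen hHB hFU D (lf D c) S _ A (fun f => ⟨f.x1, min f.x2 c, f.y1, f.y2⟩)
      (fun f => f.x1 < c) hD hS hfit ?_ ?_ ?_ ?_ ?_ ?_ ?_
    · intro R hM
      simp only [Meets, lf, Cfg.box] at hM ⊢
      omega
    · intro R f hM hF hI
      simp only [Meets, lf, Cfg.box, InF] at hM hI ⊢
      omega
    · intro f hQ hF
      exact (hFClip D f c hF).2.2.2 h1 h2 hQ
    · intro R f hM hF hI
      simp only [Meets, lf, Cfg.box, InF] at hM hI ⊢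
      omega
    · intro f g hf hg hQf hQg heq
      simp only [Box.mk.injEq] at heq
      simp only [Meets, Box.Nd] at *
      omega
    · intro z hz
      simp only [lf, Finset.mem_filter] at hz
      obtain ⟨hzD, hzc⟩ := hz
      have hB := hHB D hD z hzD
      have h12 := hB.x12
      refine ⟨hzD, ?_, ?_⟩
      · simp only [Hole.box]
        omega
      · simp only [Hole.box, Box.mk.injEq, true_and, and_true]
        omega
    · intro f' hf'
      obtain ⟨g, hg, hgc, rfl⟩ := hf'
      exact ⟨g, hg, hgc, rfl⟩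

end Pool.RB
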