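import Pool.Agent.RB.St2

/-!
# Project RB, module Glow
-/

namespace Pool.RB

private theorem Glow_three (Z : Finset Hole) (a b c : Hole → ℤ)
    (ha : ∀ z ∈ Z, ∀ w ∈ Z, a z = a w → z = w) (hb : ∀ z ∈ Z, ∀ w ∈ Z, b z = b w → z = w)
    (hc : ∀ z ∈ Z, ∀ w ∈ Z, c z = c w → z = w) (u v w : ℤ) :
    (Z.filter (fun z => a z = u ∨ b z = v ∨ c z = w)).card ≤ 3 := by
  have one : ∀ (f : Hole → ℤ) (t : ℤ), (∀ z ∈ Z, ∀ w ∈ Z, f z = f w → z = w) →
      (Z.filter (fun z => f z = t)).card ≤ 1 := by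
    intro f t hf
    rw [Finset.card_le_one]
    intro x hx y hy
    rw [Finset.mem_filter] at hx hy
    exact hf x hx.1 y hy.1 (hx.2.trans hy.2.symm)
  have h1 := one a u ha
  have h2 := one b v hb
  have h3 := one c w hc
  have h4 : Z.filter (fun z => a z = u ∨ b z = v ∨ c z = w) ⊆
      Z.filter (fun z => a z = u) ∪ (Z.filter (fun z => b z = v) ∪ Z.filter (fun z => c z = w)) := by
    intro z hz
    simp only [Finset.mem_union, Finset.mem_filter] at hz ⊢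
    tauto
  have h5 := Finset.card_le_card h4
  have h6 := Finset.card_union_le (Z.filter (fun z => a z = u))
    (Z.filter (fun z => b z = v) ∪ Z.filter (fun z => c z = w))
  have h7 := Finset.card_union_le (Z.filter (fun z => b z = v)) (Z.filter (fun z => c z = w))
  omega

/-- all ends: `0` low, `1` high, `2` left, `3` right -/
private def Glow_E (D : Cfg) : Finset (ℕ × ℤ) :=
  (({0, 1} : Finset ℕ) ×ˢ D.V) ∪ (({2, 3} : Finset ℕ) ×ˢ D.H)

/-- the owned ends -/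
private def Glow_O (D : Cfg) : Finset (ℕ × ℤ) :=
  (D.Z.image (fun z => (0, z.xU)) ∪ D.Z.image (fun z => (1, z.xD))) ∪
    (D.Z.image (fun z => (2, z.yR)) ∪ D.Z.image (fun z => (3, z.yL)))

/-- the holes witnessed by an end -/
private def Glow_W (D : Cfg) (e : ℕ × ℤ) : Finset Hole :=
  if e.1 = 0 then D.Z.filter (fun z => z.xD = e.2 ∨ z.yL = D.vlo e.2 ∨ z.yR = D.vlo e.2)
  else if e.1 = 1 then D.Z.filter (fun z => z.xU = e.2 ∨ z.yL = D.vhi e.2 ∨ z.yR = D.vhi e.2)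
  else if e.1 = 2 then D.Z.filter (fun z => z.yL = e.2 ∨ z.xU = D.hlo e.2 ∨ z.xD = D.hlo e.2)
  else D.Z.filter (fun z => z.yR = e.2 ∨ z.xU = D.hhi e.2 ∨ z.xD = D.hhi e.2)

private theorem Glow_cardE (D : Cfg) : (Glow_E D).card = 2 * D.sz := by
  unfold Glow_E Cfg.sz
  rw [Finset.card_union_of_disjoint, Finset.card_product, Finset.card_product]
  · simp; ring
  · rw [Finset.disjoint_left]
    rintro ⟨i, t⟩ h1 h2
    simp only [Finset.mem_product, Finset.mem_insert, Finset.mem_singleton] at h1 h2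
    omega

private theorem Glow_cardO (hHU : StHU) (D : Cfg) (hD : Ok D) :
    (Glow_O D).card = 4 * D.Z.card := by
  have e0 : (D.Z.image (fun z => ((0 : ℕ), z.xU))).card = D.Z.card := by
    apply Finset.card_image_of_injOn
    intro z hz w hw h
    exact (hHU D hD z hz w hw).2.2.1 (congrArg Prod.snd h)
  have e1 : (D.Z.image (fun z => ((1 : ℕ), z.xD))).card = D.Z.card := by
    apply Finset.card_image_of_injOn
    intro z hz w hw h
    exact (hHU D hD z hz w hw).2.2.2 (congrArg Prod.snd h)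
  have e2 : (D.Z.image (fun z => ((2 : ℕ), z.yR))).card = D.Z.card := by
    apply Finset.card_image_of_injOn
    intro z hz w hw h
    exact (hHU D hD z hz w hw).2.1 (congrArg Prod.snd h)
  have e3 : (D.Z.image (fun z => ((3 : ℕ), z.yL))).card = D.Z.card := by
    apply Finset.card_image_of_injOn
    intro z hz w hw h
    exact (hHU D hD z hz w hw).1 (congrArg Prod.snd h)
  unfold Glow_O
  rw [Finset.card_union_of_disjoint, Finset.card_union_of_disjoint, Finset.card_union_of_disjoint,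
    e0, e1, e2, e3]
  · ring
  · rw [Finset.disjoint_left]
    rintro ⟨i, t⟩ h1 h2
    simp only [Finset.mem_image, Prod.mk.injEq] at h1 h2
    obtain ⟨_, _, h1, _⟩ := h1
    obtain ⟨_, _, h2, _⟩ := h2
    omega
  · rw [Finset.disjoint_left]
    rintro ⟨i, t⟩ h1 h2
    simp only [Finset.mem_image, Prod.mk.injEq] at h1 h2
    obtain ⟨_, _, h1, _⟩ := h1
    obtain ⟨_, _, h2, _⟩ := h2
    omega
  · rw [Finset.disjoint_left]
    rintro ⟨i, t⟩ h1 h2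
    simp only [Finset.mem_union, Finset.mem_image, Prod.mk.injEq] at h1 h2
    rcases h1 with ⟨_, _, h1, _⟩ | ⟨_, _, h1, _⟩ <;> rcases h2 with ⟨_, _, h2, _⟩ | ⟨_, _, h2, _⟩ <;>
      omega

private theorem Glow_OE (D : Cfg) (hD : Ok D) : Glow_O D ⊆ Glow_E D := by
  rintro ⟨i, t⟩ h
  simp only [Glow_O, Finset.mem_union, Finset.mem_image, Prod.mk.injEq] at h
  simp only [Glow_E, Finset.mem_union, Finset.mem_product, Finset.mem_insert,
    Finset.mem_singleton]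
  rcases h with (⟨z, hz, rfl, rfl⟩ | ⟨z, hz, rfl, rfl⟩) | (⟨z, hz, rfl, rfl⟩ | ⟨z, hz, rfl, rfl⟩)
  · exact Or.inl ⟨Or.inl rfl, (hD.z z hz).hU⟩
  · exact Or.inl ⟨Or.inr rfl, (hD.z z hz).hD⟩
  · exact Or.inr ⟨Or.inl rfl, (hD.z z hz).hR⟩
  · exact Or.inr ⟨Or.inr rfl, (hD.z z hz).hL⟩

private theorem Glow_cardW (hHU : StHU) (D : Cfg) (hD : Ok D) (e : ℕ × ℤ) :
    (Glow_W D e).card ≤ 3 := by
  have a1 : ∀ z ∈ D.Z, ∀ w ∈ D.Z, z.yL = w.yL → z = w := fun z hz w hw =>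
    (hHU D hD z hz w hw).1
  have a2 : ∀ z ∈ D.Z, ∀ w ∈ D.Z, z.yR = w.yR → z = w := fun z hz w hw =>
    (hHU D hD z hz w hw).2.1
  have a3 : ∀ z ∈ D.Z, ∀ w ∈ D.Z, z.xU = w.xU → z = w := fun z hz w hw =>
    (hHU D hD z hz w hw).2.2.1
  have a4 : ∀ z ∈ D.Z, ∀ w ∈ D.Z, z.xD = w.xD → z = w := fun z hz w hw =>
    (hHU D hD z hz w hw).2.2.2
  unfold Glow_W
  split_ifs
  · exact Glow_three D.Z _ _ _ a4 a1 a2 _ _ _
  · exact Glow_three D.Z _ _ _ a3 a1 a2 _ _ _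
  · exact Glow_three D.Z _ _ _ a1 a3 a4 _ _ _
  · exact Glow_three D.Z _ _ _ a2 a3 a4 _ _ _

/-- a not owned end of index `i` -/
private theorem Glow_memX (D : Cfg) {i : ℕ} {t : ℤ}
    (h1 : (i = 0 ∧ t ∈ D.V ∧ ∀ w ∈ D.Z, w.xU ≠ t) ∨ (i = 1 ∧ t ∈ D.V ∧ ∀ w ∈ D.Z, w.xD ≠ t) ∨
      (i = 2 ∧ t ∈ D.H ∧ ∀ w ∈ D.Z, w.yR ≠ t) ∨ (i = 3 ∧ t ∈ D.H ∧ ∀ w ∈ D.Z, w.yL ≠ t)) :
    (i, t) ∈ Glow_E D \ Glow_O D := by
  rw [Finset.mem_sdiff]
  simp only [Glow_E, Glow_O, Finset.mem_union, Finset.mem_product, Finset.mem_insert,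
    Finset.mem_singleton, Finset.mem_image, Prod.mk.injEq]
  rcases h1 with ⟨rfl, h1, h2⟩ | ⟨rfl, h1, h2⟩ | ⟨rfl, h1, h2⟩ | ⟨rfl, h1, h2⟩
  · refine ⟨Or.inl ⟨Or.inl rfl, h1⟩, ?_⟩
    rintro ((⟨z, hz, h3, h4⟩ | ⟨z, hz, h3, h4⟩) | (⟨z, hz, h3, h4⟩ | ⟨z, hz, h3, h4⟩))
    · exact h2 z hz h4
    all_goals omega
  · refine ⟨Or.inl ⟨Or.inr rfl, h1⟩, ?_⟩
    rintro ((⟨z, hz, h3, h4⟩ | ⟨z, hz, h3, h4⟩) | (⟨z, hz, h3, h4⟩ | ⟨z, hz, h3, h4⟩))
    · omega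
    · exact h2 z hz h4
    all_goals omega
  · refine ⟨Or.inr ⟨Or.inl rfl, h1⟩, ?_⟩
    rintro ((⟨z, hz, h3, h4⟩ | ⟨z, hz, h3, h4⟩) | (⟨z, hz, h3, h4⟩ | ⟨z, hz, h3, h4⟩))
    · omega
    · omega
    · exact h2 z hz h4
    · omega
  · refine ⟨Or.inr ⟨Or.inr rfl, h1⟩, ?_⟩
    rintro ((⟨z, hz, h3, h4⟩ | ⟨z, hz, h3, h4⟩) | (⟨z, hz, h3, h4⟩ | ⟨z, hz, h3, h4⟩))
    · omega
    · omega
    · omega
    · exact h2 z hz h4

private theorem Glow_bad (hHB : StHB) (D : Cfg) (hD : Ok D) {z : Hole} (hz : z ∈ D.Z)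
    (hg : ¬ Good D z) : z ∈ (Glow_E D \ Glow_O D).biUnion (Glow_W D) := by
  have zo := hD.z z hz
  rw [Finset.mem_biUnion]
  by_contra hcon
  push Not at hcon
  have w0 : ∀ t ∈ D.V, (z.xD = t ∨ z.yL = D.vlo t ∨ z.yR = D.vlo t) → ∃ w ∈ D.Z, w.xU = t := by
    intro t ht h
    by_contra h2
    push Not at h2
    apply hcon (0, t) (Glow_memX D (Or.inl ⟨rfl, ht, h2⟩))
    simp only [Glow_W, if_true, Finset.mem_filter]
    exact ⟨hz, h⟩
  have w1 : ∀ t ∈ D.V, (z.xU = t ∨ z.yL = D.vhi t ∨ z.yR = D.vhi t) → ∃ w ∈ D.Z, w.xD = t := by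
    intro t ht h
    by_contra h2
    push Not at h2
    apply hcon (1, t) (Glow_memX D (Or.inr (Or.inl ⟨rfl, ht, h2⟩)))
    simp only [Glow_W, one_ne_zero, if_true, if_false, Finset.mem_filter]
    exact ⟨hz, h⟩
  have w2 : ∀ t ∈ D.H, (z.yL = t ∨ z.xU = D.hlo t ∨ z.xD = D.hlo t) → ∃ w ∈ D.Z, w.yR = t := by
    intro t ht h
    by_contra h2
    push Not at h2
    apply hcon (2, t) (Glow_memX D (Or.inr (Or.inr (Or.inl ⟨rfl, ht, h2⟩))))
    simp only [Glow_W, OfNat.ofNat_ne_zero, OfNat.ofNat_ne_one, if_true, if_false,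
      Finset.mem_filter]
    exact ⟨hz, h⟩
  have w3 : ∀ t ∈ D.H, (z.yR = t ∨ z.xU = D.hhi t ∨ z.xD = D.hhi t) → ∃ w ∈ D.Z, w.yL = t := by
    intro t ht h
    by_contra h2
    push Not at h2
    apply hcon (3, t) (Glow_memX D (Or.inr (Or.inr (Or.inr ⟨rfl, ht, h2⟩))))
    have e : ((3 : ℕ) = 2) = False := by simp
    simp only [Glow_W, OfNat.ofNat_ne_zero, OfNat.ofNat_ne_one, if_false, e,
      Finset.mem_filter]
    exact ⟨hz, h⟩
  apply hg
  refine ⟨⟨?_, ?_, ?_, ?_, ?_, ?_, ?_, ?_⟩, ?_⟩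
  · exact Or.inr (w2 _ zo.hL (Or.inl rfl))
  · exact Or.inr (w3 _ zo.hR (Or.inl rfl))
  · exact Or.inr (w1 _ zo.hU (Or.inl rfl))
  · exact Or.inr (w0 _ zo.hD (Or.inl rfl))
  · rintro x hx (h | h)
    · exact w1 x hx (Or.inr (Or.inl h.symm))
    · exact w1 x hx (Or.inr (Or.inr h.symm))
  · rintro x hx (h | h)
    · exact w0 x hx (Or.inr (Or.inl h.symm))
    · exact w0 x hx (Or.inr (Or.inr h.symm))
  · rintro x hx (h | h)
    · exact w3 x hx (Or.inr (Or.inl h.symm))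
    · exact w3 x hx (Or.inr (Or.inr h.symm))
  · rintro x hx (h | h)
    · exact w2 x hx (Or.inr (Or.inl h.symm))
    · exact w2 x hx (Or.inr (Or.inr h.symm))
  · rintro ⟨h1, -⟩
    obtain ⟨w, hw, he⟩ := w2 _ zo.hL (Or.inl rfl)
    have h2 := (hD.z w hw).eR
    have h3 := (hHB D hD w hw).X0lt
    rw [he] at h2
    omega

theorem pGlow (hHB : StHB) (hHU : StHU) : StGlow := by
  intro D hD
  have c1 := Glow_cardE D
  have c2 := Glow_cardO hHU D hD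
  have c3 := Finset.card_sdiff_add_card_eq_card (Glow_OE D hD)
  have c4 : F D ≤ D.sz := Nat.add_le_add (Finset.card_filter_le _ _) (Finset.card_filter_le _ _)
  classical
  have c5 : (D.Z.filter (fun z => ¬ Good D z)).card ≤ (Glow_E D \ Glow_O D).card * 3 := by
    refine le_trans (Finset.card_le_card (t := (Glow_E D \ Glow_O D).biUnion (Glow_W D)) ?_)
      (Finset.card_biUnion_le_card_mul _ _ 3 fun e _ => Glow_cardW hHU D hD e)
    intro z hz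
    rw [Finset.mem_filter] at hz
    exact Glow_bad hHB D hD hz.1 hz.2
  have c6 : G D + (D.Z.filter (fun z => ¬ Good D z)).card = D.Z.card := by
    unfold G
    convert Finset.card_filter_add_card_filter_not (s := D.Z) (fun z => Good D z)
  omega

end Pool.RB
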