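import Pool.Agent.RB.St2

/-! Module HB of project RB. -/

namespace Pool.RB

theorem pHB2 : StHB2 := by
  intro D z hD hz
  obtain ⟨hU, hDn, hL, hR, chir, eL, eR, eU, eD, noV, noH⟩ := hz
  have vU := hD.v _ hU
  have vD := hD.v _ hDn
  have aL := hD.h _ hL
  have aR := hD.h _ hR
  have bU := hD.vlo_end _ hU
  have bD := hD.vhi_end _ hDn
  have bR := hD.hlo_end _ hR
  have bL := hD.hhi_end _ hL
  have ex1 : z.x1 = min z.xU z.xD := rfl
  have ex2 : z.x2 = max z.xU z.xD := rfl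
  have ey1 : z.y1 = min z.yL z.yR := rfl
  have ey2 : z.y2 = max z.yL z.yR := rfl
  rcases chir with ⟨c1, c2⟩ | ⟨c1, c2⟩
  · have f1 : z.x1 = z.xU := by omega
    have f2 : z.x2 = z.xD := by omega
    have f3 : z.y1 = z.yL := by omega
    have f4 : z.y2 = z.yR := by omega
    rw [eU, f3] at bU
    rw [eD, f4] at bD
    rw [eR, f1] at bR
    rw [eL, f2] at bL
    have bU' : D.hlo z.yL < z.xU ∧ z.xU < D.hhi z.yL := by
      rcases bU with h | h
      · omega
      · exact h.2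
    have bD' : D.hlo z.yR < z.xD ∧ z.xD < D.hhi z.yR := by
      rcases bD with h | h
      · omega
      · exact h.2
    have bR' : D.vlo z.xU < z.yR ∧ z.yR < D.vhi z.xU := by
      rcases bR with h | h
      · omega
      · exact h.2
    have bL' : D.vlo z.xD < z.yL ∧ z.yL < D.vhi z.xD := by
      rcases bL with h | h
      · omega
      · exact h.2
    refine ⟨by omega, by omega, by omega, by omega, by omega, by omega, by omega, by omega,
      by omega, by omega, ?_⟩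
    refine ⟨⟨?_, ?_⟩, ?_, ?_, ?_, ?_, ?_, ?_, ?_, ?_, ?_, ?_⟩
    · show z.x1 < z.x2; omega
    · show z.y1 < z.y2; omega
    · show D.X0 ≤ z.x1; omega
    · show z.x2 ≤ D.X1; omega
    · show D.Y0 ≤ z.y1; omega
    · show z.y2 ≤ D.Y1; omega
    · right
      show z.x1 ∈ D.V ∧ D.vlo z.x1 ≤ z.y1 ∧ z.y2 ≤ D.vhi z.x1
      rw [f1]
      exact ⟨hU, by omega, by omega⟩
    · right
      show z.x2 ∈ D.V ∧ D.vlo z.x2 ≤ z.y1 ∧ z.y2 ≤ D.vhi z.x2
      rw [f2]
      exact ⟨hDn, by omega, by omega⟩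
    · right
      show z.y1 ∈ D.H ∧ D.hlo z.y1 ≤ z.x1 ∧ z.x2 ≤ D.hhi z.y1
      rw [f3]
      exact ⟨hL, by omega, by omega⟩
    · right
      show z.y2 ∈ D.H ∧ D.hlo z.y2 ≤ z.x1 ∧ z.x2 ≤ D.hhi z.y2
      rw [f4]
      exact ⟨hR, by omega, by omega⟩
    · exact noV
    · exact noH
  · have f1 : z.x1 = z.xD := by omega
    have f2 : z.x2 = z.xU := by omega
    have f3 : z.y1 = z.yR := by omega
    have f4 : z.y2 = z.yL := by omega
    rw [eU, f3] at bU
    rw [eD, f4] at bD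
    rw [eR, f1] at bR
    rw [eL, f2] at bL
    have bU' : D.hlo z.yR < z.xU ∧ z.xU < D.hhi z.yR := by
      rcases bU with h | h
      · omega
      · exact h.2
    have bD' : D.hlo z.yL < z.xD ∧ z.xD < D.hhi z.yL := by
      rcases bD with h | h
      · omega
      · exact h.2
    have bR' : D.vlo z.xD < z.yR ∧ z.yR < D.vhi z.xD := by
      rcases bR with h | h
      · omega
      · exact h.2
    have bL' : D.vlo z.xU < z.yL ∧ z.yL < D.vhi z.xU := by
      rcases bL with h | h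
      · omega
      · exact h.2
    refine ⟨by omega, by omega, by omega, by omega, by omega, by omega, by omega, by omega,
      by omega, by omega, ?_⟩
    refine ⟨⟨?_, ?_⟩, ?_, ?_, ?_, ?_, ?_, ?_, ?_, ?_, ?_, ?_⟩
    · show z.x1 < z.x2; omega
    · show z.y1 < z.y2; omega
    · show D.X0 ≤ z.x1; omega
    · show z.x2 ≤ D.X1; omega
    · show D.Y0 ≤ z.y1; omega
    · show z.y2 ≤ D.Y1; omega
    · right
      show z.x1 ∈ D.V ∧ D.vlo z.x1 ≤ z.y1 ∧ z.y2 ≤ D.vhi z.x1
      rw [f1]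
      exact ⟨hDn, by omega, by omega⟩
    · right
      show z.x2 ∈ D.V ∧ D.vlo z.x2 ≤ z.y1 ∧ z.y2 ≤ D.vhi z.x2
      rw [f2]
      exact ⟨hU, by omega, by omega⟩
    · right
      show z.y1 ∈ D.H ∧ D.hlo z.y1 ≤ z.x1 ∧ z.x2 ≤ D.hhi z.y1
      rw [f3]
      exact ⟨hR, by omega, by omega⟩
    · right
      show z.y2 ∈ D.H ∧ D.hlo z.y2 ≤ z.x1 ∧ z.x2 ≤ D.hhi z.y2
      rw [f4]
      exact ⟨hL, by omega, by omega⟩
    · exact noV
    · exact noH

theorem pHB : StHB := fun D hD z hz => pHB2 D z hD (hD.z z hz)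

end Pool.RB
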