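import Pool.Agent.RB.St

/-! MP_c6e2b4_co, project RB, module HU: holes are determined by each of their arms. -/

namespace Pool.RB

private theorem HU_A {z : Hole} (h : z.yL < z.yR ∧ z.xU < z.xD) :
    z.x1 = z.xU ∧ z.x2 = z.xD ∧ z.y1 = z.yL ∧ z.y2 = z.yR := by
  obtain ⟨h1, h2⟩ := h
  unfold Hole.x1 Hole.x2 Hole.y1 Hole.y2
  refine ⟨?_, ?_, ?_, ?_⟩ <;> omega

private theorem HU_B {z : Hole} (h : z.yR < z.yL ∧ z.xD < z.xU) :
    z.x1 = z.xD ∧ z.x2 = z.xU ∧ z.y1 = z.yR ∧ z.y2 = z.yL := by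
  obtain ⟨h1, h2⟩ := h
  unfold Hole.x1 Hole.x2 Hole.y1 Hole.y2
  refine ⟨?_, ?_, ?_, ?_⟩ <;> omega

private theorem HU_ext {z w : Hole} (h1 : z.yL = w.yL) (h2 : z.yR = w.yR) (h3 : z.xU = w.xU)
    (h4 : z.xD = w.xD) : z = w := by
  cases z; cases w; simp_all

private theorem HU_1 (D : Cfg) (hD : Ok D) (z : Hole) (hz : z ∈ D.Z) (w : Hole) (hw : w ∈ D.Z)
    (h : z.yL = w.yL) : z = w := by
  have Hz := hD.z z hz
  have Hw := hD.z w hw
  have e1 : z.x2 = w.x2 := by rw [← Hz.eL, ← Hw.eL, h]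
  rcases Hz.chir with a | a <;> rcases Hw.chir with b | b
  · obtain ⟨a1, a2, a3, a4⟩ := HU_A a
    obtain ⟨b1, b2, b3, b4⟩ := HU_A b
    have e2 : z.xD = w.xD := by omega
    have e3 : z.y2 = w.y2 := by rw [← Hz.eD, ← Hw.eD, e2]
    have e4 : z.yR = w.yR := by omega
    have e5 : z.x1 = w.x1 := by rw [← Hz.eR, ← Hw.eR, e4]
    exact HU_ext h e4 (by omega) e2
  · obtain ⟨a1, a2, a3, a4⟩ := HU_A a
    obtain ⟨b1, b2, b3, b4⟩ := HU_B b
    have := hD.adjV w hw z hz (by omega)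
    omega
  · obtain ⟨a1, a2, a3, a4⟩ := HU_B a
    obtain ⟨b1, b2, b3, b4⟩ := HU_A b
    have := hD.adjV z hz w hw (by omega)
    omega
  · obtain ⟨a1, a2, a3, a4⟩ := HU_B a
    obtain ⟨b1, b2, b3, b4⟩ := HU_B b
    have e2 : z.xU = w.xU := by omega
    have e3 : z.y1 = w.y1 := by rw [← Hz.eU, ← Hw.eU, e2]
    have e4 : z.yR = w.yR := by omega
    have e5 : z.x1 = w.x1 := by rw [← Hz.eR, ← Hw.eR, e4]
    exact HU_ext h e4 e2 (by omega)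

private theorem HU_2 (D : Cfg) (hD : Ok D) (z : Hole) (hz : z ∈ D.Z) (w : Hole) (hw : w ∈ D.Z)
    (h : z.yR = w.yR) : z = w := by
  have Hz := hD.z z hz
  have Hw := hD.z w hw
  have e1 : z.x1 = w.x1 := by rw [← Hz.eR, ← Hw.eR, h]
  rcases Hz.chir with a | a <;> rcases Hw.chir with b | b
  · obtain ⟨a1, a2, a3, a4⟩ := HU_A a
    obtain ⟨b1, b2, b3, b4⟩ := HU_A b
    have e2 : z.xU = w.xU := by omega
    have e3 : z.y1 = w.y1 := by rw [← Hz.eU, ← Hw.eU, e2]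
    exact HU_1 D hD z hz w hw (by omega)
  · obtain ⟨a1, a2, a3, a4⟩ := HU_A a
    obtain ⟨b1, b2, b3, b4⟩ := HU_B b
    have := hD.adjV z hz w hw (by omega)
    omega
  · obtain ⟨a1, a2, a3, a4⟩ := HU_B a
    obtain ⟨b1, b2, b3, b4⟩ := HU_A b
    have := hD.adjV w hw z hz (by omega)
    omega
  · obtain ⟨a1, a2, a3, a4⟩ := HU_B a
    obtain ⟨b1, b2, b3, b4⟩ := HU_B b
    have e2 : z.xD = w.xD := by omega
    have e3 : z.y2 = w.y2 := by rw [← Hz.eD, ← Hw.eD, e2]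
    exact HU_1 D hD z hz w hw (by omega)

private theorem HU_3 (D : Cfg) (hD : Ok D) (z : Hole) (hz : z ∈ D.Z) (w : Hole) (hw : w ∈ D.Z)
    (h : z.xU = w.xU) : z = w := by
  have Hz := hD.z z hz
  have Hw := hD.z w hw
  have e1 : z.y1 = w.y1 := by rw [← Hz.eU, ← Hw.eU, h]
  rcases Hz.chir with a | a <;> rcases Hw.chir with b | b
  · obtain ⟨a1, a2, a3, a4⟩ := HU_A a
    obtain ⟨b1, b2, b3, b4⟩ := HU_A b
    exact HU_1 D hD z hz w hw (by omega)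
  · obtain ⟨a1, a2, a3, a4⟩ := HU_A a
    obtain ⟨b1, b2, b3, b4⟩ := HU_B b
    have := hD.adjH w hw z hz (by omega)
    omega
  · obtain ⟨a1, a2, a3, a4⟩ := HU_B a
    obtain ⟨b1, b2, b3, b4⟩ := HU_A b
    have := hD.adjH z hz w hw (by omega)
    omega
  · obtain ⟨a1, a2, a3, a4⟩ := HU_B a
    obtain ⟨b1, b2, b3, b4⟩ := HU_B b
    exact HU_2 D hD z hz w hw (by omega)

private theorem HU_4 (D : Cfg) (hD : Ok D) (z : Hole) (hz : z ∈ D.Z) (w : Hole) (hw : w ∈ D.Z)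
    (h : z.xD = w.xD) : z = w := by
  have Hz := hD.z z hz
  have Hw := hD.z w hw
  have e1 : z.y2 = w.y2 := by rw [← Hz.eD, ← Hw.eD, h]
  rcases Hz.chir with a | a <;> rcases Hw.chir with b | b
  · obtain ⟨a1, a2, a3, a4⟩ := HU_A a
    obtain ⟨b1, b2, b3, b4⟩ := HU_A b
    exact HU_2 D hD z hz w hw (by omega)
  · obtain ⟨a1, a2, a3, a4⟩ := HU_A a
    obtain ⟨b1, b2, b3, b4⟩ := HU_B b
    have := hD.adjH z hz w hw (by omega)
    omega
  · obtain ⟨a1, a2, a3, a4⟩ := HU_B a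
    obtain ⟨b1, b2, b3, b4⟩ := HU_A b
    have := hD.adjH w hw z hz (by omega)
    omega
  · obtain ⟨a1, a2, a3, a4⟩ := HU_B a
    obtain ⟨b1, b2, b3, b4⟩ := HU_B b
    exact HU_1 D hD z hz w hw (by omega)

theorem pHU (hHB : StHB) : StHU := fun D hD z hz w hw => have _ := hHB
  ⟨HU_1 D hD z hz w hw, HU_2 D hD z hz w hw, HU_3 D hD z hz w hw, HU_4 D hD z hz w hw⟩

end Pool.RB
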