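import Pool.Agent.RB.St

/-! Module HostL of project RB. -/

set_option autoImplicit false

namespace Pool.RB

theorem pHostL (hHB : StHB) : StHostL := by
  intro D y β hD hy hβ hlo hβy hhyp hne
  have hb := hHB D hD y hy
  have hz := hD.z y hy
  -- basic facts
  have hTH : y.yL ∈ D.H := hz.hL
  have hxV : y.xD ∈ D.V := hz.hD
  have hx1 : y.x1 ≤ y.xD := by unfold Hole.x1; exact min_le_right _ _
  have hT1 : y.y1 ≤ y.yL := by unfold Hole.y1; exact min_le_left _ _
  have hT2 : y.yL ≤ y.y2 := by unfold Hole.y2; exact le_max_left _ _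
  have hvx := hD.v _ hxV
  have hloL := hb.loL
  have heD := hz.eD
  have hβ0 : D.Y0 ≤ β := by
    rcases hβ with h | ⟨h, _, _⟩
    · exact h ▸ le_refl _
    · exact (hD.h _ h).1.le
  -- (a)
  have ha : ∀ q ∈ D.V, q < y.xD → β < D.vhi q → β ≤ D.vlo q := by
    intro q hq hq1 hq2
    have hvq := hD.v q hq
    rcases hβ with h | ⟨h, h1, h2⟩
    · rw [h]; exact hvq.2.2.1
    · by_contra hcon
      push Not at hcon
      exact hD.nc q hq β h hcon hq2 (by rw [h1]; exact hvq.1) (lt_of_lt_of_le hq1 h2)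
  by_cases hY : (D.H.filter (fun z => β < z ∧ z < y.yL ∧ D.hlo z < y.xD)).Nonempty
  · obtain ⟨m, hm, hmin⟩ := Finset.exists_min_image _ (fun z => z) hY
    rw [Finset.mem_filter] at hm
    obtain ⟨hmH, hm1, hm2, hm3⟩ := hm
    have hhi : D.hhi m ≤ y.xD := by
      by_contra hcon
      push Not at hcon
      exact hD.nc _ hxV m hmH (by omega) (by omega) hm3 hcon
    have hhi' : D.hhi m ≠ y.xD := by
      intro h
      have := hhyp m hmH hm1 (by omega) h
      omega
    have hq1 : D.hhi m < y.xD := lt_of_le_of_ne hhi hhi'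
    rcases hD.hhi_end m hmH with h | ⟨h1, h2, h3⟩
    · omega
    · refine ⟨D.hhi m, h1, hq1, ?_⟩
      have h4 := ha _ h1 hq1 (by omega)
      by_contra hcon
      have h5 : β < D.vlo (D.hhi m) := lt_of_le_of_ne h4 (fun h => hcon h.symm)
      rcases hD.vlo_end _ h1 with h | ⟨h6, h7, h8⟩
      · omega
      · have := hmin (D.vlo (D.hhi m)) (Finset.mem_filter.2 ⟨h6, h5, by omega, by omega⟩)
        omega
  · rcases hD.hlo_end _ hTH with h | ⟨h1, h2, h3⟩
    · exact absurd h hne
    · have hq : D.hlo y.yL < y.xD := by omega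
      refine ⟨D.hlo y.yL, h1, hq, ?_⟩
      have h4 := ha _ h1 hq (by omega)
      by_contra hcon
      have h5 : β < D.vlo (D.hlo y.yL) := lt_of_le_of_ne h4 (fun h => hcon h.symm)
      rcases hD.vlo_end _ h1 with h | ⟨h6, h7, h8⟩
      · omega
      · exact hY ⟨D.vlo (D.hlo y.yL), Finset.mem_filter.2 ⟨h6, h5, by omega, by omega⟩⟩

end Pool.RB
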