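import Pool.Agent.RB.St

/-!
# RB: module HostR
-/

namespace Pool.RB

theorem pHostR (hHB : StHB) : StHostR := by
  intro D y β hD hy hβ h1 h2 h3 h4
  have hb := hHB D hD y hy
  have hz := hD.z y hy
  have hx1 := hb.x12
  have hR := hb.hiR
  have hX0 := hb.X0lt
  have hxD1 : y.x1 ≤ y.xD := min_le_right _ _
  have hxD2 : y.xD ≤ y.x2 := le_max_right _ _
  have hyR2 : y.yR ≤ y.y2 := le_max_right _ _
  have hyR1 : y.y1 ≤ y.yR := min_le_right _ _
  have heD := hz.eD
  -- (a)
  have ha : ∀ q ∈ D.V, y.xD < q → β < D.vhi q → β ≤ D.vlo q := by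
    intro q hq g1 g2
    have gq := hD.v q hq
    rcases hβ with e | ⟨e1, e2, e3⟩
    · omega
    · by_contra hc
      exact hD.nc q hq β e1 (by omega) g2 (by omega) (by omega)
  -- descent
  have hY0 : D.Y0 ≤ β := by
    rcases hβ with e | ⟨e1, e2, e3⟩
    · omega
    · have := hD.h β e1
      omega
  have key : ∀ (n : ℕ) (w : ℤ), w ∈ D.H → β < w → w < y.yR → y.xD < D.hhi w → w - β ≤ n →
      ∃ q ∈ D.V, y.xD < q ∧ D.vlo q = β := by
    intro n
    induction n with
    | zero => intro w _ g1 _ _ g2; omega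
    | succ n ih =>
      intro w hw g1 g2 g3 g4
      have e1 : y.xD ≤ D.hlo w := by
        by_contra hc
        exact hD.nc y.xD hz.hD w hw (by omega) (by omega) (by omega) g3
      have e2 : D.hlo w ≠ y.xD := by
        intro hc
        have := h3 w hw g1 (by omega) hc
        omega
      rcases hD.hlo_end w hw with k1 | ⟨k1, k2, k3⟩
      · omega
      · have e3 := ha _ k1 (by omega) (by omega)
        by_cases e4 : D.vlo (D.hlo w) = β
        · exact ⟨D.hlo w, k1, by omega, e4⟩
        · rcases hD.vlo_end _ k1 with m1 | ⟨m1, m2, m3⟩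
          · omega
          · exact ih _ m1 (by omega) (by omega) (by omega) (by omega)
  rcases hD.hhi_end y.yR hz.hR with k1 | ⟨k1, k2, k3⟩
  · exact absurd k1 h4
  · have e3 := ha _ k1 (by omega) (by omega)
    by_cases e4 : D.vlo (D.hhi y.yR) = β
    · exact ⟨_, k1, by omega, e4⟩
    · rcases hD.vlo_end _ k1 with m1 | ⟨m1, m2, m3⟩
      · omega
      · exact key (D.vlo (D.hhi y.yR) - β).toNat _ m1 (by omega) (by omega) (by omega) (by omega)

end Pool.RB
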