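import Pool.Agent.RB.St3

/-! From partitions with a given number of fragments to partitions with a given number of cuts. -/

namespace Pool.RB

open Pool.Agent.Helper4.BSPT (IBox Seeds ICost IMeets)

private theorem ICost_V (A : Finset Box) (hA : ∀ R ∈ A, R.x1 < R.x2) (K : Box) (c : ℤ) :
    cnt A K + (A.filter fun R => Meets R K ∧ R.x1 < c ∧ c < R.x2).card ≤
      cnt A ⟨K.x1, c, K.y1, K.y2⟩ + cnt A ⟨c, K.x2, K.y1, K.y2⟩ := by
  unfold cnt
  rw [← Finset.card_union_add_card_inter (A.filter fun R => Meets R ⟨K.x1, c, K.y1, K.y2⟩)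
    (A.filter fun R => Meets R ⟨c, K.x2, K.y1, K.y2⟩)]
  refine Nat.add_le_add (Finset.card_le_card ?_) (Finset.card_le_card ?_)
  · intro R hR
    simp only [Finset.mem_filter, Finset.mem_union, Meets] at hR ⊢
    have := hA R hR.1
    by_cases h : R.x1 < c
    · exact Or.inl ⟨hR.1, h, hR.2.2.1, hR.2.2.2.1, hR.2.2.2.2⟩
    · exact Or.inr ⟨hR.1, hR.2.1, by omega, hR.2.2.2.1, hR.2.2.2.2⟩
  · intro R hR
    simp only [Finset.mem_filter, Finset.mem_inter, Meets] at hR ⊢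
    obtain ⟨h1, ⟨h2, h3, h4, h5⟩, h6, h7⟩ := hR
    exact ⟨⟨h1, h6, h3, h4, h5⟩, ⟨h1, h2, h7, h4, h5⟩⟩

private theorem ICost_H (A : Finset Box) (hA : ∀ R ∈ A, R.y1 < R.y2) (K : Box) (c : ℤ) :
    cnt A K + (A.filter fun R => Meets R K ∧ R.y1 < c ∧ c < R.y2).card ≤
      cnt A ⟨K.x1, K.x2, K.y1, c⟩ + cnt A ⟨K.x1, K.x2, c, K.y2⟩ := by
  unfold cnt
  rw [← Finset.card_union_add_card_inter (A.filter fun R => Meets R ⟨K.x1, K.x2, K.y1, c⟩)
    (A.filter fun R => Meets R ⟨K.x1, K.x2, c, K.y2⟩)]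
  refine Nat.add_le_add (Finset.card_le_card ?_) (Finset.card_le_card ?_)
  · intro R hR
    simp only [Finset.mem_filter, Finset.mem_union, Meets] at hR ⊢
    have := hA R hR.1
    by_cases h : R.y1 < c
    · exact Or.inl ⟨hR.1, hR.2.1, hR.2.2.1, h, hR.2.2.2.2⟩
    · exact Or.inr ⟨hR.1, hR.2.1, hR.2.2.1, hR.2.2.2.1, by omega⟩
  · intro R hR
    simp only [Finset.mem_filter, Finset.mem_inter, Meets] at hR ⊢
    obtain ⟨h1, ⟨h2, h3, h4, h5⟩, h6, h7⟩ := hR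
    exact ⟨⟨h1, h2, h3, h6, h5⟩, ⟨h1, h2, h3, h4, h7⟩⟩

private def ICost_bt (B : Box) : IBox := ⟨B.x1, B.x2, B.y1, B.y2⟩

private theorem ICost_aux {n : ℕ} {s : Fin n → IBox} (hs : Seeds n s) {B : Box} {k : ℕ}
    (h : Bsp (bx s) B k) : ∃ c : ℕ, ICost s (ICost_bt B) c ∧ cnt (bx s) B + c ≤ k := by
  classical
  have hinj : ∀ i j : Fin n, tb (s i) = tb (s j) → i = j := by
    intro i j e
    simp only [tb, Box.mk.injEq] at e
    exact hs.aa i j e.1
  have hx : ∀ R ∈ bx s, R.x1 < R.x2 := by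
    intro R hR
    obtain ⟨i, _, rfl⟩ := Finset.mem_image.1 hR
    exact hs.ab i
  have hy : ∀ R ∈ bx s, R.y1 < R.y2 := by
    intro R hR
    obtain ⟨i, _, rfl⟩ := Finset.mem_image.1 hR
    exact hs.lr i
  induction h with
  | leaf K h =>
    refine ⟨0, ?_, by omega⟩
    apply ICost.leaf
    intro i j hi hj
    have h1 : tb (s i) ∈ (bx s).filter (fun R => Meets R K) :=
      Finset.mem_filter.2 ⟨Finset.mem_image.2 ⟨i, Finset.mem_univ i, rfl⟩, hi⟩
    have h2 : tb (s j) ∈ (bx s).filter (fun R => Meets R K) :=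
      Finset.mem_filter.2 ⟨Finset.mem_image.2 ⟨j, Finset.mem_univ j, rfl⟩, hj⟩
    exact hinj i j (Finset.card_le_one.1 h _ h1 _ h2)
  | vert K c f g h1 h2 _ _ ih1 ih2 =>
    obtain ⟨c1, i1, i2⟩ := ih1
    obtain ⟨c2, j1, j2⟩ := ih2
    have h3 := ICost_V (bx s) hx K c
    refine ⟨c1 + c2 + ((bx s).filter fun R => Meets R K ∧ R.x1 < c ∧ c < R.x2).card, ?_, by omega⟩
    refine ICost.vert (ICost_bt K) c _ c1 c2 _ h1 h2 i1 j1 ?_ le_rfl
    refine Finset.card_le_card_of_injOn (fun i => tb (s i)) ?_ ?_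
    · intro i hi
      rw [Finset.mem_coe, Finset.mem_filter] at hi
      rw [Finset.mem_coe, Finset.mem_filter]
      exact ⟨Finset.mem_image.2 ⟨i, Finset.mem_univ i, rfl⟩, hi.2⟩
    · intro i _ j _ e
      exact hinj i j e
  | horiz K c f g h1 h2 _ _ ih1 ih2 =>
    obtain ⟨c1, i1, i2⟩ := ih1
    obtain ⟨c2, j1, j2⟩ := ih2
    have h3 := ICost_H (bx s) hy K c
    refine ⟨c1 + c2 + ((bx s).filter fun R => Meets R K ∧ R.y1 < c ∧ c < R.y2).card, ?_, by omega⟩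
    refine ICost.horiz (ICost_bt K) c _ c1 c2 _ h1 h2 i1 j1 ?_ le_rfl
    refine Finset.card_le_card_of_injOn (fun i => tb (s i)) ?_ ?_
    · intro i hi
      rw [Finset.mem_coe, Finset.mem_filter] at hi
      rw [Finset.mem_coe, Finset.mem_filter]
      exact ⟨Finset.mem_image.2 ⟨i, Finset.mem_univ i, rfl⟩, hi.2⟩
    · intro i _ j _ e
      exact hinj i j e

theorem pICost : StICost := fun _ _ hs _ _ h => ICost_aux hs h

end Pool.RB
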