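import Pool.Agent.RB.St3

/-! The integral form of the theorem. -/

namespace Pool.RB

open Pool.Agent.Helper4.BSPT (IBox Seeds ICost IMeets)

theorem pIntS (hRootS : StRootS) (hMain : StMain) (hGlow : StGlow) : StIntS := by
  intro n s hn hs
  obtain ⟨D, hD, hbox, hfit, hsz⟩ := hRootS n s hn hs
  obtain ⟨k, hk, hle⟩ := hMain D hD (bx s) hfit
  obtain ⟨g1, g2, g3⟩ := hGlow D hD
  rw [hbox] at hk hle
  refine ⟨k, hk, ?_⟩
  have hc : cnt (bx s) ⟨0, 2 * n + 1, 0, 2 * n + 1⟩ ≤ n := by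
    refine (Finset.card_filter_le _ _).trans (Finset.card_image_le.trans ?_)
    simp
  have h1 : (7 : ℚ) * k ≤ 7 * (cnt (bx s) ⟨0, 2 * n + 1, 0, 2 * n + 1⟩ : ℚ) + 7 * (F D : ℚ) -
      (G D : ℚ) := by linarith
  have h2 : (7 : ℤ) * k ≤ 7 * (cnt (bx s) ⟨0, 2 * n + 1, 0, 2 * n + 1⟩ : ℤ) + 7 * (F D : ℤ) -
      (G D : ℤ) := by exact_mod_cast h1
  omega

end Pool.RB
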