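import Pool.Agent.RB.St

set_option autoImplicit false

/-!
# Module Inv of project RB (MP_c6e2b4_co, owner helper33), written by helper46
-/

namespace Pool.RB

private theorem Inv_fxfx (z : Hole) : z.fx.fx = z := by
  cases z
  simp [Hole.fx]

private theorem Inv_fx_inj : Function.Injective Hole.fx := by
  intro a b h
  have := congrArg Hole.fx h
  rwa [Inv_fxfx, Inv_fxfx] at this

private theorem Inv_neg_inj : Function.Injective (fun x : ℤ => -x) := neg_injective

private theorem Inv_cfg (D : Cfg) : D.fx.fx = D := by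
  cases D
  simp only [Cfg.fx, Cfg.mk.injEq, neg_neg, Finset.image_image, true_and]
  refine ⟨?_, ?_⟩
  · ext x
    simp
  · ext z
    simp [Inv_fxfx]

private theorem Inv_cardV (D : Cfg) (p q : ℤ → Prop) [DecidablePred p] [DecidablePred q]
    (h : ∀ x, p (-x) ↔ q x) : ((D.fx.V).filter p).card = (D.V.filter q).card := by
  have h1 : (D.fx.V).filter p = (D.V.filter q).image (fun x => -x) := by
    ext x
    simp only [Cfg.fx, Finset.mem_filter, Finset.mem_image]
    constructor
    · rintro ⟨⟨y, hy, rfl⟩, hp⟩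
      exact ⟨y, ⟨hy, (h y).1 hp⟩, rfl⟩
    · rintro ⟨y, ⟨hy, hq⟩, rfl⟩
      exact ⟨⟨y, hy, rfl⟩, (h y).2 hq⟩
  rw [h1, Finset.card_image_of_injective _ Inv_neg_inj]

private theorem Inv_cardZ (D : Cfg) (p q : Hole → Prop) [DecidablePred p] [DecidablePred q]
    (h : ∀ z, p z.fx ↔ q z) : ((D.fx.Z).filter p).card = (D.Z.filter q).card := by
  have h1 : (D.fx.Z).filter p = (D.Z.filter q).image Hole.fx := by
    ext x
    simp only [Cfg.fx, Finset.mem_filter, Finset.mem_image]
    constructor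
    · rintro ⟨⟨y, hy, rfl⟩, hp⟩
      exact ⟨y, ⟨hy, (h y).1 hp⟩, rfl⟩
    · rintro ⟨y, ⟨hy, hq⟩, rfl⟩
      exact ⟨⟨y, hy, rfl⟩, (h y).2 hq⟩
  rw [h1, Finset.card_image_of_injective _ Inv_fx_inj]

private theorem Inv_clean (D : Cfg) (z : Hole) (h : Clean D z) : Clean D.fx z.fx := by
  refine ⟨?_, ?_, ?_, ?_, ?_, ?_, ?_, ?_⟩
  · rcases h.farR with h1 | ⟨w, hw, h1⟩
    · left
      simp only [Cfg.fx, Hole.fx, h1]
    · right
      exact ⟨w.fx, Finset.mem_image_of_mem _ hw, h1⟩
  · rcases h.farL with h1 | ⟨w, hw, h1⟩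
    · left
      simp only [Cfg.fx, Hole.fx, h1]
    · right
      exact ⟨w.fx, Finset.mem_image_of_mem _ hw, h1⟩
  · rcases h.farU with h1 | ⟨w, hw, h1⟩
    · left
      simp only [Cfg.fx, Hole.fx, neg_neg, h1]
    · right
      exact ⟨w.fx, Finset.mem_image_of_mem _ hw, by simp only [Hole.fx, h1]⟩
  · rcases h.farD with h1 | ⟨w, hw, h1⟩
    · left
      simp only [Cfg.fx, Hole.fx, neg_neg, h1]
    · right
      exact ⟨w.fx, Finset.mem_image_of_mem _ hw, by simp only [Hole.fx, h1]⟩
  · intro x hx hh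
    simp only [Cfg.fx, Finset.mem_image] at hx
    obtain ⟨y, hy, rfl⟩ := hx
    simp only [Cfg.fx, Hole.fx, neg_neg] at hh
    obtain ⟨w, hw, h1⟩ := h.hostHi y hy hh.symm
    exact ⟨w.fx, Finset.mem_image_of_mem _ hw, by simp only [Hole.fx, h1]⟩
  · intro x hx hh
    simp only [Cfg.fx, Finset.mem_image] at hx
    obtain ⟨y, hy, rfl⟩ := hx
    simp only [Cfg.fx, Hole.fx, neg_neg] at hh
    obtain ⟨w, hw, h1⟩ := h.hostLo y hy hh.symm
    exact ⟨w.fx, Finset.mem_image_of_mem _ hw, by simp only [Hole.fx, h1]⟩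
  · intro y hy hh
    simp only [Cfg.fx, Hole.fx, neg_inj] at hy hh
    obtain ⟨w, hw, h1⟩ := h.hostLe y hy hh
    exact ⟨w.fx, Finset.mem_image_of_mem _ hw, h1⟩
  · intro y hy hh
    simp only [Cfg.fx, Hole.fx, neg_inj] at hy hh
    obtain ⟨w, hw, h1⟩ := h.hostRi y hy hh
    exact ⟨w.fx, Finset.mem_image_of_mem _ hw, h1⟩

private theorem Inv_clean_iff (D : Cfg) (z : Hole) : Clean D.fx z.fx ↔ Clean D z := by
  constructor
  · intro h
    have := Inv_clean _ _ h
    rwa [Inv_cfg, Inv_fxfx] at this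
  · exact Inv_clean D z

private theorem Inv_lat_iff (D : Cfg) (z : Hole) : Lat D.fx z.fx ↔ Lat D z := by
  simp only [Lat, Cfg.fx, Hole.fx, neg_inj]
  exact and_comm

private theorem Inv_good_iff (D : Cfg) (z : Hole) : Good D.fx z.fx ↔ Good D z := by
  simp only [Good, Inv_clean_iff, Inv_lat_iff]

private theorem Inv_y1 (z : Hole) : z.fx.y1 = z.y1 := by
  simp only [Hole.y1, Hole.fx]
  exact min_comm _ _

private theorem Inv_y2 (z : Hole) : z.fx.y2 = z.y2 := by
  simp only [Hole.y2, Hole.fx]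
  exact max_comm _ _

theorem pInv : StInv := by
  classical
  intro D c
  have hfr : fr D.fx c = fr D c := by
    unfold fr
    simp only [Cfg.fx, ne_eq, neg_inj]
    by_cases h1 : D.hlo c = D.X0 <;> by_cases h2 : D.hhi c = D.X1 <;> simp [h1, h2]
  have hee : ee D.fx c = ee D c := by
    unfold ee
    apply Inv_cardV
    intro x
    simp only [Cfg.fx, neg_neg]
  have hhit : hit D.fx c = hit D c := by
    unfold hit
    apply Inv_cardZ
    intro z
    rw [Inv_y1, Inv_y2]
  have htch : tch D.fx c = tch D c := by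
    unfold tch
    apply Inv_cardZ
    intro z
    rw [Inv_y1, Inv_y2]
  have hcrs : crs D.fx c = crs D c := by
    unfold crs
    apply Inv_cardV
    intro x
    simp only [Cfg.fx, neg_neg]
  have hpred : ∀ z : Hole, (Good D.fx z.fx ∧ D.fx.vhi z.fx.xU = D.fx.Y1 ∧ D.fx.vlo z.fx.xD < c) ↔
      (Good D z ∧ D.vhi z.xU = D.Y1 ∧ D.vlo z.xD < c) := by
    intro z
    rw [Inv_good_iff]
    simp only [Cfg.fx, Hole.fx, neg_neg]
  refine ⟨hee, hhit, htch, hfr, ?_, hcrs, ?_, ?_, ?_, ?_, ?_⟩
  · unfold slk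
    rw [hfr, hee, hhit]
  · unfold AA
    apply Inv_cardZ
    exact hpred
  · constructor
    · intro h x hx hxt
      have := h (-x) (by simp only [Cfg.fx]; exact Finset.mem_image_of_mem _ hx)
        (by simp only [Cfg.fx, neg_neg]; exact hxt)
      simpa only [Cfg.fx, neg_neg] using this
    · intro h x hx hxt
      simp only [Cfg.fx, Finset.mem_image] at hx
      obtain ⟨y, hy, rfl⟩ := hx
      simp only [Cfg.fx, neg_neg] at hxt ⊢
      exact h y hy hxt
  · constructor
    · intro h x hx hxt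
      have := h (-x) (by simp only [Cfg.fx]; exact Finset.mem_image_of_mem _ hx)
        (by simp only [Cfg.fx, neg_neg]; exact hxt)
      simpa only [Cfg.fx, neg_neg] using this
    · intro h x hx hxt
      simp only [Cfg.fx, Finset.mem_image] at hx
      obtain ⟨y, hy, rfl⟩ := hx
      simp only [Cfg.fx, neg_neg] at hxt ⊢
      exact h y hy hxt
  · unfold nb
    apply Inv_cardV
    intro x
    simp only [Cfg.fx, neg_neg]
  · intro z
    unfold AA
    rw [Finset.mem_filter, Finset.mem_filter, hpred]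
    have : z.fx ∈ D.fx.Z ↔ z ∈ D.Z := by
      simp only [Cfg.fx, Finset.mem_image]
      constructor
      · rintro ⟨w, hw, h⟩
        rwa [← Inv_fx_inj h]
      · intro h
        exact ⟨z, h, rfl⟩
    rw [this]

end Pool.RB
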