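import Pool.Agent.RB.St

/-!
# Project RB, module Loss: the holes lost by a horizontal cut
-/

set_option autoImplicit false

namespace Pool.RB

theorem Loss_one (A : Finset Hole) (p : Hole → ℤ) (v : ℤ)
    (h : ∀ z ∈ A, ∀ w ∈ A, p z = p w → z = w) : (A.filter (fun z => p z = v)).card ≤ 1 := by
  rw [Finset.card_le_one]
  intro z hz w hw
  rw [Finset.mem_filter] at hz hw
  exact h z hz.1 w hw.1 (hz.2.trans hw.2.symm)

theorem Loss_three (A : Finset Hole) (p q r : Hole → ℤ) (u v w : ℤ)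
    (hp : ∀ z ∈ A, ∀ w ∈ A, p z = p w → z = w) (hq : ∀ z ∈ A, ∀ w ∈ A, q z = q w → z = w)
    (hr : ∀ z ∈ A, ∀ w ∈ A, r z = r w → z = w) (B : Finset Hole)
    (hB : ∀ z ∈ B, z ∈ A ∧ (p z = u ∨ q z = v ∨ r z = w)) : B.card ≤ 3 := by
  have hsub : B ⊆ (A.filter (fun z => p z = u)) ∪ ((A.filter (fun z => q z = v)) ∪
      (A.filter (fun z => r z = w))) := by
    intro z hz
    obtain ⟨h1, h2⟩ := hB z hz
    rw [Finset.mem_union, Finset.mem_union, Finset.mem_filter, Finset.mem_filter,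
      Finset.mem_filter]
    rcases h2 with h2 | h2 | h2
    · exact Or.inl ⟨h1, h2⟩
    · exact Or.inr (Or.inl ⟨h1, h2⟩)
    · exact Or.inr (Or.inr ⟨h1, h2⟩)
  have h1 := Finset.card_le_card hsub
  have h2 := Finset.card_union_le (A.filter (fun z => p z = u)) ((A.filter (fun z => q z = v)) ∪
      (A.filter (fun z => r z = w)))
  have h3 := Finset.card_union_le (A.filter (fun z => q z = v)) (A.filter (fun z => r z = w))
  have h4 := Loss_one A p u hp
  have h5 := Loss_one A q v hq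
  have h6 := Loss_one A r w hr
  omega

open Classical in
theorem pLoss (hHU : StHU) (hN5 : StN5) : StLoss := by
  intro D T c hOk hT
  have uL : ∀ z ∈ D.Z, ∀ w ∈ D.Z, z.yL = w.yL → z = w := fun z hz w hw => (hHU D hOk z hz w hw).1
  have uR : ∀ z ∈ D.Z, ∀ w ∈ D.Z, z.yR = w.yR → z = w := fun z hz w hw => (hHU D hOk z hz w hw).2.1
  have uU : ∀ z ∈ D.Z, ∀ w ∈ D.Z, z.xU = w.xU → z = w :=
    fun z hz w hw => (hHU D hOk z hz w hw).2.2.1
  have uD : ∀ z ∈ D.Z, ∀ w ∈ D.Z, z.xD = w.xD → z = w :=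
    fun z hz w hw => (hHU D hOk z hz w hw).2.2.2
  let f5 : Hole → Finset Hole := fun w => D.Z.filter (fun z => z = w ∨ Nb z w)
  let f3 : Hole → Finset Hole := fun w => D.Z.filter (fun z =>
    (w.y1 = c ∧ (z.xD = w.xU ∨ z.yL = w.y2 ∨ z.yR = w.y2)) ∨
    (w.y2 = c ∧ (z.xU = w.xD ∨ z.yL = w.y1 ∨ z.yR = w.y1)))
  let hs : Finset Hole := D.Z.filter (fun z => z.y1 < c ∧ c < z.y2)
  let ts : Finset Hole := T.filter (fun w => w.y1 = c ∨ w.y2 = c)
  have c5 : (hs.biUnion f5).card ≤ hs.card * 5 := by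
    refine Finset.card_biUnion_le_card_mul hs f5 5 ?_
    intro w hw
    exact hN5 D w hOk (Finset.mem_filter.1 hw).1
  have c3 : (ts.biUnion f3).card ≤ ts.card * 3 := by
    refine Finset.card_biUnion_le_card_mul ts f3 3 ?_
    intro w hw
    have hwT := (Finset.mem_filter.1 hw).1
    have hwc := (Finset.mem_filter.1 hw).2
    have hwZ : w ∈ D.Z := hT hwT
    have hlt : w.y1 < w.y2 := by
      have := (hOk.z w hwZ).chir
      unfold Hole.y1 Hole.y2
      omega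
    rcases hwc with h1 | h1
    · refine Loss_three D.Z Hole.xD Hole.yL Hole.yR w.xU w.y2 w.y2 uD uL uR (f3 w) ?_
      intro z hz
      have hz' := Finset.mem_filter.1 hz
      refine ⟨hz'.1, ?_⟩
      rcases hz'.2 with h2 | h2
      · exact h2.2
      · have := h2.1
        omega
    · refine Loss_three D.Z Hole.xU Hole.yL Hole.yR w.xD w.y1 w.y1 uU uL uR (f3 w) ?_
      intro z hz
      have hz' := Finset.mem_filter.1 hz
      refine ⟨hz'.1, ?_⟩
      rcases hz'.2 with h2 | h2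
      · have := h2.1
        omega
      · exact h2.2
  have hsub : D.Z.filter (LossC D T c) ⊆ hs.biUnion f5 ∪ ts.biUnion f3 := by
    intro z hz
    obtain ⟨hzZ, hzL⟩ := Finset.mem_filter.1 hz
    rw [Finset.mem_union, Finset.mem_biUnion, Finset.mem_biUnion]
    rcases hzL with ⟨w, hw, h1, h2, h3⟩ | ⟨w, hw, h1, h2⟩ | ⟨w, hw, h1, h2⟩
    · exact Or.inl ⟨w, Finset.mem_filter.2 ⟨hw, h1, h2⟩, Finset.mem_filter.2 ⟨hzZ, h3⟩⟩
    · exact Or.inr ⟨w, Finset.mem_filter.2 ⟨hw, Or.inl h1⟩,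
        Finset.mem_filter.2 ⟨hzZ, Or.inl ⟨h1, h2⟩⟩⟩
    · exact Or.inr ⟨w, Finset.mem_filter.2 ⟨hw, Or.inr h1⟩,
        Finset.mem_filter.2 ⟨hzZ, Or.inr ⟨h1, h2⟩⟩⟩
  have e1 := Finset.card_le_card hsub
  have e2 := Finset.card_union_le (hs.biUnion f5) (ts.biUnion f3)
  have e3 : hs.card = hit D c := rfl
  have e4 : (D.Z.filter (LossC D T c)).card ≤ 5 * hit D c + 3 * ts.card := by
    rw [← e3]
    omega
  exact e4

end Pool.RB
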