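import Pool.Agent.RB.St

/-! Project RB, module MC (helper68): the corner version of the move S1. -/

namespace Pool.RB

private theorem MC_arith (κ : ℚ) (h0 : 0 ≤ κ) (h1 : κ ≤ 1 / 7)
    (FD FA FL FR FL2 qD qA qL qR cr ht tc aa fre sl : ℕ)
    (hF : FA + FR + FL2 + cr + fre ≤ FD) (hFL : FL ≤ FL2)
    (hsl : sl = fre + ht)
    (hG : qD + 3 ≤ qA + qL + qR + 5 * ht + 3 * tc + aa)
    (hk : 5 * ht + 3 * tc + aa ≤ 7 * sl + 3) :
    ((FL : ℚ) - κ * qR + ((FR : ℚ) - κ * qL)) + ((FA : ℚ) - κ * qA) + ((cr : ℚ) - (ht : ℚ)) ≤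
      (FD : ℚ) - κ * qD := by
  have hF' : (FA : ℚ) + FR + FL2 + cr + fre ≤ FD := by exact_mod_cast hF
  have hFL' : (FL : ℚ) ≤ FL2 := by exact_mod_cast hFL
  have hsl' : (sl : ℚ) = fre + ht := by exact_mod_cast hsl
  have hG' : (qD : ℚ) + 3 ≤ qA + qL + qR + 5 * ht + 3 * tc + aa := by exact_mod_cast hG
  have hk' : (5 : ℚ) * ht + 3 * tc + aa ≤ 7 * sl + 3 := by exact_mod_cast hk
  have hs0 : (0 : ℚ) ≤ sl := Nat.cast_nonneg _
  have e1 : κ * ((qD : ℚ) - (qA + qL + qR)) ≤ κ * (7 * sl) :=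
    mul_le_mul_of_nonneg_left (by linarith) h0
  have e2 : κ * (7 * (sl : ℚ)) ≤ 1 / 7 * (7 * sl) :=
    mul_le_mul_of_nonneg_right h1 (by linarith)
  have e3 : κ * ((qD : ℚ) - (qA + qL + qR)) = κ * qD - κ * qA - κ * qL - κ * qR := by ring
  linarith

theorem pMC (hSH : StSH) (hSV : StSV) (hSMono : StSMono) (hSz : StSz) (hOkTr : StOkTr)
    (hOkFx : StOkFx) (hOkUp : StOkUp) (hOkDn : StOkDn) (hOkLR : StOkLR) (hHB : StHB) (hHU : StHU)
    (hFClip : StFClip) (hPs : StPs) (hAbOk : StAbOk) (hAb : StAb) (hAFS : StAFS) (hAFA : StAFA)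
    (hAGC : StAGC) (hTch : StTch) : StMC := by
  intro κ D y hk0 hk1 hD hIH hC
  have hy := hC.hy
  have hz := hD.z y hy
  have hb0 := hHB D hD y hy
  have hA := hC.hA
  have hx : y.xU < y.xD := by
    rcases hz.chir with h | h
    · exact h.2
    · omega
  have y1e : y.y1 = y.yL := by unfold Hole.y1; omega
  have y2e : y.y2 = y.yR := by unfold Hole.y2; omega
  have x1e : y.x1 = y.xU := by unfold Hole.x1; omega
  have x2e : y.x2 = y.xD := by unfold Hole.x2; omega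
  obtain ⟨g1, g2, -⟩ := hD.h y.yL hz.hL
  obtain ⟨t1, t2, -⟩ := hD.v y.xU hz.hU
  have hvt : D.vlo y.xU = y.yL := by rw [hz.eU, y1e]
  have hvs : D.vlo y.xD < y.yL := by have := hb0.loD; omega
  have hvs2 : D.vhi y.xD = y.y2 := hz.eD
  -- the parts
  have okE : Ok (up D y.yL) := hOkUp D y.yL hD g1 g2
  have okD : Ok (dn D y.yL) := hOkDn D y.yL hD g1 g2
  have szU := hSz.1 D y.yL hz.hL
  have htE : y.xU ∈ (up D y.yL).V := by
    show y.xU ∈ D.V.filter (fun x => y.yL < D.vhi x)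
    rw [Finset.mem_filter]
    exact ⟨hz.hU, by rw [hC.hU]; exact g2⟩
  obtain ⟨okL, okR⟩ := hOkLR (up D y.yL) y.xU okE t1 t2
  have szL := hSz.2.1 (up D y.yL) y.xU htE
  -- forbidden sets
  have hS' : ∀ f ∈ upS y.yL (∅ ∪ hb D), IsFace (up D y.yL) f := by
    rintro f ⟨h, hh, hlt, rfl⟩
    rcases hh with hh | ⟨w, hw, rfl⟩
    · exact absurd hh (Set.notMem_empty _)
    · exact (hFClip D w.box y.yL (hHB D hD w hw).face).1 g1 g2 hlt
  have hbox : y.box ∈ upS y.yL (∅ ∪ hb D) := by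
    refine ⟨y.box, Or.inr ⟨y, hy, rfl⟩, ?_, ?_⟩
    · show y.yL < y.y2
      omega
    · show (⟨y.x1, y.x2, y.y1, y.y2⟩ : Box) = ⟨y.x1, y.x2, max y.y1 y.yL, y.y2⟩
      rw [y1e, max_self]
  have hAbC : AbC (rt (up D y.yL) y.xU) (rtS y.xU (upS y.yL (∅ ∪ hb D) ∪ hb (up D y.yL))) y.xD y.box := by
    constructor
    · show y.xD ∈ (D.V.filter (fun x => y.yL < D.vhi x)).filter (fun x => y.xU < x)
      rw [Finset.mem_filter, Finset.mem_filter]
      refine ⟨⟨hz.hD, ?_⟩, hx⟩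
      omega
    · show max (D.vlo y.xD) y.yL = y.yL
      omega
    · intro z hz'
      have hz2 : z ∈ (D.Z.filter (fun z => y.yL < z.y1)).filter (fun z => y.xU < z.x1) := hz'
      rw [Finset.mem_filter, Finset.mem_filter] at hz2
      obtain ⟨⟨hzD, hz3⟩, -⟩ := hz2
      constructor
      · intro e
        have := (hD.z z hzD).eU
        rw [e] at this
        omega
      · intro e
        have := (hHU D hD z hzD y hy).2.2.2 e
        rw [this] at hz3
        omega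
    · have f1 := (hFClip D y.box y.yL hb0.face).1 g1 g2 (by show y.yL < y.y2; omega)
      have e1 : (⟨y.box.x1, y.box.x2, max y.box.y1 y.yL, y.box.y2⟩ : Box) = y.box := by
        show (⟨y.x1, y.x2, max y.y1 y.yL, y.y2⟩ : Box) = ⟨y.x1, y.x2, y.y1, y.y2⟩
        rw [y1e, max_self]
      rw [e1] at f1
      have f2 := (hFClip (up D y.yL) y.box y.xU f1).2.2.1 t1 t2 (by show y.xU < y.x2; omega)
      have e2 : (⟨max y.box.x1 y.xU, y.box.x2, y.box.y1, y.box.y2⟩ : Box) = y.box := by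
        show (⟨max y.x1 y.xU, y.x2, y.y1, y.y2⟩ : Box) = ⟨y.x1, y.x2, y.y1, y.y2⟩
        rw [x1e, max_self]
      rw [e2] at f2
      exact f2
    · exact x1e
    · exact x2e
    · exact y1e
    · exact hvs2.symm
    · refine ⟨y.box, Or.inl hbox, ?_, ?_⟩
      · show y.xU < y.x2
        omega
      · show (⟨y.x1, y.x2, y.y1, y.y2⟩ : Box) = ⟨max y.x1 y.xU, y.x2, y.y1, y.y2⟩
        rw [x1e, max_self]
  -- lower part
  have pD : P κ (dn D y.yL) := hIH _ okD szU.2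
  have sD : Slv (dn D y.yL) (dnS y.yL (∅ ∪ hb D))
      ((F (dn D y.yL) : ℚ) - κ * (G (dn D y.yL) : ℚ)) := hSMono _ _ _ _ pD le_rfl
  -- left part
  have pL : P κ (rr (lf (up D y.yL) y.xU)) := by
    refine hIH _ (hOkTr _ (hOkFx _ okL)) ?_
    have e1 := (hSz.2.2.2 (lf (up D y.yL) y.xU).fx).1
    have e2 := (hSz.2.2.2 (lf (up D y.yL) y.xU)).2
    show ((lf (up D y.yL) y.xU).fx.tr).sz < D.sz
    have := szL.1
    have := szU.1
    omega
  have sL := (hPs κ).2.1 _ pL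
  -- right part
  have okR2 : Ok (abC (rt (up D y.yL) y.xU) y.xD) := hAbOk _ _ _ _ okR hAbC
  have pR : P κ (rl (abC (rt (up D y.yL) y.xU) y.xD)) := by
    refine hIH _ (hOkTr _ okR2) ?_
    have e1 := (hSz.2.2.2 (abC (rt (up D y.yL) y.xU) y.xD)).1
    have e2 := (hSz.2.2.1 (rt (up D y.yL) y.xU) y.xD).2.2.2.2
    show ((abC (rt (up D y.yL) y.xU) y.xD).tr).sz < D.sz
    have := szL.2
    have := szU.1
    omega
  have sR := hAb _ _ _ _ _ okR hAbC ((hPs κ).2.2 _ pR)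
  -- crossing number of the vertical line is zero
  have hcr : crsV (up D y.yL) y.xU = 0 := by
    unfold crsV
    rw [Finset.card_eq_zero, Finset.filter_eq_empty_iff]
    intro y' hy' hcon
    have hy2 : y' ∈ D.H.filter (fun y'' => y.yL < y'') := hy'
    rw [Finset.mem_filter] at hy2
    have hy3 := hD.h y' hy2.1
    exact hD.nc y.xU hz.hU y' hy2.1 (by rw [hvt]; exact hy2.2) (by rw [hC.hU]; exact hy3.2.1) hcon.1 hcon.2
  have sE := hSV (up D y.yL) (upS y.yL (∅ ∪ hb D)) y.xU _ _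
    (((FL (abC (rt (up D y.yL) y.xU) y.xD) : ℚ) - κ * (GV (abC (rt (up D y.yL) y.xU) y.xD) : ℚ)) +
      ((FR (lf (up D y.yL) y.xU) : ℚ) - κ * (GV (lf (up D y.yL) y.xU) : ℚ)))
    okE hS' htE sR (hSMono _ _ _ _ sL le_rfl) (by rw [hcr]; simp)
  -- counts
  have c1 := hAFS D y.yL y.xU hD hz.hL hC.hT hz.hU hC.hU hvt
  have c2 := hAFA (rt (up D y.yL) y.xU) y.xD
  have c3 := hAGC D y hD hy hA hC.hU
  obtain ⟨c4, c5, -⟩ := hTch D y.yL hD hz.hL
  have hslk : slk D y.yL = fr D y.yL + ee D y.yL + hit D y.yL := rfl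
  have hk : 5 * hit D y.yL + 3 * tch D y.yL + (AA D y.yL).card ≤ 7 * slk D y.yL + 3 := by
    rcases hC.hs with h | h
    · obtain ⟨h1, h2⟩ := h
      by_cases h3 : tch D y.yL = 2
      · have := c5 h3
        omega
      · omega
    · have h2 : (AA D y.yL).card = 0 := by rw [h]; rfl
      by_cases h3 : tch D y.yL = 2
      · have := c5 h3
        omega
      · omega
  unfold P
  refine hSH D ∅ y.yL _ _ _ hD (by intro g hg; exact absurd hg (Set.notMem_empty _)) hz.hL sE sD ?_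
  exact MC_arith κ hk0 hk1 (F D) (F (dn D y.yL)) (FL (abC (rt (up D y.yL) y.xU) y.xD))
    (FR (lf (up D y.yL) y.xU)) (FL (rt (up D y.yL) y.xU)) (G D) (G (dn D y.yL))
    (GV (lf (up D y.yL) y.xU)) (GV (abC (rt (up D y.yL) y.xU) y.xD)) (crs D y.yL) (hit D y.yL)
    (tch D y.yL) (AA D y.yL).card (fr D y.yL + ee D y.yL) (slk D y.yL)
    (by omega) c2 (by omega) c3 hk

end Pool.RB
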