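import Pool.Agent.RB.St

/-!
Project RB, module MH: the move along a full horizontal piece.
-/

namespace Pool.RB

theorem pMH (hSH : StSH) (hSMono : StSMono) (hSz : StSz) (hOkUp : StOkUp) (hOkDn : StOkDn)
    (hAFH : StAFH) (hAGH : StAGH) : StMH := by
  intro κ D c hκ hD hIH hc hlo hhi
  have hch := hD.h c hc
  have hUp : P κ (up D c) := hIH (up D c) (hOkUp D c hD hch.1 hch.2.1) (hSz.1 D c hc).1
  have hDn : P κ (dn D c) := hIH (dn D c) (hOkDn D c hD hch.1 hch.2.1) (hSz.1 D c hc).2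
  have hcrs : crs D c = 0 := by
    unfold crs
    rw [Finset.card_eq_zero, Finset.filter_eq_empty_iff]
    rintro x hx ⟨h1, h2⟩
    have hxv := hD.v x hx
    exact hD.nc x hx c hc h1 h2 (by rw [hlo]; exact hxv.1) (by rw [hhi]; exact hxv.2.1)
  have hF := hAFH D c hD hc hlo hhi
  have hG := hAGH D c hD hc hlo hhi
  unfold P at hUp hDn ⊢
  refine hSH D ∅ c _ _ _ hD (by simp) hc (hSMono _ _ _ _ hUp (le_refl _))
    (hSMono _ _ _ _ hDn (le_refl _)) ?_
  rw [hcrs]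
  have hFq : ((F (up D c) : ℚ) + (F (dn D c) : ℚ)) ≤ (F D : ℚ) := by exact_mod_cast hF
  have hGq : (G D : ℚ) ≤ (G (up D c) : ℚ) + (G (dn D c) : ℚ) := by exact_mod_cast hG
  have hmul := mul_le_mul_of_nonneg_left hGq hκ
  have hh : (0 : ℚ) ≤ (hit D c : ℚ) := Nat.cast_nonneg _
  push_cast
  nlinarith

end Pool.RB
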