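import Pool.Agent.RB.St

/-! Project RB, module MI (helper31). -/

namespace Pool.RB

private theorem MI_main (hHB : StHB) (hHU : StHU) (hFClip : StFClip) (D : Cfg) (y : Hole) (hD : Ok D)
    (hI : Ic D y) (hA : y.yL < y.yR) :
    RmC (lf D y.xD) (lfS y.xD (∅ ∪ hb D)) y.yR y.box := by
  have hz := hD.z y hI.hy
  have hb := hHB D hD y hI.hy
  have hUD : y.xU < y.xD := by rcases hz.chir with h | h <;> omega
  have hx1 : y.x1 = y.xU := by unfold Hole.x1; omega
  have hx2 : y.x2 = y.xD := by unfold Hole.x2; omega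
  have hy1 : y.y1 = y.yL := by unfold Hole.y1; omega
  have hy2 : y.y2 = y.yR := by unfold Hole.y2; omega
  have h0 := hb.X0lt
  have h1 := hb.ltX1
  have h2 := hb.hiR
  have h3 := hz.eR
  have hbox : (⟨y.box.x1, min y.box.x2 y.xD, y.box.y1, y.box.y2⟩ : Box) = y.box := by
    have : min y.box.x2 y.xD = y.box.x2 := by
      show min y.x2 y.xD = y.x2
      rw [hx2]; exact min_self _
    rw [this]
  constructor
  · show y.yR ∈ D.H.filter (fun y' => D.hlo y' < y.xD)
    rw [Finset.mem_filter]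
    exact ⟨hz.hR, by omega⟩
  · show min (D.hhi y.yR) y.xD = y.xD
    omega
  · show D.hlo y.yR ≠ D.X0
    omega
  · intro x hx
    have hx' : x ∈ D.V.filter (fun x => x < y.xD) := hx
    rw [Finset.mem_filter] at hx'
    constructor
    · intro h
      have h' : D.vlo x = y.yR := h
      obtain ⟨w, hw, hwx⟩ := hI.cl.hostLo x hx'.1 (Or.inr h')
      have hwo := hD.z w hw
      have e := hwo.eU
      rw [hwx] at e
      have e2 : w.yL = y.yR ∨ w.yR = y.yR := by
        have : w.y1 = y.yR := by omega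
        unfold Hole.y1 at this
        omega
      rcases e2 with e2 | e2
      · have := hD.adjH y hI.hy w hw e2.symm
        have h5 : w.x1 ≤ w.xU := by unfold Hole.x1; omega
        omega
      · have := (hHU D hD y hI.hy w hw).2.1 e2.symm
        subst this
        omega
    · intro h
      have h' : D.vhi x = y.yR := h
      obtain ⟨w, hw, hwx⟩ := hI.cl.hostHi x hx'.1 (Or.inr h')
      have hwo := hD.z w hw
      have e := hwo.eD
      rw [hwx] at e
      have e2 : w.yL = y.yR ∨ w.yR = y.yR := by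
        have : w.y2 = y.yR := by omega
        unfold Hole.y2 at this
        omega
      rcases e2 with e2 | e2
      · have := hD.adjH y hI.hy w hw e2.symm
        have h5 : w.x1 ≤ w.xD := by unfold Hole.x1; omega
        omega
      · have := (hHU D hD y hI.hy w hw).2.1 e2.symm
        subst this
        omega
  · intro z hz'
    have hz'' : z ∈ D.Z.filter (fun z => z.x2 < y.xD) := hz'
    rw [Finset.mem_filter] at hz''
    constructor
    · intro h
      have := hD.adjH y hI.hy z hz''.1 h.symm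
      have h5 : z.x1 ≤ z.x2 := by unfold Hole.x1 Hole.x2; omega
      omega
    · intro h
      have := (hHU D hD y hI.hy z hz''.1).2.1 h.symm
      subst this
      omega
  · have := (hFClip D y.box y.xD hb.face).2.2.2 (by omega) (by omega)
      (by show y.x1 < y.xD; omega)
    rw [hbox] at this
    exact this
  · show y.x1 = D.hlo y.yR
    omega
  · show y.x2 = y.xD
    exact hx2
  · show y.y2 = y.yR
    exact hy2
  · refine ⟨y.box, Or.inr ⟨y, hI.hy, rfl⟩, ?_, hbox.symm⟩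
    show y.x1 < y.xD
    omega

theorem pMI (hSV : StSV) (hSMono : StSMono) (hSz : StSz) (hOkTr : StOkTr) (hOkFx : StOkFx)
    (hOkLR : StOkLR) (hHB : StHB) (hHU : StHU) (hFClip : StFClip) (hPs : StPs) (hRmOk : StRmOk)
    (hRm : StRm) (hOnly : StOnly) (hAFI : StAFI) (hAGI : StAGI) : StMI := by
  intro κ D y hκ0 hκ hD hIH hI hA
  have hz := hD.z y hI.hy
  have hb := hHB D hD y hI.hy
  have hUD : y.xU < y.xD := by rcases hz.chir with h | h <;> omega
  have hx1 : y.x1 = y.xU := by unfold Hole.x1; omega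
  have hx2 : y.x2 = y.xD := by unfold Hole.x2; omega
  have h0 := hb.X0lt
  have h1 := hb.ltX1
  have hLR := hOkLR D y.xD hD (by omega) (by omega)
  have hRmC := MI_main hHB hHU hFClip D y hD hI hA
  have hO := (hOnly D D.Y0 y hD hI.hy hA hI.cl hI.hU (le_of_eq hI.hD) hb.Y0lt).2
  have hO' : ∀ y' ∈ D.H, D.hlo y' < y.xD → y.xD < D.hhi y' → y' = y.yR :=
    fun y' h h' h'' => hO y' h (hD.h y' h).1 h' h''
  have hAF := hAFI D y hD hI.hy hA hI.hD hI.hfull hO'
  have hAG := hAGI D y hD hI.hy hA hI.cl hI.hD hI.hU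
  have hcrs : crsV D y.xD ≤ 1 := by
    unfold crsV
    refine le_trans (Finset.card_le_card (t := {y.yR}) ?_) (by simp)
    intro y' h
    rw [Finset.mem_filter] at h
    rw [Finset.mem_singleton]
    exact hO' y' h.1 h.2.1 h.2.2
  refine hSV D ∅ y.xD ((FL (rt D y.xD) : ℚ) - κ * (GV (rt D y.xD) : ℚ))
    ((FR (rmH (lf D y.xD) y.yR) : ℚ) - κ * (GV (rmH (lf D y.xD) y.yR) : ℚ)) _ hD
    (fun g hg => absurd hg (Set.notMem_empty g)) hz.hD ?_ ?_ ?_
  · refine hSMono _ _ _ _ ((hPs κ).2.2 _ ?_) le_rfl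
    refine hIH _ (hOkTr _ hLR.2) ?_
    have h5 : (rl (rt D y.xD)).sz = (rt D y.xD).sz := (hSz.2.2.2 _).1
    have h6 := (hSz.2.1 D y.xD hz.hD).2
    omega
  · refine hRm _ _ _ _ y.box hLR.1 hRmC ((hPs κ).2.1 _ ?_)
    refine hIH _ (hOkTr _ (hOkFx _ (hRmOk _ _ _ _ hLR.1 hRmC))) ?_
    have h5 : (rr (rmH (lf D y.xD) y.yR)).sz = (rmH (lf D y.xD) y.yR).fx.sz := (hSz.2.2.2 _).1
    have h6 : (rmH (lf D y.xD) y.yR).fx.sz = (rmH (lf D y.xD) y.yR).sz := (hSz.2.2.2 _).2
    have h7 := (hSz.2.2.1 (lf D y.xD) y.yR).2.2.2.1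
    have h8 := (hSz.2.1 D y.xD hz.hD).1
    omega
  · have a1 : (FR (rmH (lf D y.xD) y.yR) : ℚ) + (FL (rt D y.xD) : ℚ) + (nb D : ℚ) ≤ (F D : ℚ) := by
      exact_mod_cast hAF
    have a2 : (G D : ℚ) ≤ (GV (rmH (lf D y.xD) y.yR) : ℚ) + (GV (rt D y.xD) : ℚ) + 1 + (nb D : ℚ) := by
      exact_mod_cast hAG
    have a3 : (crsV D y.xD : ℚ) ≤ 1 := by exact_mod_cast hcrs
    have a4 : (2 : ℚ) ≤ (nb D : ℚ) := by exact_mod_cast hI.hn
    have a5 := mul_le_mul_of_nonneg_left a2 hκ0
    have a6 : κ * (1 + (nb D : ℚ)) ≤ (nb D : ℚ) - 1 := by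
      have : κ * (1 + (nb D : ℚ)) ≤ 1 / 7 * (1 + (nb D : ℚ)) :=
        mul_le_mul_of_nonneg_right hκ (by linarith)
      linarith
    nlinarith [a5, a6]

end Pool.RB
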