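import Pool.Agent.RB.St

/-!
# Project RB, module MR: the move R2 for holes of type A
-/

namespace Pool.RB

private lemma MR_type {y : Hole} (hA : y.yL < y.yR) {D : Cfg} (hk : HoleOk D y) :
    y.x1 = y.xU ∧ y.x2 = y.xD ∧ y.y1 = y.yL ∧ y.y2 = y.yR ∧ y.xU < y.xD := by
  have h0 : y.xU < y.xD := by
    rcases hk.chir with h | h
    · exact h.2
    · omega
  have h1 : y.x1 = min y.xU y.xD := rfl
  have h2 : y.x2 = max y.xU y.xD := rfl
  have h3 : y.y1 = min y.yL y.yR := rfl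
  have h4 : y.y2 = max y.yL y.yR := rfl
  rw [min_eq_left h0.le] at h1
  rw [max_eq_right h0.le] at h2
  rw [min_eq_left hA.le] at h3
  rw [max_eq_right hA.le] at h4
  exact ⟨h1, h2, h3, h4, h0⟩

private lemma MR_rmc (hHB : StHB) (hHU : StHU) (hFClip : StFClip) (D : Cfg) (c : ℤ) (y : Hole)
    (hO : Ok D) (hOE : Ok (up D c)) (hR : R2c D c y) (hA : y.yL < y.yR) (S : Set Box)
    (hS : y.box ∈ S) :
    RmC (lf (up D c) y.xD) (lfS y.xD S) y.yR y.box := by
  have hk := hO.z y hR.hy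
  obtain ⟨t1, t2, t3, t4, t5⟩ := MR_type hA hk
  have hb := hHB D hO y hR.hy
  have hlt := hR.hlt
  have b1 := hb.x12
  have b2 := hb.y12
  have b3 := hb.X0lt
  have b4 := hb.ltX1
  have b5 := hb.hiR
  have hc1 := hO.h c hR.hc
  have eR : D.hlo y.yR = y.x1 := hk.eR
  have hyE : y ∈ (up D c).Z := by
    show y ∈ D.Z.filter (fun z => c < z.y1)
    exact Finset.mem_filter.2 ⟨hR.hy, hlt⟩
  have hfE := (hHB (up D c) hOE y hyE).face
  refine ⟨?_, ?_, ?_, ?_, ?_, ?_, ?_, ?_, ?_, ?_⟩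
  · show y.yR ∈ (D.H.filter (fun y => c < y)).filter (fun y' => D.hlo y' < y.xD)
    refine Finset.mem_filter.2 ⟨Finset.mem_filter.2 ⟨hk.hR, by omega⟩, ?_⟩
    omega
  · show min (D.hhi y.yR) y.xD = y.xD
    apply min_eq_right
    omega
  · show D.hlo y.yR ≠ D.X0
    omega
  · intro x' hx'
    have hx'' : x' ∈ (D.V.filter (fun x => c < D.vhi x)).filter (fun x => x < y.xD) := hx'
    rw [Finset.mem_filter, Finset.mem_filter] at hx''
    obtain ⟨⟨h1, h2⟩, h3⟩ := hx''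
    refine ⟨?_, ?_⟩
    · show max (D.vlo x') c ≠ y.yR
      intro h4
      have h5 : D.vlo x' = y.yR := by
        rcases max_choice (D.vlo x') c with h6 | h6 <;> omega
      obtain ⟨w, hw, hw2⟩ := hR.cl.hostLo x' h1 (Or.inr h5)
      have hkw := hO.z w hw
      have h6 : D.vlo w.xU = w.y1 := hkw.eU
      rw [hw2, h5] at h6
      have h7 : w.y1 = min w.yL w.yR := rfl
      have h8 : w.x1 = min w.xU w.xD := rfl
      have h9 : w.x1 ≤ w.xU := by
        rw [h8]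
        exact min_le_left _ _
      rcases min_choice w.yL w.yR with h10 | h10
      · have := hO.adjH y hR.hy w hw (by omega)
        omega
      · have h11 := (hHU D hO w hw y hR.hy).2.1 (by omega)
        rw [h11] at h6
        omega
    · show D.vhi x' ≠ y.yR
      intro h5
      obtain ⟨w, hw, hw2⟩ := hR.cl.hostHi x' h1 (Or.inr h5)
      have hkw := hO.z w hw
      have h6 : D.vhi w.xD = w.y2 := hkw.eD
      rw [hw2, h5] at h6
      have h7 : w.y2 = max w.yL w.yR := rfl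
      have h8 : w.x1 = min w.xU w.xD := rfl
      have h9 : w.x1 ≤ w.xD := by
        rw [h8]
        exact min_le_right _ _
      rcases max_choice w.yL w.yR with h10 | h10
      · have := hO.adjH y hR.hy w hw (by omega)
        omega
      · have h11 := (hHU D hO w hw y hR.hy).2.1 (by omega)
        rw [h11] at hw2
        omega
  · intro z hz
    have hz' : z ∈ (D.Z.filter (fun z => c < z.y1)).filter (fun z => z.x2 < y.xD) := hz
    rw [Finset.mem_filter, Finset.mem_filter] at hz'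
    obtain ⟨⟨h1, h2⟩, h3⟩ := hz'
    have hbz := hHB D hO z h1
    have b6 := hbz.x12
    refine ⟨?_, ?_⟩
    · intro h4
      have := hO.adjH y hR.hy z h1 h4.symm
      omega
    · intro h4
      have h5 := (hHU D hO z h1 y hR.hy).2.1 h4
      rw [h5] at h3
      omega
  · have h1 := (hFClip (up D c) y.box y.xD hfE).2.2.2
      (by show D.X0 < y.xD; omega) (by show y.xD < D.X1; omega) (by show y.x1 < y.xD; omega)
    have h2 : min y.box.x2 y.xD = y.x2 := by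
      show min y.x2 y.xD = y.x2
      rw [t2]
      exact min_self _
    rw [h2] at h1
    exact h1
  · show y.x1 = D.hlo y.yR
    exact eR.symm
  · show y.x2 = y.xD
    exact t2
  · show y.y2 = y.yR
    exact t4
  · refine ⟨y.box, hS, ?_, ?_⟩
    · show y.x1 < y.xD
      omega
    · show y.box = ⟨y.x1, min y.x2 y.xD, y.y1, y.y2⟩
      rw [t2, min_self, ← t2]
      rfl

private lemma MR_crs (D : Cfg) (c : ℤ) (y : Hole)
    (h : ∀ y' ∈ D.H, c < y' → D.hlo y' < y.xD → y.xD < D.hhi y' → y' = y.yR) :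
    crsV (up D c) y.xD ≤ 1 := by
  have h1 : ((D.H.filter (fun y => c < y)).filter
      (fun y' => D.hlo y' < y.xD ∧ y.xD < D.hhi y')) ⊆ {y.yR} := by
    intro y' hy'
    rw [Finset.mem_filter, Finset.mem_filter] at hy'
    rw [Finset.mem_singleton]
    exact h y' hy'.1.1 hy'.1.2 hy'.2.1 hy'.2.2
  have h2 := Finset.card_le_card h1
  rw [Finset.card_singleton] at h2
  exact h2

private lemma MR_arith (κ : ℚ) (h0 : 0 ≤ κ) (h7 : κ ≤ 1 / 7)
    (fD fd fR fL crs fr ee hit tch gD gd gR gL aa cv : ℕ)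
    (hF : fd + fR + fL + crs + fr + ee ≤ fD)
    (hG : gD ≤ gd + gR + gL + 5 * hit + 3 * tch + 2 + aa)
    (hcv : cv ≤ 1)
    (hb : 5 * hit + 3 * tch + 2 + aa + 7 ≤ 7 * (fr + ee + hit)) :
    (((fL : ℚ) - κ * (gL : ℚ)) + ((fR : ℚ) - κ * (gR : ℚ)) + (cv : ℚ)) +
      ((fd : ℚ) - κ * (gd : ℚ)) + ((crs : ℚ) - (hit : ℚ)) ≤ (fD : ℚ) - κ * (gD : ℚ) := by
  have hF' : (fd : ℚ) + fR + fL + crs + fr + ee ≤ fD := by exact_mod_cast hF
  have hG' : (gD : ℚ) ≤ gd + gR + gL + 5 * hit + 3 * tch + 2 + aa := by exact_mod_cast hG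
  have hcv' : (cv : ℚ) ≤ 1 := by exact_mod_cast hcv
  have hb' : 5 * (hit : ℚ) + 3 * tch + 2 + aa + 7 ≤ 7 * (fr + ee + hit) := by exact_mod_cast hb
  have hm : κ * ((gD : ℚ) - gd - gR - gL) ≤ κ * (5 * hit + 3 * tch + 2 + aa) := by
    apply mul_le_mul_of_nonneg_left _ h0
    linarith
  have hnn : (0 : ℚ) ≤ 5 * (hit : ℚ) + 3 * tch + 2 + aa := by positivity
  have hm2 : κ * (5 * (hit : ℚ) + 3 * tch + 2 + aa) ≤ (1 / 7) * (5 * hit + 3 * tch + 2 + aa) :=
    mul_le_mul_of_nonneg_right h7 hnn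
  have e1 : κ * ((gD : ℚ) - gd - gR - gL) = κ * gD - κ * gd - κ * gR - κ * gL := by ring
  rw [e1] at hm
  linarith

theorem pMR (hSH : StSH) (hSV : StSV) (hSMono : StSMono) (hSz : StSz) (hOkTr : StOkTr)
    (hOkFx : StOkFx) (hOkUp : StOkUp) (hOkDn : StOkDn) (hOkLR : StOkLR) (hHB : StHB) (hHU : StHU)
    (hFClip : StFClip) (hPs : StPs) (hRmOk : StRmOk) (hRm : StRm) (hOnly : StOnly) (hAFR : StAFR)
    (hAGR : StAGR) (hTch : StTch) : StMR := by
  intro κ D c y h0 h7 hO hIH hR hA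
  have hk := hO.z y hR.hy
  obtain ⟨t1, t2, t3, t4, t5⟩ := MR_type hA hk
  have hb := hHB D hO y hR.hy
  have hlt := hR.hlt
  have b1 := hb.x12
  have b2 := hb.y12
  have b3 := hb.X0lt
  have b4 := hb.ltX1
  have hc1 := hO.h c hR.hc
  have hOE : Ok (up D c) := hOkUp D c hO hc1.1 hc1.2.1
  have hOd : Ok (dn D c) := hOkDn D c hO hc1.1 hc1.2.1
  have hyE : y ∈ (up D c).Z := by
    show y ∈ D.Z.filter (fun z => c < z.y1)
    exact Finset.mem_filter.2 ⟨hR.hy, hlt⟩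
  have hxE : y.xD ∈ (up D c).V := by
    show y.xD ∈ D.V.filter (fun x => c < D.vhi x)
    refine Finset.mem_filter.2 ⟨hk.hD, ?_⟩
    have := hk.eD
    omega
  have hX0 : (up D c).X0 < y.xD := by
    show D.X0 < y.xD
    omega
  have hX1 : y.xD < (up D c).X1 := by
    show y.xD < D.X1
    omega
  obtain ⟨hOl, hOr⟩ := hOkLR (up D c) y.xD hOE hX0 hX1
  have honly := (hOnly D c y hO hR.hy hA hR.cl hR.hU hR.hD hlt).2
  have hcr := MR_crs D c y honly
  have sz1 := hSz.1 D c hR.hc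
  have sz2 := hSz.2.1 (up D c) y.xD hxE
  have hF := hAFR D c y hO hR.hc hR.hT hR.hy hA hlt hR.hD hR.hU honly
  have hG := hAGR D c y hO hR.hc hR.hy hA hR.cl hlt hR.hD hR.hU
  obtain ⟨ht1, ht2, ht3⟩ := hTch D c hO hR.hc
  have ht4 : tch D c ≤ ee D c := by
    apply ht3
    intro w hw hw1 hw2
    have h3 := hR.hT w.xU (hO.z w hw).hU hw2
    have h4 := (hO.z w hw).eU
    omega
  have hee := hR.he
  have hs := hR.hs
  have ha := hR.ha
  have hbd : 5 * hit D c + 3 * tch D c + 2 + (AA D c).card + 7 ≤ 7 * (fr D c + ee D c + hit D c) := by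
    by_cases h2 : tch D c = 2
    · have := ht2 h2
      omega
    · omega
  -- the lower part
  have hSd : Slv (dn D c) (dnS c (∅ ∪ Pool.RB.hb D)) ((F (dn D c) : ℚ) - κ * (G (dn D c) : ℚ)) :=
    hSMono (dn D c) _ _ _ (hIH (dn D c) hOd sz1.2) (le_refl _)
  -- the right part
  have hSr : Slv (rt (up D c) y.xD)
      (rtS y.xD (upS c (∅ ∪ Pool.RB.hb D) ∪ Pool.RB.hb (up D c)))
      ((FL (rt (up D c) y.xD) : ℚ) - κ * (GV (rt (up D c) y.xD) : ℚ)) := by
    apply hSMono _ _ _ _ _ (le_refl _)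
    apply (hPs κ).2.2
    apply hIH
    · exact hOkTr _ hOr
    · have h1 : (rl (rt (up D c) y.xD)).sz = (rt (up D c) y.xD).sz := (hSz.2.2.2 _).1
      have h2 := sz2.2
      have h3 := sz1.1
      omega
  -- the left part
  have hSl : Slv (lf (up D c) y.xD)
      (lfS y.xD (upS c (∅ ∪ Pool.RB.hb D) ∪ Pool.RB.hb (up D c)))
      ((FR (rmH (lf (up D c) y.xD) y.yR) : ℚ) - κ * (GV (rmH (lf (up D c) y.xD) y.yR) : ℚ)) := by
    have hrm := MR_rmc hHB hHU hFClip D c y hO hOE hR hA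
      (upS c (∅ ∪ Pool.RB.hb D) ∪ Pool.RB.hb (up D c)) (Or.inr ⟨y, hyE, rfl⟩)
    apply hRm _ _ _ _ _ hOl hrm
    apply (hPs κ).2.1
    apply hIH
    · exact hOkTr _ (hOkFx _ (hRmOk _ _ _ _ hOl hrm))
    · have h1 : (rr (rmH (lf (up D c) y.xD) y.yR)).sz = (rmH (lf (up D c) y.xD) y.yR).fx.sz :=
        (hSz.2.2.2 _).1
      have h2 : (rmH (lf (up D c) y.xD) y.yR).fx.sz = (rmH (lf (up D c) y.xD) y.yR).sz :=
        (hSz.2.2.2 _).2
      have h3 := (hSz.2.2.1 (lf (up D c) y.xD) y.yR).2.2.2.1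
      have h4 := sz2.1
      have h5 := sz1.1
      omega
  -- the upper part
  have hSu := hSV (up D c) (upS c (∅ ∪ Pool.RB.hb D)) y.xD _ _ _ hOE ?_ hxE hSr hSl (le_refl _)
  · exact hSH D ∅ c _ _ _ hO (fun g hg => absurd hg (Set.notMem_empty g)) hR.hc hSu hSd
      (MR_arith κ h0 h7 _ _ _ _ _ _ _ _ _ _ _ _ _ _ _ hF hG hcr hbd)
  · rintro g ⟨g0, hg0, hg1, rfl⟩
    rcases hg0 with h | ⟨z, hz, rfl⟩
    · exact absurd h (Set.notMem_empty g0)
    · exact (hFClip D z.box c (hHB D hO z hz).face).1 hc1.1 hc1.2.1 hg1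

end Pool.RB
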