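import Pool.Agent.RB.St

/-!
# Project RB, module MS: the plain move S1
-/

namespace Pool.RB

private theorem MS_crs {D : Cfg} {g t : ℤ} (hD : Ok D) (ht : t ∈ D.V) (htg : D.vlo t = g)
    (hT : D.vhi t = D.Y1) : crsV (up D g) t = 0 := by
  unfold crsV
  rw [Finset.card_eq_zero, Finset.filter_eq_empty_iff]
  intro y hy h
  have hy' : y ∈ D.H ∧ g < y := Finset.mem_filter.mp hy
  have h1 := hD.h y hy'.1
  exact hD.nc t ht y hy'.1 (by omega) (by omega) h.1 h.2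

private theorem MS_nat {D : Cfg} {g t : ℤ} (hTch : StTch) (hD : Ok D) (h : S1c D g t) :
    5 * hit D g + 3 * tch D g + (AA D g).card ≤ 7 * (fr D g + ee D g + hit D g) := by
  obtain ⟨h1, -, h3⟩ := hTch D g hD h.hg
  have h4 := h3 h.hn
  have h5 : slk D g = fr D g + ee D g + hit D g := rfl
  rcases h.hs with ⟨h6, h7⟩ | h6
  · omega
  · rw [h6, Finset.card_empty]
    omega

private theorem MS_acc (κ a b c d e f g' h i j k l m n o : ℚ) (h0 : 0 ≤ κ) (h1 : κ ≤ 1 / 7)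
    (hF : a + b + c + d + e + f ≤ g') (hG : h ≤ i + j + k + 5 * l + 3 * m + n)
    (hn : 5 * l + 3 * m + n ≤ 7 * (e + f + l)) (hl : 0 ≤ e + f + l) (ho : o = 0) :
    (c - κ * k + (b - κ * j) + o) + (a - κ * i) + (d - l) ≤ g' - κ * h := by
  have h2 := mul_le_mul_of_nonneg_left hG h0
  have h3 := mul_le_mul_of_nonneg_left hn h0
  have h4 := mul_le_mul_of_nonneg_right h1 hl
  subst ho
  nlinarith

/-- MODULE MS. -/
theorem pMS (hSH : StSH) (hSV : StSV) (hSMono : StSMono) (hSz : StSz) (hOkTr : StOkTr)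
    (hOkFx : StOkFx) (hOkUp : StOkUp) (hOkDn : StOkDn) (hOkLR : StOkLR) (hHB : StHB)
    (hFClip : StFClip) (hPs : StPs) (hAFS : StAFS) (hAGS : StAGS) (hTch : StTch) : StMS := by
  intro κ D g t hκ hκ1 hD hIH hS
  have hh := hD.h g hS.hg
  have hv := hD.v t hS.ht
  have okU : Ok (up D g) := hOkUp D g hD hh.1 hh.2.1
  have okD : Ok (dn D g) := hOkDn D g hD hh.1 hh.2.1
  obtain ⟨szU, szD⟩ := hSz.1 D g hS.hg
  have htU : t ∈ (up D g).V :=
    Finset.mem_filter.mpr ⟨hS.ht, by have := hS.htT; omega⟩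
  obtain ⟨okL, okR⟩ := hOkLR (up D g) t okU hv.1 hv.2.1
  obtain ⟨szL, szR⟩ := hSz.2.1 (up D g) t htU
  have pD : P κ (dn D g) := hIH _ okD szD
  have pL : P κ (rr (lf (up D g) t)) := by
    refine hIH _ (hOkTr _ (hOkFx _ okL)) ?_
    have e1 : (rr (lf (up D g) t)).sz = (lf (up D g) t).fx.sz := (hSz.2.2.2 _).1
    have e2 : (lf (up D g) t).fx.sz = (lf (up D g) t).sz := (hSz.2.2.2 _).2
    omega
  have pR : P κ (rl (rt (up D g) t)) := by
    refine hIH _ (hOkTr _ okR) ?_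
    have e1 : (rl (rt (up D g) t)).sz = (rt (up D g) t).sz := (hSz.2.2.2 _).1
    omega
  have sL := (hPs κ).2.1 _ pL
  have sR := (hPs κ).2.2 _ pR
  have hface : ∀ f ∈ upS g (∅ ∪ hb D), IsFace (up D g) f := by
    rintro f ⟨f0, hf0, h1, rfl⟩
    rcases hf0 with hf0 | ⟨z, hz, rfl⟩
    · exact absurd hf0 (Set.notMem_empty _)
    · exact (hFClip D z.box g (hHB D hD z hz).face).1 hh.1 hh.2.1 h1
  have hUp := hSV (up D g) (upS g (∅ ∪ hb D)) t _ _ _ okU hface htU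
    (hSMono _ _ _ _ sR le_rfl) (hSMono _ _ _ _ sL le_rfl) le_rfl
  refine hSH D ∅ g _ _ _ hD (fun g hg => absurd hg (Set.notMem_empty g)) hS.hg hUp
    (hSMono _ _ _ _ pD le_rfl) ?_
  have hF := hAFS D g t hD hS.hg hS.hT hS.ht hS.htT hS.htg
  have hG := hAGS D g t hD hS.hg hS.ht hS.htT hS.htg
  have hn := MS_nat hTch hD hS
  refine MS_acc κ _ _ _ _ (fr D g) (ee D g) _ _ _ _ _ _ (tch D g) ((AA D g).card) _ hκ hκ1
    ?_ ?_ ?_ ?_ ?_
  · exact_mod_cast hF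
  · exact_mod_cast hG
  · exact_mod_cast hn
  · positivity
  · exact_mod_cast MS_crs hD hS.ht hS.htg hS.htT

end Pool.RB
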