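import Pool.Agent.RB.St

/-!
# Project RB, module MV: a full vertical piece
-/

namespace Pool.RB

private theorem MV_crs {D : Cfg} {x0 : ℤ} (hD : Ok D) (hx : x0 ∈ D.V) (hlo : D.vlo x0 = D.Y0)
    (hhi : D.vhi x0 = D.Y1) : crsV D x0 = 0 := by
  unfold crsV
  rw [Finset.card_eq_zero, Finset.filter_eq_empty_iff]
  intro y hy h
  have h1 := hD.h y hy
  exact hD.nc x0 hx y hy (by omega) (by omega) h.1 h.2

/-- MODULE MV. -/
theorem pMV (hSV : StSV) (hSMono : StSMono) (hSz : StSz) (hOkLR : StOkLR) (hAFV : StAFV)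
    (hAGV : StAGV) : StMV := by
  intro κ D x0 hκ hD hIH hx hlo hhi
  have hv := hD.v x0 hx
  obtain ⟨okl, okr⟩ := hOkLR D x0 hD hv.1 hv.2.1
  obtain ⟨szl, szr⟩ := hSz.2.1 D x0 hx
  have p1 : P κ (rt D x0) := hIH _ okr szr
  have p2 : P κ (lf D x0) := hIH _ okl szl
  refine hSV D ∅ x0 _ _ _ hD (fun g hg => absurd hg (Set.notMem_empty g)) hx
    (hSMono _ _ _ _ p1 le_rfl) (hSMono _ _ _ _ p2 le_rfl) ?_
  rw [MV_crs hD hx hlo hhi]
  have h1 : ((F (lf D x0) + F (rt D x0) : ℕ) : ℚ) ≤ (F D : ℚ) := by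
    exact_mod_cast hAFV D x0 hD hx hlo hhi
  have h2 : (G D : ℚ) ≤ ((G (lf D x0) + G (rt D x0) : ℕ) : ℚ) := by
    exact_mod_cast hAGV D x0 hD hx hlo hhi
  have h3 := mul_le_mul_of_nonneg_left h2 hκ
  push_cast at h1 h3 ⊢
  linarith

end Pool.RB
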