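import Pool.Agent.RB.St

/-!
# Module Main of project RB (MP_c6e2b4_co): strong induction on the number of pieces
-/

namespace Pool.RB

theorem pMain (hStep : StStep) : StMain := by
  unfold StStep at hStep
  unfold StMain
  have key : ∀ n : ℕ, ∀ D : Cfg, D.sz = n → Ok D → P (1 / 7) D := by
    intro n
    induction n using Nat.strong_induction_on with
    | _ n ih =>
      intro D hn hD
      refine hStep (1 / 7) D (by norm_num) le_rfl hD ?_
      intro E hE hlt
      exact ih E.sz (hn ▸ hlt) E rfl hE
  intro D hD
  exact key D.sz D rfl hD

end Pool.RB
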