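import Pool.Agent.RB.St

/-!
# Project RB, module Mir: the conditions for the moves are invariant under reflection
-/

namespace Pool.RB

private theorem Mir_Z {D : Cfg} {y : Hole} (hy : y ∈ D.Z) : y.fx ∈ D.fx.Z :=
  Finset.mem_image_of_mem _ hy

private theorem Mir_vhi (D : Cfg) (x : ℤ) : D.fx.vhi (-x) = D.vhi x := by
  show D.vhi (- -x) = D.vhi x
  rw [neg_neg]

private theorem Mir_vlo (D : Cfg) (x : ℤ) : D.fx.vlo (-x) = D.vlo x := by
  show D.vlo (- -x) = D.vlo x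
  rw [neg_neg]

/-- MODULE Mir. -/
theorem pMir (hInv : StInv) (hFG : StFG) : StMir := by
  refine ⟨?_, ?_, ?_⟩
  · intro D c y h
    obtain ⟨i1, i2, i3, i4, i5, i6, i7, i8, i9, i10, i11⟩ := hInv D c
    refine ⟨Mir_Z h.hy, ((hFG.2 D y).1).2 h.cl, ?_, h.hc, ?_, ?_, i9.2 h.hT, ?_, ?_, ?_⟩
    · show D.fx.vhi (-y.xU) = D.Y1
      rw [Mir_vhi]
      exact h.hU
    · show D.fx.vlo (-y.xD) ≤ c
      rw [Mir_vlo]
      exact h.hD
    · show c < min y.yR y.yL
      rw [min_comm]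
      exact h.hlt
    · rw [i1]
      exact h.he
    · rw [i4, i1]
      exact h.hs
    · rw [i7]
      exact h.ha
  · intro D y h
    obtain ⟨i1, i2, i3, i4, i5, i6, i7, i8, i9, i10, i11⟩ := hInv D 0
    refine ⟨Mir_Z h.hy, ((hFG.2 D y).1).2 h.cl, ?_, ?_, ?_, ?_⟩
    · show D.fx.vhi (-y.xU) = D.Y1
      rw [Mir_vhi]
      exact h.hU
    · show D.fx.vlo (-y.xD) = D.Y0
      rw [Mir_vlo]
      exact h.hD
    · rw [i10]
      exact h.hn
    · intro x hx
      obtain ⟨x', hx', rfl⟩ := Finset.mem_image.1 hx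
      rintro ⟨h1, h2⟩
      rw [Mir_vlo] at h1
      rw [Mir_vhi] at h2
      exact h.hfull x' hx' ⟨h1, h2⟩
  · intro D y h
    obtain ⟨i1, i2, i3, i4, i5, i6, i7, i8, i9, i10, i11⟩ := hInv D y.yR
    refine ⟨Mir_Z h.hy, h.hB, ?_, i8.2 h.hT, ?_⟩
    · show D.fx.vhi (-y.xU) = D.Y1
      rw [Mir_vhi]
      exact h.hU
    · show Sc D.fx y.yR
      unfold Sc
      rw [i5, i7]
      rcases h.hs with h1 | h1
      · exact Or.inl h1
      · right
        rw [← Finset.card_eq_zero, i7, h1, Finset.card_empty]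

end Pool.RB
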