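import Pool.Agent.RB.St

namespace Pool.RB

theorem pCrm (hHU : StHU) : StCrm := by
  intro D s z h
  refine ⟨h.farL, h.farR, h.farU, h.farD, h.hostHi, h.hostLo, ?_, ?_⟩
  · intro y hy
    exact h.hostRi y (Finset.mem_of_mem_erase hy)
  · intro y hy
    exact h.hostLe y (Finset.mem_of_mem_erase hy)

open Classical in
theorem pN5 (hHU : StHU) : StN5 := by
  intro D w hD hw
  have h1 : (D.Z.filter (fun z => z.yR = w.yL)).card ≤ 1 := by
    rw [Finset.card_le_one]
    intro a ha b hb
    rw [Finset.mem_filter] at ha hb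
    exact (hHU D hD a ha.1 b hb.1).2.1 (ha.2.trans hb.2.symm)
  have h2 : (D.Z.filter (fun z => z.yL = w.yR)).card ≤ 1 := by
    rw [Finset.card_le_one]
    intro a ha b hb
    rw [Finset.mem_filter] at ha hb
    exact (hHU D hD a ha.1 b hb.1).1 (ha.2.trans hb.2.symm)
  have h3 : (D.Z.filter (fun z => z.xU = w.xD)).card ≤ 1 := by
    rw [Finset.card_le_one]
    intro a ha b hb
    rw [Finset.mem_filter] at ha hb
    exact (hHU D hD a ha.1 b hb.1).2.2.1 (ha.2.trans hb.2.symm)
  have h4 : (D.Z.filter (fun z => z.xD = w.xU)).card ≤ 1 := by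
    rw [Finset.card_le_one]
    intro a ha b hb
    rw [Finset.mem_filter] at ha hb
    exact (hHU D hD a ha.1 b hb.1).2.2.2 (ha.2.trans hb.2.symm)
  have hsub : D.Z.filter (fun z => z = w ∨ Nb z w) ⊆
      {w} ∪ (D.Z.filter (fun z => z.yR = w.yL) ∪ (D.Z.filter (fun z => z.yL = w.yR) ∪
        (D.Z.filter (fun z => z.xU = w.xD) ∪ D.Z.filter (fun z => z.xD = w.xU)))) := by
    intro z hz
    rw [Finset.mem_filter] at hz
    obtain ⟨hz, h⟩ := hz
    simp only [Finset.mem_union, Finset.mem_filter, Finset.mem_singleton]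
    rcases h with h | h | h | h | h
    · exact Or.inl h
    · exact Or.inr (Or.inl ⟨hz, h⟩)
    · exact Or.inr (Or.inr (Or.inl ⟨hz, h⟩))
    · exact Or.inr (Or.inr (Or.inr (Or.inl ⟨hz, h⟩)))
    · exact Or.inr (Or.inr (Or.inr (Or.inr ⟨hz, h⟩)))
  have c1 := Finset.card_le_card hsub
  have c2 := Finset.card_union_le {w} (D.Z.filter (fun z => z.yR = w.yL) ∪
    (D.Z.filter (fun z => z.yL = w.yR) ∪
      (D.Z.filter (fun z => z.xU = w.xD) ∪ D.Z.filter (fun z => z.xD = w.xU))))
  have c3 := Finset.card_union_le (D.Z.filter (fun z => z.yR = w.yL))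
    (D.Z.filter (fun z => z.yL = w.yR) ∪
      (D.Z.filter (fun z => z.xU = w.xD) ∪ D.Z.filter (fun z => z.xD = w.xU)))
  have c4 := Finset.card_union_le (D.Z.filter (fun z => z.yL = w.yR))
    (D.Z.filter (fun z => z.xU = w.xD) ∪ D.Z.filter (fun z => z.xD = w.xU))
  have c5 := Finset.card_union_le (D.Z.filter (fun z => z.xU = w.xD))
    (D.Z.filter (fun z => z.xD = w.xU))
  have c6 : ({w} : Finset Hole).card = 1 := Finset.card_singleton w
  omega

end Pool.RB
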