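import Pool.Agent.RB.St

/-!
# Project RB, module NB2: two pieces stand on the bottom wall
-/

namespace Pool.RB

private theorem NB2_xD {D : Cfg} (hHB : StHB) (hHU : StHU) (hok : Ok D) {y w : Hole} (hy : y ∈ D.Z)
    (hw : w ∈ D.Z) (h0 : D.vlo y.xD = D.Y0) (h : w.xD = y.xD ∨ w.xU = y.xD) : w = y := by
  rcases h with h | h
  · exact (hHU D hok w hw y hy).2.2.2 h
  · exfalso
    have h1 := (hok.z w hw).eU
    have h2 := (hHB D hok w hw).Y0lt
    rw [h, h0] at h1
    omega

/-- MODULE NB2. -/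
theorem pNB2 (hHostR : StHostR) (hHostL : StHostL) (hHB : StHB) (hHU : StHU) : StNB2 := by
  intro D y hok hy hg h0
  have hb := hHB D hok y hy
  have hz := hok.z y hy
  have hex : ∃ q ∈ D.V, q ≠ y.xD ∧ D.vlo q = D.Y0 := by
    by_cases hR : D.hhi y.yR = D.X1
    · have hL : D.hlo y.yL ≠ D.X0 := fun h => hg.2 ⟨h, hR⟩
      obtain ⟨q, hq, h1, h2⟩ := hHostL D y D.Y0 hok hy (Or.inl rfl) h0.le hb.Y0lt (by
        intro y'' hy'' _ _ he
        obtain ⟨w, hw, hwe⟩ := hg.1.hostRi y'' hy'' (Or.inr he)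
        have hwz := hok.z w hw
        have e1 : w.x2 = y.xD := by rw [← hwz.eL, hwe, he]
        have e2 : w = y := by
          apply NB2_xD hHB hHU hok hy hw h0
          unfold Hole.x2 at e1
          rcases hwz.chir with ⟨_, c2⟩ | ⟨_, c2⟩ <;> omega
        rw [← hwe, e2]) hL
      exact ⟨q, hq, by omega, h2⟩
    · obtain ⟨q, hq, h1, h2⟩ := hHostR D y D.Y0 hok hy (Or.inl rfl) h0.le hb.Y0lt (by
        intro y'' hy'' _ _ he
        obtain ⟨w, hw, hwe⟩ := hg.1.hostLe y'' hy'' (Or.inr he)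
        have hwz := hok.z w hw
        have e1 : w.x1 = y.xD := by rw [← hwz.eR, hwe, he]
        have e2 : w = y := by
          apply NB2_xD hHB hHU hok hy hw h0
          unfold Hole.x1 at e1
          rcases hwz.chir with ⟨_, c2⟩ | ⟨_, c2⟩ <;> omega
        rw [← hwe, e2]) hR
      exact ⟨q, hq, by omega, h2⟩
  obtain ⟨q, hq, hne, hq0⟩ := hex
  unfold nb
  have hsub : ({q, y.xD} : Finset ℤ) ⊆ D.V.filter (fun x => D.vlo x = D.Y0) := by
    intro x hx
    simp only [Finset.mem_insert, Finset.mem_singleton] at hx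
    rw [Finset.mem_filter]
    rcases hx with rfl | rfl
    · exact ⟨hq, hq0⟩
    · exact ⟨hz.hD, h0⟩
  calc 2 = ({q, y.xD} : Finset ℤ).card := (Finset.card_pair hne).symm
    _ ≤ _ := Finset.card_le_card hsub

end Pool.RB
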