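import Pool.Agent.RB.St

/-!
# Project RB (MP_c6e2b4_co, owner helper33): `Ok` is invariant under the reflection `(x,y) ↦ (-x,y)`
-/

namespace Pool.RB

private theorem OkFx_x1 (z : Hole) : z.fx.x1 = -z.x2 := by
  simp only [Hole.x1, Hole.x2, Hole.fx]; omega

private theorem OkFx_x2 (z : Hole) : z.fx.x2 = -z.x1 := by
  simp only [Hole.x1, Hole.x2, Hole.fx]; omega

private theorem OkFx_y1 (z : Hole) : z.fx.y1 = z.y1 := by
  simp only [Hole.y1, Hole.fx]; omega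

private theorem OkFx_y2 (z : Hole) : z.fx.y2 = z.y2 := by
  simp only [Hole.y2, Hole.fx]; omega

private theorem OkFx_mV {D : Cfg} {x : ℤ} (h : x ∈ D.V) : -x ∈ D.fx.V :=
  Finset.mem_image.2 ⟨x, h, rfl⟩

private theorem OkFx_mem {D : Cfg} {x : ℤ} (h : x ∈ D.fx.V) : ∃ u ∈ D.V, x = -u := by
  obtain ⟨u, hu, rfl⟩ := Finset.mem_image.1 h
  exact ⟨u, hu, rfl⟩

private theorem OkFx_memZ {D : Cfg} {z : Hole} (h : z ∈ D.fx.Z) : ∃ w ∈ D.Z, z = w.fx := by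
  obtain ⟨u, hu, rfl⟩ := Finset.mem_image.1 h
  exact ⟨u, hu, rfl⟩

private theorem OkFx_hole {D : Cfg} {z : Hole} (h : HoleOk D z) : HoleOk D.fx z.fx where
  hU := OkFx_mV h.hU
  hD := OkFx_mV h.hD
  hL := h.hR
  hR := h.hL
  chir := by
    have := h.chir
    simp only [Hole.fx]
    omega
  eL := by
    rw [OkFx_x2]
    show -D.hlo z.yR = -z.x1
    rw [h.eR]
  eR := by
    rw [OkFx_x1]
    show -D.hhi z.yL = -z.x2
    rw [h.eL]
  eU := by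
    rw [OkFx_y1]
    show D.vlo (- -z.xU) = z.y1
    rw [neg_neg, h.eU]
  eD := by
    rw [OkFx_y2]
    show D.vhi (- -z.xD) = z.y2
    rw [neg_neg, h.eD]
  noV := by
    intro x hx h1 h2 h3 h4
    obtain ⟨u, hu, rfl⟩ := OkFx_mem hx
    rw [OkFx_x1] at h1
    rw [OkFx_x2] at h2
    rw [OkFx_y2] at h3
    rw [OkFx_y1] at h4
    change D.vlo (- -u) < z.y2 at h3
    change z.y1 < D.vhi (- -u) at h4
    rw [neg_neg] at h3 h4
    exact h.noV u hu (by omega) (by omega) h3 h4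
  noH := by
    intro y hy h1 h2 h3 h4
    rw [OkFx_y1] at h1
    rw [OkFx_y2] at h2
    rw [OkFx_x2] at h3
    rw [OkFx_x1] at h4
    change -D.hhi y < -z.x1 at h3
    change -z.x2 < -D.hlo y at h4
    exact h.noH y hy h1 h2 (by omega) (by omega)

theorem pOkFx : StOkFx := by
  intro D hD
  refine ⟨?_, hD.hY, ?_, ?_, ?_, ?_, ?_, ?_, ?_, ?_, ?_, ?_⟩
  · have := hD.hX
    show -D.X1 < -D.X0
    omega
  · intro x hx
    obtain ⟨u, hu, rfl⟩ := OkFx_mem hx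
    have h := hD.v u hu
    show -D.X1 < -u ∧ -u < -D.X0 ∧ D.Y0 ≤ D.vlo (- -u) ∧ D.vlo (- -u) < D.vhi (- -u) ∧
      D.vhi (- -u) ≤ D.Y1
    rw [neg_neg]
    omega
  · intro y hy
    have h := hD.h y hy
    show D.Y0 < y ∧ y < D.Y1 ∧ -D.X1 ≤ -D.hhi y ∧ -D.hhi y < -D.hlo y ∧ -D.hlo y ≤ -D.X0
    omega
  · intro x hx
    obtain ⟨u, hu, rfl⟩ := OkFx_mem hx
    show D.vlo (- -u) = D.Y0 ∨ (D.vlo (- -u) ∈ D.H ∧ -D.hhi (D.vlo (- -u)) < -u ∧
      -u < -D.hlo (D.vlo (- -u)))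
    rw [neg_neg]
    rcases hD.vlo_end u hu with h | ⟨h1, h2, h3⟩
    · exact Or.inl h
    · exact Or.inr ⟨h1, by omega, by omega⟩
  · intro x hx
    obtain ⟨u, hu, rfl⟩ := OkFx_mem hx
    show D.vhi (- -u) = D.Y1 ∨ (D.vhi (- -u) ∈ D.H ∧ -D.hhi (D.vhi (- -u)) < -u ∧
      -u < -D.hlo (D.vhi (- -u)))
    rw [neg_neg]
    rcases hD.vhi_end u hu with h | ⟨h1, h2, h3⟩
    · exact Or.inl h
    · exact Or.inr ⟨h1, by omega, by omega⟩
  · intro y hy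
    show -D.hhi y = -D.X1 ∨ (-D.hhi y ∈ D.fx.V ∧ D.vlo (- -D.hhi y) < y ∧ y < D.vhi (- -D.hhi y))
    rw [neg_neg]
    rcases hD.hhi_end y hy with h | ⟨h1, h2, h3⟩
    · exact Or.inl (by omega)
    · exact Or.inr ⟨OkFx_mV h1, h2, h3⟩
  · intro y hy
    show -D.hlo y = -D.X0 ∨ (-D.hlo y ∈ D.fx.V ∧ D.vlo (- -D.hlo y) < y ∧ y < D.vhi (- -D.hlo y))
    rw [neg_neg]
    rcases hD.hlo_end y hy with h | ⟨h1, h2, h3⟩
    · exact Or.inl (by omega)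
    · exact Or.inr ⟨OkFx_mV h1, h2, h3⟩
  · intro x hx y hy h1 h2 h3 h4
    obtain ⟨u, hu, rfl⟩ := OkFx_mem hx
    change D.vlo (- -u) < y at h1
    change y < D.vhi (- -u) at h2
    change -D.hhi y < -u at h3
    change -u < -D.hlo y at h4
    rw [neg_neg] at h1 h2
    exact hD.nc u hu y hy h1 h2 (by omega) (by omega)
  · intro z hz
    obtain ⟨w, hw, rfl⟩ := OkFx_memZ hz
    exact OkFx_hole (hD.z w hw)
  · intro z hz w hw h
    obtain ⟨z', hz', rfl⟩ := OkFx_memZ hz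
    obtain ⟨w', hw', rfl⟩ := OkFx_memZ hw
    rw [OkFx_x1, OkFx_x2]
    have h' : w'.yR = z'.yL := h.symm
    have := hD.adjH w' hw' z' hz' h'
    omega
  · intro z hz w hw h
    obtain ⟨z', hz', rfl⟩ := OkFx_memZ hz
    obtain ⟨w', hw', rfl⟩ := OkFx_memZ hw
    rw [OkFx_y1, OkFx_y2]
    have h' : -z'.xU = -w'.xD := h
    exact hD.adjV z' hz' w' hw' (by omega)

end Pool.RB
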