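import Pool.Agent.RB.St

namespace Pool.RB

private theorem OkLR_trtr (z : Hole) : z.tr.tr = z := rfl

private theorem OkLR_y2 (z : Hole) : z.tr.y2 = z.x2 := max_comm _ _

private theorem OkLR_y1 (z : Hole) : z.tr.y1 = z.x1 := min_comm _ _

private theorem OkLR_Z2 (D : Cfg) (c : ℤ) : ((D.Z.image Hole.tr).filter (fun z => z.y2 < c)).image
    Hole.tr = D.Z.filter (fun z => z.x2 < c) := by
  ext z
  simp only [Finset.mem_image, Finset.mem_filter]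
  constructor
  · rintro ⟨w, ⟨⟨u, hu, rfl⟩, hw⟩, rfl⟩
    rw [OkLR_y2] at hw
    rw [OkLR_trtr]
    exact ⟨hu, hw⟩
  · rintro ⟨hz, hc⟩
    refine ⟨z.tr, ⟨⟨z, hz, rfl⟩, ?_⟩, rfl⟩
    rw [OkLR_y2]
    exact hc

private theorem OkLR_Z1 (D : Cfg) (c : ℤ) : ((D.Z.image Hole.tr).filter (fun z => c < z.y1)).image
    Hole.tr = D.Z.filter (fun z => c < z.x1) := by
  ext z
  simp only [Finset.mem_image, Finset.mem_filter]
  constructor
  · rintro ⟨w, ⟨⟨u, hu, rfl⟩, hw⟩, rfl⟩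
    rw [OkLR_y1] at hw
    rw [OkLR_trtr]
    exact ⟨hu, hw⟩
  · rintro ⟨hz, hc⟩
    refine ⟨z.tr, ⟨⟨z, hz, rfl⟩, ?_⟩, rfl⟩
    rw [OkLR_y1]
    exact hc

theorem OkLR_lf (D : Cfg) (c : ℤ) : (dn D.tr c).tr = lf D c := by
  have h : (dn D.tr c).tr = { lf D c with Z := (dn D.tr c).tr.Z } := rfl
  rw [h]
  have h2 : (dn D.tr c).tr.Z = (lf D c).Z := OkLR_Z2 D c
  rw [h2]

theorem OkLR_rt (D : Cfg) (c : ℤ) : (up D.tr c).tr = rt D c := by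
  have h : (up D.tr c).tr = { rt D c with Z := (up D.tr c).tr.Z } := rfl
  rw [h]
  have h2 : (up D.tr c).tr.Z = (rt D c).Z := OkLR_Z1 D c
  rw [h2]

theorem pOkLR (hOkTr : StOkTr) (hOkUp : StOkUp) (hOkDn : StOkDn) : StOkLR := by
  intro D c hD h0 h1
  constructor
  · rw [← OkLR_lf]
    exact hOkTr _ (hOkDn D.tr c (hOkTr D hD) h0 h1)
  · rw [← OkLR_rt]
    exact hOkTr _ (hOkUp D.tr c (hOkTr D hD) h0 h1)

end Pool.RB
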