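import Pool.Agent.RB.St

/-!
# Project RB, module Only: what the line through the down arm meets
-/

namespace Pool.RB

/-- MODULE Only. -/
theorem pOnly (hHB : StHB) (hHU : StHU) (hStrip : StStrip) : StOnly := by
  intro D c y hok hy hA hcl hU hD hc
  have hyo := hok.z y hy
  have hAA : y.yL < y.yR ∧ y.xU < y.xD := by
    rcases hyo.chir with h | h
    · exact h
    · omega
  have ey2 : y.y2 = y.yR := by unfold Hole.y2; omega
  have ehi : D.vhi y.xD = y.y2 := hyo.eD
  refine ⟨?_, ?_⟩
  · intro w hw hcw h1 h2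
    have hwo := hok.z w hw
    have hb := hHB D hok w hw
    by_cases e1 : w.xD = y.xD
    · exact (hHU D hok w hw y hy).2.2.2 e1
    by_cases e2 : w.xU = y.xD
    · have := hwo.eU
      rw [e2] at this
      omega
    exfalso
    have l1 : w.x1 < y.xD ∧ y.xD < w.x2 := by
      have a1 : w.x1 ≠ y.xD := by unfold Hole.x1; omega
      have a2 : w.x2 ≠ y.xD := by unfold Hole.x2; omega
      omega
    have hy12 := hb.y12
    by_cases h3 : w.y1 < y.y2
    · exact hwo.noV y.xD hyo.hD l1.1 l1.2 (by omega) (by omega)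
    · have ht := hb.face.top
      have hY := hb.ltY1
      rcases ht with h4 | ⟨h4, h5, h6⟩
      · have h7 : w.y2 = D.Y1 := h4
        omega
      · have h4' : w.y2 ∈ D.H := h4
        have h5' : D.hlo w.y2 ≤ w.x1 := h5
        have h6' : w.x2 ≤ D.hhi w.y2 := h6
        exact hStrip D y hok hy hA hcl hU w.y2 h4' (by omega) (by omega) (by omega)
  · intro y' hy' hcy h1 h2
    by_contra hne
    rcases lt_or_gt_of_ne hne with h3 | h3
    · exact hok.nc y.xD hyo.hD y' hy' (by omega) (by omega) h1 h2
    · exact hStrip D y hok hy hA hcl hU y' hy' h3 h1 (by omega)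

end Pool.RB
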