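import Pool.Agent.RB.St3

/-! Project RB, module Prune: cells meeting at most one rectangle need not be cut. -/

namespace Pool.RB

open Pool.Agent.Helper30.BSP (Rect Tree IsBSP size)
open Pool.Agent.Helper4.BSPT (IBox Seeds ICost IMeets)

private theorem Prune_int1 (c : ℝ) (q : ℝ × ℝ) (h : q.1 < c) :
    q ∈ interior {p : ℝ × ℝ | p.1 ≤ c} := by
  have hs : {p : ℝ × ℝ | p.1 < c} ⊆ {p : ℝ × ℝ | p.1 ≤ c} := fun p (hp : p.1 < c) => hp.le
  exact interior_maximal hs (isOpen_lt continuous_fst continuous_const) h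

private theorem Prune_int2 (c : ℝ) (q : ℝ × ℝ) (h : c < q.1) :
    q ∈ interior {p : ℝ × ℝ | c ≤ p.1} := by
  have hs : {p : ℝ × ℝ | c < p.1} ⊆ {p : ℝ × ℝ | c ≤ p.1} := fun p (hp : c < p.1) => hp.le
  exact interior_maximal hs (isOpen_lt continuous_const continuous_fst) h

private theorem Prune_int3 (c : ℝ) (q : ℝ × ℝ) (h : q.2 < c) :
    q ∈ interior {p : ℝ × ℝ | p.2 ≤ c} := by
  have hs : {p : ℝ × ℝ | p.2 < c} ⊆ {p : ℝ × ℝ | p.2 ≤ c} := fun p (hp : p.2 < c) => hp.le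
  exact interior_maximal hs (isOpen_lt continuous_snd continuous_const) h

private theorem Prune_int4 (c : ℝ) (q : ℝ × ℝ) (h : c < q.2) :
    q ∈ interior {p : ℝ × ℝ | c ≤ p.2} := by
  have hs : {p : ℝ × ℝ | c < p.2} ⊆ {p : ℝ × ℝ | c ≤ p.2} := fun p (hp : c < p.2) => hp.le
  exact interior_maximal hs (isOpen_lt continuous_const continuous_snd) h

/-- an open set contains, with a point, points with other coordinates -/
private theorem Prune_pt {U : Set (ℝ × ℝ)} (hU : IsOpen U) (hne : U.Nonempty) (c d : ℝ) :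
    ∃ q ∈ U, q.1 ≠ c ∧ q.2 ≠ d := by
  obtain ⟨p, hp⟩ := hne
  obtain ⟨ε, hε, hb⟩ := Metric.isOpen_iff.mp hU p hp
  obtain ⟨u, hu1, hu2⟩ : ∃ u : ℝ, |u - p.1| < ε ∧ u ≠ c := by
    by_cases h : p.1 = c
    · refine ⟨p.1 + ε / 2, ?_, ?_⟩
      · rw [add_sub_cancel_left, abs_of_pos (by linarith)]; linarith
      · rw [h]; intro hh; linarith
    · exact ⟨p.1, by rw [sub_self, abs_zero]; exact hε, h⟩
  obtain ⟨v, hv1, hv2⟩ : ∃ v : ℝ, |v - p.2| < ε ∧ v ≠ d := by
    by_cases h : p.2 = d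
    · refine ⟨p.2 + ε / 2, ?_, ?_⟩
      · rw [add_sub_cancel_left, abs_of_pos (by linarith)]; linarith
      · rw [h]; intro hh; linarith
    · exact ⟨p.2, by rw [sub_self, abs_zero]; exact hε, h⟩
  refine ⟨(u, v), hb ?_, hu2, hv2⟩
  rw [Metric.mem_ball, Prod.dist_eq, Real.dist_eq, Real.dist_eq]
  exact max_lt hu1 hv1

private theorem Prune_v {R : Rect} {C : Set (ℝ × ℝ)} (c : ℝ)
    (h : Pool.Agent.Helper30.BSP.Meets R C) :
    Pool.Agent.Helper30.BSP.Meets R (C ∩ {p | p.1 ≤ c}) ∨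
      Pool.Agent.Helper30.BSP.Meets R (C ∩ {p | c ≤ p.1}) := by
  obtain ⟨q, hq, h1, -⟩ := Prune_pt (isOpen_interior.inter isOpen_interior) h c 0
  rcases lt_or_gt_of_ne h1 with h2 | h2
  · left
    refine ⟨q, hq.1, ?_⟩
    rw [interior_inter]
    exact ⟨hq.2, Prune_int1 c q h2⟩
  · right
    refine ⟨q, hq.1, ?_⟩
    rw [interior_inter]
    exact ⟨hq.2, Prune_int2 c q h2⟩

private theorem Prune_h {R : Rect} {C : Set (ℝ × ℝ)} (c : ℝ)
    (h : Pool.Agent.Helper30.BSP.Meets R C) :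
    Pool.Agent.Helper30.BSP.Meets R (C ∩ {p | p.2 ≤ c}) ∨
      Pool.Agent.Helper30.BSP.Meets R (C ∩ {p | c ≤ p.2}) := by
  obtain ⟨q, hq, -, h1⟩ := Prune_pt (isOpen_interior.inter isOpen_interior) h 0 c
  rcases lt_or_gt_of_ne h1 with h2 | h2
  · left
    refine ⟨q, hq.1, ?_⟩
    rw [interior_inter]
    exact ⟨hq.2, Prune_int3 c q h2⟩
  · right
    refine ⟨q, hq.1, ?_⟩
    rw [interior_inter]
    exact ⟨hq.2, Prune_int4 c q h2⟩

open Classical in
private theorem Prune_size (S : Finset Rect) (T : Tree) : ∀ C : Set (ℝ × ℝ),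
    (S.filter (fun R => Pool.Agent.Helper30.BSP.Meets R C)).card ≤ size S T C := by
  induction T with
  | leaf =>
    intro C
    unfold size
    exact le_rfl
  | vert c l r ihl ihr =>
    intro C
    unfold size
    refine le_trans ?_ (Nat.add_le_add (ihl _) (ihr _))
    refine le_trans (Finset.card_le_card ?_) (Finset.card_union_le _ _)
    intro R hR
    rw [Finset.mem_filter] at hR
    rw [Finset.mem_union, Finset.mem_filter, Finset.mem_filter]
    rcases Prune_v c hR.2 with h | h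
    · exact Or.inl ⟨hR.1, h⟩
    · exact Or.inr ⟨hR.1, h⟩
  | horiz c l r ihl ihr =>
    intro C
    unfold size
    refine le_trans ?_ (Nat.add_le_add (ihl _) (ihr _))
    refine le_trans (Finset.card_le_card ?_) (Finset.card_union_le _ _)
    intro R hR
    rw [Finset.mem_filter] at hR
    rw [Finset.mem_union, Finset.mem_filter, Finset.mem_filter]
    rcases Prune_h c hR.2 with h | h
    · exact Or.inl ⟨hR.1, h⟩
    · exact Or.inr ⟨hR.1, h⟩

open Classical in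
theorem pPrune : StPrune := by
  intro S T
  have key : ∀ (T : Tree) (C : Set (ℝ × ℝ)),
      (¬ ∃ R ∈ S, ∃ R' ∈ S, R ≠ R' ∧ Pool.Agent.Helper30.BSP.Meets R C ∧
        Pool.Agent.Helper30.BSP.Meets R' C) →
      ∃ T' : Tree, IsBSP S T' C ∧ Strict S T' C ∧ size S T' C ≤ size S T C := by
    intro T C h
    refine ⟨.leaf, ?_, trivial, ?_⟩
    · intro R hR R' hR' hm hm'
      by_contra hne
      exact h ⟨R, hR, R', hR', hne, hm, hm'⟩
    · exact Prune_size S T C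
  induction T with
  | leaf =>
    intro C h
    exact ⟨.leaf, h, trivial, le_rfl⟩
  | vert c l r ihl ihr =>
    intro C h
    by_cases hex : ∃ R ∈ S, ∃ R' ∈ S, R ≠ R' ∧ Pool.Agent.Helper30.BSP.Meets R C ∧
        Pool.Agent.Helper30.BSP.Meets R' C
    · obtain ⟨h0, h1, h2⟩ := h
      obtain ⟨l', a1, a2, a3⟩ := ihl _ h1
      obtain ⟨r', b1, b2, b3⟩ := ihr _ h2
      exact ⟨.vert c l' r', ⟨h0, a1, b1⟩, ⟨hex, a2, b2⟩, Nat.add_le_add a3 b3⟩
    · exact key _ C hex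
  | horiz c l r ihl ihr =>
    intro C h
    by_cases hex : ∃ R ∈ S, ∃ R' ∈ S, R ≠ R' ∧ Pool.Agent.Helper30.BSP.Meets R C ∧
        Pool.Agent.Helper30.BSP.Meets R' C
    · obtain ⟨h0, h1, h2⟩ := h
      obtain ⟨l', a1, a2, a3⟩ := ihl _ h1
      obtain ⟨r', b1, b2, b3⟩ := ihr _ h2
      exact ⟨.horiz c l' r', ⟨h0, a1, b1⟩, ⟨hex, a2, b2⟩, Nat.add_le_add a3 b3⟩
    · exact key _ C hex

end Pool.RB
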