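import Pool.Agent.RB.St

/-!
# Module Ps of project RB (MP_c6e2b4_co), by helper88
-/

namespace Pool.RB

theorem pPs (hFG : StFG) (hSTr : StSTr) (hSFx : StSFx) : StPs := by
  intro κ
  refine ⟨?_, ?_, ?_⟩
  · intro D hP
    have h := hFG.1 D
    unfold P at hP ⊢
    rw [h.1, h.2.1] at hP
    exact hSFx D _ hP
  · intro E hP
    have h := hFG.1 E
    unfold P at hP
    rw [h.2.2.1, h.2.2.2.2.1] at hP
    exact hSFx E _ (hSTr E.fx _ hP)
  · intro E hP
    have h := hFG.1 E
    unfold P at hP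
    rw [h.2.2.2.1, h.2.2.2.2.2] at hP
    exact hSTr E _ hP

end Pool.RB
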