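import Pool.Agent.RB.St3
import Pool.Agent.Helper4.BSPT.Transfer

/-! The theorem for real rectangles. -/

namespace Pool.RB

open Pool.Agent.Helper30.BSP (Rect Tree IsBSP size)
open Pool.Agent.Helper4.BSPT (IBox Seeds ICost IMeets)

theorem pReal (hIntS : StIntS) (hICost : StICost) (hPrune : StPrune) : StReal := by
  intro S hS hd
  obtain ⟨s, hs, ht⟩ := Pool.Agent.Helper4.BSPT.transfer S hd
  have hn : 0 < S.card := Finset.card_pos.2 hS
  obtain ⟨k, hk, hle⟩ := hIntS S.card s hn hs
  obtain ⟨c, hc, hc2⟩ := hICost S.card s hs ⟨0, 2 * S.card + 1, 0, 2 * S.card + 1⟩ k hk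
  obtain ⟨T, hT, hsz⟩ := ht c hc
  obtain ⟨T', h1, h2, h3⟩ := hPrune S T Set.univ hT
  refine ⟨T', h1, h2, ?_⟩
  have hcnt : cnt (bx s) (tb ⟨0, 2 * S.card + 1, 0, 2 * S.card + 1⟩) = S.card := by
    have e1 : (bx s).filter (fun R => Meets R (tb ⟨0, 2 * S.card + 1, 0, 2 * S.card + 1⟩)) =
        bx s := by
      refine Finset.filter_true_of_mem ?_
      intro R hR
      obtain ⟨i, _, rfl⟩ := Finset.mem_image.1 hR
      have := hs.a1 i
      have := hs.b1 i
      have := hs.l1 i
      have := hs.r1 i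
      have := hs.ab i
      have := hs.lr i
      simp only [Meets, tb]
      omega
    unfold cnt
    rw [e1]
    unfold bx
    rw [Finset.card_image_of_injective, Finset.card_univ, Fintype.card_fin]
    intro i j e
    simp only [tb, Box.mk.injEq] at e
    exact hs.aa i j e.1
  rw [hcnt] at hc2
  omega

end Pool.RB
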