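import Pool.Agent.RB.St

/-!
# Project RB, module Rm: removal of a horizontal piece
-/

namespace Pool.RB

private lemma Rm_mem (D : Cfg) (s y : ℤ) : y ∈ (rmH D s).H ↔ y ≠ s ∧ y ∈ D.H := by
  show y ∈ D.H.erase s ↔ _
  exact Finset.mem_erase

theorem pRmOk (hFE : StFE) (hFU : StFU) (hHB : StHB) : StRmOk := by
  intro D S s E hO hE
  refine ⟨hO.hX, hO.hY, hO.v, ?_, ?_, ?_, ?_, ?_, ?_, ?_, hO.adjH, hO.adjV⟩
  · intro y hy
    exact hO.h y ((Rm_mem D s y).1 hy).2
  · intro x hx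
    rcases hO.vlo_end x hx with h | ⟨h1, h2, h3⟩
    · exact Or.inl h
    · exact Or.inr ⟨(Rm_mem D s _).2 ⟨(hE.hv x hx).1, h1⟩, h2, h3⟩
  · intro x hx
    rcases hO.vhi_end x hx with h | ⟨h1, h2, h3⟩
    · exact Or.inl h
    · exact Or.inr ⟨(Rm_mem D s _).2 ⟨(hE.hv x hx).2, h1⟩, h2, h3⟩
  · intro y hy
    exact hO.hlo_end y ((Rm_mem D s y).1 hy).2
  · intro y hy
    exact hO.hhi_end y ((Rm_mem D s y).1 hy).2
  · intro x hx y hy
    exact hO.nc x hx y ((Rm_mem D s y).1 hy).2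
  · intro z hz
    have hk := hO.z z hz
    have hzs := hE.hz z hz
    exact ⟨hk.hU, hk.hD, (Rm_mem D s _).2 ⟨hzs.1, hk.hL⟩, (Rm_mem D s _).2 ⟨hzs.2, hk.hR⟩, hk.chir,
      hk.eL, hk.eR, hk.eU, hk.eD, hk.noV, fun y hy => hk.noH y ((Rm_mem D s y).1 hy).2⟩

theorem pRm (hFE : StFE) (hFU : StFU) (hHB : StHB) : StRm := by
  intro D S s N E hO hE hslv A hA
  obtain ⟨φ, h1, h2⟩ := hA
  have hs := hO.h s hE.hs
  have e1 := hE.e1
  have e2 := hE.e2
  have e4 := hE.e4
  have hhi := hE.hhi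
  have hEn : E.x1 < E.x2 ∧ E.y1 < E.y2 := hE.face.nd
  have hu : D.hlo s ∈ D.V ∧ D.vlo (D.hlo s) < s ∧ s < D.vhi (D.hlo s) := by
    rcases hO.hlo_end s hE.hs with h | h
    · exact absurd h hE.hlo
    · exact h
  obtain ⟨hu1, hu2, hu3⟩ := hu
  have hvu := hO.v _ hu1
  obtain ⟨f, hf, f1, f2, f3, f4⟩ := hFE D (D.hlo s) s hO (by omega) (by omega) (by omega) (by omega)
  have hfn : f.x1 < f.x2 ∧ f.y1 < f.y2 := hf.nd
  have hfx := hf.ix1
  have hfx2 := hf.ix2
  have g3 : f.y1 = s := by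
    by_contra hc
    exact hf.noH s hE.hs (by omega) (by omega) (by omega) (by omega)
  have g1 : f.x1 = D.hlo s := by
    by_contra hc
    exact hf.noV _ hu1 (by omega) (by omega) (by omega) (by omega)
  have g2 : f.x2 = D.X1 := by
    rcases hf.right with h | ⟨h3, h4, h5⟩
    · exact h
    · exfalso
      have hv := (hE.hv _ h3).1
      have hvx := hO.v _ h3
      exact hO.nc _ h3 s hE.hs (by omega) (by omega) (by omega) (by omega)
  have hsep : ∀ x ∈ D.V, D.hlo s < x → D.vhi x < s ∨ s < D.vlo x := by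
    intro x hx hux
    have hvx := hO.v x hx
    have h3 := hE.hv x hx
    by_contra hc
    exact hO.nc x hx s hE.hs (by omega) (by omega) hux (by omega)
  have hM : IsFace (rmH D s) ⟨D.hlo s, D.X1, E.y1, f.y2⟩ := by
    refine ⟨⟨?_, ?_⟩, ?_, ?_, ?_, ?_, ?_, ?_, ?_, ?_, ?_, ?_⟩
    · show D.hlo s < D.X1
      omega
    · show E.y1 < f.y2
      omega
    · show D.X0 ≤ D.hlo s
      omega
    · exact le_refl _
    · exact hE.face.iy1
    · exact hf.iy2
    · show D.hlo s = D.X0 ∨ (D.hlo s ∈ D.V ∧ D.vlo (D.hlo s) ≤ E.y1 ∧ f.y2 ≤ D.vhi (D.hlo s))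
      refine Or.inr ⟨hu1, ?_, ?_⟩
      · have h3 := hE.face.left
        rw [e1] at h3
        rcases h3 with h4 | h4
        · exact absurd h4 hE.hlo
        · exact h4.2.1
      · have h3 := hf.left
        rw [g1] at h3
        rcases h3 with h4 | h4
        · exact absurd h4 hE.hlo
        · exact h4.2.2
    · exact Or.inl rfl
    · show E.y1 = D.Y0 ∨ (E.y1 ∈ (rmH D s).H ∧ D.hlo E.y1 ≤ D.hlo s ∧ D.X1 ≤ D.hhi E.y1)
      have h3 := hE.face.bot
      rw [e1, e2] at h3
      rcases h3 with h4 | ⟨h4, h5, h6⟩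
      · exact Or.inl h4
      · exact Or.inr ⟨(Rm_mem D s _).2 ⟨by omega, h4⟩, h5, h6⟩
    · show f.y2 = D.Y1 ∨ (f.y2 ∈ (rmH D s).H ∧ D.hlo f.y2 ≤ D.hlo s ∧ D.X1 ≤ D.hhi f.y2)
      have h3 := hf.top
      rw [g1, g2] at h3
      rcases h3 with h4 | ⟨h4, h5, h6⟩
      · exact Or.inl h4
      · exact Or.inr ⟨(Rm_mem D s _).2 ⟨by omega, h4⟩, h5, h6⟩
    · intro x hx h3 h4 h5 h6
      have hx' : x ∈ D.V := hx
      have h3' : D.hlo s < x := h3
      have h4' : x < D.X1 := h4
      have h5' : D.vlo x < f.y2 := h5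
      have h6' : E.y1 < D.vhi x := h6
      rcases hsep x hx' h3' with h7 | h7
      · have hvx := hO.v x hx'
        exact hE.face.noV x hx' (by omega) (by omega) (by omega) (by omega)
      · have hvx := hO.v x hx'
        exact hf.noV x hx' (by omega) (by omega) (by omega) (by omega)
    · intro y hy h3 h4 h5 h6
      have hy1 := ((Rm_mem D s y).1 hy).1
      have hy2 := ((Rm_mem D s y).1 hy).2
      have h3' : E.y1 < y := h3
      have h4' : y < f.y2 := h4
      have h5' : D.hlo y < D.X1 := h5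
      have h6' : D.hlo s < D.hhi y := h6
      rcases lt_or_gt_of_ne hy1 with h7 | h7
      · exact hE.face.noH y hy2 (by omega) (by omega) (by omega) (by omega)
      · exact hf.noH y hy2 (by omega) (by omega) (by omega) (by omega)
  have hoth : ∀ g : Box, IsFace D g → g ≠ E → g ≠ f → IsFace (rmH D s) g := by
    intro g hg hgE hgf
    have hgn : g.x1 < g.x2 ∧ g.y1 < g.y2 := hg.nd
    have hgx := hg.ix2
    refine ⟨hg.nd, hg.ix1, hg.ix2, hg.iy1, hg.iy2, hg.left, hg.right, ?_, ?_, hg.noV, ?_⟩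
    · rcases hg.bot with h | ⟨h3, h4, h5⟩
      · exact Or.inl h
      · refine Or.inr ⟨(Rm_mem D s _).2 ⟨?_, h3⟩, h4, h5⟩
        intro h6
        rw [h6] at h4
        apply hgf
        apply hFU D g f hg hf
        unfold Meets
        omega
    · rcases hg.top with h | ⟨h3, h4, h5⟩
      · exact Or.inl h
      · refine Or.inr ⟨(Rm_mem D s _).2 ⟨?_, h3⟩, h4, h5⟩
        intro h6
        rw [h6] at h4
        apply hgE
        apply hFU D g E hg hE.face
        unfold Meets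
        omega
    · intro y hy
      exact hg.noH y ((Rm_mem D s y).1 hy).2
  apply hslv A
  classical
  refine ⟨fun R => if φ R = f then ⟨D.hlo s, D.X1, E.y1, f.y2⟩ else φ R, ?_, ?_⟩
  · intro R hR hm
    obtain ⟨hfa, hin, hz, hS⟩ := h1 R hR hm
    by_cases hc : φ R = f
    · simp only [if_pos hc]
      rw [hc] at hin
      obtain ⟨i1, i2, i3, i4⟩ := hin
      refine ⟨hM, ⟨?_, ?_, ?_, ?_⟩, ?_, fun h => h⟩
      · show D.hlo s ≤ max R.x1 D.X0
        omega
      · show min R.x2 D.X1 ≤ D.X1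
        omega
      · show E.y1 ≤ max R.y1 D.Y0
        omega
      · exact i4
      · intro z hz' he
        have hb := hHB D hO z hz'
        have h3 : D.X1 = z.x2 := congrArg Box.x2 he
        have := hb.ltX1
        omega
    · simp only [if_neg hc]
      refine ⟨hoth (φ R) hfa ?_ hc, hin, hz, fun h => h⟩
      intro h3
      rw [h3] at hS
      exact hS hE.mem
  · intro R hR R' hR' hm hm' he
    obtain ⟨hfa, _, _, _⟩ := h1 R hR hm
    obtain ⟨hfa', _, _, _⟩ := h1 R' hR' hm'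
    apply h2 R hR R' hR' hm hm'
    by_cases hc : φ R = f
    · by_cases hc' : φ R' = f
      · rw [hc, hc']
      · exfalso
        simp only [if_pos hc, if_neg hc'] at he
        apply hc'
        apply hFU D _ _ hfa' hf
        rw [← he]
        unfold Meets
        show D.hlo s < f.x2 ∧ f.x1 < D.X1 ∧ E.y1 < f.y2 ∧ f.y1 < f.y2
        omega
    · by_cases hc' : φ R' = f
      · exfalso
        simp only [if_neg hc, if_pos hc'] at he
        apply hc
        apply hFU D _ _ hfa hf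
        rw [he]
        unfold Meets
        show D.hlo s < f.x2 ∧ f.x1 < D.X1 ∧ E.y1 < f.y2 ∧ f.y1 < f.y2
        omega
      · simp only [if_neg hc, if_neg hc'] at he
        exact he

end Pool.RB
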