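import Pool.Agent.RB.St3
import Pool.Agent.Helper23.BG.RBRoot

/-! The root dissection (`StRootS`). -/

namespace Pool.RB

open Pool.Agent.Helper4.BSPT (IBox Seeds ICost IMeets)
open Pool.Agent.Helper23.BG

theorem tb_inj {n : ℕ} {s : Fin n → IBox} (hs : Seeds n s) {i j : Fin n}
    (e : tb (s i) = tb (s j)) : i = j := by
  simp only [tb, Box.mk.injEq] at e
  exact hs.aa i j e.1

theorem pRootS : StRootS := by
  classical
  intro n s hn hs
  obtain ⟨D, F, h⟩ := exists_root hn hs
  have hx0 := h.x0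
  have hx1 := h.x1
  have hy0 := h.y0
  have hy1 := h.y1
  refine ⟨rbCfg (rootCfg D F), rbCfg_ok h.cfg_ok, ?_, ?_, ?_⟩
  · simp only [Cfg.box, rbCfg, rootCfg, hx0, hx1, hy0, hy1]
  · let φ : Box → Box := fun R =>
      if hR : ∃ i, tb (s i) = R then qb (F hR.choose) else R
    have hφ : ∀ i, φ (tb (s i)) = qb (F i) := by
      intro i
      have hR : ∃ j, tb (s j) = tb (s i) := ⟨i, rfl⟩
      have e : hR.choose = i := tb_inj hs hR.choose_spec
      change (if hR : ∃ j, tb (s j) = tb (s i) then qb (F hR.choose) else tb (s i)) = _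
      rw [dif_pos hR, e]
    refine ⟨φ, ?_, ?_⟩
    · intro R hR _
      obtain ⟨i, _, rfl⟩ := Finset.mem_image.1 hR
      rw [hφ i]
      have f := h.fits.face i
      have sb := h.fits.sub i
      refine ⟨of_isFace_toDis (D := rbCfg (rootCfg D F)) (show Pool.Agent.Helper23.BG.IsFace D _ _ _ _ from f),
        ?_, ?_, ?_⟩
      · obtain ⟨s1, s2, s3, s4⟩ := sb
        simp only [IBox.q] at s1 s2 s3 s4
        simp only [InF, qb, tb, rbCfg, rootCfg]
        omega
      · intro z hz e
        obtain ⟨k, hk, rfl⟩ := Finset.mem_image.1 hz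
        obtain ⟨g, hg, rfl⟩ := Finset.mem_image.1 hk
        obtain ⟨_, a1, a2, a3, a4⟩ := h.spec hg
        have e2 : qb (F i) = qb g := by
          rw [e]
          simp only [Hole.box, Hole.x1, Hole.x2, Hole.y1, Hole.y2, rbHole, qb]
          simp only [Pool.Agent.Helper23.BG.Hole.a, Pool.Agent.Helper23.BG.Hole.b,
            Pool.Agent.Helper23.BG.Hole.c, Pool.Agent.Helper23.BG.Hole.t] at a1 a2 a3 a4
          rw [a1, a2, a3, a4]
        have e3 := qb_inj e2
        rw [← e3] at hg
        exact (Finset.mem_sdiff.1 hg).2 (Finset.mem_image.2 ⟨i, Finset.mem_univ i, rfl⟩)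
      · exact Set.notMem_empty _
    · intro R hR R' hR' _ _ e
      obtain ⟨i, _, rfl⟩ := Finset.mem_image.1 hR
      obtain ⟨j, _, rfl⟩ := Finset.mem_image.1 hR'
      rw [hφ i, hφ j] at e
      rw [h.fits.inj (qb_inj e)]
  · have h1 := h.card
    have h2 := h.cfg_card
    have h3 : (rbCfg (rootCfg D F)).Z.card = (rootCfg D F).Z.card :=
      Finset.card_image_of_injective _ rbHole_inj
    rw [h3, h2]
    change D.V.card + D.H.card + 1 ≤ _
    omega

end Pool.RB
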