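import Pool.Agent.RB.St

/-!
# Project RB, module S1
-/

namespace Pool.RB

theorem pS1 (hMS : StMS) (hMC : StMC) (hMir : StMir) (hOkFx : StOkFx) (hPs : StPs)
    (hSz : StSz) : StS1 := by
  intro κ D g t hκ0 hκ hD hIH hg ht htT htg hT hs
  by_cases h : ∃ y ∈ D.Z, y.y1 = g ∧ D.vhi y.xU = D.Y1
  · obtain ⟨y, hy, hy1, hyU⟩ := h
    rcases (hD.z y hy).chir with ⟨h1, h2⟩ | ⟨h1, h2⟩
    · have e : y.yL = g := by
        unfold Hole.y1 at hy1
        omega
      exact hMC κ D y hκ0 hκ hD hIH ⟨hy, h1, hyU, by rw [e]; exact hT, by rw [e]; exact hs⟩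
    · have e : y.yR = g := by
        unfold Hole.y1 at hy1
        omega
      have hc : CcB D y := ⟨hy, h1, hyU, by rw [e]; exact hT, by rw [e]; exact hs⟩
      apply (hPs κ).1 D
      refine hMC κ D.fx y.fx hκ0 hκ (hOkFx D hD) ?_ (hMir.2.2 D y hc)
      intro E hE hlt
      rw [(hSz.2.2.2 D).2] at hlt
      exact hIH E hE hlt
  · push Not at h
    exact hMS κ D g t hκ0 hκ hD hIH ⟨hg, ht, htT, htg, hT, h, hs⟩

end Pool.RB
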