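import Pool.Agent.RB.St

/-!
# Project RB, module SH: cut along a horizontal piece
-/

namespace Pool.RB

private theorem SH_cnt (A : Finset Box) (X0 X1 Y0 Y1 c : ℤ) (h0 : Y0 < c) (h1 : c < Y1) :
    cnt A ⟨X0, X1, Y0, c⟩ + cnt A ⟨X0, X1, c, Y1⟩ ≤ cnt A ⟨X0, X1, Y0, Y1⟩ +
      (A.filter (fun R => Meets R ⟨X0, X1, Y0, Y1⟩ ∧ R.y1 < c ∧ c < R.y2)).card := by
  unfold cnt
  rw [← Finset.card_union_add_card_inter]
  refine Nat.add_le_add (Finset.card_le_card ?_) (Finset.card_le_card ?_)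
  · intro R hR
    simp only [Finset.mem_union, Finset.mem_filter, Meets] at hR ⊢
    rcases hR with ⟨hA, hR⟩ | ⟨hA, hR⟩
    · exact ⟨hA, by omega, by omega, by omega, by omega⟩
    · exact ⟨hA, by omega, by omega, by omega, by omega⟩
  · intro R hR
    simp only [Finset.mem_inter, Finset.mem_filter, Meets] at hR ⊢
    obtain ⟨⟨hA, hR⟩, ⟨_, hR'⟩⟩ := hR
    exact ⟨hA, ⟨by omega, by omega, by omega, by omega⟩, by omega, by omega⟩

/-- MODULE SH. -/
theorem pSH (hFitUD : StFitUD) (hCC : StCC) : StSH := by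
  intro D S c N1 N2 N hok hS hc h1 h2 hN A hfit
  obtain ⟨hc0, hc1, -⟩ := hok.h c hc
  obtain ⟨f1, f2⟩ := (hFitUD D S A c hok hS hfit).1 hc0 hc1
  obtain ⟨s1, b1, e1⟩ := h1 A f1
  obtain ⟨s2, b2, e2⟩ := h2 A f2
  have hcc := hCC D S A c hok hc hfit
  have hn := SH_cnt A D.X0 D.X1 D.Y0 D.Y1 c hc0 hc1
  refine ⟨s2 + s1, Bsp.horiz D.box c s2 s1 hc0 hc1 b2 b1, ?_⟩
  have hn' : (cnt A (dn D c).box : ℚ) + (cnt A (up D c).box : ℚ) + (hit D c : ℚ) ≤
      (cnt A D.box : ℚ) + (crs D c : ℚ) := by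
    have : cnt A (dn D c).box + cnt A (up D c).box + hit D c ≤ cnt A D.box + crs D c := by
      have h3 : cnt A (dn D c).box + cnt A (up D c).box ≤ cnt A D.box +
        (A.filter (fun R => Meets R D.box ∧ R.y1 < c ∧ c < R.y2)).card := hn
      omega
    exact_mod_cast this
  push_cast
  linarith

end Pool.RB
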