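import Pool.Agent.RB.St

/-! # Project RB, module SS: monotonicity and symmetries of `Slv` -/

set_option autoImplicit false

namespace Pool.RB

theorem pSMono : StSMono := by
  intro D S N N' h hN A hA
  have hA' : Fit D ∅ A := by
    obtain ⟨φ, h1, h2⟩ := hA
    exact ⟨φ, fun R hR hM => ⟨(h1 R hR hM).1, (h1 R hR hM).2.1, (h1 R hR hM).2.2.1,
      fun h => h.elim⟩, h2⟩
  obtain ⟨s, hs, hs'⟩ := h A hA'
  exact ⟨s, hs, by linarith⟩

private theorem SS_gen {D D' : Cfg} {N : ℚ} (τ : Box → Box) (hτ : ∀ R, τ (τ R) = R)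
    (hM : ∀ R, Meets (τ R) D'.box ↔ Meets R D.box)
    (hF : ∀ f, IsFace D f → IsFace D' (τ f))
    (hI : ∀ R f, InF D R f → InF D' (τ R) (τ f))
    (hZ : ∀ z ∈ D'.Z, ∃ w ∈ D.Z, z.box = τ w.box)
    (hB : ∀ A s, Bsp (A.image τ) D'.box s → Bsp A D.box s)
    (hc : ∀ A, cnt (A.image τ) D'.box = cnt A D.box)
    (h : Slv D' ∅ N) : Slv D ∅ N := by
  intro A hA
  obtain ⟨φ, h1, h2⟩ := hA
  have hA' : Fit D' ∅ (A.image τ) := by
    refine ⟨fun R => τ (φ (τ R)), ?_, ?_⟩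
    · intro R hR hR'
      obtain ⟨Q, hQ, rfl⟩ := Finset.mem_image.1 hR
      rw [hM] at hR'
      obtain ⟨a, b, c, _⟩ := h1 Q hQ hR'
      simp only [hτ]
      refine ⟨hF _ a, hI _ _ b, ?_, fun h => h.elim⟩
      intro z hz he
      obtain ⟨w, hw, hw'⟩ := hZ z hz
      rw [hw'] at he
      apply c w hw
      rw [← hτ (φ Q), he, hτ]
    · intro R hR R' hR' hm hm' he
      obtain ⟨Q, hQ, rfl⟩ := Finset.mem_image.1 hR
      obtain ⟨Q', hQ', rfl⟩ := Finset.mem_image.1 hR'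
      rw [hM] at hm hm'
      simp only [hτ] at he
      have he' : φ Q = φ Q' := by
        rw [← hτ (φ Q), he, hτ]
      rw [h2 Q hQ Q' hQ' hm hm' he']
  obtain ⟨s, hs, hs'⟩ := h _ hA'
  exact ⟨s, hB _ _ hs, by rw [hc] at hs'; exact hs'⟩

private theorem SS_cnt_tr (A : Finset Box) (K : Box) : cnt (A.image Box.tr) K = cnt A K.tr := by
  unfold cnt
  rw [Finset.filter_image, Finset.card_image_of_injective]
  · congr 1
    apply Finset.filter_congr
    intro R _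
    unfold Meets Box.tr
    simp only
    constructor
    · rintro ⟨a, b, c, d⟩
      exact ⟨c, d, a, b⟩
    · rintro ⟨a, b, c, d⟩
      exact ⟨c, d, a, b⟩
  · intro R R' h
    have : R.tr.tr = R'.tr.tr := congrArg Box.tr h
    exact this

private theorem SS_bsp_tr {A : Finset Box} {K : Box} {s : ℕ} (h : Bsp (A.image Box.tr) K s) :
    Bsp A K.tr s := by
  induction h with
  | leaf K h =>
    rw [SS_cnt_tr] at h ⊢
    exact Bsp.leaf _ h
  | vert K c s t h1 h2 _ _ ih1 ih2 => exact Bsp.horiz K.tr c s t h1 h2 ih1 ih2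
  | horiz K c s t h1 h2 _ _ ih1 ih2 => exact Bsp.vert K.tr c s t h1 h2 ih1 ih2

private theorem SS_face_tr {D : Cfg} {f : Box} (h : IsFace D f) : IsFace D.tr f.tr :=
  ⟨⟨h.nd.2, h.nd.1⟩, h.iy1, h.iy2, h.ix1, h.ix2, h.bot, h.top, h.left, h.right, h.noH, h.noV⟩

theorem pSTr : StSTr := by
  intro D N h
  refine SS_gen Box.tr (fun R => rfl) ?_ (fun f => SS_face_tr) ?_ ?_ ?_ ?_ h
  · intro R
    constructor
    · rintro ⟨a, b, c, d⟩
      exact ⟨c, d, a, b⟩
    · rintro ⟨a, b, c, d⟩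
      exact ⟨c, d, a, b⟩
  · rintro R f ⟨a, b, c, d⟩
    exact ⟨c, d, a, b⟩
  · intro z hz
    obtain ⟨w, hw, rfl⟩ := Finset.mem_image.1 hz
    refine ⟨w, hw, ?_⟩
    unfold Hole.box Box.tr Hole.tr Hole.x1 Hole.x2 Hole.y1 Hole.y2
    simp only [Box.mk.injEq]
    exact ⟨min_comm _ _, max_comm _ _, min_comm _ _, max_comm _ _⟩
  · intro A s hs
    exact SS_bsp_tr hs
  · intro A
    exact SS_cnt_tr A _

private theorem SS_fx_fx (R : Box) : R.fx.fx = R := by
  unfold Box.fx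
  simp

private theorem SS_cnt_fx (A : Finset Box) (K : Box) : cnt (A.image Box.fx) K = cnt A K.fx := by
  unfold cnt
  rw [Finset.filter_image, Finset.card_image_of_injective]
  · congr 1
    apply Finset.filter_congr
    intro R _
    unfold Meets Box.fx
    simp only
    constructor <;> (intro h; omega)
  · intro R R' h
    have : R.fx.fx = R'.fx.fx := congrArg Box.fx h
    rwa [SS_fx_fx, SS_fx_fx] at this

private theorem SS_bsp_fx {A : Finset Box} {K : Box} {s : ℕ} (h : Bsp (A.image Box.fx) K s) :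
    Bsp A K.fx s := by
  induction h with
  | leaf K h =>
    rw [SS_cnt_fx] at h ⊢
    exact Bsp.leaf _ h
  | vert K c s t h1 h2 _ _ ih1 ih2 =>
    rw [add_comm]
    exact Bsp.vert K.fx (-c) t s (neg_lt_neg h2) (neg_lt_neg h1) ih2 ih1
  | horiz K c s t h1 h2 _ _ ih1 ih2 => exact Bsp.horiz K.fx c s t h1 h2 ih1 ih2

private theorem SS_face_fx {D : Cfg} {f : Box} (h : IsFace D f) : IsFace D.fx f.fx := by
  refine ⟨⟨neg_lt_neg h.nd.1, h.nd.2⟩, neg_le_neg h.ix2, neg_le_neg h.ix1, h.iy1, h.iy2, ?_, ?_,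
    ?_, ?_, ?_, ?_⟩
  · rcases h.right with h1 | ⟨h1, h2, h3⟩
    · left
      show -f.x2 = -D.X1
      rw [h1]
    · right
      refine ⟨Finset.mem_image.2 ⟨f.x2, h1, rfl⟩, ?_, ?_⟩
      · show D.vlo (- -f.x2) ≤ f.y1
        rw [neg_neg]; exact h2
      · show f.y2 ≤ D.vhi (- -f.x2)
        rw [neg_neg]; exact h3
  · rcases h.left with h1 | ⟨h1, h2, h3⟩
    · left
      show -f.x1 = -D.X0
      rw [h1]
    · right
      refine ⟨Finset.mem_image.2 ⟨f.x1, h1, rfl⟩, ?_, ?_⟩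
      · show D.vlo (- -f.x1) ≤ f.y1
        rw [neg_neg]; exact h2
      · show f.y2 ≤ D.vhi (- -f.x1)
        rw [neg_neg]; exact h3
  · rcases h.bot with h1 | ⟨h1, h2, h3⟩
    · exact Or.inl h1
    · exact Or.inr ⟨h1, neg_le_neg h3, neg_le_neg h2⟩
  · rcases h.top with h1 | ⟨h1, h2, h3⟩
    · exact Or.inl h1
    · exact Or.inr ⟨h1, neg_le_neg h3, neg_le_neg h2⟩
  · intro x hx h1 h2 h3 h4
    obtain ⟨x', hx', rfl⟩ := Finset.mem_image.1 hx
    have h3' : D.vlo (- -x') < f.y2 := h3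
    have h4' : f.y1 < D.vhi (- -x') := h4
    rw [neg_neg] at h3' h4'
    exact h.noV x' hx' (neg_lt_neg_iff.1 h2) (neg_lt_neg_iff.1 h1) h3' h4'
  · intro y hy h1 h2 h3 h4
    exact h.noH y hy h1 h2 (neg_lt_neg_iff.1 h4) (neg_lt_neg_iff.1 h3)

theorem pSFx : StSFx := by
  intro D N h
  refine SS_gen Box.fx SS_fx_fx ?_ (fun f => SS_face_fx) ?_ ?_ ?_ ?_ h
  · intro R
    unfold Meets Cfg.box Cfg.fx Box.fx
    simp only
    constructor <;> (intro h; omega)
  · intro R f hI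
    unfold InF Cfg.fx Box.fx at *
    simp only at *
    omega
  · intro z hz
    obtain ⟨w, hw, rfl⟩ := Finset.mem_image.1 hz
    refine ⟨w, hw, ?_⟩
    unfold Hole.box Box.fx Hole.fx Hole.x1 Hole.x2 Hole.y1 Hole.y2
    simp only [Box.mk.injEq]
    omega
  · intro A s hs
    have := SS_bsp_fx hs
    have e : D.fx.box.fx = D.box := by
      unfold Cfg.box Cfg.fx Box.fx
      simp
    rwa [e] at this
  · intro A
    have := SS_cnt_fx A D.fx.box
    have e : D.fx.box.fx = D.box := by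
      unfold Cfg.box Cfg.fx Box.fx
      simp
    rwa [e] at this

end Pool.RB
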