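import Pool.Agent.RB.St

/-!
# Project RB, module SV: cut along a vertical piece
-/

namespace Pool.RB

private theorem SV_cnt (A : Finset Box) (X0 X1 Y0 Y1 x : ℤ) (h0 : X0 < x) (h1 : x < X1) :
    cnt A ⟨X0, x, Y0, Y1⟩ + cnt A ⟨x, X1, Y0, Y1⟩ ≤ cnt A ⟨X0, X1, Y0, Y1⟩ +
      (A.filter (fun R => Meets R ⟨X0, X1, Y0, Y1⟩ ∧ R.x1 < x ∧ x < R.x2)).card := by
  unfold cnt
  rw [← Finset.card_union_add_card_inter]
  refine Nat.add_le_add (Finset.card_le_card ?_) (Finset.card_le_card ?_)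
  · intro R hR
    simp only [Finset.mem_union, Finset.mem_filter, Meets] at hR ⊢
    rcases hR with ⟨hA, hR⟩ | ⟨hA, hR⟩
    · exact ⟨hA, by omega, by omega, by omega, by omega⟩
    · exact ⟨hA, by omega, by omega, by omega, by omega⟩
  · intro R hR
    simp only [Finset.mem_inter, Finset.mem_filter, Meets] at hR ⊢
    obtain ⟨⟨hA, hR⟩, ⟨_, hR'⟩⟩ := hR
    exact ⟨hA, ⟨by omega, by omega, by omega, by omega⟩, by omega, by omega⟩

/-- MODULE SV. -/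
theorem pSV (hFitUD : StFitUD) (hCCV : StCCV) : StSV := by
  intro D S x N1 N2 N hok hS hx h1 h2 hN A hfit
  obtain ⟨hx0, hx1, -⟩ := hok.v x hx
  obtain ⟨f1, f2⟩ := (hFitUD D S A x hok hS hfit).2 hx0 hx1
  obtain ⟨s1, b1, e1⟩ := h1 A f1
  obtain ⟨s2, b2, e2⟩ := h2 A f2
  have hc := hCCV D S A x hok hx hfit
  have hn := SV_cnt A D.X0 D.X1 D.Y0 D.Y1 x hx0 hx1
  refine ⟨s2 + s1, Bsp.vert D.box x s2 s1 hx0 hx1 b2 b1, ?_⟩
  have hn' : (cnt A (lf D x).box : ℚ) + (cnt A (rt D x).box : ℚ) ≤ (cnt A D.box : ℚ) +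
      (crsV D x : ℚ) := by
    have : cnt A (lf D x).box + cnt A (rt D x).box ≤ cnt A D.box + crsV D x :=
      hn.trans (Nat.add_le_add_left hc _)
    exact_mod_cast this
  push_cast
  linarith

end Pool.RB
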