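import Pool.Agent.RB.St

/-! Project RB, module Step (helper43). -/

namespace Pool.RB

private theorem Step_vlo {D : Cfg} {x : ℤ} (hD : Ok D) (hx : x ∈ D.V) :
    D.vlo x = D.Y0 ∨ D.vlo x ∈ D.H := (hD.vlo_end x hx).imp id fun h => h.1

private theorem Step_IHfx (hSz : StSz) {κ : ℚ} {D : Cfg} (h : IH κ D) : IH κ D.fx := by
  intro E hE hlt
  exact h E hE (by rw [← (hSz.2.2.2 D).2]; exact hlt)

private theorem Step_R (hMR : StMR) (hMir : StMir) (hOkFx : StOkFx) (hPs : StPs) (hSz : StSz)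
    {κ : ℚ} {D : Cfg} {c : ℤ} {y : Hole} (h0 : 0 ≤ κ) (h7 : κ ≤ 1 / 7) (hD : Ok D) (hI : IH κ D)
    (hR : R2c D c y) : P κ D := by
  rcases (hD.z y hR.hy).chir with h | h
  · exact hMR κ D c y h0 h7 hD hI hR h.1
  · exact (hPs κ).1 D (hMR κ D.fx c y.fx h0 h7 (hOkFx D hD) (Step_IHfx hSz hI) (hMir.1 D c y hR) h.1)

private theorem Step_I (hMI : StMI) (hMir : StMir) (hOkFx : StOkFx) (hPs : StPs) (hSz : StSz)
    {κ : ℚ} {D : Cfg} {y : Hole} (h0 : 0 ≤ κ) (h7 : κ ≤ 1 / 7) (hD : Ok D) (hI : IH κ D)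
    (hR : Ic D y) : P κ D := by
  rcases (hD.z y hR.hy).chir with h | h
  · exact hMI κ D y h0 h7 hD hI hR h.1
  · exact (hPs κ).1 D (hMI κ D.fx y.fx h0 h7 (hOkFx D hD) (Step_IHfx hSz hI) (hMir.2.1 D y hR) h.1)

private theorem Step_mem {D : Cfg} {c : ℤ} {z : Hole} :
    z ∈ AA D c ↔ z ∈ D.Z ∧ Good D z ∧ D.vhi z.xU = D.Y1 ∧ D.vlo z.xD < c := by
  classical
  unfold AA
  rw [Finset.mem_filter]

/-- the last case, left version -/
private theorem Step_C3 (hMR : StMR) (hMir : StMir) (hOkFx : StOkFx) (hPs : StPs) (hSz : StSz)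
    (hB3 : StB3) (hCor2 : StCor2)
    {κ : ℚ} {D : Cfg} {g : ℤ} {y : Hole} (h0 : 0 ≤ κ) (h7 : κ ≤ 1 / 7) (hD : Ok D) (hI : IH κ D)
    (hT : TopGe D g) (hy : y ∈ AA D g) (hd : D.vlo y.xD ≠ D.Y0) (hl : D.hlo y.yL = D.X0)
    (hs : slk D g = 0) (hc : (AA D g).card ≤ 2) : P κ D := by
  have hy' := Step_mem.1 hy
  have hgy : g ≤ D.vlo y.xU := hT _ (hD.z y hy'.1).hU hy'.2.2.1
  obtain ⟨b, hbH, hbg, hdb, he, hf⟩ := hB3 D y g hD hy hgy hd hl hT hs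
  refine Step_R hMR hMir hOkFx hPs hSz h0 h7 hD hI (c := b) (y := y) ?_
  refine ⟨hy'.1, hy'.2.1.1, hy'.2.2.1, hbH, hdb, ?_, ?_, he, hf, ?_⟩
  · have := (hD.z y hy'.1).eU
    omega
  · intro x hx hx1
    have := hT x hx hx1
    omega
  · exact le_trans (Finset.card_le_card ((hCor2 D g hD hT).2 b hbg.le)) hc

theorem pStep (hBase : StBase) (hMH : StMH) (hMV : StMV) (hExT : StExT) (hS1 : StS1) (hMI : StMI)
    (hMR : StMR) (hNB2 : StNB2) (hB2 : StB2) (hB3 : StB3) (hCor2 : StCor2) (hMir : StMir)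
    (hInv : StInv) (hOkFx : StOkFx) (hPs : StPs) (hSz : StSz) (_hHB : StHB) : StStep := by
  intro κ D h0 h7 hD hI
  by_cases hemp : D.V = ∅ ∧ D.H = ∅
  · exact hBase κ D hD hemp.1 hemp.2
  have hne : D.V.Nonempty ∨ D.H.Nonempty := by
    rcases Finset.eq_empty_or_nonempty D.V with hV | hV
    · rcases Finset.eq_empty_or_nonempty D.H with hH | hH
      · exact absurd ⟨hV, hH⟩ hemp
      · exact Or.inr hH
    · exact Or.inl hV
  by_cases hfh : ∃ c ∈ D.H, D.hlo c = D.X0 ∧ D.hhi c = D.X1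
  · obtain ⟨c, hc, h1, h2⟩ := hfh
    exact hMH κ D c h0 hD hI hc h1 h2
  by_cases hfv : ∃ x ∈ D.V, D.vlo x = D.Y0 ∧ D.vhi x = D.Y1
  · obtain ⟨x, hx, h1, h2⟩ := hfv
    exact hMV κ D x h0 hD hI hx h1 h2
  have hfh' : ∀ c ∈ D.H, ¬ (D.hlo c = D.X0 ∧ D.hhi c = D.X1) := fun c hc h => hfh ⟨c, hc, h⟩
  have hfv' : ∀ x ∈ D.V, ¬ (D.vlo x = D.Y0 ∧ D.vhi x = D.Y1) := fun c hc h => hfv ⟨c, hc, h⟩
  obtain ⟨x0, hx0, hx0T⟩ := hExT D hD hne hfh'
  -- the lowest lower end of a top attached piece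
  obtain ⟨t, ht, htmin⟩ := Finset.exists_min_image (D.V.filter (fun x => D.vhi x = D.Y1)) D.vlo
    ⟨x0, Finset.mem_filter.2 ⟨hx0, hx0T⟩⟩
  rw [Finset.mem_filter] at ht
  obtain ⟨htV, htT⟩ := ht
  set g := D.vlo t with hg
  have hT : TopGe D g := fun x hx h => htmin x (Finset.mem_filter.2 ⟨hx, h⟩)
  have hgH : g ∈ D.H := by
    rcases Step_vlo hD htV with h | h
    · exact absurd ⟨h, htT⟩ (hfv' t htV)
    · exact h
  have hS1' : Sc D g → P κ D := fun h => hS1 κ D g t h0 h7 hD hI hgH htV htT hg.symm hT h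
  by_cases hA0 : AA D g = ∅
  · exact hS1' (Or.inr hA0)
  -- Case 1
  by_cases h1 : ∃ y ∈ AA D g, D.vlo y.xD = D.Y0
  · obtain ⟨y, hy, hy0⟩ := h1
    have hy' := Step_mem.1 hy
    refine Step_I hMI hMir hOkFx hPs hSz h0 h7 hD hI (y := y) ?_
    exact ⟨hy'.1, hy'.2.1.1, hy'.2.2.1, hy0, hNB2 D y hD hy'.1 hy'.2.1 hy0, hfv'⟩
  have h1' : ∀ y ∈ AA D g, D.vlo y.xD ≠ D.Y0 := fun y hy h => h1 ⟨y, hy, h⟩
  -- Case 2
  by_cases h2 : ∃ y ∈ AA D g, D.hlo y.yL ≠ D.X0 ∧ D.hhi y.yR ≠ D.X1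
  · obtain ⟨y0, hy0, hy0'⟩ := h2
    obtain ⟨y, hy, hymin⟩ := Finset.exists_min_image
      ((AA D g).filter (fun z => D.hlo z.yL ≠ D.X0 ∧ D.hhi z.yR ≠ D.X1)) (fun z => D.vlo z.xD)
      ⟨y0, Finset.mem_filter.2 ⟨hy0, hy0'⟩⟩
    rw [Finset.mem_filter] at hy
    obtain ⟨hy, hyL, hyR⟩ := hy
    have hy' := Step_mem.1 hy
    have hgy : g ≤ D.vlo y.xU := hT _ (hD.z y hy'.1).hU hy'.2.2.1
    have heU := (hD.z y hy'.1).eU
    have hbg : D.vlo y.xD < g := hy'.2.2.2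
    have hTb : TopGt D (D.vlo y.xD) := by
      intro x hx hx1
      have := hT x hx hx1
      omega
    have hbH : D.vlo y.xD ∈ D.H := by
      rcases Step_vlo hD (hD.z y hy'.1).hD with h | h
      · exact absurd h (h1' y hy)
      · exact h
    obtain ⟨he, hf⟩ := hB2 D y hD hy'.1 hy'.2.1.1 (h1' y hy) hyL hyR hTb
    refine Step_R hMR hMir hOkFx hPs hSz h0 h7 hD hI (c := D.vlo y.xD) (y := y) ?_
    refine ⟨hy'.1, hy'.2.1.1, hy'.2.2.1, hbH, le_refl _, by omega, hTb, he, hf, ?_⟩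
    refine le_trans (Finset.card_le_card ?_) (hCor2 D g hD hT).1
    intro z hz
    refine Finset.mem_filter.2 ⟨(hCor2 D g hD hT).2 _ hbg.le hz, ?_⟩
    by_contra hcon
    push Not at hcon
    have := hymin z (Finset.mem_filter.2 ⟨(hCor2 D g hD hT).2 _ hbg.le hz, hcon⟩)
    have := (Step_mem.1 hz).2.2.2
    omega
  -- Case 3
  have h2' : ∀ y ∈ AA D g, D.hlo y.yL = D.X0 ∨ D.hhi y.yR = D.X1 := by
    intro y hy
    by_contra hcon
    push Not at hcon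
    exact h2 ⟨y, hy, hcon⟩
  have hcard : (AA D g).card ≤ 2 := by
    have := (hCor2 D g hD hT).1
    rwa [Finset.filter_true_of_mem h2'] at this
  by_cases hs : 1 ≤ slk D g
  · exact hS1' (Or.inl ⟨hs, hcard⟩)
  have hs0 : slk D g = 0 := by omega
  obtain ⟨y, hy⟩ := Finset.nonempty_iff_ne_empty.2 hA0
  rcases h2' y hy with hl | hr
  · exact Step_C3 hMR hMir hOkFx hPs hSz hB3 hCor2 h0 h7 hD hI hT hy (h1' y hy) hl hs0 hcard
  · obtain ⟨-, -, -, -, i5, -, i7, i8, -, -, i11⟩ := hInv D g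
    have hpx : P κ D.fx := by
      refine Step_C3 hMR hMir hOkFx hPs hSz hB3 hCor2 h0 h7 (hOkFx D hD) (Step_IHfx hSz hI)
        (i8.2 hT) ((i11 y).2 hy) ?_ ?_ (i5.trans hs0) (i7 ▸ hcard)
      · show D.vlo (- -y.xD) ≠ D.Y0
        rw [neg_neg]
        exact h1' y hy
      · show -D.hhi y.yR = -D.X1
        rw [hr]
    exact (hPs κ).1 D hpx

end Pool.RB
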