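import Pool.Agent.RB.St

/-!
# Project RB, module Strip: no horizontal piece above the top arm meets the strip
-/

namespace Pool.RB

private theorem Strip_step (hHB : StHB) (hHU : StHU) (D : Cfg) (y : Hole) (hok : Ok D)
    (hy : y ∈ D.Z) (hA : y.yL < y.yR) (hC : Clean D y) (hU : D.vhi y.xU = D.Y1)
    (y' : ℤ) (hy' : y' ∈ D.H) (h1 : y.yR < y') (h2 : D.hlo y' < y.xD) (h3 : y.xU < D.hhi y') :
    ∃ y'' ∈ D.H, y.yR < y'' ∧ D.hlo y'' < y.xD ∧ y.xU < D.hhi y'' ∧ y'' < y' := by
  have hz := hok.z y hy
  have hb := hHB D hok y hy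
  have hx : y.xU < y.xD := by
    rcases hz.chir with h | h
    · exact h.2
    · omega
  have ex1 : y.x1 = y.xU := min_eq_left hx.le
  have ex2 : y.x2 = y.xD := max_eq_right hx.le
  have ey1 : y.y1 = y.yL := min_eq_left hA.le
  have ey2 : y.y2 = y.yR := max_eq_right hA.le
  have e1 := hz.eU
  have e2 := hz.eR
  have b1 := hb.X0lt
  have b2 := hb.Y0lt
  have b3 := hb.hiR
  have hh := hok.h y' hy'
  have hge : y.xU ≤ D.hlo y' := by
    by_contra hlt
    exact hok.nc y.xU hz.hU y' hy' (by omega) (by omega) (by omega) h3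
  rcases hge.eq_or_lt with heq | hlt
  · exfalso
    obtain ⟨w, hw, hwy⟩ := hC.hostLe y' hy' (Or.inl heq.symm)
    have hwz := hok.z w hw
    have hwb := hHB D hok w hw
    have e3 := hwz.eR
    rw [hwy] at e3
    have hw1 : w.x1 = y.xU := by omega
    rcases min_choice w.xU w.xD with hm | hm
    · have e4 : y.xU = w.xU := by
        rw [← hm]
        exact hw1.symm
      have e5 := (hHU D hok y hy w hw).2.2.1 e4
      rw [e5] at h1
      omega
    · have e4 : w.xD = y.xU := by
        rw [← hm]
        exact hw1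
      have e5 := hwz.eD
      rw [e4] at e5
      have e6 := hwb.ltY1
      omega
  · rcases hok.hlo_end y' hy' with h4 | ⟨hxV, h5, h6⟩
    · omega
    · have hge2 : y.yR ≤ D.vlo (D.hlo y') := by
        by_contra hlt2
        exact hok.nc _ hxV y.yR hz.hR (by omega) (by omega) (by omega) (by omega)
      rcases hge2.eq_or_lt with heq2 | hlt2
      · exfalso
        obtain ⟨w, hw, hwx⟩ := hC.hostLo _ hxV (Or.inr heq2.symm)
        have hwz := hok.z w hw
        have e3 := hwz.eU
        rw [hwx] at e3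
        have hw1 : w.y1 = y.yR := by omega
        rcases min_choice w.yL w.yR with hm | hm
        · have e4 : y.yR = w.yL := by
            rw [← hm]
            exact hw1.symm
          have e5 := hok.adjH y hy w hw e4
          have e6 : w.x1 ≤ w.xU := min_le_left _ _
          omega
        · have e4 : y.yR = w.yR := by
            rw [← hm]
            exact hw1.symm
          have e5 := (hHU D hok y hy w hw).2.1 e4
          rw [← e5] at hwx
          omega
      · rcases hok.vlo_end _ hxV with h7 | ⟨hyH, h8, h9⟩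
        · omega
        · exact ⟨_, hyH, hlt2, by omega, by omega, h5⟩

/-- MODULE Strip. -/
theorem pStrip (hHB : StHB) (hHU : StHU) : StStrip := by
  intro D y hok hy hA hC hU y' hy' h1 h2 h3
  let B := D.H.filter (fun t => y.yR < t ∧ D.hlo t < y.xD ∧ y.xU < D.hhi t)
  have hB : B.Nonempty := ⟨y', Finset.mem_filter.2 ⟨hy', h1, h2, h3⟩⟩
  obtain ⟨m, hm, hmin⟩ := B.exists_min_image id hB
  obtain ⟨hmH, g1, g2, g3⟩ := Finset.mem_filter.1 hm
  obtain ⟨t, ht, k1, k2, k3, k4⟩ :=
    Strip_step hHB hHU D y hok hy hA hC hU m hmH g1 g2 g3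
  have h4 := hmin t (Finset.mem_filter.2 ⟨ht, k1, k2, k3⟩)
  simp only [id] at h4
  omega

end Pool.RB
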