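import Pool.Agent.RB.St

namespace Pool.RB

private theorem Sz_le {A B A' B' : Finset ℤ} (h1 : A' ⊆ A) (h2 : B' ⊆ B) :
    A'.card + B'.card ≤ A.card + B.card :=
  Nat.add_le_add (Finset.card_le_card h1) (Finset.card_le_card h2)

private theorem Sz_ltr {A B A' B' : Finset ℤ} (h1 : A' ⊆ A) (h2 : B' ⊆ B) {c : ℤ} (hc : c ∈ B)
    (hc' : c ∉ B') : A'.card + B'.card < A.card + B.card :=
  Nat.add_lt_add_of_le_of_lt (Finset.card_le_card h1)
    (Finset.card_lt_card (Finset.ssubset_iff_subset_ne.2 ⟨h2, fun h => hc' (h ▸ hc)⟩))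

private theorem Sz_ltl {A B A' B' : Finset ℤ} (h1 : A' ⊆ A) (h2 : B' ⊆ B) {c : ℤ} (hc : c ∈ A)
    (hc' : c ∉ A') : A'.card + B'.card < A.card + B.card :=
  Nat.add_lt_add_of_lt_of_le
    (Finset.card_lt_card (Finset.ssubset_iff_subset_ne.2 ⟨h1, fun h => hc' (h ▸ hc)⟩))
    (Finset.card_le_card h2)

theorem pSz : StSz := by
  refine ⟨?_, ?_, ?_, ?_⟩
  · intro D c hc
    constructor
    · exact Sz_ltr (Finset.filter_subset _ _) (Finset.filter_subset _ _) hc
        (fun h => lt_irrefl _ (Finset.mem_filter.1 h).2)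
    · exact Sz_ltr (Finset.filter_subset _ _) (Finset.filter_subset _ _) hc
        (fun h => lt_irrefl _ (Finset.mem_filter.1 h).2)
  · intro D x hx
    constructor
    · exact Sz_ltl (Finset.filter_subset _ _) (Finset.filter_subset _ _) hx
        (fun h => lt_irrefl _ (Finset.mem_filter.1 h).2)
    · exact Sz_ltl (Finset.filter_subset _ _) (Finset.filter_subset _ _) hx
        (fun h => lt_irrefl _ (Finset.mem_filter.1 h).2)
  · intro D c
    refine ⟨Sz_le (Finset.filter_subset _ _) (Finset.filter_subset _ _),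
      Sz_le (Finset.filter_subset _ _) (Finset.filter_subset _ _),
      Sz_le (Finset.filter_subset _ _) (Finset.filter_subset _ _),
      Sz_le (Finset.Subset.refl _) (Finset.erase_subset _ _),
      Sz_le (Finset.erase_subset _ _) (Finset.Subset.refl _)⟩
  · intro D
    constructor
    · exact Nat.add_comm _ _
    · show (D.V.image (fun x => -x)).card + D.H.card = D.V.card + D.H.card
      rw [Finset.card_image_of_injective _ (fun a b h => neg_injective h)]

end Pool.RB
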