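import Pool.Agent.RB.St

/-!
# Project RB, module Tch: holes touched by the line of a horizontal piece
-/

set_option autoImplicit false

namespace Pool.RB

theorem Tch_arm {D : Cfg} {z : Hole} (hz : HoleOk D z) {c : ℤ} (h : z.y1 = c ∨ z.y2 = c) :
    z.yL = c ∨ z.yR = c := by
  have := hz.chir
  unfold Hole.y1 Hole.y2 at h
  omega

theorem pTch (hHU : StHU) (hHB : StHB) : StTch := by
  intro D c hOk hc
  have uL : ∀ z ∈ D.Z, ∀ w ∈ D.Z, z.yL = w.yL → z = w := fun z hz w hw => (hHU D hOk z hz w hw).1
  have uR : ∀ z ∈ D.Z, ∀ w ∈ D.Z, z.yR = w.yR → z = w := fun z hz w hw => (hHU D hOk z hz w hw).2.1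
  have uU : ∀ z ∈ D.Z, ∀ w ∈ D.Z, z.xU = w.xU → z = w :=
    fun z hz w hw => (hHU D hOk z hz w hw).2.2.1
  have uD : ∀ z ∈ D.Z, ∀ w ∈ D.Z, z.xD = w.xD → z = w :=
    fun z hz w hw => (hHU D hOk z hz w hw).2.2.2
  have one : ∀ (p : Hole → ℤ), (∀ z ∈ D.Z, ∀ w ∈ D.Z, p z = p w → z = w) →
      (D.Z.filter (fun z => p z = c)).card ≤ 1 := by
    intro p hp
    rw [Finset.card_le_one]
    intro z hz w hw
    rw [Finset.mem_filter] at hz hw
    exact hp z hz.1 w hw.1 (hz.2.trans hw.2.symm)
  refine ⟨?_, ?_, ?_⟩
  · have hsub : D.Z.filter (fun z => z.y1 = c ∨ z.y2 = c) ⊆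
        D.Z.filter (fun z => z.yL = c) ∪ D.Z.filter (fun z => z.yR = c) := by
      intro z hz
      rw [Finset.mem_filter] at hz
      rw [Finset.mem_union, Finset.mem_filter, Finset.mem_filter]
      rcases Tch_arm (hOk.z z hz.1) hz.2 with h | h
      · exact Or.inl ⟨hz.1, h⟩
      · exact Or.inr ⟨hz.1, h⟩
    have h1 := Finset.card_le_card hsub
    have h2 := Finset.card_union_le (D.Z.filter (fun z => z.yL = c)) (D.Z.filter (fun z => z.yR = c))
    have h3 := one Hole.yL uL
    have h4 := one Hole.yR uR
    unfold tch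
    omega
  · intro h2
    unfold tch at h2
    rw [Finset.card_eq_two] at h2
    obtain ⟨z, w, hne, hzw⟩ := h2
    have hz : z ∈ D.Z.filter (fun z => z.y1 = c ∨ z.y2 = c) := by rw [hzw]; simp
    have hw : w ∈ D.Z.filter (fun z => z.y1 = c ∨ z.y2 = c) := by rw [hzw]; simp
    rw [Finset.mem_filter] at hz hw
    have az := Tch_arm (hOk.z z hz.1) hz.2
    have aw := Tch_arm (hOk.z w hw.1) hw.2
    have key : ∀ z ∈ D.Z, ∀ w ∈ D.Z, z.yL = c → w.yR = c → fr D c = 1 := by
      intro z hz w hw h1 h2
      have b1 := (hHB D hOk z hz).ltX1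
      have b2 := (hHB D hOk w hw).X0lt
      have e1 := (hOk.z z hz).eL
      have e2 := (hOk.z w hw).eR
      rw [h1] at e1
      rw [h2] at e2
      unfold fr
      rw [if_pos]
      constructor
      · omega
      · omega
    rcases az with az | az
    · rcases aw with aw | aw
      · exact absurd (uL z hz.1 w hw.1 (az.trans aw.symm)) hne
      · exact key z hz.1 w hw.1 az aw
    · rcases aw with aw | aw
      · exact key w hw.1 z hz.1 aw az
      · exact absurd (uR z hz.1 w hw.1 (az.trans aw.symm)) hne
  · intro hn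
    unfold tch ee
    refine Finset.card_le_card_of_injOn (fun z => if z.y1 = c then z.xU else z.xD) ?_ ?_
    · intro z hz
      rw [Finset.mem_coe, Finset.mem_filter] at hz
      have hz1 := hOk.z z hz.1
      rw [Finset.mem_coe, Finset.mem_filter]
      beta_reduce
      by_cases h : z.y1 = c
      · rw [if_pos h]
        exact ⟨hz1.hU, Or.inr ⟨hz1.eU.trans h, hn z hz.1 h⟩⟩
      · rw [if_neg h]
        rcases hz.2 with h' | h'
        · exact absurd h' h
        · exact ⟨hz1.hD, Or.inl (hz1.eD.trans h')⟩
    · intro z hz w hw hzw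
      rw [Finset.mem_coe, Finset.mem_filter] at hz hw
      have hz1 := hOk.z z hz.1
      have hw1 := hOk.z w hw.1
      simp only at hzw
      by_cases h : z.y1 = c
      · rw [if_pos h] at hzw
        by_cases h' : w.y1 = c
        · rw [if_pos h'] at hzw
          exact uU z hz.1 w hw.1 hzw
        · rw [if_neg h'] at hzw
          have e1 := hz1.eU
          have e2 := hw1.eD
          have e3 := hOk.v z.xU hz1.hU
          rw [← hzw] at e2
          have e4 : w.y2 = c := by
            rcases hw.2 with h2 | h2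
            · exact absurd h2 h'
            · exact h2
          omega
      · rw [if_neg h] at hzw
        have e0 : z.y2 = c := by
          rcases hz.2 with h2 | h2
          · exact absurd h2 h
          · exact h2
        by_cases h' : w.y1 = c
        · rw [if_pos h'] at hzw
          have e1 := hz1.eD
          have e2 := hw1.eU
          have e3 := hOk.v z.xD hz1.hD
          rw [← hzw] at e2
          omega
        · rw [if_neg h'] at hzw
          exact uD z hz.1 w hw.1 hzw

end Pool.RB
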