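import Pool.Agent.RB.St

namespace Pool.RB

private theorem UD_up (D : Cfg) (c : ℤ) (h : Ok D) (h0 : D.Y0 < c) (h1 : c < D.Y1) : Ok (up D c) where
  hX := h.hX
  hY := h1
  v := by
    intro x hx
    simp only [up, Finset.mem_filter] at hx ⊢
    have := h.v x hx.1
    omega
  h := by
    intro y hy
    simp only [up, Finset.mem_filter] at hy ⊢
    have := h.h y hy.1
    omega
  vlo_end := by
    intro x hx
    simp only [up, Finset.mem_filter] at hx ⊢
    rcases h.vlo_end x hx.1 with h2 | ⟨h2, h3, h4⟩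
    · left; omega
    · by_cases h5 : D.vlo x ≤ c
      · left; omega
      · right
        have h6 : max (D.vlo x) c = D.vlo x := by omega
        rw [h6]
        exact ⟨⟨h2, by omega⟩, h3, h4⟩
  vhi_end := by
    intro x hx
    simp only [up, Finset.mem_filter] at hx ⊢
    rcases h.vhi_end x hx.1 with h2 | ⟨h2, h3, h4⟩
    · left; exact h2
    · right; exact ⟨⟨h2, hx.2⟩, h3, h4⟩
  hlo_end := by
    intro y hy
    simp only [up, Finset.mem_filter] at hy ⊢
    rcases h.hlo_end y hy.1 with h2 | ⟨h2, h3, h4⟩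
    · left; exact h2
    · right; exact ⟨⟨h2, by omega⟩, by omega, h4⟩
  hhi_end := by
    intro y hy
    simp only [up, Finset.mem_filter] at hy ⊢
    rcases h.hhi_end y hy.1 with h2 | ⟨h2, h3, h4⟩
    · left; exact h2
    · right; exact ⟨⟨h2, by omega⟩, by omega, h4⟩
  nc := by
    intro x hx y hy h2 h3 h4 h5
    simp only [up, Finset.mem_filter] at hx hy h2 h3 h4 h5
    exact h.nc x hx.1 y hy.1 (by omega) h3 h4 h5
  z := by
    intro z hz
    simp only [up, Finset.mem_filter] at hz
    have hz' := h.z z hz.1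
    have c1 : c < z.yL := by have := hz.2; simp only [Hole.y1] at this; omega
    have c2 : c < z.yR := by have := hz.2; simp only [Hole.y1] at this; omega
    have hvU := h.v z.xU hz'.hU
    have hvD := h.v z.xD hz'.hD
    have e1 := hz'.eU
    have e2 := hz'.eD
    have g1 : z.y1 ≤ z.y2 := by simp only [Hole.y1, Hole.y2]; omega
    have g2 := hz.2
    refine ⟨?_, ?_, ?_, ?_, hz'.chir, hz'.eL, hz'.eR, ?_, hz'.eD, ?_, ?_⟩
    · simp only [up, Finset.mem_filter]; exact ⟨hz'.hU, by omega⟩
    · simp only [up, Finset.mem_filter]; exact ⟨hz'.hD, by omega⟩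
    · simp only [up, Finset.mem_filter]; exact ⟨hz'.hL, c1⟩
    · simp only [up, Finset.mem_filter]; exact ⟨hz'.hR, c2⟩
    · simp only [up]; omega
    · intro x hx h2 h3 h4 h5
      simp only [up, Finset.mem_filter] at hx h4 h5
      exact hz'.noV x hx.1 h2 h3 (by omega) h5
    · intro y hy h2 h3 h4 h5
      simp only [up, Finset.mem_filter] at hy h4 h5
      exact hz'.noH y hy.1 h2 h3 h4 h5
  adjH := by
    intro z hz w hw h2
    simp only [up, Finset.mem_filter] at hz hw
    exact h.adjH z hz.1 w hw.1 h2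
  adjV := by
    intro z hz w hw h2
    simp only [up, Finset.mem_filter] at hz hw
    exact h.adjV z hz.1 w hw.1 h2

private theorem UD_dn (D : Cfg) (c : ℤ) (h : Ok D) (h0 : D.Y0 < c) (h1 : c < D.Y1) : Ok (dn D c) where
  hX := h.hX
  hY := h0
  v := by
    intro x hx
    simp only [dn, Finset.mem_filter] at hx ⊢
    have := h.v x hx.1
    omega
  h := by
    intro y hy
    simp only [dn, Finset.mem_filter] at hy ⊢
    have := h.h y hy.1
    omega
  vlo_end := by
    intro x hx
    simp only [dn, Finset.mem_filter] at hx ⊢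
    rcases h.vlo_end x hx.1 with h2 | ⟨h2, h3, h4⟩
    · left; exact h2
    · right; exact ⟨⟨h2, hx.2⟩, h3, h4⟩
  vhi_end := by
    intro x hx
    simp only [dn, Finset.mem_filter] at hx ⊢
    rcases h.vhi_end x hx.1 with h2 | ⟨h2, h3, h4⟩
    · left; omega
    · by_cases h5 : c ≤ D.vhi x
      · left; omega
      · right
        have h6 : min (D.vhi x) c = D.vhi x := by omega
        rw [h6]
        exact ⟨⟨h2, by omega⟩, h3, h4⟩
  hlo_end := by
    intro y hy
    simp only [dn, Finset.mem_filter] at hy ⊢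
    rcases h.hlo_end y hy.1 with h2 | ⟨h2, h3, h4⟩
    · left; exact h2
    · right; exact ⟨⟨h2, by omega⟩, h3, by omega⟩
  hhi_end := by
    intro y hy
    simp only [dn, Finset.mem_filter] at hy ⊢
    rcases h.hhi_end y hy.1 with h2 | ⟨h2, h3, h4⟩
    · left; exact h2
    · right; exact ⟨⟨h2, by omega⟩, h3, by omega⟩
  nc := by
    intro x hx y hy h2 h3 h4 h5
    simp only [dn, Finset.mem_filter] at hx hy h2 h3 h4 h5
    exact h.nc x hx.1 y hy.1 h2 (by omega) h4 h5
  z := by
    intro z hz
    simp only [dn, Finset.mem_filter] at hz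
    have hz' := h.z z hz.1
    have c1 : z.yL < c := by have := hz.2; simp only [Hole.y2] at this; omega
    have c2 : z.yR < c := by have := hz.2; simp only [Hole.y2] at this; omega
    have hvU := h.v z.xU hz'.hU
    have hvD := h.v z.xD hz'.hD
    have e1 := hz'.eU
    have e2 := hz'.eD
    have g1 : z.y1 ≤ z.y2 := by simp only [Hole.y1, Hole.y2]; omega
    have g2 := hz.2
    refine ⟨?_, ?_, ?_, ?_, hz'.chir, hz'.eL, hz'.eR, hz'.eU, ?_, ?_, ?_⟩
    · simp only [dn, Finset.mem_filter]; exact ⟨hz'.hU, by omega⟩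
    · simp only [dn, Finset.mem_filter]; exact ⟨hz'.hD, by omega⟩
    · simp only [dn, Finset.mem_filter]; exact ⟨hz'.hL, c1⟩
    · simp only [dn, Finset.mem_filter]; exact ⟨hz'.hR, c2⟩
    · simp only [dn]; omega
    · intro x hx h2 h3 h4 h5
      simp only [dn, Finset.mem_filter] at hx h4 h5
      exact hz'.noV x hx.1 h2 h3 h4 (by omega)
    · intro y hy h2 h3 h4 h5
      simp only [dn, Finset.mem_filter] at hy h4 h5
      exact hz'.noH y hy.1 h2 h3 h4 h5
  adjH := by
    intro z hz w hw h2
    simp only [dn, Finset.mem_filter] at hz hw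
    exact h.adjH z hz.1 w hw.1 h2
  adjV := by
    intro z hz w hw h2
    simp only [dn, Finset.mem_filter] at hz hw
    exact h.adjV z hz.1 w hw.1 h2

theorem pOkUp : StOkUp := fun D c h h0 h1 => UD_up D c h h0 h1

theorem pOkDn : StOkDn := fun D c h h0 h1 => UD_dn D c h h0 h1

end Pool.RB
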