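import Pool.Agent.RB.M_OkTr
import Pool.Agent.RB.M_OkFx
import Pool.Agent.RB.M_HB
import Pool.Agent.RB.M_HU
import Pool.Agent.RB.M_UD
import Pool.Agent.RB.M_OkLR
import Pool.Agent.RB.M_Sz
import Pool.Agent.RB.M_FE
import Pool.Agent.RB.M_FU
import Pool.Agent.RB.M_FClip
import Pool.Agent.RB.M_CC
import Pool.Agent.RB.M_CCV
import Pool.Agent.RB.M_FitUD
import Pool.Agent.RB.M_SH
import Pool.Agent.RB.M_SV
import Pool.Agent.RB.M_SS
import Pool.Agent.RB.M_Rm
import Pool.Agent.RB.M_Ab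
import Pool.Agent.RB.M_FG
import Pool.Agent.RB.M_Ps
import Pool.Agent.RB.M_AFHV
import Pool.Agent.RB.M_AFS
import Pool.Agent.RB.M_AFR
import Pool.Agent.RB.M_AFI
import Pool.Agent.RB.M_Cup
import Pool.Agent.RB.M_Cdn
import Pool.Agent.RB.M_CLR
import Pool.Agent.RB.M_N5
import Pool.Agent.RB.M_Loss
import Pool.Agent.RB.M_Tch
import Pool.Agent.RB.M_Strip
import Pool.Agent.RB.M_Only
import Pool.Agent.RB.M_HostR
import Pool.Agent.RB.M_HostL
import Pool.Agent.RB.M_NB2
import Pool.Agent.RB.M_B2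
import Pool.Agent.RB.M_B3
import Pool.Agent.RB.M_Cor
import Pool.Agent.RB.M_AGH
import Pool.Agent.RB.M_AGV
import Pool.Agent.RB.M_AGS
import Pool.Agent.RB.M_AGR
import Pool.Agent.RB.M_AGI
import Pool.Agent.RB.M_Ccl
import Pool.Agent.RB.M_AGC
import Pool.Agent.RB.M_Inv
import Pool.Agent.RB.M_Mir
import Pool.Agent.RB.M_MH
import Pool.Agent.RB.M_MV
import Pool.Agent.RB.M_MS
import Pool.Agent.RB.M_MC
import Pool.Agent.RB.M_MR
import Pool.Agent.RB.M_MI
import Pool.Agent.RB.M_Base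
import Pool.Agent.RB.M_ExT
import Pool.Agent.RB.M_S1
import Pool.Agent.RB.M_Step
import Pool.Agent.RB.M_Main
import Pool.Agent.RB.M_Glow
import Pool.Agent.RB.M_RootS
import Pool.Agent.RB.M_IntS
import Pool.Agent.RB.M_ICost
import Pool.Agent.RB.M_Prune
import Pool.Agent.RB.M_Real

/-! Assembly of project RB (generated from the list of modules). -/

namespace Pool.RB

theorem qOkTr : StOkTr := pOkTr
theorem qOkFx : StOkFx := pOkFx
theorem qHB : StHB := pHB
theorem qHB2 : StHB2 := pHB2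
theorem qHU : StHU := pHU qHB
theorem qOkUp : StOkUp := pOkUp
theorem qOkDn : StOkDn := pOkDn
theorem qOkLR : StOkLR := pOkLR qOkTr qOkUp qOkDn
theorem qSz : StSz := pSz
theorem qFE : StFE := pFE
theorem qFU : StFU := pFU
theorem qFClip : StFClip := pFClip
theorem qCC : StCC := pCC qHB qHU qFU
theorem qCCV : StCCV := pCCV qHB qFU
theorem qFitUD : StFitUD := pFitUD qHB qFU qFClip
theorem qSH : StSH := pSH qFitUD qCC
theorem qSV : StSV := pSV qFitUD qCCV
theorem qSMono : StSMono := pSMono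
theorem qSTr : StSTr := pSTr
theorem qSFx : StSFx := pSFx
theorem qRmOk : StRmOk := pRmOk qFE qFU qHB
theorem qRm : StRm := pRm qFE qFU qHB
theorem qAbOk : StAbOk := pAbOk qFU qHB
theorem qAb : StAb := pAb qFU qHB
theorem qFG : StFG := pFG
theorem qPs : StPs := pPs qFG qSTr qSFx
theorem qAFH : StAFH := pAFH qHB
theorem qAFV : StAFV := pAFV qHB
theorem qAFS : StAFS := pAFS
theorem qAFA : StAFA := pAFA
theorem qAFR : StAFR := pAFR qHB
theorem qAFI : StAFI := pAFI qHB
theorem qCup : StCup := pCup qHB qHU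
theorem qCdn : StCdn := pCdn qHB qHU
theorem qCLR : StCLR := pCLR qHB qHU
theorem qCrm : StCrm := pCrm qHU
theorem qN5 : StN5 := pN5 qHU
theorem qLoss : StLoss := pLoss qHU qN5
theorem qTch : StTch := pTch qHU qHB
theorem qStrip : StStrip := pStrip qHB qHU
theorem qOnly : StOnly := pOnly qHB qHU qStrip
theorem qHostR : StHostR := pHostR qHB
theorem qHostL : StHostL := pHostL qHB
theorem qNB2 : StNB2 := pNB2 qHostR qHostL qHB qHU
theorem qB2 : StB2 := pB2 qHostR qHostL qHB qHU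
theorem qB3 : StB3 := pB3 qHostR qHB qHU
theorem qCor : StCor := pCor qHB qHU
theorem qCor2 : StCor2 := pCor2 qHB qHU
theorem qAGH : StAGH := pAGH qCup qCdn qHB
theorem qAGV : StAGV := pAGV qCLR qHB
theorem qAGS : StAGS := pAGS qHB qHU qOkUp qCup qCdn qCLR qLoss
theorem qAGR : StAGR := pAGR qHB qHU qOkUp qCup qCdn qCLR qCrm qLoss qOnly
theorem qAGI : StAGI := pAGI qHB qHU qCLR qCrm qOnly
theorem qCcl : StCcl := pCcl qHB qHU
theorem qAGC : StAGC := pAGC qHB qHU qOkUp qCup qCdn qCLR qLoss qCcl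
theorem qInv : StInv := pInv
theorem qMir : StMir := pMir qInv qFG
theorem qMH : StMH := pMH qSH qSMono qSz qOkUp qOkDn qAFH qAGH
theorem qMV : StMV := pMV qSV qSMono qSz qOkLR qAFV qAGV
theorem qMS : StMS := pMS qSH qSV qSMono qSz qOkTr qOkFx qOkUp qOkDn qOkLR qHB qFClip qPs qAFS qAGS qTch
theorem qMC : StMC := pMC qSH qSV qSMono qSz qOkTr qOkFx qOkUp qOkDn qOkLR qHB qHU qFClip qPs qAbOk qAb qAFS qAFA qAGC qTch
theorem qMR : StMR := pMR qSH qSV qSMono qSz qOkTr qOkFx qOkUp qOkDn qOkLR qHB qHU qFClip qPs qRmOk qRm qOnly qAFR qAGR qTch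
theorem qMI : StMI := pMI qSV qSMono qSz qOkTr qOkFx qOkLR qHB qHU qFClip qPs qRmOk qRm qOnly qAFI qAGI
theorem qBase : StBase := pBase
theorem qExT : StExT := pExT qFE
theorem qS1 : StS1 := pS1 qMS qMC qMir qOkFx qPs qSz
theorem qStep : StStep := pStep qBase qMH qMV qExT qS1 qMI qMR qNB2 qB2 qB3 qCor2 qMir qInv qOkFx qPs qSz qHB
theorem qMain : StMain := pMain qStep
theorem qGlow : StGlow := pGlow qHB qHU
theorem qRootS : StRootS := pRootS
theorem qIntS : StIntS := pIntS qRootS qMain qGlow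
theorem qICost : StICost := pICost
theorem qPrune : StPrune := pPrune
theorem qReal : StReal := pReal qIntS qICost qPrune

end Pool.RB
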