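import Pool.Agent.RB.St

/-!
# Project RB, module Ab: corner absorption
-/

namespace Pool.RB

private lemma Ab_noRi (D : Cfg) (S : Set Box) (s : ℤ) (E : Box) (hO : Ok D) (hE : AbC D S s E) :
    ∀ y ∈ D.H, D.hhi y ≠ s := by
  intro y hy he
  have hv := hO.v s hE.hs
  have hh := hO.h y hy
  have hn := hE.face.noH y hy
  rw [hE.e1, hE.e2, hE.e3, hE.e4] at hn
  rcases hO.hhi_end y hy with h | ⟨_, h2, h3⟩
  · omega
  · rw [he] at h2 h3
    have hlo := hE.hlo
    exact hn (by omega) (by omega) (by omega) (by omega)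

private lemma Ab_chg (D : Cfg) (S : Set Box) (s : ℤ) (E : Box) (hO : Ok D) (hE : AbC D S s E) :
    ∀ y ∈ D.H, D.hlo y = s → D.Y0 < y ∧ y < D.vhi s := by
  intro y hy he
  have hv := hO.v s hE.hs
  have hh := hO.h y hy
  rcases hO.hlo_end y hy with h | ⟨_, h2, h3⟩
  · omega
  · rw [he] at h2 h3
    have hlo := hE.hlo
    omega

private lemma Ab_left (D : Cfg) (S : Set Box) (s : ℤ) (E : Box) (hO : Ok D) (hE : AbC D S s E) :
    ∀ x ∈ D.V, x < s → D.vhi s ≤ D.vlo x := by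
  intro x hx hxs
  have hv := hO.v s hE.hs
  have hvx := hO.v x hx
  have hn := hE.face.noV x hx
  rw [hE.e1, hE.e2, hE.e3, hE.e4] at hn
  by_contra hc
  exact hn (by omega) (by omega) (by omega) (by omega)

private lemma Ab_hlo (D : Cfg) (s : ℤ) (y : ℤ) :
    (D.hlo y = s ∧ (abC D s).hlo y = D.X0) ∨ (D.hlo y ≠ s ∧ (abC D s).hlo y = D.hlo y) := by
  by_cases h : D.hlo y = s
  · left
    refine ⟨h, ?_⟩
    show (if D.hlo y = s then D.X0 else D.hlo y) = D.X0
    rw [if_pos h]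
  · right
    refine ⟨h, ?_⟩
    show (if D.hlo y = s then D.X0 else D.hlo y) = D.hlo y
    rw [if_neg h]

private lemma Ab_mem (D : Cfg) (s x : ℤ) : x ∈ (abC D s).V ↔ x ≠ s ∧ x ∈ D.V := by
  show x ∈ D.V.erase s ↔ _
  exact Finset.mem_erase

theorem pAbOk (hFU : StFU) (hHB : StHB) : StAbOk := by
  intro D S s E hO hE
  have hv := hO.v s hE.hs
  have hlo := hE.hlo
  have noRi := Ab_noRi D S s E hO hE
  have chg := Ab_chg D S s E hO hE
  have lft := Ab_left D S s E hO hE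
  have hle : ∀ y ∈ D.H, (abC D s).hlo y ≤ D.hlo y := by
    intro y hy
    have hh := hO.h y hy
    rcases Ab_hlo D s y with ⟨_, h2⟩ | ⟨_, h2⟩ <;> omega
  refine ⟨hO.hX, hO.hY, ?_, ?_, ?_, ?_, ?_, ?_, ?_, ?_, hO.adjH, hO.adjV⟩
  · intro x hx
    exact hO.v x ((Ab_mem D s x).1 hx).2
  · intro y hy
    have hh := hO.h y hy
    show D.Y0 < y ∧ y < D.Y1 ∧ D.X0 ≤ (abC D s).hlo y ∧ (abC D s).hlo y < D.hhi y ∧ D.hhi y ≤ D.X1
    rcases Ab_hlo D s y with ⟨_, h2⟩ | ⟨_, h2⟩ <;> omega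
  · intro x hx
    have hx2 := ((Ab_mem D s x).1 hx).2
    show D.vlo x = D.Y0 ∨ (D.vlo x ∈ D.H ∧ (abC D s).hlo (D.vlo x) < x ∧ x < D.hhi (D.vlo x))
    rcases hO.vlo_end x hx2 with h | ⟨h1, h2, h3⟩
    · exact Or.inl h
    · exact Or.inr ⟨h1, lt_of_le_of_lt (hle _ h1) h2, h3⟩
  · intro x hx
    have hx2 := ((Ab_mem D s x).1 hx).2
    show D.vhi x = D.Y1 ∨ (D.vhi x ∈ D.H ∧ (abC D s).hlo (D.vhi x) < x ∧ x < D.hhi (D.vhi x))
    rcases hO.vhi_end x hx2 with h | ⟨h1, h2, h3⟩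
    · exact Or.inl h
    · exact Or.inr ⟨h1, lt_of_le_of_lt (hle _ h1) h2, h3⟩
  · intro y hy
    show (abC D s).hlo y = D.X0 ∨ ((abC D s).hlo y ∈ (abC D s).V ∧ D.vlo ((abC D s).hlo y) < y ∧
      y < D.vhi ((abC D s).hlo y))
    rcases Ab_hlo D s y with ⟨_, h2⟩ | ⟨h1, h2⟩
    · exact Or.inl h2
    · rw [h2]
      rcases hO.hlo_end y hy with h | ⟨h3, h4, h5⟩
      · exact Or.inl h
      · exact Or.inr ⟨(Ab_mem D s _).2 ⟨h1, h3⟩, h4, h5⟩
  · intro y hy
    show D.hhi y = D.X1 ∨ (D.hhi y ∈ (abC D s).V ∧ D.vlo (D.hhi y) < y ∧ y < D.vhi (D.hhi y))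
    rcases hO.hhi_end y hy with h | ⟨h3, h4, h5⟩
    · exact Or.inl h
    · exact Or.inr ⟨(Ab_mem D s _).2 ⟨noRi y hy, h3⟩, h4, h5⟩
  · intro x hx y hy h1 h2 h3 h4
    have hx1 := ((Ab_mem D s x).1 hx).1
    have hx2 := ((Ab_mem D s x).1 hx).2
    have h1' : D.vlo x < y := h1
    have h2' : y < D.vhi x := h2
    have h4' : x < D.hhi y := h4
    rcases Ab_hlo D s y with ⟨h5, h6⟩ | ⟨h5, h6⟩
    · have hc := chg y hy h5
      rcases lt_trichotomy x s with h7 | h7 | h7
      · have := lft x hx2 h7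
        omega
      · exact hx1 h7
      · exact hO.nc x hx2 y hy h1' h2' (by omega) h4'
    · rw [h6] at h3
      exact hO.nc x hx2 y hy h1' h2' h3 h4'
  · intro z hz
    have hz' : z ∈ D.Z := hz
    have hk := hO.z z hz'
    have hzs := hE.hz z hz'
    have hb := hHB D hO z hz'
    refine ⟨(Ab_mem D s _).2 ⟨hzs.1, hk.hU⟩, (Ab_mem D s _).2 ⟨hzs.2, hk.hD⟩, hk.hL, hk.hR, hk.chir,
      hk.eL, ?_, hk.eU, hk.eD, ?_, ?_⟩
    · rcases Ab_hlo D s z.yR with ⟨h5, _⟩ | ⟨_, h6⟩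
      · exfalso
        have h7 := hk.eR
        rw [h5] at h7
        have h8 : z.x1 = min z.xU z.xD := rfl
        rcases min_choice z.xU z.xD with h9 | h9
        · exact hzs.1 (by omega)
        · exact hzs.2 (by omega)
      · rw [h6]
        exact hk.eR
    · intro x hx
      exact hk.noV x ((Ab_mem D s x).1 hx).2
    · intro y hy h1 h2 h3 h4
      have h4' : z.x1 < D.hhi y := h4
      rcases Ab_hlo D s y with ⟨h5, _⟩ | ⟨_, h6⟩
      · by_cases h7 : s < z.x2
        · exact hk.noH y hy h1 h2 (by omega) h4'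
        · have hc := chg y hy h5
          have hm : Meets z.box E := by
            refine ⟨?_, ?_, ?_, ?_⟩
            · show z.x1 < E.x2
              rw [hE.e2]
              have := hb.x12
              omega
            · show E.x1 < z.x2
              rw [hE.e1]
              have := hb.x12
              have := hb.X0lt
              omega
            · show z.y1 < E.y2
              rw [hE.e4]
              omega
            · show E.y1 < z.y2
              rw [hE.e3]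
              omega
          have h8 := hFU D z.box E hb.face hE.face hm
          have h9 : z.x1 = E.x1 := congrArg Box.x1 h8
          rw [hE.e1] at h9
          have := hb.X0lt
          omega
      · rw [h6] at h3
        exact hk.noH y hy h1 h2 h3 h4'

private lemma Ab_face1 (D : Cfg) (S : Set Box) (s : ℤ) (E : Box) (hO : Ok D) (hE : AbC D S s E)
    (f : Box) (hf : IsFace D f) (hs : f.x1 = s) :
    IsFace (abC D s) ⟨D.X0, f.x2, f.y1, f.y2⟩ := by
  have hv := hO.v s hE.hs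
  have hlo := hE.hlo
  have lft := Ab_left D S s E hO hE
  have hnd := hf.nd
  have hnd1 : f.x1 < f.x2 := hnd.1
  have hnd2 : f.y1 < f.y2 := hnd.2
  have hi := hf.iy1
  have hl : D.Y0 ≤ f.y1 ∧ f.y2 ≤ D.vhi s := by
    rcases hf.left with h | ⟨_, h2, h3⟩
    · omega
    · rw [hs] at h3
      exact ⟨hi, h3⟩
  refine ⟨?_, ?_, hf.ix2, hf.iy1, hf.iy2, ?_, ?_, ?_, ?_, ?_, ?_⟩
  · refine ⟨?_, ?_⟩
    · show D.X0 < f.x2
      omega
    · exact hnd2
  · exact le_refl D.X0
  · exact Or.inl rfl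
  · show f.x2 = D.X1 ∨ (f.x2 ∈ (abC D s).V ∧ D.vlo f.x2 ≤ f.y1 ∧ f.y2 ≤ D.vhi f.x2)
    rcases hf.right with h | ⟨h1, h2, h3⟩
    · exact Or.inl h
    · exact Or.inr ⟨(Ab_mem D s _).2 ⟨by omega, h1⟩, h2, h3⟩
  · show f.y1 = D.Y0 ∨ (f.y1 ∈ D.H ∧ (abC D s).hlo f.y1 ≤ D.X0 ∧ f.x2 ≤ D.hhi f.y1)
    rcases hf.bot with h | ⟨h1, h2, h3⟩
    · exact Or.inl h
    · refine Or.inr ⟨h1, ?_, h3⟩
      have hh := hO.h f.y1 h1
      rcases Ab_hlo D s f.y1 with ⟨_, h6⟩ | ⟨h5, _⟩
      · omega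
      · exfalso
        exact hO.nc s hE.hs f.y1 h1 (by omega) (by omega) (by omega) (by omega)
  · show f.y2 = D.Y1 ∨ (f.y2 ∈ D.H ∧ (abC D s).hlo f.y2 ≤ D.X0 ∧ f.x2 ≤ D.hhi f.y2)
    rcases hf.top with h | ⟨h1, h2, h3⟩
    · exact Or.inl h
    · refine Or.inr ⟨h1, ?_, h3⟩
      have hh := hO.h f.y2 h1
      rcases Ab_hlo D s f.y2 with ⟨_, h6⟩ | ⟨h5, h6⟩
      · omega
      · by_cases h7 : f.y2 < D.vhi s
        · exfalso
          exact hO.nc s hE.hs f.y2 h1 (by omega) (by omega) (by omega) (by omega)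
        · have h8 : f.y2 = D.vhi s := by omega
          have ht := hE.face.top
          rw [hE.e4, hE.e1, ← h8] at ht
          rcases ht with h9 | ⟨_, h9, _⟩
          · omega
          · omega
  · intro x hx h1 h2 h3 h4
    have hx1 := ((Ab_mem D s x).1 hx).1
    have hx2 := ((Ab_mem D s x).1 hx).2
    have h3' : D.vlo x < f.y2 := h3
    have h4' : f.y1 < D.vhi x := h4
    have h2' : x < f.x2 := h2
    rcases lt_trichotomy x s with h7 | h7 | h7
    · have := lft x hx2 h7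
      omega
    · exact hx1 h7
    · exact hf.noV x hx2 (by omega) h2' h3' h4'
  · intro y hy h1 h2 h3 h4
    have h1' : f.y1 < y := h1
    have h2' : y < f.y2 := h2
    have h3' : (abC D s).hlo y < f.x2 := h3
    have h4' : D.X0 < D.hhi y := h4
    have hh := hO.h y hy
    have hn := hE.face.noH y hy
    rw [hE.e1, hE.e2, hE.e3, hE.e4] at hn
    rcases lt_trichotomy (D.hlo y) s with h7 | h7 | h7
    · exact hn (by omega) (by omega) h7 h4'
    · exact hf.noH y hy h1' h2' (by omega) (by omega)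
    · rcases Ab_hlo D s y with ⟨h5, _⟩ | ⟨_, h6⟩
      · omega
      · exact hf.noH y hy h1' h2' (by omega) (by omega)

private lemma Ab_face2 (hFU : StFU) (D : Cfg) (S : Set Box) (s : ℤ) (E : Box) (hO : Ok D)
    (hE : AbC D S s E) (f : Box) (hf : IsFace D f) (hs : f.x1 ≠ s) (hne : f ≠ E) :
    IsFace (abC D s) f := by
  have hv := hO.v s hE.hs
  have hlo := hE.hlo
  have chg := Ab_chg D S s E hO hE
  have hnd := hf.nd
  have hnd1 : f.x1 < f.x2 := hnd.1
  have hnd2 : f.y1 < f.y2 := hnd.2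
  have hi := hf.iy1
  have hj := hf.ix1
  have hm : ¬ (f.x1 < s ∧ D.X0 < f.x2 ∧ f.y1 < D.vhi s ∧ D.Y0 < f.y2) := by
    intro h
    apply hne
    apply hFU D f E hf hE.face
    unfold Meets
    rw [hE.e1, hE.e2, hE.e3, hE.e4]
    exact h
  have hle : ∀ y ∈ D.H, (abC D s).hlo y ≤ D.hlo y := by
    intro y hy
    have hh := hO.h y hy
    rcases Ab_hlo D s y with ⟨_, h2⟩ | ⟨_, h2⟩ <;> omega
  refine ⟨hf.nd, hf.ix1, hf.ix2, hf.iy1, hf.iy2, ?_, ?_, ?_, ?_, ?_, ?_⟩
  · rcases hf.left with h | ⟨h1, h2, h3⟩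
    · exact Or.inl h
    · exact Or.inr ⟨(Ab_mem D s _).2 ⟨hs, h1⟩, h2, h3⟩
  · rcases hf.right with h | ⟨h1, h2, h3⟩
    · exact Or.inl h
    · refine Or.inr ⟨(Ab_mem D s _).2 ⟨?_, h1⟩, h2, h3⟩
      intro h4
      rw [h4] at h3
      exact hm ⟨by omega, by omega, by omega, by omega⟩
  · rcases hf.bot with h | ⟨h1, h2, h3⟩
    · exact Or.inl h
    · exact Or.inr ⟨h1, le_trans (hle _ h1) h2, h3⟩
  · rcases hf.top with h | ⟨h1, h2, h3⟩
    · exact Or.inl h
    · exact Or.inr ⟨h1, le_trans (hle _ h1) h2, h3⟩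
  · intro x hx
    exact hf.noV x ((Ab_mem D s x).1 hx).2
  · intro y hy h1 h2 h3 h4
    have h4' : f.x1 < D.hhi y := h4
    rcases Ab_hlo D s y with ⟨h5, _⟩ | ⟨_, h6⟩
    · have hc := chg y hy h5
      by_cases h7 : s < f.x2
      · exact hf.noH y hy h1 h2 (by omega) h4'
      · exact hm ⟨by omega, by omega, by omega, by omega⟩
    · rw [h6] at h3
      exact hf.noH y hy h1 h2 h3 h4'

theorem pAb (hFU : StFU) (hHB : StHB) : StAb := by
  intro D S s N E hO hE hslv A hA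
  apply hslv A
  obtain ⟨φ, h1, h2⟩ := hA
  have hv := hO.v s hE.hs
  refine ⟨fun R => if (φ R).x1 = s then ⟨D.X0, (φ R).x2, (φ R).y1, (φ R).y2⟩ else φ R, ?_, ?_⟩
  · intro R hR hm
    obtain ⟨hf, hin, hz, hS⟩ := h1 R hR hm
    by_cases hs : (φ R).x1 = s
    · simp only [if_pos hs]
      refine ⟨Ab_face1 D S s E hO hE (φ R) hf hs, ?_, ?_, ?_⟩
      · exact ⟨le_max_right _ _, hin.2⟩
      · intro z hz' he
        have hb := hHB D hO z hz'
        have h3 : D.X0 = z.x1 := congrArg Box.x1 he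
        have := hb.X0lt
        omega
      · exact fun h => h
    · simp only [if_neg hs]
      refine ⟨Ab_face2 hFU D S s E hO hE (φ R) hf hs ?_, hin, hz, fun h => h⟩
      intro h3
      rw [h3] at hS
      exact hS hE.mem
  · intro R hR R' hR' hm hm' he
    obtain ⟨hf, _, _, _⟩ := h1 R hR hm
    obtain ⟨hf', _, _, _⟩ := h1 R' hR' hm'
    apply h2 R hR R' hR' hm hm'
    have hn1 : (φ R).x1 < (φ R).x2 := hf.nd.1
    have hn2 : (φ R).y1 < (φ R).y2 := hf.nd.2
    have hn1' : (φ R').x1 < (φ R').x2 := hf'.nd.1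
    have hn2' : (φ R').y1 < (φ R').y2 := hf'.nd.2
    by_cases hs : (φ R).x1 = s
    · by_cases hs' : (φ R').x1 = s
      · simp only [if_pos hs, if_pos hs', Box.mk.injEq] at he
        obtain ⟨_, e2, e3, e4⟩ := he
        cases hq : φ R
        cases hq' : φ R'
        rw [hq] at hs e2 e3 e4
        rw [hq'] at hs' e2 e3 e4
        simp only at hs hs' e2 e3 e4
        subst hs' e2 e3 e4
        rw [hs]
      · exfalso
        simp only [if_pos hs, if_neg hs'] at he
        have hmm : Meets (φ R) (φ R') := by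
          rw [← he]
          refine ⟨?_, ?_, hn2, hn2⟩
          · exact hn1
          · show D.X0 < (φ R).x2
            omega
        have h5 := hFU D _ _ hf hf' hmm
        apply hs'
        rw [← h5]
        exact hs
    · by_cases hs' : (φ R').x1 = s
      · exfalso
        simp only [if_neg hs, if_pos hs'] at he
        have hmm : Meets (φ R) (φ R') := by
          rw [he]
          refine ⟨?_, ?_, hn2', hn2'⟩
          · show D.X0 < (φ R').x2
            omega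
          · exact hn1'
        have h5 := hFU D _ _ hf hf' hmm
        apply hs
        rw [h5]
        exact hs'
      · simp only [if_neg hs, if_neg hs'] at he
        exact he

end Pool.RB
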