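import Pool.Agent.RB.St

/-!
Project RB, module B2: case 2 of the induction step.
-/

namespace Pool.RB

private theorem B2_ee1 (D : Cfg) (c x : ℤ) (hx : x ∈ D.V)
    (h : D.vhi x = c ∨ (D.vlo x = c ∧ D.vhi x ≠ D.Y1)) : 1 ≤ ee D c := by
  unfold ee
  exact Finset.card_pos.2 ⟨x, Finset.mem_filter.2 ⟨hx, h⟩⟩

private theorem B2_ee2 (D : Cfg) (c x q : ℤ) (hx : x ∈ D.V) (hq : q ∈ D.V) (hne : x ≠ q)
    (h : D.vhi x = c ∨ (D.vlo x = c ∧ D.vhi x ≠ D.Y1))
    (h' : D.vhi q = c ∨ (D.vlo q = c ∧ D.vhi q ≠ D.Y1)) : 2 ≤ ee D c := by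
  unfold ee
  have h1 : ({x, q} : Finset ℤ) ⊆ D.V.filter (fun x => D.vhi x = c ∨ (D.vlo x = c ∧ D.vhi x ≠ D.Y1)) := by
    intro r hr
    rw [Finset.mem_insert, Finset.mem_singleton] at hr
    rcases hr with rfl | rfl
    · exact Finset.mem_filter.2 ⟨hx, h⟩
    · exact Finset.mem_filter.2 ⟨hq, h'⟩
  have h2 := Finset.card_le_card h1
  rwa [Finset.card_pair hne] at h2

theorem pB2 (hHostR : StHostR) (hHostL : StHostL) (hHB : StHB) (hHU : StHU) : StB2 := by
  classical
  intro D y hD hy hcl hY0 hLX hRX hT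
  have byy := hHB D hD y hy
  have oky := hD.z y hy
  have e1 := oky.eU
  have hvD := hD.vlo_end y.xD oky.hD
  have hbH : D.vlo y.xD ∈ D.H ∧ D.hlo (D.vlo y.xD) < y.xD ∧ y.xD < D.hhi (D.vlo y.xD) := by
    rcases hvD with h | h
    · exact absurd h hY0
    · exact h
  have hlt := byy.loD
  have hvhiD : D.vhi y.xD ≠ D.Y1 := by
    have h1 := oky.eD
    have h2 := byy.ltY1
    omega
  have hee1 : 1 ≤ ee D (D.vlo y.xD) := B2_ee1 D _ y.xD oky.hD (Or.inr ⟨rfl, hvhiD⟩)
  refine ⟨hee1, ?_⟩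
  by_cases h2 : 2 ≤ fr D (D.vlo y.xD) + ee D (D.vlo y.xD)
  · exact h2
  have hfr : ¬ (D.hlo (D.vlo y.xD) ≠ D.X0 ∧ D.hhi (D.vlo y.xD) ≠ D.X1) := by
    intro h
    apply h2
    have : fr D (D.vlo y.xD) = 1 := by
      unfold fr
      rw [if_pos h]
    omega
  have hfin : ∀ q ∈ D.V, D.vlo q = D.vlo y.xD → y.xD ≠ q → 2 ≤ ee D (D.vlo y.xD) := by
    intro q hq hq2 hne
    have hq3 : D.vhi q ≠ D.Y1 := by
      intro h
      have := hT q hq h
      omega
    exact B2_ee2 D (D.vlo y.xD) y.xD q oky.hD hq hne (Or.inr ⟨rfl, hvhiD⟩) (Or.inr ⟨hq2, hq3⟩)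
  by_cases hR : D.hhi (D.vlo y.xD) = D.X1
  · obtain ⟨q, hq, hq1, hq2⟩ := hHostR D y (D.vlo y.xD) hD hy
      (Or.inr ⟨hbH.1, hR, le_of_lt hbH.2.1⟩) (le_refl _) hlt (by
        intro y'' hy'' h1 h2' h3
        obtain ⟨w, hw, h4⟩ := hcl.hostLe y'' hy'' (Or.inr h3)
        have okw := hD.z w hw
        have bw := hHB D hD w hw
        have h5 := okw.eR
        rw [h4, h3] at h5
        have h6 : w.x1 = min w.xU w.xD := rfl
        rcases okw.chir with hc | hc
        · exfalso
          have h7 : w.xU = y.xD := by omega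
          have h8 := okw.eU
          rw [h7] at h8
          have h9 : w.y1 = min w.yL w.yR := rfl
          have h10 : w.yL = D.vlo y.xD := by omega
          have h11 := okw.eL
          rw [h10, hR] at h11
          have := bw.ltX1
          omega
        · have h7 : w.xD = y.xD := by omega
          have h8 := (hHU D hD w hw y hy).2.2.2 h7
          rw [← h4, h8]) hRX
    have := hfin q hq hq2 (by omega)
    omega
  · have hL0 : D.hlo (D.vlo y.xD) = D.X0 := by
      by_contra h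
      exact hfr ⟨h, hR⟩
    obtain ⟨q, hq, hq1, hq2⟩ := hHostL D y (D.vlo y.xD) hD hy
      (Or.inr ⟨hbH.1, hL0, le_of_lt hbH.2.2⟩) (le_refl _) hlt (by
        intro y'' hy'' h1 h2' h3
        obtain ⟨w, hw, h4⟩ := hcl.hostRi y'' hy'' (Or.inr h3)
        have okw := hD.z w hw
        have bw := hHB D hD w hw
        have h5 := okw.eL
        rw [h4, h3] at h5
        have h6 : w.x2 = max w.xU w.xD := rfl
        rcases okw.chir with hc | hc
        · have h7 : w.xD = y.xD := by omega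
          have h8 := (hHU D hD w hw y hy).2.2.2 h7
          rw [← h4, h8]
        · exfalso
          have h7 : w.xU = y.xD := by omega
          have h8 := okw.eU
          rw [h7] at h8
          have h9 : w.y1 = min w.yL w.yR := rfl
          have h10 : w.yR = D.vlo y.xD := by omega
          have h11 := okw.eR
          rw [h10, hL0] at h11
          have := bw.X0lt
          omega) hLX
    have := hfin q hq hq2 (by omega)
    omega

end Pool.RB
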