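import Pool.Agent.RB.St

namespace Pool.RB

private theorem OkTr_x1 (z : Hole) : z.tr.x1 = z.y1 := by
  simp only [Hole.x1, Hole.y1, Hole.tr, min_comm]

private theorem OkTr_x2 (z : Hole) : z.tr.x2 = z.y2 := by
  simp only [Hole.x2, Hole.y2, Hole.tr, max_comm]

private theorem OkTr_y1 (z : Hole) : z.tr.y1 = z.x1 := by
  simp only [Hole.x1, Hole.y1, Hole.tr, min_comm]

private theorem OkTr_y2 (z : Hole) : z.tr.y2 = z.x2 := by
  simp only [Hole.x2, Hole.y2, Hole.tr, max_comm]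

private theorem OkTr_hole (D : Cfg) (z : Hole) (h : HoleOk D z) : HoleOk D.tr z.tr where
  hU := h.hR
  hD := h.hL
  hL := h.hD
  hR := h.hU
  chir := by
    rcases h.chir with ⟨h1, h2⟩ | ⟨h1, h2⟩
    · exact Or.inr ⟨h2, h1⟩
    · exact Or.inl ⟨h2, h1⟩
  eL := by rw [OkTr_x2]; exact h.eD
  eR := by rw [OkTr_x1]; exact h.eU
  eU := by rw [OkTr_y1]; exact h.eR
  eD := by rw [OkTr_y2]; exact h.eL
  noV := by
    intro x hx h1 h2 h3 h4
    rw [OkTr_x1] at h1
    rw [OkTr_x2] at h2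
    rw [OkTr_y2] at h3
    rw [OkTr_y1] at h4
    exact h.noH x hx h1 h2 h3 h4
  noH := by
    intro y hy h1 h2 h3 h4
    rw [OkTr_y1] at h1
    rw [OkTr_y2] at h2
    rw [OkTr_x2] at h3
    rw [OkTr_x1] at h4
    exact h.noV y hy h1 h2 h3 h4

theorem pOkTr : StOkTr := by
  intro D h
  refine
    { hX := h.hY
      hY := h.hX
      v := h.h
      h := h.v
      vlo_end := h.hlo_end
      vhi_end := h.hhi_end
      hlo_end := h.vlo_end
      hhi_end := h.vhi_end
      nc := fun x hx y hy h1 h2 h3 h4 => h.nc y hy x hx h3 h4 h1 h2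
      z := ?_
      adjH := ?_
      adjV := ?_ }
  · intro z hz
    obtain ⟨w, hw, rfl⟩ := Finset.mem_image.1 hz
    exact OkTr_hole D w (h.z w hw)
  · intro z hz w hw he
    obtain ⟨z', hz', rfl⟩ := Finset.mem_image.1 hz
    obtain ⟨w', hw', rfl⟩ := Finset.mem_image.1 hw
    rw [OkTr_x2, OkTr_x1]
    exact h.adjV z' hz' w' hw' he
  · intro z hz w hw he
    obtain ⟨z', hz', rfl⟩ := Finset.mem_image.1 hz
    obtain ⟨w', hw', rfl⟩ := Finset.mem_image.1 hw
    rw [OkTr_y2, OkTr_y1]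
    exact h.adjH z' hz' w' hw' he

end Pool.RB
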