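import Pool.Agent.RB.Defs

/-!
# Statements of project RB, part 1: dissections, cuts, the induction
Every docstring contains a complete proof.  `omega` closes most goals once the right instances of the
fields of `Ok` are at hand.  Type A means `yL < yR, xU < xD` (then x1 = xU, x2 = xD, y1 = yL, y2 = yR);
type B means `yR < yL, xD < xU` (then x1 = xD, x2 = xU, y1 = yR, y2 = yL); see `HoleOk.chir`.
-/

namespace Pool.RB

/-! ## A. operations preserve `Ok` -/

/-- StOkTr.  Field by field; `D.tr.V = D.H` etc. hold by `rfl`.  For `z' = z.tr` with `z ∈ D.Z`: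
`z'.x1 = min z.yR z.yL = z.y1` (min_comm) etc., so `HoleOk D.tr z.tr` is `HoleOk D z` with the fields
permuted; `adjH` for `D.tr`: `z'.yR = w'.yL` means `z.xU = w.xD`, so it is `adjV` of `D`. -/
def StOkTr : Prop := ∀ D : Cfg, Ok D → Ok D.tr

/-- StOkFx.  Members of `D.V.image (-·)` are `-x` with `x ∈ D.V`; everything is `Ok D` after this
substitution (`neg_neg`).  For `z' = z.fx`: `z'.x1 = -z.x2`, `z'.x2 = -z.x1`, `z'.y1 = z.y1`,
`z'.y2 = z.y2`, type A and type B are exchanged. -/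
def StOkFx : Prop := ∀ D : Cfg, Ok D → Ok D.fx

/-- StHB.  Let `z ∈ D.Z`.  Type A: `hhi yL = xD`, `hlo yR = xU`, `vlo xU = yL`, `vhi xD = yR`.
`xU, xD ∈ V`, `yL, yR ∈ H` lie strictly inside the box (fields v, h).  From `vlo_end xU`: `vlo xU = yL ≠ Y0`,
so `hlo yL < xU < hhi yL`: loL.  `vhi_end xD`: `vhi xD = yR ≠ Y1`, so `xD < hhi yR`: hiR.  `hlo_end yR`:
`hlo yR = xU ≠ X0`, so `yR < vhi xU`: hiU.  `hhi_end yL`: `hhi yL = xD ≠ X1`, so `vlo xD < yL`: loD.
Type B is similar: `hhi yL = xU`, `hlo yR = xD`, `vlo xU = yR`, `vhi xD = yL`.  face: the left side of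
`z.box` is on the vertical piece z.x1, which covers `[y1,y2]` by the inequalities just proved, similarly the
other sides; noV and noH are fields of `HoleOk`. -/
def StHB : Prop := ∀ D : Cfg, Ok D → ∀ z ∈ D.Z, HB D z

/-- StHU.  Holes are determined by each of their arms.  Let `z, w ∈ D.Z`.
(1) `z.yL = w.yL`: then `z.x2 = hhi yL = w.x2`.  Both type A: `z.xD = z.x2 = w.xD`, so `z.y2 = vhi xD = w.y2`, i.e.
`z.yR = w.yR`, so `z.x1 = hlo yR = w.x1`, i.e. `z.xU = w.xU`.  Both type B: `z.xU = w.xU`, so `z.y1 = w.y1`, i.e.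
`z.yR = w.yR`, so `z.x1 = w.x1`, i.e. `z.xD = w.xD`.  `z` type A, `w` type B: `w.xU = z.xD`, so `adjV w z` gives
`w.y2 < z.y1`, but `w.y2 = w.yL = z.yL = z.y1`.
(2) `z.yR = w.yR`: then `z.x1 = w.x1`.  AA: `xU` equal, so `y1`, i.e. `yL` equal: (1).  BB: `xD` equal, so `y2`, i.e.
`yL` equal: (1).  `z` A, `w` B: `z.xU = w.xD`, `adjV z w`: `z.y2 < w.y1`, but both are `yR`.
(3) `z.xU = w.xU`: `y1` equal.  AA: `yL` equal: (1).  BB: `yR` equal: (2).  `z` A, `w` B: `w.yR = z.yL`, `adjH w z`: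
`w.x2 < z.x1`, but both are `xU`.
(4) `z.xD = w.xD`: `y2` equal.  AA: `yR` equal: (2).  BB: `yL` equal: (1).  `z` A, `w` B: `z.yR = w.yL`, `adjH z w`:
`z.x2 < w.x1`, but both are `xD`. -/
def StHU : Prop := ∀ D : Cfg, Ok D → ∀ z ∈ D.Z, ∀ w ∈ D.Z,
  (z.yL = w.yL → z = w) ∧ (z.yR = w.yR → z = w) ∧ (z.xU = w.xU → z = w) ∧ (z.xD = w.xD → z = w)

/-- StOkUp.  `x ∈ (up D c).V` iff `x ∈ D.V` and `c < vhi x`; its extent is `[max (vlo x) c, vhi x]`.
`y ∈ (up D c).H` iff `y ∈ D.H`, `c < y`.  vlo_end: if `vlo x ≤ c` the new value is `c = Y0'`; else it is `vlo x > c`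
(`≠ D.Y0`), a member of `D.H` above `c`.  hlo_end: if `hlo y ∈ D.V` with `vlo (hlo y) < y < vhi (hlo y)` then
`c < y < vhi`, and `max (vlo ..) c < y`.  Holes: `z ∈ D.Z` with `c < z.y1`: `yL, yR ≥ y1 > c`, `vlo xU = y1 > c` so
`max (vlo xU) c = y1`, `vhi xD = y2 > c`. -/
def StOkUp : Prop := ∀ (D : Cfg) (c : ℤ), Ok D → D.Y0 < c → c < D.Y1 → Ok (up D c)

/-- StOkDn.  Mirror image of StOkUp (same proof). -/
def StOkDn : Prop := ∀ (D : Cfg) (c : ℤ), Ok D → D.Y0 < c → c < D.Y1 → Ok (dn D c)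

/-- StOkLR.  `lf D c` and `(dn D.tr c).tr` have the same fields except possibly `Z`, where
`((D.Z.image tr).filter (·.y2 < c)).image tr = D.Z.filter (·.x2 < c)` because `tr (tr z) = z` and
`z.tr.y2 = max z.xD z.xU = z.x2`.  Similarly `rt D c = (up D.tr c).tr`.  So use StOkTr, StOkUp, StOkDn. -/
def StOkLR : Prop := ∀ (D : Cfg) (c : ℤ), Ok D → D.X0 < c → c < D.X1 → Ok (lf D c) ∧ Ok (rt D c)

/-- StSz.  Pieces are lost: `c ∈ D.H` is in neither part (`c < c` is false), and `V`, `H` only shrink;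
similarly `x ∈ D.V`.  Also `D.tr.sz = D.sz`, `D.fx.sz = D.sz` (card_image of an injective map). -/
def StSz : Prop :=
  (∀ (D : Cfg) (c : ℤ), c ∈ D.H → (up D c).sz < D.sz ∧ (dn D c).sz < D.sz) ∧
  (∀ (D : Cfg) (x : ℤ), x ∈ D.V → (lf D x).sz < D.sz ∧ (rt D x).sz < D.sz) ∧
  (∀ (D : Cfg) (c : ℤ), (up D c).sz ≤ D.sz ∧ (lf D c).sz ≤ D.sz ∧ (rt D c).sz ≤ D.sz ∧ (rmH D c).sz ≤ D.sz
    ∧ (abC D c).sz ≤ D.sz) ∧
  (∀ D : Cfg, D.tr.sz = D.sz ∧ D.fx.sz = D.sz)

/-! ## B. faces -/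

/-- StFE.  Existence of faces.  Let `Q` be the unit square `[i,i+1]x[j,j+1]` in the box.  Let `x1` = the largest
element of `{X0} ∪ {x ∈ V : x ≤ i, vlo x ≤ j < vhi x}`, `x2` = the smallest of `{X1} ∪ {x ∈ V : i+1 ≤ x, vlo x ≤ j < vhi x}`,
`y1` = the largest of `{Y0} ∪ {y ∈ H : y ≤ j, hlo y ≤ i < hhi y}`, `y2` = the smallest of
`{Y1} ∪ {y ∈ H : j+1 ≤ y, hlo y ≤ i < hhi y}`.
(★) no piece meets the open rectangle `(x1,x2)x(y1,y2)`.  First, no horizontal piece `y` with `j+1 ≤ y < y2`,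
`x1 < hhi y`, `hhi y ≤ i`: take the smallest such `y`; `x' = hhi y ∈ (x1,i]` is in `V` and `vlo x' < y < vhi x'`; `x'` does
not cover row `j` (choice of x1), so `vlo x' ≥ j+1`, so `y' = vlo x' ∈ H`, `hlo y' < x' < hhi y'`, `j+1 ≤ y' < y < y2`; `y'`
does not cover column `i` (choice of y2) and `hlo y' < x' ≤ i`, so `hhi y' ≤ i`, and `hhi y' > x' > x1`:
a smaller one.  The three mirror statements (`y ≥ j+1` and `i+1 ≤ hlo y < x2`; `y1 < y ≤ j` and `x1 < hhi y ≤ i`; `y1 < y ≤ j`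
and `i+1 ≤ hlo y < x2`) are proved in the same way.  A horizontal piece with `y1 < y < y2` meeting the open
rectangle does not cover column `i`, so it is of one of these four kinds.  A vertical piece `x` meeting it does
not cover row `j`, so `vlo x ≥ j+1` (and < y2) or `vhi x ≤ j` (and > y1); its end there lies on a horizontal piece
which meets the open rectangle; contradiction.  This proves (★) = noV, noH.
Sides: if `x1 ≠ X0` and `vhi x1 < y2` then `y' = vhi x1 ∈ H`, `j+1 ≤ y' < y2`, `hlo y' < x1 < hhi y'` meets the open rectangle: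
contradiction; similarly `vlo x1 ≤ y1`, and the other sides. -/
def StFE : Prop := ∀ (D : Cfg) (i j : ℤ), Ok D → D.X0 ≤ i → i + 1 ≤ D.X1 → D.Y0 ≤ j → j + 1 ≤ D.Y1 →
  ∃ f : Box, IsFace D f ∧ f.x1 ≤ i ∧ i + 1 ≤ f.x2 ∧ f.y1 ≤ j ∧ j + 1 ≤ f.y2

/-- StFU.  Two faces with a common interior point are equal.  If `f.x1 < g.x1` then `g.x1 ≠ X0`, so
`g.x1 ∈ V`, `vlo g.x1 ≤ g.y1 < f.y2`, `f.y1 < g.y2 ≤ vhi g.x1`, and `f.x1 < g.x1 < f.x2`: contradicts f.noV.  The other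
seven cases are the same. -/
def StFU : Prop := ∀ (D : Cfg) (f g : Box), IsFace D f → IsFace D g → Meets f g → f = g

/-- StFClip.  The parts of a face are faces of the parts.  E.g. `up`: if `f.y1 ≤ c` the new bottom is the new
wall; members of `(up D c).V` have the same extent above `c`. -/
def StFClip : Prop := ∀ (D : Cfg) (f : Box) (c : ℤ), IsFace D f →
  (D.Y0 < c → c < D.Y1 → c < f.y2 → IsFace (up D c) ⟨f.x1, f.x2, max f.y1 c, f.y2⟩) ∧
  (D.Y0 < c → c < D.Y1 → f.y1 < c → IsFace (dn D c) ⟨f.x1, f.x2, f.y1, min f.y2 c⟩) ∧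
  (D.X0 < c → c < D.X1 → c < f.x2 → IsFace (rt D c) ⟨max f.x1 c, f.x2, f.y1, f.y2⟩) ∧
  (D.X0 < c → c < D.X1 → f.x1 < c → IsFace (lf D c) ⟨f.x1, min f.x2 c, f.y1, f.y2⟩)

/-! ## C. cuts and BSPs -/

/-- StCC.  Let `φ` be the map of `Fit`.  The members of `A` cut by the line `y = c` and the holes hit by the line
give pairwise different faces `f` of `D` (for a hole: `z.box`, StHB; `φ R ≠ z.box`; `φ` injective; `z ↦ z.box`
injective by StFU/StHU) with `f.y1 < c < f.y2` (InF).  The piece `c ∈ H` does not meet the interior of such `f`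
(f.noH), so `f.x2 ≤ hlo c` or `hhi c ≤ f.x1`.  Map `f` to `f.x2` in the first case, to `f.x1` in the second.
The image is in `V` (not a wall, because `hlo c < X1`, `X0 < hhi c`), and `vlo ≤ f.y1 < c < f.y2 ≤ vhi`.  Injective: two
faces in the first case with the same `x2` both contain points near `(x2, c)` on the left, so they are equal by
StFU; likewise in the second case; `f.x2 ≤ hlo c < hhi c ≤ g.x1` excludes the mixed case. -/
def StCC : Prop := ∀ (D : Cfg) (S : Set Box) (A : Finset Box) (c : ℤ), Ok D → c ∈ D.H → Fit D S A →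
  (A.filter (fun R => Meets R D.box ∧ R.y1 < c ∧ c < R.y2)).card + hit D c ≤ crs D c

/-- StCCV.  Transposed version of StCC (same proof, or apply StCC to `D.tr`). -/
def StCCV : Prop := ∀ (D : Cfg) (S : Set Box) (A : Finset Box) (x : ℤ), Ok D → x ∈ D.V → Fit D S A →
  (A.filter (fun R => Meets R D.box ∧ R.x1 < x ∧ x < R.x2)).card ≤ crsV D x

/-- StFitUD.  Put `φ' R = ⟨(φ R).x1, (φ R).x2, max (φ R).y1 c, (φ R).y2⟩` for `up` (StFClip).  If `φ' R = φ' R'` for members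
meeting the upper part, then `φ R`, `φ R'` have a common interior point, so they are equal (StFU).
`φ' R` is not a hole of `up D c`: this hole `z` is a hole of `D`, and `z.box` is a face of `D` (StHB) with a common
interior point with `φ R`.  `φ' R ∉ upS c (S ∪ hb D)`: otherwise `φ' R = clip g`, `g ∈ S` or `g = z.box`; if `g = z.box`
argue as before.  For `g ∈ S` we need that `g` is a face of `D`: this is the first hypothesis on `S`; `c < g.y2` is part
of `upS`, so the clipped boxes have a common interior point. -/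
def StFitUD : Prop := ∀ (D : Cfg) (S : Set Box) (A : Finset Box) (c : ℤ), Ok D → (∀ g ∈ S, IsFace D g) →
  Fit D S A →
  (D.Y0 < c → c < D.Y1 → Fit (up D c) (upS c (S ∪ hb D)) A ∧ Fit (dn D c) (dnS c (S ∪ hb D)) A) ∧
  (D.X0 < c → c < D.X1 → Fit (rt D c) (rtS c (S ∪ hb D)) A ∧ Fit (lf D c) (lfS c (S ∪ hb D)) A)

/-- StSH.  Given `A` with `Fit D S A` use StFitUD to get `Fit` for both parts, hence partitions with `s1`, `s2`
fragments; `Bsp.horiz`.  `(up D c).box = ⟨X0,X1,c,Y1⟩`, `(dn D c).box = ⟨X0,X1,Y0,c⟩` (rfl).  A member of `A` meeting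
`D.box` meets the upper or the lower part, and both exactly when it is cut, so
`cnt up + cnt dn = cnt D + #cut`; conclude with StCC. -/
def StSH : Prop := ∀ (D : Cfg) (S : Set Box) (c : ℤ) (N1 N2 N : ℚ), Ok D → (∀ g ∈ S, IsFace D g) → c ∈ D.H →
  Slv (up D c) (upS c (S ∪ hb D)) N1 → Slv (dn D c) (dnS c (S ∪ hb D)) N2 →
  N1 + N2 + ((crs D c : ℚ) - (hit D c : ℚ)) ≤ N → Slv D S N

/-- StSV.  The same for a vertical line (StFitUD, StCCV). -/
def StSV : Prop := ∀ (D : Cfg) (S : Set Box) (x : ℤ) (N1 N2 N : ℚ), Ok D → (∀ g ∈ S, IsFace D g) → x ∈ D.V →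
  Slv (rt D x) (rtS x (S ∪ hb D)) N1 → Slv (lf D x) (lfS x (S ∪ hb D)) N2 →
  N1 + N2 + (crsV D x : ℚ) ≤ N → Slv D S N

/-- StSMono.  `Fit D S A → Fit D ∅ A`. -/
def StSMono : Prop := ∀ (D : Cfg) (S : Set Box) (N N' : ℚ), Slv D ∅ N → N ≤ N' → Slv D S N'

/-- StSTr.  Transposition: `Fit D ∅ A → Fit D.tr ∅ (A.image Box.tr)` (new map `R ↦ (φ R.tr).tr`),
`Bsp (A.image Box.tr) K.tr s → Bsp A K s` by induction, and `cnt (A.image Box.tr) K.tr = cnt A K`. -/
def StSTr : Prop := ∀ (D : Cfg) (N : ℚ), Slv D.tr ∅ N → Slv D ∅ N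

/-- StSFx.  The same for the reflection `fx`. -/
def StSFx : Prop := ∀ (D : Cfg) (N : ℚ), Slv D.fx ∅ N → Slv D ∅ N

/-- StRmOk.  `Ok`: only `H` changes, and `s` is not the host of an end and not an arm. -/
def StRmOk : Prop := ∀ (D : Cfg) (S : Set Box) (s : ℤ) (E : Box), Ok D → RmC D S s E → Ok (rmH D s)

/-- StRm.  Removing a horizontal piece `s` on which nothing ends, whose right end is on the right wall and
such that the face `E` below it is forbidden.  Let `u = hlo s`.  The face above `s` (StFE at the unit square `(u, s)`)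
has bottom `s` and is exactly `N = [u,X1] x [s,n2]` (no vertical piece ends on `s`, none crosses it).  Let
`M = [u,X1] x [E.y1,n2]`: a face of `rmH D s` (its left side is on `u`: `u ∈ V` covers `[E.y1,s]` and `[s,n2]`).  New map:
`φ' R = M` if `φ R = N`, else `φ R`.  `φ R ≠ E` because `E ∈ S`.  A face `f ≠ E, N` of `D` is a face of `rmH D s`: its bottom
or top is not `s` (else it is `N` resp. `E` by StFU).  `M` meets no other face of `D` than `E`, `N` (StFU), in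
particular no hole (holes are faces, StHB; a hole is not `E` or `N` because these touch the wall `X1`). -/
def StRm : Prop := ∀ (D : Cfg) (S : Set Box) (s : ℤ) (N : ℚ) (E : Box), Ok D → RmC D S s E →
  Slv (rmH D s) ∅ N → Slv D S N

/-- StAbOk.  Corner absorption.  `E = [X0,s] x [Y0, vhi s]`.  No horizontal piece ends on `s` from the left (it
would enter `E` at a height in `(Y0, vhi s)`, E.noH).  hlo_end is `X0` for the changed pieces; `nc`: a changed piece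
`y` (`hlo y = s`, `Y0 < y < vhi s`) now also passes over `(X0,s]`, where `E.noV` excludes other vertical pieces (a
piece `x < s`, `x > X0` with `vlo x < y < vhi x` meets the interior of `E`); holes: `s` is not an arm, so `hlo z.yR = z.x1 ≠ s`
(`z.x1 ∈ {xU, xD}`); emptiness: a changed piece `y` could only enter a hole `z` with `z.x2 ≤ s` (else z.noH before);
then `z.box` and `E` have common interior points, both are faces (StHB), so they are equal (StFU), but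
`z.x1 > X0`. -/
def StAbOk : Prop := ∀ (D : Cfg) (S : Set Box) (s : ℤ) (E : Box), Ok D → AbC D S s E → Ok (abC D s)

/-- StAb.  `Fit`: `φ' R = ⟨X0, (φ R).x2, (φ R).y1, (φ R).y2⟩` if `(φ R).x1 = s`, else `φ R`; a face `f` with left side on
`s` lies in heights `[Y0, vhi s]` (f.left); a face with right side on `s` is equal to `E` (StFU), so it is no `φ R`.
`f' = [X0, f.x2] x [f.y1,f.y2]` is a face of `abC D s`: bottom: if `f.y1 ≠ Y0` then `hlo f.y1 ≤ s < f.x2 ≤ hhi f.y1` and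
`Y0 < f.y1 < vhi s`, so `hlo f.y1 = s` by `nc`: changed; top: the same if `f.y2 < vhi s`; if `f.y2 = vhi s ≠ Y1` it is the
top piece of `E`, which starts at `X0`; noV, noH: pieces left of `s` would meet `E`.  The other faces of `D` (≠ E)
stay faces: changed pieces could only enter them inside `E`.  The new map is injective: `f'` meets only `f` and `E`. -/
def StAb : Prop := ∀ (D : Cfg) (S : Set Box) (s : ℤ) (N : ℚ) (E : Box), Ok D → AbC D S s E →
  Slv (abC D s) ∅ N → Slv D S N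

/-! ## D. counts under the symmetries -/

/-- StFG.  Counts under the symmetries; `Clean` is invariant: `Clean D.fx z.fx ↔ Clean D z`,
`Clean D.tr z.tr ↔ Clean D z`.  `Finset.card_image_of_injective` and `filter_image`. -/
def StFG : Prop :=
  (∀ D : Cfg, F D.fx = F D ∧ G D.fx = G D ∧ F (rr D) = FR D ∧ F (rl D) = FL D ∧ G (rr D) = GV D ∧ G (rl D) = GV D) ∧
  (∀ (D : Cfg) (z : Hole), (Clean D.fx z.fx ↔ Clean D z) ∧ (Clean D.tr z.tr ↔ Clean D z))

/-- StPs.  From StFG, StSTr, StSFx: `P D.fx → P D`, `P (rr E) → Slv E ∅ (FR E - κ GV E)`,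
`P (rl E) → Slv E ∅ (FL E - κ GV E)`. -/
def StPs : Prop := ∀ κ : ℚ, (∀ D : Cfg, P κ D.fx → P κ D) ∧
  (∀ E : Cfg, P κ (rr E) → Slv E ∅ ((FR E : ℚ) - κ * (GV E : ℚ))) ∧
  (∀ E : Cfg, P κ (rl E) → Slv E ∅ ((FL E : ℚ) - κ * (GV E : ℚ)))

/-! ## E. accounting of free pieces -/

/-- StAFH.  Full horizontal piece `c`.  `F (up D c) = #{x : c < vhi x ≠ Y1} + #{y > c free}`,
`F (dn D c) = #{x : vlo x < c, min (vhi x) c ≠ c} + #{y < c free}`; no `x` has `vlo x < c < vhi x` (nc), so the sets of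
vertical pieces are disjoint (`vlo x ≥ c` resp. `vhi x < c`) subsets of `{x : vhi x ≠ Y1}`. -/
def StAFH : Prop := ∀ (D : Cfg) (c : ℤ), Ok D → c ∈ D.H → D.hlo c = D.X0 → D.hhi c = D.X1 →
  F (up D c) + F (dn D c) ≤ F D

/-- StAFV.  Full vertical piece `x0`.  Vertical pieces: `x < x0` resp. `x > x0`.  Horizontal pieces do not cross `x0`
(nc), so each `y ≠` lies on one side; `y` free in `lf D x0` has `hlo y ≠ X0`, `hhi y < x0 < X1`, so it is free in `D`. -/
def StAFV : Prop := ∀ (D : Cfg) (x0 : ℤ), Ok D → x0 ∈ D.V → D.vlo x0 = D.Y0 → D.vhi x0 = D.Y1 →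
  F (lf D x0) + F (rt D x0) ≤ F D

/-- StAFS (S1).  `c ∈ H`, `t` a top attached piece with lower end on `c`.
Vertical pieces of `D` with `vhi x ≠ Y1` split into: `vhi x < c` (all of them counted in `F (dn D c)`); `vhi x = c` and
`vlo x = c` (counted in `ee`); `vlo x < c < vhi x` (counted in `crs`; all pieces counted in `crs` have `vhi x ≠ Y1` by
`TopGe`); `vlo x > c` (at most one of `FR (lf ..)`, `FL (rt ..)` counts them: `x < t` or `x > t`; the pieces counted there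
have `max (vlo x) c ≠ c`).  Horizontal free pieces: `y < c` (counted in `F (dn D c)`), `y = c` (counted in `fr`), `y > c`: `y`
does not cross `t` (nc; `vlo t = c < y < Y1 = vhi t`), so `hhi y ≤ t` or `t ≤ hlo y`; a piece counted in `FR (lf (up D c) t)` has
`hlo y < t`, `hlo y ≠ X0`, hence `hhi y ≤ t < X1`; a piece counted in `FL (rt (up D c) t)` has `t < hhi y ≠ X1`, hence
`hlo y ≥ t > X0`. -/
def StAFS : Prop := ∀ (D : Cfg) (c t : ℤ), Ok D → c ∈ D.H → TopGe D c → t ∈ D.V → D.vhi t = D.Y1 →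
  D.vlo t = c →
  F (dn D c) + FR (lf (up D c) t) + FL (rt (up D c) t) + crs D c + fr D c + ee D c ≤ F D

/-- StAFA.  `abC` removes the vertical piece `s` and changes only `hlo`. -/
def StAFA : Prop := ∀ (E : Cfg) (s : ℤ), FL (abC E s) ≤ FL E

/-- StAFR (R2, type A).  Same bookkeeping as StAFS with `x = y.xD` instead of `t`.  The only horizontal piece above
`c` crossing `x` is `s = y.yR` (last hypothesis); its left part is removed from the left child (rmH); its right part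
is counted in `FL` iff `hhi s ≠ X1`, and then `s` is free in `D` (`hlo s = y.x1 ≠ X0`).  The vertical piece `y.xD` itself
has `vhi = y.y2 ≠ Y1` and is counted in `crs` (if `vlo < c`) or `ee` (if `vlo = c`); it is in neither child.
Vertical pieces with `vlo x > c`, `vhi x ≠ Y1`: `x < y.xD` or `x > y.xD`.  `TopGt`: pieces in `crs` are not top attached. -/
def StAFR : Prop := ∀ (D : Cfg) (c : ℤ) (y : Hole), Ok D → c ∈ D.H → TopGt D c → y ∈ D.Z → y.yL < y.yR →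
  c < y.y1 → D.vlo y.xD ≤ c → D.vhi y.xU = D.Y1 →
  (∀ y' ∈ D.H, c < y' → D.hlo y' < y.xD → y.xD < D.hhi y' → y' = y.yR) →
  F (dn D c) + FR (rmH (lf (up D c) y.xD) y.yR) + FL (rt (up D c) y.xD) + crs D c + fr D c + ee D c ≤ F D

/-- StAFI (move I, type A).  As StAFR without the lower part: all vertical pieces standing on the bottom wall are
free in `D` (no full piece) and not counted in the children. -/
def StAFI : Prop := ∀ (D : Cfg) (y : Hole), Ok D → y ∈ D.Z → y.yL < y.yR → D.vlo y.xD = D.Y0 →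
  (∀ x ∈ D.V, ¬ (D.vlo x = D.Y0 ∧ D.vhi x = D.Y1)) →
  (∀ y' ∈ D.H, D.hlo y' < y.xD → y.xD < D.hhi y' → y' = y.yR) →
  FR (rmH (lf D y.xD) y.yR) + FL (rt D y.xD) + nb D ≤ F D

/-! ## F. clean holes under cuts -/

/-- StCup.  Let `UpC D c z`.  A neighbour `w` (Nb z w) with `w.y2 > c` has `w.y1 ≥ c` (second part of UpC).
farL: `w.yR = z.yL > c`; so `w.y2 > c`; `w.y1 = c` would give `w.yR = w.y2 = z.yL`, excluded; so `w.y1 > c`, `w ∈ (up D c).Z`.
farR the same.  farU: `w.xD = z.xU`: adjV: `z.y2 < w.y1`, so `w.y1 > c`.  farD: if `vlo z.xD ≤ c` then `max = c = Y0'`; else the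
hole `w` with `w.xU = z.xD` has `w.y1 = vlo z.xD > c`.
hostHi: `x` with `vhi x = z.yL` or `z.yR`: a hole `w` with `w.xD = x`, `w.y2 = vhi x > c`; `w.y1 = c` is excluded by UpC; `w.y1 < c`: `w`
is not `z`, so (StHU) `w.y2 ∈ {w.yL, w.yR}` and `w.y2 ∈ {z.yL, z.yR}` give `Nb z w`, excluded.  hostLo: `max (vlo x) c = z.yL > c`
implies `vlo x = z.yL`; `w.xU = x`, `w.y1 = vlo x > c`.  hostRi: `hhi y' = z.xU` or `z.xD` with `y' > c`: hole `w` with `w.yL = y'`,
`w.x2 = hhi y'`, so `w` has the arm `z.xU` or `z.xD`: `w = z`, or `w.xD = z.xU` (adjV: `w.y1 > z.y2`), or `w.xU = z.xD`: `w.y2 ≥ y' > c`, so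
`w.y1 > c` by UpC.  hostLe the same. -/
def StCup : Prop := ∀ (D : Cfg) (c : ℤ) (z : Hole), Ok D → D.Y0 ≤ c → z ∈ D.Z → Clean D z → UpC D c z →
  Clean (up D c) z

/-- StCdn.  Mirror image. -/
def StCdn : Prop := ∀ (D : Cfg) (c : ℤ) (z : Hole), Ok D → c ≤ D.Y1 → z ∈ D.Z → Clean D z → DnC D c z →
  Clean (dn D c) z

/-- StCLR.  The same for vertical lines (`RtC D c z` is `UpC D.tr c z.tr`; `rt D c` is `(up D.tr c).tr`; use StFG, or
repeat the proof). -/
def StCLR : Prop := ∀ (D : Cfg) (c : ℤ) (z : Hole), Ok D → D.X0 ≤ c → c ≤ D.X1 → z ∈ D.Z → Clean D z →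
  (RtC D c z → Clean (rt D c) z) ∧ (LfC D c z → Clean (lf D c) z)

/-- StCrm.  Removing a horizontal piece `s` does not affect clean holes
(`Clean` only speaks about the arms of `z` and about pieces ending on them). -/
def StCrm : Prop := ∀ (D : Cfg) (s : ℤ) (z : Hole), Clean D z → Clean (rmH D s) z

open Classical in
/-- StN5.  Closed neighbourhoods have at most 5 members: `Nb z w` means that one of four arms of `z` is a
given arm of `w`, and each arm determines the hole (StHU). -/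
def StN5 : Prop := ∀ (D : Cfg) (w : Hole), Ok D → w ∈ D.Z →
  (D.Z.filter (fun z => z = w ∨ Nb z w)).card ≤ 5

open Classical in
/-- StLoss.  `LossC` is the union over the hit holes `w` of sets of size ≤ 5 (StN5) and over the touched holes
`w ∈ T` of sets of size ≤ 3 (each of the three equations determines `z` by StHU; a touched hole has only one of
`w.y1 = c`, `w.y2 = c`).  `Finset.card_biUnion_le`. -/
def StLoss : Prop := ∀ (D : Cfg) (T : Finset Hole) (c : ℤ), Ok D → T ⊆ D.Z →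
  (D.Z.filter (LossC D T c)).card ≤ 5 * hit D c + 3 * (T.filter (fun w => w.y1 = c ∨ w.y2 = c)).card

/-- StTch.  Holes touched by the line of the piece `c ∈ H`: `z.y1 = c` or `z.y2 = c` means `z.yL = c` or `z.yR = c`
(StHU: at most one of each).  If there are two, then one has `yL = c`, so `hhi c = z.x2 ≠ X1`, the other `yR = c`, so
`hlo c ≠ X0`: `fr = 1`.  Last part: map `z` to `z.xU` if `z.y1 = c` (`vlo = c`, `vhi ≠ Y1`), to `z.xD` if `z.y2 = c` (`vhi = c`);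
injective by StHU. -/
def StTch : Prop := ∀ (D : Cfg) (c : ℤ), Ok D → c ∈ D.H → tch D c ≤ 2 ∧ (tch D c = 2 → fr D c = 1) ∧
  ((∀ w ∈ D.Z, w.y1 = c → D.vhi w.xU ≠ D.Y1) → tch D c ≤ ee D c)

/-! ## G. geometry around a clean top attached hole -/

/-- StStrip.  `y` type A, clean, `U_y` top attached: no horizontal piece above the top arm meets the strip
`(xU, xD)`.  Suppose some `y' ∈ H` has `y.yR < y'`, `hlo y' < y.xD`, `y.xU < hhi y'`; take the lowest.  `U_y = y.xU` covers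
`(yL, Y1)` (`vlo xU = yL`), so by `nc` `hlo y' ≥ y.xU`.  If `hlo y' = y.xU`: by Clean.hostLe a hole `w` has `w.yR = y'`, so
`w.x1 = hlo y' = y.xU` and `w.xU = y.xU` (then `w = y` by StHU and `y' = y.yR`, contradiction) or `w.xD = y.xU` (then `w.y2 = vhi y.xU
= Y1`, contradiction with HB).  So `x = hlo y' ∈ V`, `y.xU < x < y.xD`, `vlo x < y'`.  `vlo x ≥ y.yR` by `nc` with the piece
`y.yR` (`hlo = y.xU < x < y.xD < hhi` by HB; `vhi x > y' > y.yR`).  If `vlo x = y.yR`: Clean.hostLo gives a hole `w` with `w.xU = x`, so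
`w.y1 = y.yR`, so `w.yL = y.yR` (adjH: `y.x2 < w.x1`, but `w.x1 ≤ w.xU = x < y.xD = y.x2`) or `w.yR = y.yR` (`w = y`, `x = y.xU`,
contradiction).  So `vlo x > y.yR`, `y'' = vlo x ∈ H`, `hlo y'' < x < hhi y''`, `y'' < y'`: a lower one. -/
def StStrip : Prop := ∀ (D : Cfg) (y : Hole), Ok D → y ∈ D.Z → y.yL < y.yR → Clean D y → D.vhi y.xU = D.Y1 →
  ∀ y' ∈ D.H, y.yR < y' → D.hlo y' < y.xD → y.xU < D.hhi y' → False

/-- StOnly.  Type A, clean, up arm top attached, `vlo y.xD ≤ c < y.y1`.  (1) The only hole above `c` touched or crossed by the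
line `x = y.xD` is `y`: if `w.y1 < y.y2`: `w.noV` with the piece `y.xD` (extent `(vlo, y.y2)`, `vlo y.xD ≤ c < w.y1 < w.y2`) excludes
`w.x1 < y.xD < w.x2`; otherwise `y.xD ∈ {w.xU, w.xD}`: `w.xD = y.xD`: `w = y` (StHU); `w.xU = y.xD`: `w.y1 = vlo y.xD ≤ c`,
contradiction.  If `w.y1 ≥ y.y2`: `w.x1 = y.xD` or `w.x2 = y.xD` is excluded in the same way (`w.xD = y.xD` is `w = y`), so
`w.x1 < y.xD < w.x2`, and the top side `w.y2 > y.yR` (a piece with `hlo ≤ w.x1`, `w.x2 ≤ hhi`, HB.face) contradicts StStrip.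
(2) The only horizontal piece above `c` crossing this line is `y.yR`: `y' > y.yR`: StStrip (`y.xU < y.xD < hhi y'`); `y' < y.yR`:
`nc` with `y.xD`. -/
def StOnly : Prop := ∀ (D : Cfg) (c : ℤ) (y : Hole), Ok D → y ∈ D.Z → y.yL < y.yR → Clean D y → D.vhi y.xU = D.Y1 →
  D.vlo y.xD ≤ c → c < y.y1 →
  (∀ w ∈ D.Z, c < w.y1 → w.x1 ≤ y.xD → y.xD ≤ w.x2 → w = y) ∧
  (∀ y' ∈ D.H, c < y' → D.hlo y' < y.xD → y.xD < D.hhi y' → y' = y.yR)

/-- StHostR.  `T = y.yR`, `q0 = hhi T < X1` is in `V`, `vlo q0 < T < vhi q0`, `q0 > y.xD` (HB).  Let `Y` be the set of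
`y'' ∈ H` with `β < y'' < T`, `hhi y'' > y.xD`.  (a) For `q ∈ V` with `q > y.xD`, `q < X1`, `vhi q > β`:
`vlo q ≥ β` (if `β = Y0` trivial, else nc with the piece `β`).  If `Y` is empty: `vlo q0 ≥ β` by (a); if `vlo q0 > β` then
`vlo q0 ∈ H` has `hhi > q0 > y.xD` and is in `Y`; so `vlo q0 = β`.  If not, take the lowest `y'' ∈ Y`: `y.xD` covers
`(vlo y.xD, y.y2) ∋ y''` (`T ≤ y.y2`), so `hlo y'' ≥ y.xD` (nc), and `hlo y'' ≠ y.xD` by hypothesis (`y'' < T`).  So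
`q1 = hlo y'' ∈ V`, `q1 > y.xD`, `vlo q1 < y''`; by (a) `vlo q1 ≥ β`; if `vlo q1 > β` it is a lower member of `Y`; so
`vlo q1 = β`. -/
def StHostR : Prop := ∀ (D : Cfg) (y : Hole) (β : ℤ), Ok D → y ∈ D.Z →
  (β = D.Y0 ∨ (β ∈ D.H ∧ D.hhi β = D.X1 ∧ D.hlo β ≤ y.xD)) → D.vlo y.xD ≤ β → β < y.y1 →
  (∀ y'' ∈ D.H, β < y'' → y'' < y.y2 → D.hlo y'' = y.xD → y'' = y.yR) →
  D.hhi y.yR ≠ D.X1 → ∃ q ∈ D.V, y.xD < q ∧ D.vlo q = β

/-- StHostL.  Mirror image (apply StHostR to `D.fx`, or repeat the proof). -/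
def StHostL : Prop := ∀ (D : Cfg) (y : Hole) (β : ℤ), Ok D → y ∈ D.Z →
  (β = D.Y0 ∨ (β ∈ D.H ∧ D.hlo β = D.X0 ∧ y.xD ≤ D.hhi β)) → D.vlo y.xD ≤ β → β < y.y1 →
  (∀ y'' ∈ D.H, β < y'' → y'' < y.y2 → D.hhi y'' = y.xD → y'' = y.yL) →
  D.hlo y.yL ≠ D.X0 → ∃ q ∈ D.V, q < y.xD ∧ D.vlo q = β

/-- StNB2.  `y` good, down arm on the bottom wall: at least two vertical pieces stand on the
bottom wall.  `y` is not `Lat`, so `hhi yR ≠ X1` or `hlo yL ≠ X0`; use StHostR resp. StHostL with `β = Y0`; the hypothesis: if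
`hlo y'' = y.xD`, Clean.hostLe gives `w` with `w.yR = y''`, `w.x1 = y.xD`; `w.xD = y.xD`: `w = y`; `w.xU = y.xD`: `w.y1 = vlo y.xD = Y0`,
contradiction with HB. -/
def StNB2 : Prop := ∀ (D : Cfg) (y : Hole), Ok D → y ∈ D.Z → Good D y → D.vlo y.xD = D.Y0 → 2 ≤ nb D

/-- StB2.  Case 2.  `b = vlo y.xD ∈ H`.  `y.xD` is counted in `ee D b` (`vhi y.xD = y.y2 ≠ Y1`).  If `b` is free:
`fr = 1`.  If `hhi b = X1`: StHostR with `β = b` (`hlo b < y.xD`) gives `q ≠ y.xD` with `vlo q = b`, and `vhi q ≠ Y1` by TopGt; so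
`ee ≥ 2`.  Hypothesis of StHostR: `hlo y'' = y.xD` gives (Clean.hostLe) `w.yR = y''`, `w.x1 = y.xD`; `w.xD = y.xD`: `w = y`;
`w.xU = y.xD`: `w` is of type A (`x1 = xU`), `w.y1 = vlo y.xD = b = w.yL`, so `hhi b = w.x2 < X1`, contradiction.  If `hlo b = X0`:
StHostL; hypothesis: `hhi y'' = y.xD`: `w.yL = y''`, `w.x2 = y.xD`; `w.xD = y.xD`: `w = y`; `w.xU = y.xD`: type B, `w.y1 = w.yR = b`,
`hlo b = w.x1 > X0`, contradiction. -/
def StB2 : Prop := ∀ (D : Cfg) (y : Hole), Ok D → y ∈ D.Z → Clean D y → D.vlo y.xD ≠ D.Y0 →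
  D.hlo y.yL ≠ D.X0 → D.hhi y.yR ≠ D.X1 → TopGt D (D.vlo y.xD) →
  1 ≤ ee D (D.vlo y.xD) ∧ 2 ≤ fr D (D.vlo y.xD) + ee D (D.vlo y.xD)

/-- StB3.  Case 3 (corner hole).  `y ∈ AA D g` attached to the left wall, not to the right wall (not Lat),
`vlo y.xD ≠ Y0`, `slk D g = 0`.  Let `b0 = vlo y.xD ∈ H`, `b0 < g`.  `ee D b0 ≥ 1` (y.xD).  If `fr + ee ≥ 2` at `b0` take
`b = b0`.  Otherwise `fr = 0`, `ee = 1`.  If `hhi b0 = X1`: StHostR with `β = b0` exactly as in StB2 (`hhi y.yR ≠ X1`) gives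
`ee ≥ 2` (the new piece is not top attached: TopGe, `b0 < g`), contradiction.  So `hlo b0 = X0`, `hhi b0 ≠ X1`
(`fr = 0`).  By cleanness of `y` (farD) there is a hole `w` with `w.xU = y.xD`, `w.y1 = b0`.  Type B would give
`b0 = w.yR`, `hlo b0 = w.x1 > X0`; so `w` is of type A, `b0 = w.yL`.  Let `t = w.yR = w.y2`.  `t < g`: `b0 = w.y1 < g`, the line `g`
does not hit `w` (`hit D g = 0`), so `t ≤ g`; `t = g` would give `ee D g ≥ 1` by `w.xD` (`vhi w.xD = w.y2 = t`).  `ee D t ≥ 1` by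
`w.xD`.  If `hhi t ≠ X1`: `fr = 1` (`hlo t = w.x1 > X0`).  Else StHostR with `β = t` (`hlo t = w.x1 = w.xU = y.xD`,
`vlo y.xD = b0 ≤ t`, `t < g ≤ y.y1`; hypothesis: `hlo y'' = y.xD`: hole `w'` with `w'.yR = y''`, `w'.x1 = y.xD`: `w'.xD = y.xD`: `w' = y`; `w'.xU = y.xD`:
`w' = w`, `y'' = t`, contradiction to `t < y''`) gives `q` with `vlo q = t`, `vhi q ≠ Y1` (TopGe, `t < g`), `q ≠ w.xD` (`vhi w.xD = t`):
`ee ≥ 2`.  So `fr + ee ≥ 2` at `t`; take `b = t`.  `vlo y.xD = b0 ≤ b`. -/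
def StB3 : Prop := ∀ (D : Cfg) (y : Hole) (g : ℤ), Ok D → y ∈ AA D g → g ≤ D.vlo y.xU → D.vlo y.xD ≠ D.Y0 →
  D.hlo y.yL = D.X0 → TopGe D g → slk D g = 0 →
  ∃ b ∈ D.H, b < g ∧ D.vlo y.xD ≤ b ∧ 1 ≤ ee D b ∧ 2 ≤ fr D b + ee D b

/-- StCor.  At most one hole with the properties listed is attached to the left wall.  Suppose `y ≠ w`, both
with left arm attached to the left wall; `y.yL ≠ w.yL` (StHU); say `y.yL < w.yL`.  `y.xU` covers `(y.y1, Y1) ∋ w.yL`
(`y.y1 ≤ y.yL < w.yL < Y1`), so `w.yL` does not cross it: `w.x2 = hhi w.yL ≤ y.xU`.  So `w.xD ≤ y.xU`; `w.xD ≠ y.xU` (`vhi w.xD = w.y2 ≠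
Y1`), so `w.xD < y.xU ≤ y.x2 = hhi y.yL`, and `X0 = hlo y.yL < w.xD`.  `vlo w.xD < g ≤ y.y1 ≤ y.yL < w.yL ≤ w.y2 = vhi w.xD`: `w.xD` crosses
`y.yL`, contradiction. -/
def StCor : Prop := ∀ (D : Cfg) (g : ℤ) (y w : Hole), Ok D → TopGe D g → y ∈ D.Z → w ∈ D.Z →
  D.vhi y.xU = D.Y1 → D.vhi w.xU = D.Y1 → D.vlo y.xD < g → D.vlo w.xD < g →
  D.hlo y.yL = D.X0 → D.hlo w.yL = D.X0 → y = w

/-- StCor2.  If every member of `AA D g` is attached to the left or to the right wall, then `AA D g` has at most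
two members (StCor and its mirror image); and `AA D c ⊆ AA D g` for `c ≤ g`. -/
def StCor2 : Prop := ∀ (D : Cfg) (g : ℤ), Ok D → TopGe D g →
  (((AA D g).filter (fun z => D.hlo z.yL = D.X0 ∨ D.hhi z.yR = D.X1)).card ≤ 2) ∧
  (∀ c ≤ g, AA D c ⊆ AA D g)

/-! ## H. accounting of good holes -/

/-- StAGH.  Full horizontal piece `c`: it is not an arm (an arm has an end at a hole, HB), so every hole is above or
below (noH), none is touched; `UpC`, `DnC` hold trivially; StCup, StCdn; `Lat` does not change. -/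
def StAGH : Prop := ∀ (D : Cfg) (c : ℤ), Ok D → c ∈ D.H → D.hlo c = D.X0 → D.hhi c = D.X1 →
  G D ≤ G (up D c) + G (dn D c)

/-- StAGV.  Full vertical piece `x0`: no hole touches it or is crossed by it.  StCLR.  A hole `z` clean in `D` and left
of `x0` has `hhi z.yR ≠ x0` (Clean.farR: `hhi z.yR = X1`, impossible because `z.yR` does not cross `x0`, or `z.yR = w.yL` and
`hhi = w.x2 ∈ {w.xU, w.xD}`, which has an end at `w`, so `w.x2 ≠ x0`), and `hhi z.yR < x0` (nc), so `z` is not `Lat` in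
`lf D x0`; similarly right of `x0`. -/
def StAGV : Prop := ∀ (D : Cfg) (x0 : ℤ), Ok D → x0 ∈ D.V → D.vlo x0 = D.Y0 → D.vhi x0 = D.Y1 →
  G D ≤ G (lf D x0) + G (rt D x0)

/-- StAGS (S1).  Every good hole `z` of `D` satisfies one of: (i) `LossC D D.Z c z` (StLoss); (ii) `z ∈ AA D c`; (iii) `z`
is good in its child.  Indeed if not (i) then `z` is not touched or hit (`z ∈` its own loss set: `z.y2 ∈ {z.yL, z.yR}`), so
`z.y2 < c` or `c < z.y1`.  If `z.y2 < c`: `DnC D c z`, `z` is clean in `dn D c` (StCdn) and not `Lat`.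
If `c < z.y1`: `UpC D c z`, `z` is clean in `up D c` (StCup); `t` is a full vertical piece of `up D c`, touched by no hole of
`up D c` (a side of a hole has an end at the hole, HB) and crossing none (noV); so `z.x2 < t` or `t < z.x1`, and `z` is clean
in `lf (up D c) t` resp. `rt (up D c) t` (StCLR for `up D c`).  It is `LatV` there iff `vhi z.xU = Y1` and
`max (vlo z.xD) c = c`; if `vlo z.xD < c` then `z ∈ AA D c`; if `vlo z.xD = c` then by Clean.farD a hole `w` has `w.xU = z.xD`,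
`w.y1 = c`: (i).  (The case `vlo z.xD = Y0` is `< c`.) -/
def StAGS : Prop := ∀ (D : Cfg) (c t : ℤ), Ok D → c ∈ D.H → t ∈ D.V → D.vhi t = D.Y1 → D.vlo t = c →
  G D ≤ G (dn D c) + GV (lf (up D c) t) + GV (rt (up D c) t) + 5 * hit D c + 3 * tch D c + (AA D c).card

/-- StAGR (R2, type A).  As StAGS.  Every good hole `z` satisfies: (i) `LossC D D.Z c z`; (i') `z = y` or `z.yR = y.yL`: at
most 2; (ii) `z ∈ AA D c`; (iii) good in its child.  For (iii), `c < z.y1`: `z` is clean in `up D c`; by StOnly (1) the only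
hole of `up D c` touched or crossed by the line `x = y.xD` is `y`, and `y.x2 = y.xD`; so `z` is right of it and `RtC` holds,
or left of it and `LfC (up D c) y.xD z` holds: `z.yR ≠ y.yL` by (i'); `z.xD ≠ y.x1 = y.xU` because `vhi z.xD = z.y2 ≠ Y1 = vhi y.xU`;
`z.xU ≠ y.xU` by StHU.  rmH does not change cleanness (StCrm) nor the set of holes, nor vlo, vhi. -/
def StAGR : Prop := ∀ (D : Cfg) (c : ℤ) (y : Hole), Ok D → c ∈ D.H → y ∈ D.Z → y.yL < y.yR → Clean D y →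
  c < y.y1 → D.vlo y.xD ≤ c → D.vhi y.xU = D.Y1 →
  G D ≤ G (dn D c) + GV (rmH (lf (up D c) y.xD) y.yR) + GV (rt (up D c) y.xD) + 5 * hit D c + 3 * tch D c + 2 +
    (AA D c).card

/-- StAGI (move I, type A).  Every good hole `z` has `z.yR = y.yL` (at most 1), or `vlo z.xD = Y0` (at
most `nb D`, `z ↦ z.xD` is injective; `y` is one of them), or is good in its child (StCLR, see StAGR; not `LatV` because
`vlo z.xD ≠ Y0`). -/
def StAGI : Prop := ∀ (D : Cfg) (y : Hole), Ok D → y ∈ D.Z → y.yL < y.yR → Clean D y → D.vlo y.xD = D.Y0 →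
  D.vhi y.xU = D.Y1 →
  G D ≤ GV (rmH (lf D y.xD) y.yR) + GV (rt D y.xD) + 1 + nb D

/-- StCcl.  Cleanness in the right child of the corner move.  `g = y.yL = y.y1`, `t = y.xU = y.x1`, `s = y.xD = y.x2`, type A.
(0) A hole `w` with `g < w.y1` is strictly left or strictly right of `t` (`t` has extent `[g, Y1]`; noV; an arm `w.xU = t` is
`w = y`, `w.xD = t` gives `w.y2 = Y1`, HB).  (1) If `w ≠ y` has `w.y2 > g` and `Nb z w` then `w.y1 ≥ g` (hypothesis).
farL: `hlo z.yL = X0` is impossible (`z.yL` would cross `t`).  So `w.yR = z.yL`.  `w = y`: `hlo z.yL = y.x1 = t`, new value `t`: wall.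
`w ≠ y`: `w.yR > g`, so `w.y1 ≥ g`, and `w.y1 = g` would give `w.y2 = z.yL`, excluded; `w.x1 ≥ t` because the piece `z.yL` does
not cross `t`; so `w` is in the child by (0).  farR: `w.yL = z.yR`, `w ≠ y` (`z.yR > g`); same; `z.x2 < w.x1` (adjH).
farU: `w.xD = z.xU`: `z.y2 < w.y1` (adjV), `w.x2 ≥ w.xD > t`.  farD: `vlo z.xD ≤ g`: wall; else `w.xU = z.xD`, `w.y1 = vlo z.xD > g`.
hostHi: `x ≠ s`, `w.xD = x`, so `w ≠ y`; `w.y2 = vhi x ∈ {z.yL, z.yR}`; `w.y1 > g` as in StCup; `x > t`.  hostLo: `vlo x > g`, `w.xU = x`,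
`w.y1 = vlo x`.  hostRi: `w.yL = y' > g`, so `w ≠ y`; as in StCup.  hostLe: the new value `hlo' y' ∈ {z.xU, z.xD}` is `> t`, so it is
`hlo y' ≠ s`; `w.yR = y'`, `w.x1 = hlo y' ≠ t`, so `w ≠ y`; as in StCup. -/
def StCcl : Prop := ∀ (D : Cfg) (y z : Hole), Ok D → y ∈ D.Z → y.yL < y.yR → D.vhi y.xU = D.Y1 → z ∈ D.Z →
  Clean D z → y.yL < z.y1 → y.xU < z.x1 → (∀ w ∈ D.Z, w.y1 < y.yL → y.yL < w.y2 → ¬ Nb z w) →
  (∀ w ∈ D.Z, w ≠ y → w.y1 = y.yL → z.xD ≠ w.xU ∧ z.yL ≠ w.y2 ∧ z.yR ≠ w.y2) →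
  Clean (abC (rt (up D y.yL) y.xU) y.xD) z

/-- StAGC (corner S1).  `g = y.yL = y.y1`, `t = y.xU`, `s = y.xD`.  Every good hole `z` satisfies one of: (i)
`LossC D (D.Z.erase y) g z` (StLoss with `T = D.Z.erase y`, and `y` is touched, so `#(T touched) + 1 = tch`); (ii) `z ∈ AA D g`; (iii)
good in its child.  If `z = y`: `vlo y.xD < y.y1 = g` (HB.loD), so `z ∈ AA D g`.  Let `z ≠ y`, not (i).  `z` is not touched or hit.
`z.y2 < g`: `DnC D g z` (for `w = y`: `y.y2 ≠ g`), StCdn, not Lat.  `g < z.y1`: left or right of `t` (as in StAGS).  Left of `t`: `UpC D g z`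
(for `w = y`: `z.xD = y.xU` is impossible, `vhi z.xD = z.y2 ≠ Y1`; `z.yL = y.y2 = y.yR`: `hlo z.yL = y.x1 = t`, but `hlo z.yL < z.x1 < t`;
`z.yR = y.yR`: `z = y`), then StCup, StCLR.  Right of `t`: StCcl.  Status: `LatV` in the child means `vhi z.xU = Y1` and
`vlo z.xD ≤ g`: `< g` gives `z ∈ AA D g`; `= g` gives a hole `w` with `w.xU = z.xD`, `w.y1 = g`; `w ≠ y` as before; so (i). -/
def StAGC : Prop := ∀ (D : Cfg) (y : Hole), Ok D → y ∈ D.Z → y.yL < y.yR → D.vhi y.xU = D.Y1 →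
  G D + 3 ≤ G (dn D y.yL) + GV (lf (up D y.yL) y.xU) + GV (abC (rt (up D y.yL) y.xU) y.xD) +
    5 * hit D y.yL + 3 * tch D y.yL + (AA D y.yL).card

/-! ## I. moves -/

/-- StInv.  The counts are invariant under the reflection `fx` (`x ↦ -x` on `V`, `Hole.fx` on `Z`). -/
def StInv : Prop := ∀ (D : Cfg) (c : ℤ), ee D.fx c = ee D c ∧ hit D.fx c = hit D c ∧ tch D.fx c = tch D c ∧
  fr D.fx c = fr D c ∧ slk D.fx c = slk D c ∧ crs D.fx c = crs D c ∧ (AA D.fx c).card = (AA D c).card ∧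
  (TopGe D.fx c ↔ TopGe D c) ∧ (TopGt D.fx c ↔ TopGt D c) ∧ nb D.fx = nb D ∧
  (∀ z : Hole, z.fx ∈ AA D.fx c ↔ z ∈ AA D c)

/-- StMir.  The conditions for the moves are invariant under `fx` (StInv, StFG). -/
def StMir : Prop :=
  (∀ (D : Cfg) (c : ℤ) (y : Hole), R2c D c y → R2c D.fx c y.fx) ∧
  (∀ (D : Cfg) (y : Hole), Ic D y → Ic D.fx y.fx) ∧
  (∀ (D : Cfg) (y : Hole), CcB D y → Cc D.fx y.fx)

/-- StMH.  Full horizontal piece `c`: StSH with `S = ∅`, `P (up D c)` and `P (dn D c)` (induction hypothesis, StSz, StOkUp,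
StOkDn), StSMono, `crs D c = 0` (nc), StAFH, StAGH.  (`upS c (∅ ∪ hb D)`: StSMono makes `Slv _ ∅ _` into `Slv _ S _`.) -/
def StMH : Prop := ∀ (κ : ℚ) (D : Cfg) (c : ℤ), 0 ≤ κ → Ok D → IH κ D → c ∈ D.H → D.hlo c = D.X0 →
  D.hhi c = D.X1 → P κ D

/-- StMV.  Full vertical piece: StSV, `crsV D x0 = 0`, StAFV, StAGV. -/
def StMV : Prop := ∀ (κ : ℚ) (D : Cfg) (x0 : ℤ), 0 ≤ κ → Ok D → IH κ D → x0 ∈ D.V → D.vlo x0 = D.Y0 →
  D.vhi x0 = D.Y1 → P κ D

/-- StMS.  Plain S1.  StSH at `g` (with `S = ∅`); lower part: `P (dn D g)`; upper part `E = up D g`: StSV at `t` with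
`S' = upS g (∅ ∪ hb D)` (its members are faces of `E` by StHB, StFClip), `crsV E t = 0` because `t` is full in `E`; the
parts: `P (rr (lf E t))`, `P (rl (rt E t))` (they are smaller: StSz) and StPs.  By StAFS, StAGS it remains:
`κ (5 hit + 3 tch + |AA|) ≤ slk`, i.e. `5 hit + 3 tch + |AA| ≤ 7 slk`.  By S1c.hn and StTch `tch ≤ ee`, `tch ≤ 2`.  If `AA = ∅`:
`5 hit + 3 tch ≤ 7 (hit + ee)`.  Else `|AA| ≤ 2`, `slk ≥ 1`: if `hit + tch ≥ 1`: `5 hit + 3 tch + 2 ≤ 7 (hit + tch)`; else `2 ≤ 7`. -/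
def StMS : Prop := ∀ (κ : ℚ) (D : Cfg) (g t : ℤ), 0 ≤ κ → κ ≤ 1 / 7 → Ok D → IH κ D → S1c D g t → P κ D

/-- StMC.  Corner S1, `g = y.yL`, `t = y.xU`, `s = y.xD`.  As StMS, but the right part `E2 = rt (up D g) t` is treated
by StAb with the forbidden face `E = y.box`: `y.box ∈ hb D`, so `y.box ∈ upS g (∅ ∪ hb D)` (`max y.y1 g = y.y1 = g`) and
`y.box ∈ rtS t (..)` (`max y.x1 t = t = y.x1`).  AbC: `E2.vlo s = max (vlo y.xD) g = g` (HB.loD); no hole of `E2` has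
the arm `s` (`z.xU = s`: `vlo s = z.y1 > g > vlo y.xD`; `z.xD = s`: `z = y`, but `y.y1 = g`); `IsFace` by StHB, StFClip;
`E.y2 = y.y2 = vhi s`.  Accounting: StAFS (`vlo t = y.y1 = g`), StAFA, StAGC:
it remains `5 hit + 3 (tch - 1) + |AA| ≤ 7 slk`; StTch: `tch ≤ 2` and `tch = 2` implies `fr = 1`.  If `tch = 2`:
`5 hit + 3 + 2 ≤ 7 (1 + hit)`.  If `tch = 1`: `AA = ∅`: `5 hit ≤ 7 hit`; else `5 hit + 2 ≤ 7 slk` as `slk ≥ 1`, `slk ≥ hit`. -/
def StMC : Prop := ∀ (κ : ℚ) (D : Cfg) (y : Hole), 0 ≤ κ → κ ≤ 1 / 7 → Ok D → IH κ D → Cc D y → P κ D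

/-- StMR.  R2 for type A.  `E = up D c`, `x = y.xD ∈ E.V`.  `crsV E x ≤ 1` by StOnly (2).  StSH at `c`, StSV for `E` at
`x`; right part: `P (rl (rt E x))`; left part `E1 = lf E x`: StRm with `s = y.yR` and the forbidden face `y.box ∈ lfS x (.. ∪ hb E)`
(`y ∈ E.Z`, `min y.x2 x = x`).  RmC: `E1.hhi s = min (hhi s) x = x` (HB.hiR), `hlo s = y.x1 ≠ X0`; nothing ends on `s`
in `E1`: if `vhi x' = s`, `x' < x`, Clean.hostHi gives `w.xD = x'`, `w.y2 = s`: `w.yR = s`: `w = y`, `x' = x`, no; `w.yL = s`: adjH: `y.x2 < w.x1 ≤ x' < x`, no;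
if `max (vlo x') c = s` then `vlo x' = s`: hostLo gives `w.xU = x'`, `w.y1 = s`: `w.yR = s`: `w = y`, but `y.y1 ≠ s`; `w.yL = s`: adjH, no.
Arms: `z.yR = s`: `z = y`, but `y.x2 = x`; `z.yL = s`: adjH: `y.x2 < z.x1`, but `z.x2 < x`.
Then `P (rr (rmH E1 s))` (StRmOk, StOkLR, StSz), StPs.  Accounting: StAFR, StAGR; it remains
`5 hit + 3 tch + 2 + |AA| ≤ 7 (slk - 1)`, i.e. `≤ 7 (fr + ee - 1 + hit)`.  By TopGt and StTch: `tch ≤ ee`, `tch ≤ 2`, `tch = 2 → fr = 1`;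
`fr + ee ≥ 2`, `|AA| ≤ 2`: `tch = 0`: `4 ≤ 7`; `tch = 1`: `7 ≤ 7`; `tch = 2`: `10 ≤ 14`. -/
def StMR : Prop := ∀ (κ : ℚ) (D : Cfg) (c : ℤ) (y : Hole), 0 ≤ κ → κ ≤ 1 / 7 → Ok D → IH κ D → R2c D c y →
  y.yL < y.yR → P κ D

/-- StMI.  Move I for type A.  As StMR, without the horizontal cut: StSV for `D` at `x = y.xD` with `S = ∅`, StRm for
`lf D x` (forbidden face `y.box ∈ lfS x (∅ ∪ hb D)`), StOnly with `c = Y0`; StAFI, StAGI; `1 + nb ≤ 7 (nb - 1)`. -/
def StMI : Prop := ∀ (κ : ℚ) (D : Cfg) (y : Hole), 0 ≤ κ → κ ≤ 1 / 7 → Ok D → IH κ D → Ic D y → y.yL < y.yR →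
  P κ D

/-- StBase.  No pieces: the only face is the box, so at most one member of `A` meets it: leaf; `F = 0`, `Z = ∅`. -/
def StBase : Prop := ∀ (κ : ℚ) (D : Cfg), Ok D → D.V = ∅ → D.H = ∅ → P κ D

/-- StExT.  If there are pieces but no full horizontal piece, some vertical piece is top attached.  The face `f`
containing the unit square `(X0, Y1-1)` (StFE) has `f.x1 = X0`, `f.y2 = Y1`.  If `f.x2 ≠ X1` then `f.x2 ∈ V`, `vhi f.x2 ≥ Y1`.  If
`f.x2 = X1` and `f.y1 = Y0` then `f = D.box` and noV/noH exclude all pieces; otherwise `f.y1 ∈ H` is full. -/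
def StExT : Prop := ∀ D : Cfg, Ok D → (D.V.Nonempty ∨ D.H.Nonempty) →
  (∀ c ∈ D.H, ¬ (D.hlo c = D.X0 ∧ D.hhi c = D.X1)) → ∃ x ∈ D.V, D.vhi x = D.Y1

/-- StS1.  `g` is the height of the lowest lower end of a top attached piece, and S1 is allowed (`Sc D g`).
If some hole `y` has `y.y1 = g` and `vhi y.xU = Y1`: type A: `g = y.yL`: `Cc D y`, StMC.  Type B: `g = y.yR`: `CcB D y`, StMir,
StMC for `D.fx` (StOkFx; the induction hypothesis for `D.fx` is the one for `D` because `D.fx.sz = D.sz`), StPs.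
Otherwise StMS. -/
def StS1 : Prop := ∀ (κ : ℚ) (D : Cfg) (g t : ℤ), 0 ≤ κ → κ ≤ 1 / 7 → Ok D → IH κ D → g ∈ D.H → t ∈ D.V →
  D.vhi t = D.Y1 → D.vlo t = g → TopGe D g → Sc D g → P κ D

/-- StStep.  The induction step.  If `V = H = ∅`: StBase.  If there is a full piece: StMH, StMV.  Otherwise let `t` be
a top attached vertical piece with the lowest lower end `g` (StExT); `g ≠ Y0`, so `g ∈ H`; `TopGe D g`.
Let `A = AA D g`; for `y ∈ A`: `g ≤ vlo y.xU = y.y1`.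
Case 0: `A = ∅`: StS1.
Case 1: some `y ∈ A` has `vlo y.xD = Y0`: `Ic D y` (StNB2), StMI (type B: StMir, StMI for `D.fx`, StPs).
Case 2: some `y ∈ A` has `hlo y.yL ≠ X0`, `hhi y.yR ≠ X1`: take the one with lowest `b = vlo y.xD`; `R2c D b y`: `b ∈ H`, `b < g`,
`TopGt D b`, StB2; `AA D b ⊆ A` and its members `z` have `vlo z.xD < b`, so by the choice of
`y` they are attached to the left or right wall: StCor2.  StMR (type B: via `D.fx`).
Case 3: all members of `A ≠ ∅` are attached to the left or to the right wall: `A.card ≤ 2` (StCor2).  `slk D g ≥ 1`: StS1.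
`slk D g = 0`: take `y ∈ A`.  If `hlo y.yL = X0`: StB3 gives `b`, `R2c D b y` (`AA D b ⊆ A`), StMR.  Otherwise `hhi y.yR = X1`: the
same for `D.fx`, `y.fx` (StInv). -/
def StStep : Prop := ∀ (κ : ℚ) (D : Cfg), 0 ≤ κ → κ ≤ 1 / 7 → Ok D → IH κ D → P κ D

/-- StMain.  Strong induction on `D.sz`. -/
def StMain : Prop := ∀ D : Cfg, Ok D → P (1 / 7) D

end Pool.RB
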