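import Pool.Agent.RB.St

/-!
# Statements of project RB, part 2: the root dissection
-/

namespace Pool.RB

/-- StInit.  Vertical decomposition.  `V = {R.x1, R.x2 : R ∈ A}`, `H = {R.y1, R.y2 : R ∈ A}`, box `B`, `Z = ∅`.
`hlo R.y1 = hlo R.y2 = R.x1`, `hhi R.y1 = hhi R.y2 = R.x2`.  For `x = R.x1` or `R.x2`: `vlo x` = the largest element of
`{B.y1} ∪ {y ∈ H : hlo y < x < hhi y, y < R.y1}`, `vhi x` = the smallest element of `{B.y2} ∪ {y ∈ H : hlo y < x < hhi y, R.y2 < y}`
(the owner `R` of a coordinate is unique by `Gen.dist`).  vlo_end, vhi_end by construction.  hhi_end: `hhi R.y1 = R.x2 ∈ V`,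
`vlo R.x2 < R.y1 < R.y2 < vhi R.x2`, etc.  nc: `x` owned by `R`, `y` owned by `R'`, `hlo y < x < hhi y`, `vlo x < y < vhi x`: by the
choice of vlo, vhi `R.y1 ≤ y ≤ R.y2`, `R' ≠ R`, so `R.y1 < y < R.y2`, and `R'.x1 < x < R'.x2`: the boxes `R`, `R'` meet.
Each `R ∈ A` is a face (its interior contains no piece: a piece meeting it would have, at the point where it
enters, an owner whose box meets `R`, or a vertical piece extended beyond a horizontal side of `R`; more precisely a
vertical piece `x` of owner `R'` with `R.x1 < x < R.x2` and extent meeting `(R.y1,R.y2)`: `R'` lies above or below `R` (they do not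
meet), say above (`R'.y1 ≥ R.y2`, even `>`); then `R.y2 ∈ H` covers `x` and `R.y2 < R'.y1`, so `vlo x ≥ R.y2`).  `φ = id`. -/
def StInit : Prop := ∀ (A : Finset Box) (B : Box), Gen A B →
  ∃ D : Cfg, Ok D ∧ D.box = B ∧ D.Z = ∅ ∧ Fit D ∅ A

/-- StSym1.  Faces, windmills and `Ok` are invariant under the symmetries. -/
def StSym1 : Prop :=
  (∀ (D : Cfg) (f : Box), IsFace D f → IsFace D.tr f.tr ∧ IsFace D.fx f.fx ∧ IsFace D.fy f.fy) ∧
  (∀ (D : Cfg) (z : Hole), HoleOk D z → HoleOk D.tr z.tr ∧ HoleOk D.fx z.fx ∧ HoleOk D.fy z.fy) ∧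
  (∀ D : Cfg, Ok D → Ok D.fy)

/-- StSymRed.  `Fit` and `Red` are invariant under the symmetries (`D.tr.tr = D` up to the set `Z`, etc.). -/
def StSymRed : Prop :=
  (∀ (D : Cfg) (S : Set Box) (A : Finset Box), Fit D S A →
    Fit D.tr (Box.tr '' S) (A.image Box.tr) ∧ Fit D.fx (Box.fx '' S) (A.image Box.fx) ∧
    Fit D.fy (Box.fy '' S) (A.image Box.fy)) ∧
  (∀ (D : Cfg) (A : Finset Box), (Red D.tr (A.image Box.tr) → Red D A) ∧ (Red D.fx (A.image Box.fx) → Red D A) ∧
    (Red D.fy (A.image Box.fy) → Red D A))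

/-- StAbs.  Absorption.  `E` is a face not used by `A`, its top side is exactly the horizontal piece `s = E.y2`.  New
dissection: remove `s`; vertical pieces with `vlo x = s` get `vlo x := E.y1`.  `Ok`: no vertical piece ends on `s` from below
(E.noV).  The changed pieces have `E.x1 < x < E.x2` (vlo_end), so their new end is on the bottom piece of `E`
(`hlo E.y1 ≤ E.x1 < x < E.x2 ≤ hhi E.y1`) or on the wall.  `nc`: between `E.y1` and `s` a changed piece is in the interior of `E`.
`Fit`: a face `f` with bottom `s` lies in `[E.x1,E.x2]` and gets `y1 := E.y1`: its sides: `f.x1 = E.x1` (the left side of `E`, left side of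
`f`) or `E.x1 < f.x1 < E.x2` and then `vlo f.x1 = s` by `nc` (changed); noV, noH: a piece meeting the new part meets `E`.
A face `f ≠ E` with `f.y1 ≠ s` has `f.y2 ≠ s` (else it meets `E`) and is not entered by the changed pieces (they are in `E`). -/
def StAbs : Prop := ∀ (D : Cfg) (A : Finset Box) (E : Box), Ok D → D.Z = ∅ → IsFace D E → Fit D {E} A →
  E.y2 ∈ D.H → D.hlo E.y2 = E.x1 → D.hhi E.y2 = E.x2 → Red D A

/-- StAbs4.  The same for the four sides (StAbs for `D`, `D.fy`, `D.tr`, `D.tr.fy`; StSymRed). -/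
def StAbs4 : Prop := ∀ (D : Cfg) (A : Finset Box) (E : Box), Ok D → D.Z = ∅ → IsFace D E → Fit D {E} A →
  ((E.y2 ∈ D.H ∧ D.hlo E.y2 = E.x1 ∧ D.hhi E.y2 = E.x2) ∨ (E.y1 ∈ D.H ∧ D.hlo E.y1 = E.x1 ∧ D.hhi E.y1 = E.x2) ∨
   (E.x2 ∈ D.V ∧ D.vlo E.x2 = E.y1 ∧ D.vhi E.x2 = E.y2) ∨ (E.x1 ∈ D.V ∧ D.vlo E.x1 = E.y1 ∧ D.vhi E.x1 = E.y2)) →
  Red D A

/-- StWind.  If `Red D A` fails, every unused face `E` (not the whole box) is a windmill.  At each corner of `E` at most
one of the two sides extends beyond the corner (`nc`, and the ends of pieces are in the open interior of their hosts), and if the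
two sides are pieces exactly one does (a piece ending there needs a host); a side cannot extend beyond a wall.
Every side which is a piece extends at one end at least (StAbs4).  If `k` sides are walls, `1 ≤ k ≤ 3`: the
remaining `4 - k` sides need `4 - k` corners at which they extend, but the corners next to a wall side do not count:
contradiction.  `k = 4` is `E = D.box`.  So `k = 0`, and every side extends at exactly one end; if the bottom side extends
to the left: `hhi E.y1 = E.x2`, `vhi E.x2 = E.y2`, `hlo E.y2 = E.x1`, `vlo E.x1 = E.y1`: type A, `z = ⟨y1,y2,x1,x2⟩`; if it extends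
to the right: type B, `z = ⟨y2,y1,x2,x1⟩`. -/
def StWind : Prop := ∀ (D : Cfg) (A : Finset Box) (E : Box), Ok D → D.Z = ∅ → IsFace D E → E ≠ D.box → Fit D {E} A →
  ¬ Red D A → ∃ z : Hole, z.box = E ∧ HoleOk D z

/-- StHB2.  The inequalities of StHB only need `HoleOk` (same proof as StHB). -/
def StHB2 : Prop := ∀ (D : Cfg) (z : Hole), Ok D → HoleOk D z → HB D z

/-- StRedAA.  Two windmills `z` (lower), `w` (upper) of type A sharing the vertical piece `p = z.xU = w.xD`, not
separated: `w.y1 ≤ z.y2`.  (`w.y1 = z.y2` is impossible: `m = z.yR = w.yL` would have `hlo m = z.x1 = p = w.x2 = hhi m`.)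
`z` lies right of `p`, `w` left of `p`, `p` spans `[z.y1, w.y2]`.  Remove `p`; `hhi y := z.x2` if `hhi y = p`; `hlo y := w.x1` if `hlo y = p`.
A piece with `hhi y = p` has `z.y1 < y < w.y2` (strictly inside the extent of `p`) and `y ≤ w.y1` (w.noH), so
`z.y1 < y < z.y2`: it now crosses the hole `z` and ends on `z.xD` (`vlo z.xD < z.y1`, `vhi z.xD = z.y2`).  A piece with `hlo y = p` has
`y ≥ z.y2 > w.y1` (z.noH), so it crosses `w` and ends on `w.xU`.  `nc`: z.noV, w.noV.  `Fit` (`z.box`, `w.box` are not used):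
faces with `f.x2 = p` (they are not `w.box`, so `f.y2 ≤ w.y1`) get `x2 := z.x2`, faces with `f.x1 = p` (`f.y1 ≥ z.y2`) get `x1 := w.x1`.
HB for `z`, `w`: StHB2. -/
def StRedAA : Prop := ∀ (D : Cfg) (A : Finset Box) (z w : Hole), Ok D → D.Z = ∅ → HoleOk D z → HoleOk D w →
  Fit D {z.box, w.box} A → z.yL < z.yR → w.yL < w.yR → z.xU = w.xD → w.y1 ≤ z.y2 → Red D A

/-- StRedAB.  `z` (lower) of type A, `w` (upper) of type B, `p = z.xU = w.xD`: both lie right of `p`.  `w.y1 < z.y2` is
impossible (the faces would overlap, so be equal, but `vhi p > z.y2` for type A and `vhi p = w.y2`).  So `w.y1 = z.y2 = m =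
z.yR = w.yR`, `hlo m = p`.  Assume `z.x2 < w.x2`, put `u = z.x2 = z.xD` (`vhi u = m`).  New dissection: remove `p`, `vhi u := w.y2` (it ends
on `w.yL`, `hlo w.yL < p < u < w.x2 = hhi w.yL`), `hlo m := u`, `hhi y := u` if `hhi y = p`.  A piece with `hhi y = p` has
`z.y1 < y < w.y2`, and `vlo u < z.y1`.  `m` is the only piece with `hlo y = p` (z.noH, w.noH).  No vertical piece ends on `m` at
`x < u` (z.noV, w.noV), so the hosts are fine.  `nc`: z.noV, w.noV, z.noH, w.noH.  `Fit`: faces with `f.x2 = p` get `x2 := u`. -/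
def StRedAB : Prop := ∀ (D : Cfg) (A : Finset Box) (z w : Hole), Ok D → D.Z = ∅ → HoleOk D z → HoleOk D w →
  Fit D {z.box, w.box} A → z.yL < z.yR → w.yR < w.yL → z.xU = w.xD → w.y1 ≤ z.y2 → z.x2 < w.x2 → Red D A

/-- StAdj.  If `Red D A` fails, two unused windmills sharing a piece are separated.  Vertical piece
`z.xU = w.xD`, suppose `w.y1 ≤ z.y2`: AA: StRedAA; BB: StRedAA for `D.fx`; `z` A, `w` B: `z.x2 ≠ w.x2` (`vhi z.xD = m = vlo w.xU`); StRedAB, or
StRedAB for `D.fy` and `(w.fy, z.fy)` if `w.x2 < z.x2`; `z` B, `w` A: the same for `D.fx`.  Horizontal piece `z.yR = w.yL`: the vertical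
case for `D.tr` (`z.tr.xU = z.yR`, `w.tr.xD = w.yL`, `z.tr.y2 = z.x2`, `w.tr.y1 = w.x1`). -/
def StAdj : Prop := ∀ (D : Cfg) (A : Finset Box) (z w : Hole), Ok D → D.Z = ∅ → HoleOk D z → HoleOk D w →
  Fit D {z.box, w.box} A → ¬ Red D A →
  (z.xU = w.xD → z.y2 < w.y1) ∧ (z.yR = w.yL → z.x2 < w.x1)

/-- StCount.  There are at least `sz + 1` faces.  For `x ∈ V` the face containing the unit square `(x, vlo x)` (StFE)
has lower left corner `(x, vlo x)`: `x` covers this row, so `f.x1 = x` (f.noV), and the host `vlo x` (or the wall)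
gives `f.y1 = vlo x` (f.noH).  For `y ∈ H` the face containing the unit square `(hlo y, y)` has lower left corner
`(hlo y, y)`.  The face at the lower left corner of the box has lower left corner `(X0,Y0)`.  These corners are
pairwise different: `(x, vlo x) = (hlo y, y)` would mean that `x` ends on `y` and `y` ends on `x`, but ends are in the open
interior of the host. -/
def StCount : Prop := ∀ (D : Cfg) (FF : Finset Box), Ok D → (∀ f, IsFace D f → f ∈ FF) → D.sz + 1 ≤ FF.card

/-- StRoot.  By StInit there is a dissection without holes fitting `A`; take one, `D`, with the smallest number of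
pieces (`Nat.find`), so `Red D A` fails; let `φ` be its map.  Let `Z` be the set of all `z` with arms in `V`, `H`, `HoleOk D z` and
`z.box ∉ φ(A)` (a finite set).  `D' = {D with Z := Z}`.  `Ok D'`: adjH, adjV by StAdj (`Fit D {z.box, w.box} A` via the same `φ`).
`Fit D' ∅ A` via `φ`.  Every face is `φ R` for some `R` or `z.box` for some `z ∈ Z` (StWind; the whole box is not an unused
face: if it is a face then all faces are equal to it by StFU, and `A ≠ ∅`), so StCount gives the bound.
(All members of `A` meet the box.) -/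
def StRoot : Prop := ∀ (A : Finset Box) (B : Box), Gen A B → A.Nonempty →
  ∃ D : Cfg, Ok D ∧ D.box = B ∧ Fit D ∅ A ∧ D.sz + 1 ≤ A.card + D.Z.card

/-- StGlow.  There are `2 sz` ends `(x, low), (x, high), (y, left), (y, right)`; every hole owns four of them
(`(xU, low), (xD, high), (yR, left), (yL, right)`), different holes own different ends (StHU).  So `N = 2 sz - 4 |Z|` ends
are not owned.  A hole `z` which is not good has a witness, a not owned end `e`: if `Lat`: `(z.yL, left)`, at the wall (an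
owned left end has `hlo = w.x1 ≠ X0`); if `farL` fails: `(z.yL, left)`; `farR`: `(z.yR, right)`; `farU`: `(z.xU, high)`; `farD`: `(z.xD, low)`;
if a host condition fails: the end of the piece ending on an arm of `z`.  Every end is a witness for at most three
holes: as far end for one (StHU), as hosted end for at most two (the holes having the host as `xU` resp. `xD`, or `yL`
resp. `yR`).  So `|Z| - G ≤ 3 (2 sz - 4 |Z|)`. -/
def StGlow : Prop := ∀ D : Cfg, Ok D → 13 * D.Z.card ≤ G D + 6 * D.sz ∧ 2 * D.Z.card ≤ D.sz ∧ F D ≤ D.sz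

/-- StInt.  The integral form of the theorem.  StRoot gives `D` with `D.box = B`, `Fit D ∅ A`, `sz + 1 ≤ n + h` (`h = |Z|`); all
members of `A` meet `B` (Gen), so `cnt A B = n`; StMain: `s ≤ n + F - G/7`; StGlow: `F ≤ sz`, `13 h ≤ G + 6 sz`.  So
`7 s ≤ 7 n + 7 sz + 6 sz - 13 h ≤ 7 n + 13 (n - 1)`. -/
def StInt : Prop := ∀ (A : Finset Box) (B : Box), Gen A B → A.Nonempty →
  ∃ s : ℕ, Bsp A B s ∧ 7 * s + 13 ≤ 20 * A.card

end Pool.RB
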