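import Pool.Agent.RB.St2
import Pool.Agent.Helper30.BSP.Defs
import Pool.Agent.RB.Strict
import Pool.Agent.Helper4.BSPT.Defs

/-!
# Statements of project RB, part 3: from real rectangles to the integral form
The root dissection is `Pool.Agent.Helper23.BG.exists_root` (helper23), the passage from real rectangles to
integer seeds is `Pool.Agent.Helper4.BSPT.transfer` (helper4).
-/

namespace Pool.RB

open Pool.Agent.Helper30.BSP (Rect Tree IsBSP size)
open Pool.Agent.Helper4.BSPT (IBox Seeds ICost IMeets)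

/-- an integer box of helper4 as a box -/
def tb (K : IBox) : Box := ⟨K.a, K.b, K.l, K.r⟩

/-- the family of the seeds -/
def bx {n : ℕ} (s : Fin n → IBox) : Finset Box := Finset.univ.image (fun i => tb (s i))

/-- StRootS.  The root dissection in the form needed here; from `Pool.Agent.Helper23.BG.exists_root` and `Root.card`
(Pool/Agent/Helper23/BG/Root.lean).  `D' = {X0 := 0, X1 := 2n+1, ..., V, H, vlo, vhi, hlo, hhi as in the Dis, Z := the holes}`,
a face `(a,b,c,t)` of the Dis which is no `F i` gives the hole `⟨c,t,a,b⟩` (yL = c, yR = t, xU = a, xD = b) if it is a WA and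
`⟨t,c,b,a⟩` if it is a WB.  `adjH`, `adjV` follow from CleanF: e.g. `z.yR = w.yL = m`: `hlo m = z.x1`, `hhi m = w.x2`; suppose
`w.x1 ≤ z.x2`.  One of `z.x2`, `z.xU`/`z.xD`, `w.xU`/`w.xD` has an end on `m` in an open side of `z` or `w`, or a vertical piece has both ends
on `m`.  `Fit D' ∅ (bx s)` via `tb (s i) ↦` the box of `F i` (the seeds have distinct coordinates, so `i` is determined
by `tb (s i)`); `F i` is not a hole by definition of the holes. -/
def StRootS : Prop := ∀ (n : ℕ) (s : Fin n → IBox), 0 < n → Seeds n s →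
  ∃ D : Cfg, Ok D ∧ D.box = ⟨0, 2 * n + 1, 0, 2 * n + 1⟩ ∧ Fit D ∅ (bx s) ∧ D.sz + 1 ≤ n + D.Z.card

/-- StIntS.  The integral form of the theorem.  StRootS gives `D`, `sz + 1 ≤ n + h` (`h = |Z|`); all
members of `bx s` meet the box and `(bx s).card = n` (Seeds), so `cnt = n`; StMain: `k ≤ n + F - G/7`; StGlow: `F ≤ sz`,
`13 h ≤ G + 6 sz`.  So `7 k ≤ 7 n + 7 sz + 6 sz - 13 h ≤ 7 n + 13 (n - 1)`. -/
def StIntS : Prop := ∀ (n : ℕ) (s : Fin n → IBox), 0 < n → Seeds n s →
  ∃ k : ℕ, Bsp (bx s) ⟨0, 2 * n + 1, 0, 2 * n + 1⟩ k ∧ 7 * k + 13 ≤ 20 * n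

/-- StICost.  Induction on `Bsp`.  Leaf: `c = 0`.  A cut: `cnt left + cnt right = cnt + #cut`, and the number of indices
`i` with `s i` cut is the number of members of `bx s` cut (`i ↦ tb (s i)` is injective). -/
def StICost : Prop := ∀ (n : ℕ) (s : Fin n → IBox), Seeds n s → ∀ (K : IBox) (k : ℕ), Bsp (bx s) (tb K) k →
  ∃ c : ℕ, ICost s K c ∧ cnt (bx s) (tb K) + c ≤ k

/-- StPrune.  Induction on `T`.  First: the number of `R ∈ S` meeting `C` is `≤ size S T C` (if `R` meets `C` then it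
meets `C ∩ {p.1 ≤ c}` or `C ∩ {c ≤ p.1}`: the open nonempty set `int R ∩ int C` contains a point with `p.1 ≠ c`, say `p.1 < c`; then `p`
is in the interior of `C ∩ {p.1 ≤ c}`).  If at most one element of `S` meets `C` take the leaf, otherwise prune both
subtrees. -/
def StPrune : Prop := ∀ (S : Finset Rect) (T : Tree) (C : Set (ℝ × ℝ)), IsBSP S T C →
  ∃ T' : Tree, IsBSP S T' C ∧ Strict S T' C ∧ size S T' C ≤ size S T C

/-- StReal.  The theorem: `Pool.Agent.Helper4.BSPT.transfer`, StIntS, StICost (for `K = ⟨0, 2n+1, 0, 2n+1⟩`), StPrune. -/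
def StReal : Prop := ∀ S : Finset Rect, S.Nonempty → (S : Set Rect).PairwiseDisjoint Rect.toSet →
  ∃ T : Tree, IsBSP S T Set.univ ∧ Strict S T Set.univ ∧ 7 * size S T Set.univ + 13 ≤ 20 * S.card

end Pool.RB
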